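import Pool.Agent.Work.MP_ede3c6_co.X.Par

/-! The colour classes of a caterpillar in the cube. -/

set_option autoImplicit false

namespace Pool.Agent.Work.MP_ede3c6_co.Y

open Finset Vol

theorem par_card {n : ℕ} (hn : 1 ≤ n) (c : ZMod 2) :
    2 * #{z : V (Fin n) | par z = c} ≤ 2 ^ n := by
  have h : #{z : V (Fin n) | par z = c} ≤ #{z : V (Fin n) | ¬ par z = c} :=
    card_le_card_of_injOn (· + e ⟨0, hn⟩) (fun z hz => by
      simp only [coe_filter, mem_univ, true_and, Set.mem_ofPred_eq] at hz ⊢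
      rw [par_add, par_e, hz]
      simp) fun z _ w _ q => add_right_cancel q
  have := card_filter_add_card_filter_not (s := (univ : Finset (V (Fin n)))) (fun z => par z = c)
  rw [card_univ, Fintype.card_fun, ZMod.card, Fintype.card_fin] at this
  omega

theorem cls_le {k n : ℕ} {a : ℕ → ℕ} (hn : 1 ≤ n) (h : (cat k a).IsContained (cube n)) {π : ℕ}
    (hπ : π < 2) : 2 * X.cls k a π ≤ 2 ^ n := by
  obtain ⟨x, y, h1, h2, h3, h4, h5⟩ := (contained_iff k a n).1 h
  have st : ∀ {u v : V (Fin n)}, hammingDist u v = 1 → par v = par u + 1 := fun {u v} q => by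
    obtain ⟨c, rfl⟩ := (hd_one_iff _ _).1 q
    exact (par_add _ _).trans (congrArg _ (par_e c))
  have px : ∀ i < k, par (x i) = par (x 0) + i := fun i hi => by
    induction i with
    | zero => simp
    | succ i ih => rw [st (h4 i hi), ih (by omega), Nat.cast_succ, add_assoc]
  refine le_trans (Nat.mul_le_mul_left 2 ?_) (par_card hn (par (x 0) + π))
  have e1 : X.cls k a π =
      #((range k).sigma fun i => range (if i % 2 = π then 1 else a i)) := by
    simp [X.cls, card_sigma]
  rw [e1]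
  refine card_le_card_of_injOn (fun s => if s.1 % 2 = π then x s.1 else y s.1 s.2)
    (fun s hs => ?_) fun s hs t ht q => ?_
  · obtain ⟨a1, a2⟩ := mem_sigma.1 (mem_coe.1 hs)
    rw [mem_range] at a1 a2
    simp only [coe_filter, mem_univ, true_and, Set.mem_ofPred_eq]
    split_ifs at a2 ⊢ with c
    · rw [px _ a1, ← c, ZMod.natCast_mod]
    · rw [st (h5 _ _ a1 a2), px _ a1, add_assoc, ← Nat.cast_succ, ← ZMod.natCast_mod (s.1 + 1),
        show (s.1 + 1) % 2 = π by omega]
  · obtain ⟨i, l⟩ := s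
    obtain ⟨j, m⟩ := t
    obtain ⟨a1, a2⟩ := mem_sigma.1 (mem_coe.1 hs)
    obtain ⟨b1, b2⟩ := mem_sigma.1 (mem_coe.1 ht)
    simp only [mem_range] at a1 a2 b1 b2 q
    split_ifs at a2 b2 q with c d d
    · obtain rfl := h1 i j a1 b1 q
      rw [show l = m by omega]
    · exact absurd q (h2 i j m a1 b1 b2)
    · exact absurd q.symm (h2 j i l b1 a1 a2)
    · obtain ⟨rfl, rfl⟩ := h3 i j l m a1 b1 a2 b2 q
      rfl

theorem run_mono {k n n' : ℕ} {a : ℕ → ℕ} (h : Run k a n) (hn : n ≤ n') : Run k a n' :=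
  fun i j q => (h i j q).trans (Nat.mul_le_mul_left _ hn)

end Pool.Agent.Work.MP_ede3c6_co.Y
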