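import Pool.Agent.Work.MP_ede3c6_co.Y.Dich
import Pool.Agent.Work.MP_ede3c6_co.V.C1

-- merged part: Pool.Agent.Work.MP_ede3c6_co.Y.Lay0
section
/-! Facts about addresses of nodes that do not involve the directions.

PLAN. `l0`: let `x`, `y` be the classes of the two nodes; `nd1` gives equal zones and parities.
If both are small, or both are not small, `inj` (with `r = r' = 0`) gives `x = y` and then `au`
applies. If only one is small, its layer is neither `0` nor `1` (`nd2`, `pf = 0` for `sg`), while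
the layer of the other one is `us • 1` (`nd3`). `nbs`: the map from used bases to the seven
components of the entry node (`np _ .s` always holds) is injective by `l0`. `nlf`: the map
`(y, r) ↦ (rz y r, pr y + 1)` is injective by `inj`. -/

set_option autoImplicit false

namespace Pool.Agent.Work.MP_ede3c6_co.Y

open Finset Vol

namespace Net
variable {p : Pm} {η : ℝ} {I : Inn p η} {k : ℕ} {a : ℕ → ℕ} (N : Net p I k a)

theorem lay0_pf {C : Type} (o : Pos) : pf (Kd.sg : Kd C) o = 0 := by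
  cases o <;> rfl

theorem lay0_two : ∀ x : ZMod 2, x = 0 ∨ x = 1 := by decide

theorem lay0_np {C : Type} (κ : Kd C) : np κ .s := by
  cases κ
  exacts [rfl, Or.inl rfl, Or.inl rfl, trivial, Or.inl rfl]

theorem lay0_cnt {α β : Type} [Fintype β] (S : Set α) (f : α → β) (h : Set.InjOn f S) :
    ∃ B : Finset α, B.card ≤ Fintype.card β ∧ ∀ b, b ∈ B ↔ b ∈ S := by
  have hS : S.Finite := Set.Finite.of_finite_image (Set.toFinite _) h
  refine ⟨hS.toFinset, ?_, fun b => hS.mem_toFinset⟩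
  exact card_le_card_of_injOn f (fun _ _ => mem_coe.2 (mem_univ _)) (by rwa [hS.coe_toFinset])

theorem l0 {u u' : N.Un} {o o' : Pos} (hu : N.val u) (hu' : N.val u')
    (ho : np (N.kd (N.bas u)) o) (ho' : np (N.kd (N.bas u')) o')
    (h1 : N.rz (N.cl (N.bas u) 0) 0 = N.rz (N.cl (N.bas u') 0) 0)
    (h2 : N.bz (N.bas u) + zo (N.kd (N.bas u)) o = N.bz (N.bas u') + zo (N.kd (N.bas u')) o')
    (h3 : N.bu (N.bas u) + pf (N.kd (N.bas u)) o • (1 : V (Fin p.t)) =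
      N.bu (N.bas u') + pf (N.kd (N.bas u')) o' • 1)
    (h4 : N.bc (N.bas u) + pf (N.kd (N.bas u)) o • e I.i0 =
      N.bc (N.bas u') + pf (N.kd (N.bas u')) o' • e I.i0)
    (h5 : N.bg (N.bas u) = N.bg (N.bas u')) (h6 : N.bm (N.bas u) = N.bm (N.bas u'))
    (h7 : N.pr (N.cl (N.bas u) 0) + par (N.kd (N.bas u)) o =
      N.pr (N.cl (N.bas u') 0) + par (N.kd (N.bas u')) o') : N.bas u = N.bas u' ∧ o = o' := by
  obtain ⟨a1, a2, a3, -⟩ := N.nd1 u hu o ho
  obtain ⟨b1, b2, b3, -⟩ := N.nd1 u' hu' o' ho'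
  have hz := a3.trans (h1.trans b3.symm)
  have hp := a2.trans (h7.trans b2.symm)
  have hsg : ∀ v q, N.val v → np (N.kd (N.bas v)) q →
      N.sm (N.cl (N.bas v) (par (N.kd (N.bas v)) q)) →
      N.bu (N.bas v) + pf (N.kd (N.bas v)) q • (1 : V (Fin p.t)) = N.bu (N.bas v) := by
    intro v q hv hq hs
    rw [(N.nd2 v hv q hq hs).1, lay0_pf, zero_smul, add_zero]
  have mix : ∀ v v' q q', N.val v → N.val v' → np (N.kd (N.bas v)) q → np (N.kd (N.bas v')) q' →
      N.bu (N.bas v) + pf (N.kd (N.bas v)) q • (1 : V (Fin p.t)) =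
        N.bu (N.bas v') + pf (N.kd (N.bas v')) q' • 1 →
      N.sm (N.cl (N.bas v) (par (N.kd (N.bas v)) q)) →
      N.sm (N.cl (N.bas v') (par (N.kd (N.bas v')) q')) := by
    intro v v' q q' hv hv' hq hq' e hs
    by_contra hn
    obtain ⟨-, c1, c2, -⟩ := N.nd2 v hv q hq hs
    rw [hsg v q hv hq hs, (N.nd3 v' hv' q' hq' hn).1] at e
    rcases lay0_two (N.us (N.cl (N.bas v') (par (N.kd (N.bas v')) q'))) with c | c
    · rw [c, zero_smul] at e
      exact c1 e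
    · rw [c, one_smul] at e
      exact c2 e
  have hc : N.cl (N.bas u) (par (N.kd (N.bas u)) o) =
      N.cl (N.bas u') (par (N.kd (N.bas u')) o') := by
    by_cases hs : N.sm (N.cl (N.bas u) (par (N.kd (N.bas u)) o))
    · have hs' := mix u u' o o' hu hu' ho ho' h3 hs
      exact (N.inj _ _ 0 0 a1 b1 (Or.inl rfl) (Or.inl rfl) hz _ (fun _ => rfl)
        (fun h => (h ⟨hs, rfl⟩).elim) (fun _ => hp.symm) fun h => (h ⟨hs', rfl⟩).elim).1
    · have hs' := fun h => hs (mix u' u o' o hu' hu ho' ho h3.symm h)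
      exact (N.inj _ _ 0 0 a1 b1 (Or.inl rfl) (Or.inl rfl) hz _ (fun h => (hs h.1).elim)
        (fun _ => rfl) (fun h => (hs' h.1).elim) fun _ => by rw [hp]).1
  refine N.au u u' hu hu' o o' ho ho' hc h2 h4 h5 fun hs => ⟨?_, h6⟩
  rw [← hsg u o hu ho hs, h3, hsg u' o' hu' ho' (hc ▸ hs)]

theorem nbs : ∃ B : Finset N.Bs, B.card ≤ p.nBs ∧ ∀ b, b ∈ B ↔ N.used b := by
  obtain ⟨B, h1, h2⟩ := lay0_cnt {b | N.used b} (fun b =>
    (N.rz (N.cl b 0) 0, N.bz b + zo (N.kd b) .s, N.bu b + pf (N.kd b) .s • (1 : V (Fin p.t)),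
      N.bc b + pf (N.kd b) .s • e I.i0, N.bg b, N.bm b, N.pr (N.cl b 0) + par (N.kd b) .s)) (by
    rintro _ ⟨u, hu, rfl⟩ _ ⟨u', hu', rfl⟩ h
    simp only [Prod.mk.injEq] at h
    obtain ⟨h1, h2, h3, h4, h5, h6, h7⟩ := h
    exact (N.l0 hu hu' (lay0_np _) (lay0_np _) h1 h2 h3 h4 h5 h6 h7).1)
  refine ⟨B, h1.trans (le_of_eq ?_), h2⟩
  simp only [Fintype.card_prod, Fintype.card_fun, ZMod.card, Fintype.card_fin, Pm.nBs]
  ring

theorem nlf : ∃ B : Finset (N.Cl × ℕ), B.card ≤ 2 * p.nA ∧ ∀ y, y ∈ B ↔ N.InS (.lf y) := by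
  obtain ⟨B, h1, h2⟩ := lay0_cnt {y : N.Cl × ℕ | N.InS (.lf y)}
    (fun y => (N.rz y.1 y.2, N.pr y.1 + 1)) (by
    rintro ⟨x, r⟩ ⟨a1, a2, a3, a4⟩ ⟨y, r'⟩ ⟨b1, b2, b3, b4⟩ h
    simp only [Prod.mk.injEq] at h a3 b3
    have h1 := N.inj x y r r' a1 b1 (Or.inr ⟨a2, a4⟩) (Or.inr ⟨b2, b4⟩) h.1 _
      (fun h => by omega) (fun _ => rfl) (fun h => by omega) fun _ => h.2.symm
    exact Prod.ext h1.1 h1.2)
  refine ⟨B, h1.trans (le_of_eq ?_), h2⟩
  simp only [Fintype.card_prod, Fintype.card_fun, ZMod.card, Fintype.card_fin, Pm.nA]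
  ring

end Net

end Pool.Agent.Work.MP_ede3c6_co.Y
end

-- merged part: Pool.Agent.Work.MP_ede3c6_co.Y.Lay
section
/-! Facts at the level of labels.

A label has the components zone, corner, layer `u`, codeword, low bits, middle bits `μ`, high bits
`ν`, parity. PLAN. First: for `h` in use, `lamS La h` has `μ = 0` (`nf`), `u ≠ 1` (`nf`; `pf` of an
exit position is `0`; `0 ≠ 1` by `ok.t2`), parity `1` (`lp`) and `ν = La (fD h)`; a fat direction
in use has `u ≠ 0` and (`μ ≠ 0` or `u = 1`) (`f1`). Build `F : Fr` from `N` with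
`top b := N.used b ∧ N.top b`, `nz b := N.kd b = .sg ∧ N.bu b ≠ 0`, `fin := p.fin` (`fin5`); its
`fN`, `fD`, `Det` are those of `N`. A top node has a class with `fu` (`nd4`), so `bm = 0`, `cp = 0`
(`cp0`), `us = 0`, `bu = 0`, `bg = 0` (`Sup _ 0 0`). `lam_inj`: `g1` and `frinj`.
Resources: a node of a small class `x` lies in the resource `(x, 0)` of parity `pr x`; a leaf place
of a small class `y` lies in `(y, m + 1)`, a leaf place of another class `y` (and every fat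
neighbour of a node of `y`) lies in `(y, 0)`, of parity `pr y + 1`; use `inj`.
`p1`: fat `c`: the class `y` of the second node is small (`inj` gives `x = y`, absurd) or has
`us y = 1` (`pair`). Special `c`: `μ` gives `bm = 0`, so `cp = 0`, then `g2` and `fr1`; `zn` holds
as `u ≠ 1` (`nd2`, `nd3`, `pre0`). `p2`: two fat directions: same class, `I.code`, `au`, so the same
node and `lam_inj`; fat and special: compare `u`, `μ`; two special: `g3`, `fr2`.
`p3`: fat `c`: `inj` gives the same class, then as in `p2` the same base. Special `c`: `μ`, `u`.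
`p4`: same class; small: same direction and `l1`; full: `code`, `au`, `fe2`; else `code` (add
`us • e i0`), supports of the low bits, `au`, supports of the high bits, `en1`, `en2`.
`p5`: small class of the node: `inj`; else its layer is `us • 1`; use `pair` in the full case. -/

set_option autoImplicit false

namespace Pool.Agent.Work.MP_ede3c6_co.Y

open Finset Vol

namespace Dirs
variable {p : Pm} {η : ℝ} {I : Inn p η} {k : ℕ} {a : ℕ → ℕ} {N : Net p I k a} (D : Dirs N)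

theorem raw_sd {h : N.Sd} (hh : N.InS h) : D.raw (D.sd h) = .inr h := D.rdr (.inr h) hh

theorem raw_fd {d : p.FD} (hd : D.inF d) : D.raw (D.fd d) = .inl d := D.rdr (.inl d) hd

theorem Lay_two {ι : Type} : (2 : V ι) = 0 := funext fun _ => rfl

theorem Lay_01 (ok : p.Ok) : (0 : V (Fin p.t)) ≠ 1 := fun h =>
  absurd (congrFun h ⟨0, lt_of_lt_of_le two_pos ok.t2⟩) (zero_ne_one (α := ZMod 2))

theorem Lay_e {ι : Type} [DecidableEq ι] {i j : ι} (h : (e i : V ι) = e j) : i = j := by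
  by_contra hn
  have := congrFun h i
  simp [e, hn] at this

theorem Lay_z2 : ∀ s : ZMod 2, s = 0 ∨ s = 1 := by decide

theorem Lay_sm {ι : Type} {s t : ZMod 2} {w : V ι} (h : s • (1 : V ι) + w = t • 1) :
    w = 0 ∨ w = 1 := by
  rcases Lay_z2 s with rfl | rfl <;> rcases Lay_z2 t with rfl | rfl <;>
    simp only [zero_smul, one_smul] at h
  · exact Or.inl (by linear_combination h)
  · exact Or.inr (by linear_combination h)
  · exact Or.inr (by linear_combination h - (Lay_two : (2 : V ι) = 0))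
  · exact Or.inl (by linear_combination h)

theorem Lay_sup {n c w : ℕ} {x x' y y' : V (Fin n)} (hx : Sup x 0 c) (hx' : Sup x' 0 c)
    (hy : Sup y c w) (hy' : Sup y' c w) (h : x + y = x' + y') : x = x' := by
  funext i
  by_cases hi : (i : ℕ) < c
  · have := congrFun h i
    rwa [Pi.add_apply, Pi.add_apply, hy i (Or.inl hi), hy' i (Or.inl hi), add_zero, add_zero] at this
  · rw [hx i (Or.inr (not_lt.1 hi)), hx' i (Or.inr (not_lt.1 hi))]

theorem Lay_pfx {C : Type} (κ : Kd C) : pf κ (ex κ) = 0 := by cases κ <;> rfl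

theorem Lay_ps {C : Type} (κ : Kd C) : par κ .s = 0 := by cases κ <;> rfl

theorem Lay_nps {C : Type} (κ : Kd C) : np κ .s := by cases κ <;> simp [np]

theorem Lay_nl0 (u : N.Un) (o : Pos) : D.nl u o = (N.rz (N.cl (N.bas u) 0) 0,
    N.bz (N.bas u) + zo (N.kd (N.bas u)) o, N.bu (N.bas u) + pf (N.kd (N.bas u)) o • 1,
    N.bc (N.bas u) + pf (N.kd (N.bas u)) o • e I.i0, N.bg (N.bas u), N.bm (N.bas u),
    D.La (N.fN (N.bas u) o) + N.cp u, N.pr (N.cl (N.bas u) 0) + par (N.kd (N.bas u)) o) := by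
  simp only [nl, Net.lab, Pm.hi, Prod.mk_add_mk, add_zero]

theorem Lay_nl {u : N.Un} {o : Pos} (hu : N.val u) (ho : np (N.kd (N.bas u)) o) :
    D.nl u o = (N.rz (N.nc (N.bas u) o) 0,
    N.bz (N.bas u) + zo (N.kd (N.bas u)) o, N.bu (N.bas u) + pf (N.kd (N.bas u)) o • 1,
    N.bc (N.bas u) + pf (N.kd (N.bas u)) o • e I.i0, N.bg (N.bas u), N.bm (N.bas u),
    D.La (N.fN (N.bas u) o) + N.cp u, N.pr (N.nc (N.bas u) o)) := by
  obtain ⟨-, h1, h2, -⟩ := N.nd1 u hu o ho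
  rw [Lay_nl0, Net.nc, h1, h2]

theorem Lay_sd {h : N.Sd} (hh : N.InS h) : D.lam (D.sd h) = N.lamS D.La h := by
  rw [lam, raw_sd D hh]; rfl

theorem Lay_fd {d : p.FD} (hd : D.inF d) : D.lam (D.fd d) = p.lamF d := by
  rw [lam, raw_fd D hd]; rfl

theorem Lay_S (ok : p.Ok) {z : N.Sd} (hz : N.InS z) : ∃ z1 z2 z3 z4 z5,
    N.lamS D.La z = (z1, z2, z3, z4, z5, 0, D.La (N.fD z), 1) ∧ z3 ≠ 1 := by
  cases z with
  | pr b b' =>
    obtain ⟨u, hu, hu', hf, rfl, rfl⟩ := hz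
    obtain ⟨-, h1, h2⟩ := N.nf u hu hu' hf
    refine ⟨_, _, _, _, _, Prod.ext rfl (Prod.ext rfl (Prod.ext ?_ (Prod.ext rfl (Prod.ext rfl
      (Prod.ext ?_ (Prod.ext (map_add D.La _ _).symm ?_)))))), h2⟩
    · simp only [Net.lamS, Net.lab, Prod.mk_add_mk, Lay_pfx, zero_smul, add_zero]
    · simp only [Net.lamS, Net.lab, Prod.mk_add_mk, h1]
      linear_combination N.bm (N.bas u) * (Lay_two : (2 : V (Fin p.l0)) = 0)
    · simp only [Net.lamS, Net.lab, Prod.mk_add_mk, Lay_ps, N.lp u hu hu']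
      linear_combination (N.pr (N.cl (N.bas u) 0) + par (N.kd (N.bas u)) (ex _)) * fr_z2
  | _ => exact ⟨_, _, _, _, _, rfl, Lay_01 ok⟩

theorem Lay_dir (ok : p.Ok) (c : Fin p.n) : (∃ d, D.inF d ∧ c = D.fd d ∧ D.lam c = p.lamF d) ∨
    ∃ z z1 z2 z3 z4 z5, N.InS z ∧ c = D.sd z ∧
      D.lam c = (z1, z2, z3, z4, z5, 0, D.La (N.fD z), 1) ∧ z3 ≠ 1 := by
  have h := D.rin c
  rcases hc : D.raw c with d | z <;> rw [hc] at h
  · have e1 : c = D.fd d := D.rinj (hc.trans (raw_fd D h).symm)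
    exact Or.inl ⟨d, h, e1, e1 ▸ Lay_fd D h⟩
  · have e1 : c = D.sd z := D.rinj (hc.trans (raw_sd D h).symm)
    obtain ⟨z1, z2, z3, z4, z5, h1, h2⟩ := Lay_S D ok h
    exact Or.inr ⟨z, z1, z2, z3, z4, z5, h, e1, e1 ▸ (Lay_sd D h).trans h1, h2⟩

theorem Lay_fu {u : N.Un} {o : Pos} (hu : N.val u) (ho : np (N.kd (N.bas u)) o)
    (hf : N.fu (N.nc (N.bas u) o)) : ¬ N.sm (N.nc (N.bas u) o) ∧ N.bm (N.bas u) = 0 ∧ N.cp u = 0 ∧
      N.bu (N.bas u) + pf (N.kd (N.bas u)) o • 1 = 0 ∧ N.bg (N.bas u) = 0 ∧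
      N.bc (N.bas u) + pf (N.kd (N.bas u)) o • e I.i0 ∈ I.Cd p.mu := by
  obtain ⟨h1, h2, h3, h4, -⟩ := N.fu1 _ (N.nd1 u hu o ho).1 hf
  obtain ⟨h5, h6, h7⟩ := N.nd3 u hu o ho h1
  have h8 := (N.nd4 u hu o ho).2 hf
  rw [h2, zero_smul] at h5
  rw [h2, h3, zero_smul, add_zero] at h6
  rw [h4] at h7
  exact ⟨h1, h8, N.cp0 u hu h8, h5, funext fun i => h7 i (Or.inr (Nat.zero_le _)), h6⟩

/-- the graph of bases -/
def Lay_F (N : Net p I k a) : Fr N.Bs p.Ctl (N.Cl × ℕ) where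
  kd := N.kd
  top b := N.used b ∧ N.top b
  nz b := N.kd b = .sg ∧ N.bu b ≠ 0
  uo := N.uo
  ui := N.ui
  Ed := N.Ed
  fin := p.fin
  h5 := p.fin5
  r0 := by
    rintro _ _ ⟨u, hu, hu', -, rfl, rfl⟩
    exact N.r0 u hu hu'
  r5 := by
    rintro _ _ ⟨u, hu, hu', -, rfl, rfl⟩ ⟨v, hv, hv', -, h1, h2⟩
    exact N.r5 u v hu hv hu' hv' h1.symm h2
  r1 := by
    rintro _ _ ⟨u, hu, hu', -, rfl, rfl⟩ h
    exact N.r1 u hu hu' (h.imp And.right And.right)
  r2 := by
    rintro _ _ _ ⟨u, hu, hu', -, rfl, h1⟩ ⟨v, hv, hv', -, rfl, rfl⟩ h2 h3 h4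
    exact N.r2 u v hu hv hu' hv' h1 h2.2 h3.2 h4
  r3 := by
    rintro _ _ c ⟨u, hu, hu', -, rfl, rfl⟩ h1 h2
    exact N.r3 u c hu hu' h1.2 h2
  r4 := by
    rintro _ _ c ⟨u, hu, hu', -, rfl, rfl⟩ - h2
    exact N.r4 u c hu hu' h2
  r6 := by
    rintro _ _ ⟨u, hu, hu', hf, rfl, rfl⟩ h
    refine ⟨N.r6 u hu hu' h, fun h0 => (N.nf u hu hu' hf).2.2 ?_⟩
    rw [h0, (N.pre0 _ h).1, h, zero_add, zero_add]
    exact one_smul _ _
  r7 := N.r7
  tz := by
    rintro _ ⟨⟨u, hu, rfl⟩, h⟩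
    refine ⟨fun h1 => h1.2 ?_, fun h1 => (N.pre0 _ h1).2 h⟩
    have := (Lay_fu hu (Lay_nps _) ((N.nd4 u hu _ (Lay_nps _)).1 h)).2.2.2.1
    rwa [h1.1, show pf (Kd.sg : Kd p.Ctl) .s = 0 from rfl, zero_smul, add_zero] at this
  uo1 := by
    rintro _ _ _ h ⟨u, hu, hu', -, rfl, rfl⟩ ⟨v, hv, hv', -, h1, rfl⟩
    exact N.huo u v hu hv hu' hv' h1.symm h
  ui1 := by
    rintro _ _ _ h ⟨u, hu, hu', -, rfl, rfl⟩ ⟨v, hv, hv', -, rfl, h1⟩
    exact N.hui u v hu hv hu' hv' h1.symm h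

theorem Lay_fD (z : N.Sd) : (Lay_F N).fD z = N.fD z := by cases z <;> rfl

theorem Lay_InA {z : N.Sd} (hz : N.InS z) : (Lay_F N).InA z := by
  cases z <;> first | exact hz | trivial

theorem lam_par (ok : p.Ok) (h : Fin p.n) : (D.lam h).2.2.2.2.2.2.2 = 1 := by
  rcases Lay_dir D ok h with ⟨d, -, -, h1⟩ | ⟨z, _, _, _, _, _, -, -, h1, -⟩ <;> rw [h1]
  rfl

theorem lam_inj (ok : p.Ok) : Function.Injective D.lam := by
  intro c d h
  rcases Lay_dir D ok c with ⟨x, hx, rfl, h1⟩ | ⟨x, _, _, _, _, _, hx, rfl, h1, h3⟩ <;>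
    rcases Lay_dir D ok d with ⟨y, hy, rfl, h2⟩ | ⟨y, _, _, _, _, _, hy, rfl, h2, h4⟩ <;>
    rw [h1, h2] at h <;> simp only [Pm.lamF, Prod.mk.injEq] at h
  · obtain ⟨-, -, a1, a2, a3, a4, a5, -⟩ := h
    rw [show x = y from Prod.ext a1 (Prod.ext (Lay_e a2) (Prod.ext a3 (Prod.ext a4 a5)))]
  · exact ((D.f1 x hx).2.elim (· h.2.2.2.2.2.1) fun h5 => h4 (h.2.2.1.symm.trans h5)).elim
  · exact ((D.f1 y hy).2.elim (· h.2.2.2.2.2.1.symm) fun h5 => h3 (h.2.2.1.trans h5)).elim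
  · have h5 := D.g1 x y hx hy (by
      rw [map_add, h.2.2.2.2.2.2.1, ← two_mul, Lay_two, zero_mul])
    rw [(Lay_F N).frinj (Lay_InA hx) (Lay_InA hy) (by rwa [Lay_fD, Lay_fD])]

theorem lam_ct (c : p.Ctl) : D.lam (D.sd (.ct c)) = (0, 0, 0, 0, 0, 0, D.La (fc c), 1) := by
  exact Lay_sd D (h := .ct c) trivial

theorem Lay_f0 (ok : p.Ok) (x : V (Fin p.w0)) (y : V (Fin p.l0)) (z : V (Fin p.kR)) :
    D.inF (1, I.i0, x, y, z) :=
  D.f2 _ (Lay_01 ok).symm (Or.inr rfl) (by have := ok.mu3; have := I.i00; dsimp only; omega)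

theorem Lay_step {u : N.Un} {κ : Kd p.Ctl} (hκ : N.kd (N.bas u) = κ) {o o' : Pos} {w : V (Fin 2)}
    {v : N.Fv} (h1 : zo κ o' = zo κ o + w) (h2 : pf κ o' = pf κ o)
    (h3 : off p.fin (N.bas u) κ o' = off p.fin (N.bas u) κ o + v) (h4 : par κ o' = par κ o + 1) :
    D.nl u o' = D.nl u o + (0, w, 0, 0, 0, 0, D.La v, 1) := by
  simp only [Lay_nl0, Net.fN, hκ, h1, h2, h3, h4, Prod.mk_add_mk, add_zero, map_add, add_assoc,
    add_comm (D.La v)]

theorem st_in (ok : p.Ok) {u : N.Un} (hu : N.val u) (hk : N.kd (N.bas u) ≠ .gad) (ξ : ZMod 2)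
    (g : Fin D.G) {t : ℕ} (ht : t + 1 < len p.T (N.kd (N.bas u))) :
    D.nl u (ps (N.kd (N.bas u)) ξ (t + 1)) =
      D.nl u (ps (N.kd (N.bas u)) ξ t) + D.lam (D.inn (N.bas u) ξ g t) := by
  have us : N.used (N.bas u) := ⟨u, hu, rfl⟩
  have s1 := Lay_sd D (h := .d1 (N.bas u)) us
  have s2 := Lay_sd D (h := .d2 (N.bas u)) us
  have s3 := fun c => Lay_sd D (h := .ct c) trivial
  have s4 := fun c i => Lay_sd D (h := .cm c i) trivial
  cases hκ : N.kd (N.bas u) with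
  | sg => simp [hκ, len] at ht
  | gad => exact absurd hκ hk
  | two =>
    obtain rfl : t = 0 := by simp only [hκ, len] at ht; omega
    simp only [inn, hκ, s1]
    exact Lay_step D hκ (zero_add _).symm rfl (zero_add _).symm (zero_add _).symm
  | pre =>
    obtain rfl : t = 0 := by simp only [hκ, len] at ht; omega
    simp only [inn, hκ]
    rw [Lay_fd D (Lay_f0 D ok _ _ _), Lay_nl0, Lay_nl0]
    simp only [Net.fN, hκ, Pm.lamF, Prod.mk_add_mk, add_zero, fr_off_pre]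
    refine Prod.ext rfl (Prod.ext rfl (Prod.ext ?_ (Prod.ext ?_ (Prod.ext rfl (Prod.ext rfl
      (Prod.ext rfl ?_))))))
    · change _ + (0 : ZMod 2) • _ = _ + (1 : ZMod 2) • _ + 1
      rw [zero_smul, one_smul]
      linear_combination -(Lay_two : (2 : V (Fin p.t)) = 0)
    · change _ + (0 : ZMod 2) • _ = _ + (1 : ZMod 2) • _ + _
      rw [zero_smul, one_smul]
      linear_combination -(e I.i0) * (Lay_two : (2 : V (Fin p.mu)) = 0)
    · change _ + (1 : ZMod 2) = _ + (0 : ZMod 2) + 1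
      rw [add_zero]
  | oc c =>
    have h4 : t < 4 := by simp only [hκ, len] at ht; omega
    by_cases hξ : ξ = 1 <;> interval_cases t <;>
      simp only [inn, hκ, ps, hξ, s1, s2, s3, s4, if_true, if_false, Nat.reduceAdd,
        Nat.reduceEqDiff, OfNat.ofNat_ne_zero, one_ne_zero, OfNat.ofNat_ne_one] <;>
      refine Lay_step D hκ (by simp only [zo, zero_add, add_zero, add_comm]) rfl ?_ rfl <;>
      simp only [off, zero_add]
    unfold fc
    linear_combination -(ug (.cm c 0) : N.Fv) * fr_two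

theorem Lay_2 : (2 : p.Lab) = 0 :=
  Prod.ext Lay_two (Prod.ext Lay_two (Prod.ext Lay_two (Prod.ext Lay_two (Prod.ext Lay_two
    (Prod.ext Lay_two (Prod.ext Lay_two fr_z2))))))

theorem st_lk (ok : p.Ok) {u : N.Un} (hu : N.val u) (hu' : N.val (N.nxt u)) :
    D.nl (N.nxt u) .s = D.nl u (ex (N.kd (N.bas u))) + D.lam (D.lk u) := by
  unfold lk
  split_ifs with hf
  · obtain ⟨h1, h2, h3, h4, h5, h6⟩ := N.ff u hu hu' hf
    have h7 := N.lp u hu hu'
    rw [Lay_fd D (Lay_f0 D ok _ _ _), Lay_nl0, Lay_nl0, h3, h4, h5, h6, h7, h1, h2]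
    simp only [Pm.lamF, Prod.mk_add_mk, add_zero, ex, zo, pf, par, zero_smul]
    refine Prod.ext rfl (Prod.ext rfl (Prod.ext rfl (Prod.ext rfl (Prod.ext ?_ (Prod.ext ?_
      (Prod.ext ?_ rfl)))))) <;> dsimp only <;> rw [← add_assoc, ← two_mul, Lay_two, zero_mul, zero_add]
  · rw [Lay_sd D (h := .pr _ _) ⟨u, hu, hu', hf, rfl, rfl⟩, nl, nl, (N.nf u hu hu' hf).1, Net.lamS]
    linear_combination -(N.lab D.La (N.bas u) (ex (N.kd (N.bas u)))) * Lay_2

theorem lk_nc (ok : p.Ok) {u : N.Un} (hu : N.val u) (hu' : N.val (N.nxt u)) (c : p.Ctl) :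
    D.lk u ≠ D.sd (.ct c) := by
  intro h
  have h1 := (congrArg D.raw h).trans (raw_sd D (h := .ct c) trivial)
  unfold lk at h1
  split_ifs at h1 with hf
  · rw [raw_fd D (Lay_f0 D ok _ _ _)] at h1
    cases h1
  · rw [raw_sd D (h := .pr _ _) ⟨u, hu, hu', hf, rfl, rfl⟩] at h1
    cases h1

theorem Lay_en {y : N.Cl} (h0 : N.ok y) (h1 : ¬ N.sm y) (h2 : ¬ N.fu y) {m : ℕ} (hm : m < N.ty y) :
    N.io y ≤ p.mu ∧ N.ee y ≤ p.w0 ∧ N.ll y ≤ p.kR ∧ m < p.cap (N.io y) (N.ee y) (N.ll y) := by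
  obtain ⟨a1, a2, a3, a4⟩ := N.big y h0 h1 h2
  exact ⟨by omega, a2, a3, hm.trans_le a4⟩

theorem Lay_ld {u : N.Un} (hu : N.val u) {o : Pos} (ho : np (N.kd (N.bas u)) o) {m : ℕ}
    (hm : m < N.ty (N.nc (N.bas u) o)) :
    (N.sm (N.nc (N.bas u) o) ∧ N.InS (.lf (N.nc (N.bas u) o, m + 1)) ∧
      D.ld (N.bas u) o m = D.sd (.lf (N.nc (N.bas u) o, m + 1))) ∨
    (¬ N.sm (N.nc (N.bas u) o) ∧ ∃ d, D.inF d ∧ D.ld (N.bas u) o m = D.fd d ∧
      ((N.fu (N.nc (N.bas u) o) ∧ m < p.thr ∧ d = D.fe m) ∨ (¬ N.fu (N.nc (N.bas u) o) ∧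
        d = I.en (N.io (N.nc (N.bas u) o)) (N.ee (N.nc (N.bas u) o)) (N.ll (N.nc (N.bas u) o))
          (N.bm (N.bas u)) m))) := by
  have h0 : N.ok (N.nc (N.bas u) o) := (N.nd1 u hu o ho).1
  unfold ld
  split_ifs with h1 h2
  · exact Or.inl ⟨h1, ⟨h0, h1, Nat.le_add_left _ _, hm⟩, rfl⟩
  · have h3 := hm.trans_le (N.fu1 _ h0 h2).2.2.2.2.2
    exact Or.inr ⟨h1, _, D.fe1 m h3, rfl, Or.inl ⟨h2, h3, rfl⟩⟩
  · obtain ⟨a1, a2, a3, a4⟩ := Lay_en h0 h1 h2 hm
    obtain ⟨b1, -, b2, -, b3, -⟩ := I.en1 _ a1 _ a2 _ a3 (N.bm (N.bas u)) m a4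
    exact Or.inr ⟨h1, _, D.f2 _ b1 (Or.inl b3) (b2.trans_le (N.big _ h0 h1 h2).1), rfl,
      Or.inr ⟨h2, rfl⟩⟩

theorem ld_nc (ok : p.Ok) {u : N.Un} (hu : N.val u) {o : Pos} (ho : np (N.kd (N.bas u)) o) {m : ℕ}
    (hm : m < N.ty (N.nc (N.bas u) o)) (c : p.Ctl) : D.ld (N.bas u) o m ≠ D.sd (.ct c) := by
  intro h
  have h1 := (congrArg D.raw h).trans (raw_sd D (h := .ct c) trivial)
  rcases Lay_ld D hu ho hm with ⟨-, h2, h3⟩ | ⟨-, d, h2, h3, -⟩
  · rw [h3, raw_sd D h2] at h1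
    cases h1
  · rw [h3, raw_fd D h2] at h1
    cases h1

theorem l1 {u u' : N.Un} {o o' : Pos} (hu : N.val u) (hu' : N.val u')
    (ho : np (N.kd (N.bas u)) o) (ho' : np (N.kd (N.bas u')) o') (h : D.nl u o = D.nl u' o') :
    N.bas u = N.bas u' ∧ o = o' ∧ N.cp u = N.cp u' := by
  simp only [Lay_nl0, Prod.mk.injEq] at h
  obtain ⟨h1, h2, h3, h4, h5, h6, h7, h8⟩ := h
  obtain ⟨e1, rfl⟩ := N.l0 hu hu' ho ho' h1 h2 h3 h4 h5 h6 h8
  rw [e1] at h7
  exact ⟨e1, rfl, add_left_cancel h7⟩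

theorem p1 (ok : p.Ok) {u u' : N.Un} {o o' : Pos} (hu : N.val u) (hu' : N.val u')
    (ho : np (N.kd (N.bas u)) o) (ho' : np (N.kd (N.bas u')) o') (ht : N.top (N.bas u))
    {c : Fin p.n} (h : D.nl u' o' = D.nl u o + D.lam c) :
    ∃ z, c = D.sd z ∧ (N.Det (N.bas u) o z ∨ N.Det (N.bas u') o' z) := by
  have hf : N.fu (N.nc (N.bas u) o) := (N.nd4 u hu o ho).1 ht
  obtain ⟨a1, a2, a3, a4, -⟩ := Lay_fu hu ho hf
  have k1 : N.ok (N.nc (N.bas u) o) := (N.nd1 u hu o ho).1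
  have k2 : N.ok (N.nc (N.bas u') o') := (N.nd1 u' hu' o' ho').1
  rw [Lay_nl D hu ho, Lay_nl D hu' ho', a2, a3, a4] at h
  rcases Lay_dir D ok c with ⟨d, hd, -, h1⟩ | ⟨z, _, _, _, _, _, hz, rfl, h1, h2⟩ <;>
    simp only [h1, Pm.lamF, Prod.mk_add_mk, Prod.mk.injEq, add_zero, zero_add] at h <;>
    obtain ⟨b1, -, b3, -, -, b6, b7, b8⟩ := h
  · exfalso
    by_cases hs : N.sm (N.nc (N.bas u') o')
    · exact a1 ((N.inj _ _ 0 0 k1 k2 (Or.inl rfl) (Or.inl rfl) b1.symm _ (fun q => absurd q.1 a1)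
        (fun _ => b8.symm) (fun _ => rfl) fun q => absurd ⟨hs, rfl⟩ q).1 ▸ hs)
    · have c1 := (N.nd3 u' hu' o' ho' hs).1
      rcases Lay_z2 (N.us (N.nc (N.bas u') o')) with c2 | c2
      · exact (D.f1 d hd).1 (b3.symm.trans (c1.trans (c2 ▸ zero_smul _ _)))
      · exact N.pair _ _ k2 k1 c2 b1.symm (by linear_combination -b8 - fr_z2) hf
  · rw [N.cp0 u' hu' b6, add_zero] at b7
    have c1 := D.g2 _ _ o o' z ⟨u, hu, rfl⟩ ⟨u', hu', rfl⟩ hz (by
      rw [map_add, map_add, b7]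
      linear_combination (D.La (N.fN (N.bas u) o) + D.La (N.fD z)) * (Lay_two : (2 : V _) = 0))
    refine ⟨z, rfl, (Lay_F N).fr1 ⟨⟨u, hu, rfl⟩, ht⟩ ho ⟨ho', fun q => ?_, fun q => h2 ?_⟩
      (Lay_InA hz) (by rwa [Lay_fD])⟩
    · have c2 := (N.nd3 u' hu' o' ho' fun hs => (N.nd2 u' hu' o' ho' hs).2.2.2 b6).1
      have c3 : pf (N.kd (N.bas u')) o' = 0 := by rw [show N.kd (N.bas u') = .sg from q.1]; rfl
      rw [c3, zero_smul, add_zero] at b3
      conv_lhs at c2 => rw [c3, zero_smul, add_zero]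
      rcases Lay_sm (s := 0) ((congrArg (· + _) (zero_smul _ _)).trans ((zero_add _).trans c2)) with
        c4 | c4
      · exact q.2 c4
      · exact h2 (b3.symm.trans c4)
    · rw [← b3, (N.pre0 _ q.1).1, show N.kd (N.bas u') = .pre from q.1, q.2, zero_add]
      exact one_smul _ _

theorem Lay_ff {u u' : N.Un} {o o' : Pos} (hu : N.val u) (hu' : N.val u')
    (ho : np (N.kd (N.bas u)) o) (ho' : np (N.kd (N.bas u')) o') (hf : N.fu (N.nc (N.bas u) o))
    (hc : N.nc (N.bas u) o = N.nc (N.bas u') o') {d d' : p.FD}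
    (h : D.nl u o + p.lamF d = D.nl u' o' + p.lamF d') :
    N.bas u = N.bas u' ∧ o = o' ∧ D.nl u o = D.nl u' o' := by
  obtain ⟨a1, -, a3, -, a5, a6⟩ := Lay_fu hu ho hf
  obtain ⟨-, -, a3', -, a5', a6'⟩ := Lay_fu hu' ho' (hc ▸ hf)
  simp only [Lay_nl0, Pm.lamF, Prod.mk_add_mk, Prod.mk.injEq, add_zero] at h
  obtain ⟨-, b2, -, b4, -⟩ := h
  rw [I.code _ _ a6 _ a6' _ _ (Fin.is_lt _) (Fin.is_lt _) b4] at b4
  obtain ⟨e1, rfl⟩ := N.au u u' hu hu' o o' ho ho' hc b2 (add_right_cancel b4) (a5.trans a5'.symm)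
    fun q => absurd q a1
  exact ⟨e1, rfl, by rw [nl, nl, e1, a3, a3']⟩

theorem p2 (ok : p.Ok) {u u' : N.Un} {o o' : Pos} (hu : N.val u) (hu' : N.val u')
    (ho : np (N.kd (N.bas u)) o) (ho' : np (N.kd (N.bas u')) o') (ht : N.top (N.bas u))
    (ht' : N.top (N.bas u')) {c d : Fin p.n} (hne : c ≠ d)
    (h : D.nl u o + D.lam c = D.nl u' o' + D.lam d) :
    ∃ z, (c = D.sd z ∨ d = D.sd z) ∧ (N.Det (N.bas u) o z ∨ N.Det (N.bas u') o' z) := by
  have hf : N.fu (N.nc (N.bas u) o) := (N.nd4 u hu o ho).1 ht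
  have hf' : N.fu (N.nc (N.bas u') o') := (N.nd4 u' hu' o' ho').1 ht'
  obtain ⟨a1, a2, a3, a4, -⟩ := Lay_fu hu ho hf
  obtain ⟨a1', a2', a3', a4', -⟩ := Lay_fu hu' ho' hf'
  have h0 := h
  rw [Lay_nl D hu ho, Lay_nl D hu' ho', a2, a3, a4, a2', a3', a4'] at h
  rcases Lay_dir D ok c with ⟨x, hx, -, h1⟩ | ⟨x, _, _, _, _, _, hx, rfl, h1, h3⟩ <;>
    rcases Lay_dir D ok d with ⟨y, hy, -, h2⟩ | ⟨y, _, _, _, _, _, hy, rfl, h2, h4⟩ <;>
    simp only [h1, h2, Pm.lamF, Prod.mk_add_mk, Prod.mk.injEq, add_zero, zero_add] at h <;>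
    obtain ⟨b1, -, b3, -, -, b6, b7, b8⟩ := h
  · have c1 := (N.inj _ _ 0 0 (N.nd1 u hu o ho).1 (N.nd1 u' hu' o' ho').1 (Or.inl rfl) (Or.inl rfl)
      b1 _ (fun q => absurd q.1 a1) (fun _ => b8) (fun q => absurd q.1 a1') fun _ => rfl).1
    exact absurd (lam_inj D ok (add_left_cancel
      ((Lay_ff D hu hu' ho ho' hf c1 (h1 ▸ h2 ▸ h0)).2.2 ▸ h0))) hne
  · exact ((D.f1 x hx).2.elim (· b6) fun h5 => h4 (b3.symm.trans h5)).elim
  · exact ((D.f1 y hy).2.elim (· b6.symm) fun h5 => h3 (b3.trans h5)).elim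
  · have c1 := D.g3 _ _ o o' x y ⟨u, hu, rfl⟩ ⟨u', hu', rfl⟩ hx hy (by
      rw [map_add, map_add, map_add]
      linear_combination b7 + (D.La (N.fN (N.bas u') o') + D.La (N.fD y)) *
        (Lay_two : (2 : V _) = 0))
    rcases (Lay_F N).fr2 ⟨⟨u, hu, rfl⟩, ht⟩ ⟨⟨u', hu', rfl⟩, ht'⟩ ho ho' (Lay_InA hx) (Lay_InA hy)
      (fun q => hne (by rw [q])) (by rwa [Lay_fD, Lay_fD]) with q | q | q | q
    · exact ⟨x, Or.inl rfl, Or.inl q⟩
    · exact ⟨y, Or.inr rfl, Or.inl q⟩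
    · exact ⟨x, Or.inl rfl, Or.inr q⟩
    · exact ⟨y, Or.inr rfl, Or.inr q⟩

theorem Lay_lf {u : N.Un} (hu : N.val u) {o : Pos} (ho : np (N.kd (N.bas u)) o) {m : ℕ}
    (hm : m < N.ty (N.nc (N.bas u) o)) : ∃ r,
    (r = 0 ∨ N.sm (N.nc (N.bas u) o) ∧ r ≤ N.ty (N.nc (N.bas u) o)) ∧
    ¬ (N.sm (N.nc (N.bas u) o) ∧ r = 0) ∧ (N.sm (N.nc (N.bas u) o) → r = m + 1) ∧
    (D.nl u o + D.lam (D.ld (N.bas u) o m)).1 = N.rz (N.nc (N.bas u) o) r ∧
    (D.nl u o + D.lam (D.ld (N.bas u) o m)).2.2.2.2.2.2.2 = N.pr (N.nc (N.bas u) o) + 1 := by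
  rw [Lay_nl D hu ho]
  rcases Lay_ld D hu ho hm with ⟨q, q1, q2⟩ | ⟨q, d, q1, q2, -⟩
  · rw [q2, Lay_sd D q1]
    refine ⟨m + 1, Or.inr ⟨q, hm⟩, fun h => Nat.succ_ne_zero _ h.2, fun _ => rfl, ?_, rfl⟩
    change _ + (_ + _) = _
    rw [← add_assoc, ← two_mul, Lay_two, zero_mul, zero_add]
  · rw [q2, Lay_fd D q1]
    exact ⟨0, Or.inl rfl, fun h => q h.1, fun h => absurd h q, add_zero _, rfl⟩

theorem p3 (ok : p.Ok) {u u' : N.Un} {o o' : Pos} (hu : N.val u) (hu' : N.val u')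
    (ho : np (N.kd (N.bas u)) o) (ho' : np (N.kd (N.bas u')) o') (ht : N.top (N.bas u))
    (ht' : ¬ N.top (N.bas u')) {m : ℕ} (hm : m < N.ty (N.nc (N.bas u') o')) (c : Fin p.n) :
    D.nl u' o' + D.lam (D.ld (N.bas u') o' m) ≠ D.nl u o + D.lam c := by
  intro h
  have hf : N.fu (N.nc (N.bas u) o) := (N.nd4 u hu o ho).1 ht
  obtain ⟨a1, a2, -, a4, -⟩ := Lay_fu hu ho hf
  rcases Lay_dir D ok c with ⟨x, hx, -, h1⟩ | ⟨x, _, _, _, _, _, hx, rfl, h1, h3⟩
  · obtain ⟨r, r1, r2, -, r4, r5⟩ := Lay_lf D hu' ho' hm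
    rw [h, Lay_nl D hu ho, h1] at r4 r5
    have c1 := (N.inj _ _ 0 r (N.nd1 u hu o ho).1 (N.nd1 u' hu' o' ho').1 (Or.inl rfl) r1
      ((add_zero _).symm.trans r4) _ (fun q => absurd q.1 a1) (fun _ => r5) (fun q => absurd q r2)
      fun _ => rfl).1
    change N.nc _ _ = N.nc _ _ at c1
    rcases Lay_ld D hu' ho' hm with ⟨q, -⟩ | ⟨-, d, q1, q2, -⟩
    · exact a1 (c1 ▸ q)
    · rw [q2, Lay_fd D q1, h1] at h
      exact ht' ((Lay_ff D hu hu' ho ho' hf c1 h.symm).1 ▸ ht)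
  · rw [Lay_nl D hu ho, Lay_nl D hu' ho', a2, a4, h1] at h
    rcases Lay_ld D hu' ho' hm with ⟨q, q1, q2⟩ | ⟨q, d, q1, q2, q3⟩
    · simp only [q2, Lay_sd D q1, Net.lamS, Prod.mk_add_mk, Prod.mk.injEq, add_zero] at h
      exact (N.nd2 u' hu' o' ho' q).2.2.2 h.2.2.2.2.2.1
    · simp only [q2, Lay_fd D q1, Pm.lamF, Prod.mk_add_mk, Prod.mk.injEq, add_zero, zero_add] at h
      obtain ⟨-, -, b3, -, -, b6, -⟩ := h
      rcases q3 with ⟨q3, -⟩ | ⟨q3, rfl⟩
      · obtain ⟨-, c2, -, c4, -⟩ := Lay_fu hu' ho' q3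
        rw [c2, zero_add] at b6
        rw [c4, zero_add] at b3
        exact (D.f1 d q1).2.elim (· b6) fun h5 => h3 (b3.symm.trans h5)
      · obtain ⟨c1, c2, c3, c4⟩ := Lay_en (N.nd1 u' hu' o' ho').1 q q3 hm
        refine (I.en1 _ c1 _ c2 _ c3 (N.bm (N.bas u')) m c4).2.2.2.2.2.1 ?_
        exact add_left_cancel (b6.trans (by rw [← two_mul, Lay_two, zero_mul]))

theorem p4 (ok : p.Ok) {u u' : N.Un} {o o' : Pos} (hu : N.val u) (hu' : N.val u')
    (ho : np (N.kd (N.bas u)) o) (ho' : np (N.kd (N.bas u')) o') {m m' : ℕ}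
    (hm : m < N.ty (N.nc (N.bas u) o)) (hm' : m' < N.ty (N.nc (N.bas u') o'))
    (h : D.nl u o + D.lam (D.ld (N.bas u) o m) = D.nl u' o' + D.lam (D.ld (N.bas u') o' m')) :
    N.bas u = N.bas u' ∧ o = o' ∧ m = m' := by
  obtain ⟨r, r1, r2, r3, r4, r5⟩ := Lay_lf D hu ho hm
  obtain ⟨r', s1, s2, s3, s4, s5⟩ := Lay_lf D hu' ho' hm'
  rw [h, s4] at r4
  rw [h, s5] at r5
  have k1 : N.ok (N.nc (N.bas u) o) := (N.nd1 u hu o ho).1
  obtain ⟨hc, rfl⟩ := N.inj _ _ r r' k1 (N.nd1 u' hu' o' ho').1 r1 s1 r4.symm _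
    (fun q => absurd q r2) (fun _ => r5.symm) (fun q => absurd q s2) fun _ => rfl
  change N.nc _ _ = N.nc _ _ at hc
  rcases Lay_ld D hu ho hm with ⟨q, -, q2⟩ | ⟨q, d, q1, q2, q3⟩ <;>
    rcases Lay_ld D hu' ho' hm' with ⟨w, -, w2⟩ | ⟨w, d', w1, w2, w3⟩
  · obtain rfl : m = m' := Nat.succ_injective ((r3 q).symm.trans (s3 w))
    rw [q2, w2, hc] at h
    obtain ⟨e1, e2, -⟩ := l1 D hu hu' ho ho' (add_right_cancel h)
    exact ⟨e1, e2, rfl⟩
  · exact absurd (hc ▸ q) w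
  · exact absurd (hc ▸ w) q
  rw [q2, w2] at h
  rcases q3 with ⟨q3, q4, rfl⟩ | ⟨q3, q4⟩ <;> rcases w3 with ⟨w3, w4, rfl⟩ | ⟨w3, w4⟩
  · obtain ⟨e1, e2, e3⟩ := Lay_ff D hu hu' ho ho' q3 hc (Lay_fd D q1 ▸ Lay_fd D w1 ▸ h)
    have e4 := congrArg D.raw (lam_inj D ok (add_left_cancel (e3 ▸ h)))
    rw [raw_fd D q1, raw_fd D w1] at e4
    exact ⟨e1, e2, D.fe2 m q4 m' w4 (Sum.inl_injective e4)⟩
  · exact absurd (hc ▸ q3) w3
  · exact absurd (hc ▸ w3) q3
  rw [← hc] at w4 hm'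
  obtain ⟨c1, c2, c3, c4⟩ := Lay_en k1 q q3 hm
  have c5 := (Lay_en k1 q q3 hm').2.2.2
  obtain ⟨-, -, a1, a2, -, -, a3⟩ := q4 ▸ I.en1 _ c1 _ c2 _ c3 (N.bm (N.bas u)) m c4
  obtain ⟨-, -, a1', a2', -, -, a3'⟩ := w4 ▸ I.en1 _ c1 _ c2 _ c3 (N.bm (N.bas u')) m' c5
  obtain ⟨-, n1, n2⟩ := N.nd3 u hu o ho q
  obtain ⟨-, n1', n2'⟩ := N.nd3 u' hu' o' ho' w
  have n3 := (N.nd1 u hu o ho).2.2.2 q
  have n3' := (N.nd1 u' hu' o' ho').2.2.2 w
  rw [← show N.cl _ _ = N.cl _ _ from hc] at n1' n2' n3'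
  simp only [Lay_fd D q1, Lay_fd D w1, Lay_nl0, Pm.lamF, Prod.mk_add_mk, Prod.mk.injEq,
    add_zero] at h
  obtain ⟨-, b2, b3, b4, b5, b6, b7, -⟩ := h
  have e2 := I.code _ _ n1 _ n1' _ _ a1 a1' (by linear_combination b4)
  have e3 := Lay_sup n2 n2' a2 a2' b5
  rw [e2] at b4
  obtain ⟨e1, rfl⟩ := N.au u u' hu hu' o o' ho ho' hc b2 (add_right_cancel b4) e3
    fun z => absurd z q
  rw [← e1] at b3 b5 b6 b7 w4
  refine ⟨e1, rfl, I.en2 _ c1 _ c2 _ c3 _ m c4 m' c5 (q4.symm.trans (Eq.trans ?_ w4))⟩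
  exact Prod.ext (add_left_cancel b3) (Prod.ext e2 (Prod.ext (add_left_cancel b5)
    (Prod.ext (add_left_cancel b6) (Lay_sup a3 a3' n3 n3' (by linear_combination b7)))))

theorem p5 (ok : p.Ok) {u u' : N.Un} {o o' : Pos} (hu : N.val u) (hu' : N.val u')
    (ho : np (N.kd (N.bas u)) o) (ho' : np (N.kd (N.bas u')) o') {m : ℕ}
    (hm : m < N.ty (N.nc (N.bas u') o')) :
    D.nl u' o' + D.lam (D.ld (N.bas u') o' m) ≠ D.nl u o := by
  intro h
  obtain ⟨r, r1, r2, -, r4, r5⟩ := Lay_lf D hu' ho' hm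
  rw [h, Lay_nl D hu ho] at r4 r5
  have k1 : N.ok (N.nc (N.bas u) o) := (N.nd1 u hu o ho).1
  have k2 : N.ok (N.nc (N.bas u') o') := (N.nd1 u' hu' o' ho').1
  by_cases hs : N.sm (N.nc (N.bas u) o)
  · obtain ⟨c1, c2⟩ := N.inj _ _ 0 r k1 k2 (Or.inl rfl) r1 r4 _ (fun _ => r5)
      (fun q => absurd ⟨hs, rfl⟩ q) (fun q => absurd q r2) fun _ => rfl
    exact r2 ⟨c1 ▸ hs, c2.symm⟩
  have c1 := (N.nd3 u hu o ho hs).1
  rw [Lay_nl D hu ho, Lay_nl D hu' ho', c1] at h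
  rcases Lay_ld D hu' ho' hm with ⟨q, q1, q2⟩ | ⟨q, d, q1, q2, q3⟩
  · simp only [q2, Lay_sd D q1, Net.lamS, Prod.mk_add_mk, Prod.mk.injEq, add_zero] at h
    obtain ⟨c2, c3, c4, -⟩ := N.nd2 u' hu' o' ho' q
    exact (Lay_sm ((add_comm _ _).trans h.2.2.1)).elim c3 c4
  · simp only [q2, Lay_fd D q1, Pm.lamF, Prod.mk_add_mk, Prod.mk.injEq, add_zero] at h
    obtain ⟨b1, -, b3, -⟩ := h
    rcases q3 with ⟨q3, -⟩ | ⟨q3, rfl⟩
    · rw [(Lay_fu hu' ho' q3).2.2.2.1, zero_add] at b3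
      rcases Lay_z2 (N.us (N.nc (N.bas u) o)) with c2 | c2
      · exact (D.f1 d q1).1 (b3.trans (c2 ▸ zero_smul _ _))
      · exact N.pair _ _ k1 k2 c2 b1 (by linear_combination -r5 - fr_z2) q3
    · obtain ⟨c1, c2, c3, c4⟩ := Lay_en k2 q q3 hm
      obtain ⟨a1, a2, -⟩ := I.en1 _ c1 _ c2 _ c3 (N.bm (N.bas u')) m c4
      rw [(N.nd3 u' hu' o' ho' q).1] at b3
      exact (Lay_sm b3).elim a1 a2

end Dirs

end Pool.Agent.Work.MP_ede3c6_co.Y
end

-- merged part: Pool.Agent.Work.MP_ede3c6_co.Y.Gad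
section
/-! Invariants of points, the two routes of a unit, and the gadget.

PLAN. `phi`, `cv`, `gv` are additive; `phi (e h) = lam h`; `cv (e h) c = 1` iff `h = sd (ct c)`.
`joint`: the sum of the two points vanishes on controls, then on global directions, then on the
basis (`cvr`, `ind`, `bli`). In the gadget (`T = 4 r + 5`): step `0` flips `dA = cS (inr 0)` on route
`1` and `dB = cS (inr 1)` on route `0`, the last step flips the other one; step `1 + 4 i + j` flips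
the spacer `cS (inl (i, j))` for `j < 3`, and for `j = 3` it is the special step `xs g i` on route
`1`, `z = cS (inr 2)` on route `0`. `gl g` and `bl i` are not controls. All labels have parity one
(`lam_par`), so `spn` shows that `1 + |Bg g|` is even; `Bg g ⊆ range nb`, `nb ≤ nL = r - 1`. Hence
`pfx 1 g T + pfx 0 g T = e (gl g) + ∑ i ∈ Bg g, e (bl i)`, which has label zero.
At an inner time `t` the flags vanish, the selector bits are `enc g` (three copies), exactly one of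
`dA`, `dB` is set, and the spacer `(i, j)` is set iff `4 i + j + 1 < t`. If two control vectors
differ at `c` then `sd (ct c) ∈ S`. `ga`: three rows of flags exclude `Good`. Spacers all zero:
`t ≥ 3` gives three elements of `S`, `t = 1, 2` give the step `t - 1`; final spacers: symmetric
(for the ends of a gadget use `gd`, `end_cv`). `gb`: `g = g'` (`enci`, three copies); parity of
`phi` gives `t + t' + |S|` even. Different routes: `S = {dA, dB}`, equal spacers, `t = t'`, and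
`E + E' = ∑ i < (t - 1) / 4, (e (xs g i) + e z)` has label zero and `z` coordinate zero; it is zero if
`(t - 1) / 4 = 0`, else `spn`, `ind` show that all of `Bg g` is used. Same route, `t < t'`: four
steps contain three spacer steps; otherwise step `t` or step `t' - 1` is a spacer step, or
`t' = t + 1`, `S = {c}` and `lam_inj` gives `c = ir u t`; `t = t'`: parity and `lam_inj`. -/

set_option autoImplicit false

namespace Pool.Agent.Work.MP_ede3c6_co.Y

open Finset Vol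

namespace Dirs
variable {p : Pm} {η : ℝ} {I : Inn p η} {k : ℕ} {a : ℕ → ℕ} {N : Net p I k a} (D : Dirs N)

theorem Gad_01 (x : ZMod 2) : x = 0 ∨ x = 1 := by revert x; decide

theorem Gad_ll (x : p.Lab) : x + x = 0 := by
  rw [← two_smul (ZMod 2) x, show (2 : ZMod 2) = 0 from rfl, zero_smul]

theorem Gad_lz {x y : p.Lab} (h : x + y = 0) : x = y := by
  rw [← add_zero x, ← Gad_ll y, ← add_assoc, h, zero_add]

theorem Gad_vz {ι : Type} {x y : V ι} (h : x + y = 0) : x = y := by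
  rw [← add_zero x, ← vv y, ← add_assoc, h, zero_add]

theorem Gad_sdi {h h' : N.Sd} (hh : N.InS h) (hh' : N.InS h') (q : D.sd h = D.sd h') : h = h' := by
  have := D.raw_sd hh
  rw [q, D.raw_sd hh'] at this
  exact (Sum.inr.inj this).symm

theorem Gad_cti {c c' : p.Ctl} : D.sd (.ct c) = D.sd (.ct c') ↔ c = c' :=
  ⟨fun q => SD.ct.inj (D.Gad_sdi (h := .ct c) (h' := .ct c') trivial trivial q), fun q => q ▸ rfl⟩

theorem Gad_nc {h : Fin p.n} (hh : ∀ c, D.raw h ≠ .inr (.ct c)) (c : p.Ctl) :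
    h ≠ D.sd (.ct c) := fun q => hh c (q ▸ D.raw_sd (h := .ct c) trivial)

theorem phi_add (x y : V (Fin p.n)) : D.phi (x + y) = D.phi x + D.phi y := by
  simp only [phi, Pi.add_apply, add_smul, sum_add_distrib]

theorem phi_e (h : Fin p.n) : D.phi (e h) = D.lam h := by
  simp [phi, e_apply]

theorem cv_add (x y : V (Fin p.n)) : D.cv (x + y) = D.cv x + D.cv y := rfl

theorem cv_e {h : Fin p.n} (hh : ∀ c, h ≠ D.sd (.ct c)) : D.cv (e h) = 0 := by
  funext c
  simp [cv, e_apply, (hh c).symm]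

theorem gv_add (x y : V (Fin p.n)) : D.gv (x + y) = D.gv x + D.gv y := by
  funext g
  simp only [gv, Pi.add_apply]
  split
  · rw [cv_add, Pi.add_apply]
    abel
  · abel

theorem Gad_phis {ι : Type} (s : Finset ι) (f : ι → V (Fin p.n)) :
    D.phi (∑ i ∈ s, f i) = ∑ i ∈ s, D.phi (f i) :=
  map_sum (AddMonoidHom.mk' D.phi D.phi_add) f s

theorem Gad_cvs {ι : Type} (s : Finset ι) (f : ι → V (Fin p.n)) :
    D.cv (∑ i ∈ s, f i) = ∑ i ∈ s, D.cv (f i) :=
  map_sum (AddMonoidHom.mk' D.cv D.cv_add) f s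

theorem Gad_gvs {ι : Type} (s : Finset ι) (f : ι → V (Fin p.n)) :
    D.gv (∑ i ∈ s, f i) = ∑ i ∈ s, D.gv (f i) :=
  map_sum (AddMonoidHom.mk' D.gv D.gv_add) f s

theorem Gad_gv0 : D.gv 0 = 0 := map_zero (AddMonoidHom.mk' D.gv D.gv_add)

theorem Gad_cvc (c : p.Ctl) : D.cv (e (D.sd (.ct c))) = e c := by
  funext d
  simp only [cv, e_apply, Gad_cti]

theorem Gad_par (ok : p.Ok) {ι : Type} (s : Finset ι) (f : ι → Fin p.n) :
    (D.phi (∑ i ∈ s, e (f i))).2.2.2.2.2.2.2 = (s.card : ZMod 2) := by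
  simp only [Gad_phis, phi_e, Prod.snd_sum, D.lam_par ok, sum_const, nsmul_eq_mul, mul_one]

theorem Gad_ctl {ι : Type} (s : Finset ι) (f : ι → Fin p.n)
    (hf : ∀ i ∈ s, ∃ c, f i = D.sd (.ct c)) :
    D.phi (∑ i ∈ s, e (f i)) = ∑ c, D.cv (∑ i ∈ s, e (f i)) c • D.lam (D.sd (.ct c)) := by
  simp only [Gad_phis, Gad_cvs, Finset.sum_apply, sum_smul]
  rw [sum_comm]
  refine sum_congr rfl fun i hi => ?_
  obtain ⟨c, hc⟩ := hf i hi
  simp [hc, phi_e, Gad_cvc, e_apply]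

theorem joint {x y : V (Fin p.n)} (h1 : D.phi x = D.phi y) (h2 : D.cv x = D.cv y)
    (h3 : D.gv x = D.gv y) : x = y := by
  have z1 : D.phi (x + y) = 0 := by rw [phi_add, h1, Gad_ll]
  have z2 : D.cv (x + y) = 0 := by rw [cv_add, h2, vv]
  have z3 : D.gv (x + y) = 0 := by rw [gv_add, h3, vv]
  apply Gad_vz
  generalize x + y = z at z1 z2 z3
  have hz : z = ∑ i ∈ {i ∈ range D.nb | z (D.bl i) = 1}, e (D.bl i) := by
    funext h
    rw [Finset.sum_apply]
    rcases D.cvr h with ⟨c, hc⟩ | ⟨g, rfl⟩ | ⟨j, hj, rfl⟩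
    · have : h = D.sd (.ct c) := D.rinj (hc.trans (D.raw_sd (h := .ct c) trivial).symm)
      rw [sum_eq_zero, this]
      · exact congrFun z2 c
      · intro i hi
        rw [e_apply, if_neg]
        rintro rfl
        exact D.blc i (mem_range.1 (mem_filter.1 hi).1) c hc
    · have := congrFun z3 g
      simp only [gv, z2, Pi.zero_apply] at this
      rw [sum_eq_zero]
      · split at this <;> simpa using this
      · intro i hi
        rw [e_apply, if_neg (D.gb g i (mem_range.1 (mem_filter.1 hi).1))]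
    · rw [sum_congr rfl (g := fun i => if i = j then 1 else 0), sum_ite_eq']
      · rcases Gad_01 (z (D.bl j)) with q | q <;> simp [q, hj]
      · intro i hi
        have hi' := mem_range.1 (mem_filter.1 hi).1
        rw [e_apply]
        exact if_congr ⟨fun q => (D.bli j hj i hi' q).symm, fun q => q ▸ rfl⟩ rfl rfl
  rw [hz, Gad_phis] at z1
  simp only [phi_e] at z1
  rw [hz, D.ind _ (filter_subset _ _) z1, sum_empty]

theorem Gad_mid (ok : p.Ok) {b : N.Bs} (hb : N.used b) (hk : N.kd b ≠ .gad) (ξ : ZMod 2)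
    (g : Fin D.G) (t : ℕ) : D.cv (D.pfx b ξ g t) = if t = 0 then 0 else dC ξ (N.kd b) := by
  have n1 : D.cv (e (D.sd (.d1 b))) = 0 :=
    D.cv_e fun c q => by cases D.Gad_sdi (h := .d1 b) (h' := .ct c) hb trivial q
  have n2 : D.cv (e (D.sd (.d2 b))) = 0 :=
    D.cv_e fun c q => by cases D.Gad_sdi (h := .d2 b) (h' := .ct c) hb trivial q
  have n3 : ∀ c i, D.cv (e (D.sd (.cm c i))) = 0 := fun c i =>
    D.cv_e fun c' q => by cases D.Gad_sdi (h := .cm c i) (h' := .ct c') trivial trivial q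
  have n4 : D.cv (e (D.fd (1, I.i0, 0, 0, 0))) = 0 := D.cv_e (D.Gad_nc fun c => by
    rw [D.raw_fd (D.f2 _ ?_ (.inr rfl) ?_)]
    · simp
    · intro q
      simpa using congrFun q ⟨0, by have := ok.t2; omega⟩
    · have := ok.mu3
      have := I.i00
      dsimp only
      omega)
  have key : ∀ i, D.cv (e (D.inn b ξ g i)) = if i = 0 then dC ξ (N.kd b) else 0 := by
    intro i
    unfold inn
    cases hq : N.kd b with
    | gad => exact absurd hq hk
    | oc c =>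
      rcases Gad_01 ξ with rfl | rfl
      · simp only [zero_ne_one, if_false, dC, zero_smul, ite_self]
        split_ifs <;> simp only [n1, n2, n3]
      · simp only [if_true, dC, one_smul]
        split_ifs <;> simp only [n1, n2, n3, Gad_cvc]
    | _ => simp only [n1, n4, dC, ite_self]
  simp only [pfx, Gad_cvs, key, sum_ite_eq', mem_range]
  rcases t with _ | t <;> simp

theorem Gad_oc (c : p.Ctl) : D.gv (e (D.sd (.ct c)) + e (D.sd (.cm c 0)) + e (D.sd (.cm c 1)) +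
    e (D.sd (.cm c 2))) = 0 := by
  have n3 : ∀ i, D.cv (e (D.sd (.cm c i))) = 0 := fun i =>
    D.cv_e fun c' q => by cases D.Gad_sdi (h := .cm c i) (h' := .ct c') trivial trivial q
  have n4 : ∀ g i, D.gl g = D.sd (.cm c i) ↔ D.raw (D.gl g) = .inr (.cm c i) := fun g i =>
    ⟨fun q => q ▸ D.raw_sd (h := .cm c i) trivial,
      fun q => D.rinj (q.trans (D.raw_sd (h := .cm c i) trivial).symm)⟩
  funext g
  simp only [gv, cv_add, n3, Gad_cvc, add_zero, Pi.add_apply, e_apply,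
    D.Gad_nc (D.glc g) c, if_false, zero_add, Pi.zero_apply]
  by_cases q : ∃ c' i, D.raw (D.gl g) = .inr (.cm c' i)
  · obtain ⟨c', i, q⟩ := q
    have n5 : ∀ j, D.gl g = D.sd (.cm c j) ↔ c' = c ∧ i = j := fun j => by rw [n4, q]; simp
    simp only [q, n5]
    by_cases hc : c' = c
    · fin_cases i <;> simp [hc] <;> rfl
    · simp [hc]
  · have n5 : ∀ j, D.gl g ≠ D.sd (.cm c j) := fun j h => q ⟨c, j, (n4 g j).1 h⟩
    simp only [n5, if_false, add_zero, zero_add]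
    split
    · exact absurd ⟨_, _, ‹_›⟩ q
    · rfl

/-- sum of the first steps of the gadget -/
def gp (ξ : ZMod 2) (g : Fin D.G) (t : ℕ) : V (Fin p.n) := ∑ i ∈ range t, e (D.gd ξ g i)

/-- a global direction and a part of the basis -/
def gU (g : Fin D.G) (B : Finset ℕ) : V (Fin p.n) := e (D.gl g) + ∑ i ∈ B, e (D.bl i)

/-- difference of the special steps of the two routes -/
def gW (g : Fin D.G) (m : ℕ) : V (Fin p.n) :=
  ∑ i ∈ range m, (e (D.xs g i) + e (D.sd (.ct (p.cS (.inr 2)))))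

theorem Gad_pfx {b : N.Bs} (hk : N.kd b = .gad) (ξ : ZMod 2) (g : Fin D.G) (t : ℕ) :
    D.pfx b ξ g t = D.gp ξ g t := by
  simp only [pfx, gp, inn, hk]

theorem Gad_s0 (ξ : ZMod 2) (g : Fin D.G) :
    D.gd ξ g 0 = D.sd (.ct (p.cS (.inr (if ξ = 1 then 0 else 1)))) := by
  rw [gd, if_pos rfl]

theorem Gad_sT (ξ : ZMod 2) (g : Fin D.G) :
    D.gd ξ g (4 * p.r + 4) = D.sd (.ct (p.cS (.inr (if ξ = 1 then 1 else 0)))) := by
  rw [gd, if_neg (by omega), if_pos (by rfl)]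

theorem Gad_sy (ξ : ZMod 2) (g : Fin D.G) (y : Fin (p.r + 1) × Fin 3) :
    D.gd ξ g (4 * y.1.1 + y.2.1 + 1) = D.sd (.ct (p.cS (.inl y))) := by
  obtain ⟨⟨i, hi⟩, ⟨j, hj⟩⟩ := y
  dsimp only
  rw [gd, if_neg (by omega), if_neg (by unfold Pm.T; omega), dif_pos ⟨by omega, by omega⟩]
  have h1 : (4 * i + j + 1 - 1) / 4 = i := by omega
  have h2 : (4 * i + j + 1 - 1) % 4 = j := by omega
  simp only [h1, h2]

theorem Gad_sx (ξ : ZMod 2) (g : Fin D.G) {i : ℕ} (hi : i < p.r) :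
    D.gd ξ g (4 * i + 4) = if ξ = 1 then D.xs g i else D.sd (.ct (p.cS (.inr 2))) := by
  rw [gd, if_neg (by omega), if_neg (by unfold Pm.T; omega), dif_neg (by omega),
    show (4 * i + 4 - 1) / 4 = i by omega]

theorem Gad_ey {s : ℕ} (hs : s < p.T) (h4 : s % 4 ≠ 0) :
    ∃ y : Fin (p.r + 1) × Fin 3, 4 * y.1.1 + y.2.1 + 1 = s := by
  unfold Pm.T at hs
  exact ⟨(⟨s / 4, by omega⟩, ⟨s % 4 - 1, by omega⟩), by dsimp only; omega⟩

theorem Gad_xs (g : Fin D.G) (i : ℕ) {c : p.Ctl} (h : D.xs g i = D.sd (.ct c)) :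
    c = p.cS (.inr 2) := by
  unfold xs at h
  split_ifs at h with h1 h2
  · exact absurd h (D.Gad_nc (D.glc g) c)
  · exact absurd h (D.Gad_nc (D.blc _ (mem_range.1 (D.Bg1 g h2))) c)
  · exact (D.Gad_cti.1 h).symm

theorem Gad_step (ξ : ZMod 2) (g : Fin D.G) {s : ℕ} (hs : s < p.T) {c : p.Ctl}
    (h : D.gd ξ g s = D.sd (.ct c)) :
    (s = 0 ∧ c = p.cS (.inr (if ξ = 1 then 0 else 1))) ∨
      (s = 4 * p.r + 4 ∧ c = p.cS (.inr (if ξ = 1 then 1 else 0))) ∨
      (∃ y : Fin (p.r + 1) × Fin 3, 4 * y.1.1 + y.2.1 + 1 = s ∧ c = p.cS (.inl y)) ∨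
      c = p.cS (.inr 2) := by
  by_cases h4 : s % 4 = 0
  · by_cases h0 : s = 0
    · subst h0
      exact .inl ⟨rfl, (D.Gad_cti.1 ((D.Gad_s0 ξ g).symm.trans h)).symm⟩
    by_cases h1 : s = 4 * p.r + 4
    · subst h1
      exact .inr (.inl ⟨rfl, (D.Gad_cti.1 ((D.Gad_sT ξ g).symm.trans h)).symm⟩)
    obtain ⟨i, rfl⟩ : ∃ i, s = 4 * i + 4 := ⟨s / 4 - 1, by omega⟩
    unfold Pm.T at hs
    rw [D.Gad_sx ξ g (by omega)] at h
    refine .inr (.inr (.inr ?_))
    split_ifs at h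
    · exact D.Gad_xs g i h
    · exact (D.Gad_cti.1 h).symm
  · obtain ⟨y, rfl⟩ := Gad_ey hs h4
    exact .inr (.inr (.inl ⟨y, rfl, (D.Gad_cti.1 ((D.Gad_sy ξ g y).symm.trans h)).symm⟩))

theorem Gad_cnt (ξ : ZMod 2) (g : Fin D.G) {t : ℕ} (ht : t ≤ p.T) (c : p.Ctl) (s : ℕ)
    (h : ∀ i < p.T, D.gd ξ g i = D.sd (.ct c) ↔ i = s) :
    D.cv (D.gp ξ g t) c = if s < t then 1 else 0 := by
  simp only [gp, cv, Finset.sum_apply, e_apply]
  rw [sum_congr rfl (g := fun i => if i = s then 1 else 0), sum_ite_eq']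
  · simp
  · intro i hi
    exact if_congr (eq_comm.trans (h i ((mem_range.1 hi).trans_le ht))) rfl rfl

theorem Gad_v0 (ξ : ZMod 2) (g : Fin D.G) {t : ℕ} (ht : t ≤ p.T) {c : p.Ctl}
    (hc : ∀ y, c ≠ p.cS y) : D.cv (D.gp ξ g t) c = 0 := by
  rw [D.Gad_cnt ξ g ht c p.T, if_neg (by omega)]
  refine fun i hi => ⟨fun q => ?_, fun q => by omega⟩
  rcases D.Gad_step ξ g hi q with ⟨-, q⟩ | ⟨-, q⟩ | ⟨y, -, q⟩ | q <;> exact absurd q (hc _)

theorem Gad_vy (ξ : ZMod 2) (g : Fin D.G) {t : ℕ} (ht : t ≤ p.T) (y : Fin (p.r + 1) × Fin 3) :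
    D.cv (D.gp ξ g t) (p.cS (.inl y)) = if 4 * y.1.1 + y.2.1 + 1 < t then 1 else 0 := by
  refine D.Gad_cnt ξ g ht _ _ fun i hi => ⟨fun q => ?_, fun q => q ▸ D.Gad_sy ξ g y⟩
  rcases D.Gad_step ξ g hi q with ⟨-, q⟩ | ⟨-, q⟩ | ⟨y', h, q⟩ | q <;> simp [Pm.cS] at q
  rw [← h, q]

theorem Gad_vd (ξ : ZMod 2) (g : Fin D.G) {t : ℕ} (ht : t ≤ p.T) :
    D.cv (D.gp ξ g t) (p.cS (.inr (if ξ = 1 then 0 else 1))) = if 0 < t then 1 else 0 := by
  refine D.Gad_cnt ξ g ht _ _ fun i hi => ⟨fun q => ?_, fun q => q ▸ D.Gad_s0 ξ g⟩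
  rcases D.Gad_step ξ g hi q with ⟨h, -⟩ | ⟨-, q⟩ | ⟨y', h, q⟩ | q
  · exact h
  all_goals split_ifs at q <;> simp [Pm.cS] at q

theorem Gad_ve (ξ : ZMod 2) (g : Fin D.G) {t : ℕ} (ht : t ≤ p.T) :
    D.cv (D.gp ξ g t) (p.cS (.inr (if ξ = 1 then 1 else 0))) =
      if 4 * p.r + 4 < t then 1 else 0 := by
  refine D.Gad_cnt ξ g ht _ _ fun i hi => ⟨fun q => ?_, fun q => q ▸ D.Gad_sT ξ g⟩
  rcases D.Gad_step ξ g hi q with ⟨-, q⟩ | ⟨h, -⟩ | ⟨y', h, q⟩ | q
  rotate_left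
  · exact h
  all_goals split_ifs at q <;> simp [Pm.cS] at q

theorem Gad_W (g : Fin D.G) (m : ℕ) : D.gW g (m + 1) = D.gU g {i ∈ range m | i ∈ D.Bg g} +
    (1 + #{i ∈ range m | i ∈ D.Bg g} : ZMod 2) • e (D.sd (.ct (p.cS (.inr 2)))) := by
  have h : ∀ i ∈ range m, e (D.xs g (i + 1)) + e (D.sd (.ct (p.cS (.inr 2)))) =
      if i ∈ D.Bg g then e (D.bl i) + e (D.sd (.ct (p.cS (.inr 2)))) else 0 := fun i _ => by
    rw [xs, if_neg (by omega), Nat.add_sub_cancel]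
    split_ifs
    · rfl
    · exact vv _
  rw [gW, sum_range_succ', sum_congr rfl h, ← sum_filter, sum_add_distrib, sum_const, gU, xs,
    if_pos rfl, add_smul, one_smul, Nat.cast_smul_eq_nsmul]
  abel

theorem Gad_cvU (g : Fin D.G) {B : Finset ℕ} (hB : B ⊆ D.Bg g) : D.cv (D.gU g B) = 0 := by
  rw [gU, cv_add, Gad_cvs, D.cv_e (D.Gad_nc (D.glc g)), zero_add]
  exact sum_eq_zero fun i hi => D.cv_e (D.Gad_nc (D.blc i (mem_range.1 (D.Bg1 g (hB hi)))))

theorem Gad_gvU (g : Fin D.G) : D.gv (D.gU g (D.Bg g)) = e g := by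
  funext g'
  have : D.gU g (D.Bg g) (D.gl g') = e g g' := by
    simp only [gU, Pi.add_apply, Finset.sum_apply, e_apply, D.gli.eq_iff]
    rw [sum_eq_zero, add_zero]
    exact fun i hi => if_neg (D.gb g' i (mem_range.1 (D.Bg1 g hi)))
  simp only [gv, this, D.Gad_cvU g Subset.rfl]
  split <;> simp

theorem Gad_phiU (g : Fin D.G) : D.phi (D.gU g (D.Bg g)) = 0 := by
  simp only [gU, phi_add, Gad_phis, phi_e]
  rw [show D.lam (D.gl g) = ∑ i ∈ D.Bg g, D.lam (D.bl i) from D.spn g, Gad_ll]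

theorem Gad_allU (g : Fin D.G) {B : Finset ℕ} (hB : B ⊆ D.Bg g) (h : D.phi (D.gU g B) = 0) :
    B = D.Bg g := by
  simp only [gU, phi_add, Gad_phis, phi_e] at h
  rw [show D.lam (D.gl g) = ∑ i ∈ D.Bg g, D.lam (D.bl i) from D.spn g, ← sum_sdiff hB, add_assoc,
    Gad_ll, add_zero] at h
  exact hB.antisymm (sdiff_eq_empty_iff_subset.1 (D.ind _ (sdiff_subset.trans (D.Bg1 g)) h))

theorem Gad_Wr (ok : p.Ok) (g : Fin D.G) : D.gW g p.r = D.gU g (D.Bg g) := by
  have h1 : {i ∈ range p.nL | i ∈ D.Bg g} = D.Bg g := by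
    ext i
    have := D.nb1
    have := fun q : i ∈ D.Bg g => mem_range.1 (D.Bg1 g q)
    simp only [mem_filter, mem_range]
    exact ⟨fun q => q.2, fun q => ⟨by have := this q; omega, q⟩⟩
  have h2 := congrArg (fun x : p.Lab => x.2.2.2.2.2.2.2) (D.Gad_phiU g)
  simp only [gU, phi_add, Prod.snd_add, D.Gad_par ok, phi_e, D.lam_par ok, Prod.snd_zero] at h2
  rw [Pm.r, Gad_W, h1, h2, zero_smul, add_zero]

theorem Gad_dif (g : Fin D.G) (t : ℕ) (ht : t + 1 < p.T) :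
    D.gp 1 g (t + 1) + D.gp 0 g (t + 1) =
      e (D.sd (.ct (p.cS (.inr 0)))) + e (D.sd (.ct (p.cS (.inr 1)))) + D.gW g (t / 4) := by
  induction t with
  | zero => simp [gp, gW, Gad_s0]
  | succ t ih =>
    have ih := ih (by omega)
    simp only [gp] at ih ⊢
    rw [sum_range_succ, sum_range_succ _ (t + 1), add_add_add_comm, ih, add_assoc _ (D.gW _ _)]
    congr 1
    by_cases h4 : (t + 1) % 4 = 0
    · unfold Pm.T at ht
      rw [show (t + 1) / 4 = t / 4 + 1 by omega, show t + 1 = 4 * (t / 4) + 4 by omega,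
        D.Gad_sx 1 g (by omega), D.Gad_sx 0 g (by omega), if_pos rfl, if_neg zero_ne_one]
      exact (sum_range_succ _ _).symm
    · obtain ⟨y, hy⟩ := Gad_ey (by omega : t + 1 < p.T) h4
      rw [show (t + 1) / 4 = t / 4 by omega, ← hy, Gad_sy, Gad_sy, vv, add_zero]

theorem Gad_difT (ok : p.Ok) (g : Fin D.G) : D.gp 1 g p.T + D.gp 0 g p.T = D.gU g (D.Bg g) := by
  have h := D.Gad_dif g (4 * p.r + 3) (by unfold Pm.T; omega)
  rw [show (4 * p.r + 3) / 4 = p.r by omega, D.Gad_Wr ok] at h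
  simp only [gp] at h ⊢
  rw [show p.T = 4 * p.r + 4 + 1 from rfl, sum_range_succ, sum_range_succ _ (4 * p.r + 4),
    add_add_add_comm, h, Gad_sT, Gad_sT, if_pos rfl, if_neg zero_ne_one]
  generalize e (D.sd (.ct (p.cS (.inr 0)))) = x
  generalize e (D.sd (.ct (p.cS (.inr 1)))) = y
  linear_combination (exp := 1) vv x + vv y

theorem Gad_z (g : Fin D.G) (t : ℕ) (ht : t + 1 < p.T) :
    D.cv (D.gp 0 g (t + 1)) (p.cS (.inr 2)) = (t / 4 : ℕ) := by
  induction t with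
  | zero => simp [gp, Gad_s0, Gad_cvc, e_apply, Pm.cS]
  | succ t ih =>
    have ih := ih (by omega)
    simp only [gp] at ih ⊢
    rw [sum_range_succ, cv_add, Pi.add_apply, ih]
    by_cases h4 : (t + 1) % 4 = 0
    · unfold Pm.T at ht
      rw [show (t + 1) / 4 = t / 4 + 1 by omega, show t + 1 = 4 * (t / 4) + 4 by omega,
        D.Gad_sx 0 g (by omega), if_neg zero_ne_one, Gad_cvc, e_apply, if_pos rfl, Nat.cast_succ]
    · obtain ⟨y, hy⟩ := Gad_ey (by omega : t + 1 < p.T) h4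
      rw [show (t + 1) / 4 = t / 4 by omega, ← hy, Gad_sy, Gad_cvc]
      simp [e_apply, Pm.cS]

theorem Gad_end (ok : p.Ok) (ξ : ZMod 2) (g : Fin D.G) : D.cv (D.gp ξ g p.T) = p.finV := by
  have h0 : D.cv (D.gp 0 g p.T) = p.finV := by
    funext c
    rcases c with c | c | c | y | j
    iterate 3 exact D.Gad_v0 0 g le_rfl fun y => by simp [Pm.cS]
    · refine (D.Gad_vy 0 g le_rfl y).trans (if_pos ?_)
      unfold Pm.T
      omega
    · fin_cases j
      · exact (D.Gad_ve 0 g le_rfl).trans (if_pos (by unfold Pm.T; omega))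
      · exact (D.Gad_vd 0 g le_rfl).trans (if_pos (by unfold Pm.T; omega))
      · have h := D.Gad_z g (4 * p.r + 3) (by unfold Pm.T; omega)
        rw [show (4 * p.r + 3) / 4 = p.r by omega] at h
        change D.cv (D.gp 0 g (4 * p.r + 4 + 1)) (p.cS (.inr 2)) = p.r
        rw [gp, sum_range_succ, cv_add, Pi.add_apply, Gad_sT, Gad_cvc, ← h]
        simp [e_apply, Pm.cS, gp]
  rcases Gad_01 ξ with rfl | rfl
  · exact h0
  · rw [← h0]
    apply Gad_vz
    rw [← cv_add, D.Gad_difT ok, D.Gad_cvU g Subset.rfl]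

theorem Gad_mem {Y Y' : V p.Ctl} {S : Finset (Fin p.n)} (h : Y' = Y + D.cv (∑ c ∈ S, e c))
    {c : p.Ctl} (hc : Y' c ≠ Y c) : D.sd (.ct c) ∈ S := by
  by_contra q
  apply hc
  rw [h, Pi.add_apply, cv, Finset.sum_apply, sum_eq_zero, add_zero]
  intro d hd
  rw [e_apply, if_neg]
  rintro rfl
  exact q hd

theorem Gad_three {S : Finset (Fin p.n)} (hS : S.card ≤ 2) {c1 c2 c3 : p.Ctl}
    (h1 : D.sd (.ct c1) ∈ S) (h2 : D.sd (.ct c2) ∈ S) (h3 : D.sd (.ct c3) ∈ S) (n12 : c1 ≠ c2)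
    (n13 : c1 ≠ c3) (n23 : c2 ≠ c3) : False := by
  have := two_lt_card_iff.2
    ⟨_, _, _, h1, h2, h3, mt D.Gad_cti.1 n12, mt D.Gad_cti.1 n13, mt D.Gad_cti.1 n23⟩
  omega

theorem Gad_yne {y y' : Fin (p.r + 1) × Fin 3} (h : 4 * y.1.1 + y.2.1 ≠ 4 * y'.1.1 + y'.2.1) :
    p.cS (.inl y) ≠ p.cS (.inl y') := fun q => by
  have : y = y' := by simpa [Pm.cS] using q
  exact h (this ▸ rfl)

theorem Gad_pp (ok : p.Ok) {ξ ξ' : ZMod 2} {g : Fin D.G} {t t' : ℕ} {S : Finset (Fin p.n)}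
    {E E' : V (Fin p.n)} (h1 : D.phi E = D.phi E')
    (h : E' + D.gp ξ' g t' = E + D.gp ξ g t + ∑ c ∈ S, e c) : t' % 2 = (t + S.card) % 2 := by
  have q := congrArg D.phi h
  rw [phi_add, phi_add, phi_add, h1, add_assoc, add_right_inj] at q
  have q := congrArg (fun x : p.Lab => x.2.2.2.2.2.2.2) q
  simp only [Prod.snd_add, gp, D.Gad_par ok, card_range] at q
  rw [← ZMod.natCast_eq_natCast_iff', Nat.cast_add, q]

theorem Gad_lt (ok : p.Ok) {ξ : ZMod 2} {g : Fin D.G} {t t' : ℕ} (htt : t < t') (hT : t' < p.T)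
    {S : Finset (Fin p.n)} (hS : S.card ≤ 2) {E E' : V (Fin p.n)} (h1 : D.phi E = D.phi E')
    (my : ∀ y : Fin (p.r + 1) × Fin 3, t ≤ 4 * y.1.1 + y.2.1 + 1 → 4 * y.1.1 + y.2.1 + 1 < t' →
      D.sd (.ct (p.cS (.inl y))) ∈ S)
    (h : E' + D.gp ξ g t' = E + D.gp ξ g t + ∑ c ∈ S, e c) :
    D.gd ξ g t ∈ S ∨ D.gd ξ g (t' - 1) ∈ S := by
  by_cases h4 : t % 4 ≠ 0
  · obtain ⟨y, hy⟩ := Gad_ey (htt.trans hT) h4
    left
    rw [← hy, Gad_sy]
    exact my y (by omega) (by omega)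
  by_cases h5 : (t' - 1) % 4 ≠ 0
  · obtain ⟨y, hy⟩ := Gad_ey (by omega : t' - 1 < p.T) h5
    right
    rw [← hy, Gad_sy]
    exact my y (by omega) (by omega)
  by_cases h6 : t' = t + 1
  · have hp := D.Gad_pp ok h1 h
    obtain ⟨c, rfl⟩ := card_eq_one.1 (by omega : S.card = 1)
    have q := congrArg D.phi h
    rw [h6, gp, sum_range_succ, sum_singleton, phi_add, phi_add, phi_add, phi_add, h1, add_assoc,
      add_right_inj, gp, add_right_inj, phi_e, phi_e] at q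
    exact .inl (mem_singleton.2 (D.lam_inj ok q))
  · obtain ⟨y1, e1⟩ := Gad_ey (by omega : t + 1 < p.T) (by omega)
    obtain ⟨y2, e2⟩ := Gad_ey (by omega : t + 2 < p.T) (by omega)
    obtain ⟨y3, e3⟩ := Gad_ey (by omega : t + 3 < p.T) (by omega)
    exact (D.Gad_three hS (my y1 (by omega) (by omega)) (my y2 (by omega) (by omega))
      (my y3 (by omega) (by omega)) (Gad_yne (by omega)) (Gad_yne (by omega))
      (Gad_yne (by omega))).elim

theorem Gad_df (ok : p.Ok) (g : Fin D.G) {t : ℕ} (h0 : 0 < t) (hT : t < p.T) {E E' : V (Fin p.n)}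
    (h1 : D.phi E = D.phi E') (hz : D.cv E (p.cS (.inr 2)) = D.cv E' (p.cS (.inr 2)))
    (h : E + E' = D.gp 1 g t + D.gp 0 g t +
      (e (D.sd (.ct (p.cS (.inr 0)))) + e (D.sd (.ct (p.cS (.inr 1)))))) :
    E = E' ∨ E + E' = D.gp 1 g p.T + D.gp 0 g p.T := by
  obtain ⟨s, rfl⟩ : ∃ s, t = s + 1 := ⟨t - 1, by omega⟩
  rw [D.Gad_dif g s hT, add_right_comm, vv, zero_add] at h
  rcases hm : s / 4 with _ | m
  · rw [hm] at h
    exact .inl (Gad_vz h)
  · have hB : {i ∈ range m | i ∈ D.Bg g} ⊆ D.Bg g := fun i hi => (mem_filter.1 hi).2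
    rw [hm, Gad_W] at h
    have q := congrFun (congrArg D.cv h) (p.cS (.inr 2))
    rw [cv_add, cv_add, D.Gad_cvU g hB, Pi.add_apply, hz, CharTwo.add_self_eq_zero, zero_add, cv,
      Pi.smul_apply, e_apply, if_pos rfl, smul_eq_mul, mul_one] at q
    rw [← q, zero_smul, add_zero] at h
    right
    rw [D.Gad_difT ok, h, D.Gad_allU g hB (by rw [← h, phi_add, h1, Gad_ll])]

theorem end_cv (ok : p.Ok) {b : N.Bs} (hb : N.used b) (ξ : ZMod 2) (g : Fin D.G) :
    D.cv (D.pfx b ξ g (len p.T (N.kd b) - 1)) = dC ξ (N.kd b) := by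
  by_cases hk : N.kd b = .gad
  · rw [D.Gad_pfx hk, hk]
    exact D.Gad_end ok ξ g
  · rw [D.Gad_mid ok hb hk]
    split
    · rename_i q
      cases hq : N.kd b <;> simp_all [len, dC]
    · rfl

theorem mid_cv (ok : p.Ok) {b : N.Bs} (hb : N.used b) (hk : N.kd b ≠ .gad) (ξ : ZMod 2)
    (g : Fin D.G) {t : ℕ} (ht : t < len p.T (N.kd b)) :
    D.cv (D.pfx b ξ g t) = 0 ∨ D.cv (D.pfx b ξ g t) = dC ξ (N.kd b) := by
  rw [D.Gad_mid ok hb hk]
  split
  · exact .inl rfl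
  · exact .inr rfl

theorem end_gv (ok : p.Ok) {b : N.Bs} (hb : N.used b) (ξ : ZMod 2) (g : Fin D.G) :
    D.gv (D.pfx b ξ g (len p.T (N.kd b) - 1)) = D.fB b g + dG ξ g (N.kd b) := by
  rcases Gad_01 ξ with rfl | rfl
  · have : dG 0 g (N.kd b) = 0 := by cases N.kd b <;> simp [dG]
    rw [this, add_zero, fB]
  · apply Gad_vz
    rw [fB, ← add_assoc, ← gv_add]
    cases hk : N.kd b with
    | gad =>
      rw [D.Gad_pfx hk, D.Gad_pfx hk, show len p.T (Kd.gad : Kd p.Ctl) - 1 = p.T from rfl,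
        D.Gad_difT ok, Gad_gvU, dG, one_smul, vv]
    | oc c =>
      have := D.Gad_oc c
      simp only [len, pfx, sum_range_succ, inn, hk, dG, add_zero]
      rw [← this]
      congr 1
      simp only [range_zero, sum_empty, zero_ne_one, if_true, if_false, one_ne_zero,
        OfNat.ofNat_ne_zero, OfNat.ofNat_ne_one, OfNat.one_ne_ofNat, Nat.reduceEqDiff]
      generalize e (D.sd (.d1 b)) = x
      generalize e (D.sd (.d2 b)) = y
      linear_combination (exp := 1) vv x + vv y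
    | _ =>
      have : D.pfx b 1 g = D.pfx b 0 g := by
        funext t
        simp only [pfx, inn, hk]
      rw [this, vv, Gad_gv0]
      rfl

theorem fB_eq (b : N.Bs) (g g' : Fin D.G) : D.fB b g = D.fB b g' := by
  have : D.pfx b 0 g = D.pfx b 0 g' := by
    funext t
    refine sum_congr rfl fun i _ => congrArg e ?_
    unfold inn
    split <;> simp [gd]
  rw [fB, fB, this]

theorem gad_phi (ok : p.Ok) {b : N.Bs} (hk : N.kd b = .gad) (ξ : ZMod 2) (g : Fin D.G) :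
    N.lab D.La b .x = N.lab D.La b .s + D.phi (D.pfx b ξ g p.T) := by
  have h0 : D.phi (D.gp ξ g p.T) = D.phi (D.gp 0 g p.T) := by
    rcases Gad_01 ξ with rfl | rfl
    · rfl
    · apply Gad_lz
      rw [← phi_add, D.Gad_difT ok, Gad_phiU]
  have h1 := D.Gad_par ok (range p.T) (D.gd 0 g)
  have h2 := D.Gad_ctl (range p.T) (D.gd 0 g) fun i _ => by
    unfold gd
    split_ifs with q1 q2 q3 q4 q5 q6 <;> first | exact ⟨_, rfl⟩ | simp at *
  have h3 : ((range p.T).card : ZMod 2) = 1 := by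
    rw [card_range, Pm.T]
    push_cast
    rw [show (4 : ZMod 2) = 0 from rfl, zero_mul, zero_add]
    rfl
  rw [h3] at h1
  rw [D.Gad_pfx hk, h0]
  change (D.phi (D.gp 0 g p.T)).2.2.2.2.2.2.2 = 1 at h1
  change D.phi (D.gp 0 g p.T) = ∑ c, D.cv (D.gp 0 g p.T) c • _ at h2
  rw [D.Gad_end ok] at h2
  have h4 : ∑ c, p.finV c • D.lam (D.sd (.ct c)) = ∑ c ∈ p.fin, D.lam (D.sd (.ct c)) := by
    rw [Pm.fin, sum_filter]
    refine sum_congr rfl fun c _ => ?_
    rcases Gad_01 (p.finV c) with q | q <;> simp [q]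
  rw [h4] at h2
  rw [h2] at h1 ⊢
  simp only [lam_ct, Prod.snd_sum] at h1
  simp only [lam_ct, Net.lab, hk, Net.fN, off, zo, pf, par, map_add, map_sum]
  refine Prod.ext ?_ (Prod.ext ?_ (Prod.ext ?_ (Prod.ext ?_ (Prod.ext ?_ (Prod.ext ?_
    (Prod.ext ?_ ?_)))))) <;> simp only [Prod.fst_add, Prod.snd_add, Prod.fst_sum, Prod.snd_sum,
      sum_const_zero, add_zero, map_zero, h1]

end Dirs

namespace Ctr
variable {p : Pm} {η : ℝ} {I : Inn p η} {k : ℕ} {a : ℕ → ℕ} {N : Net p I k a} {D : Dirs N}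
  (C : Ctr D)

theorem Gad_px {u : N.Un} (hk : N.kd (N.bas u) = .gad) (t : ℕ) :
    C.px u t = D.gp (C.xi u) (C.gg u) t := D.Gad_pfx hk _ _ t

theorem Gad_ir {u : N.Un} (hk : N.kd (N.bas u) = .gad) (t : ℕ) :
    C.ir u t = D.gd (C.xi u) (C.gg u) t := by
  simp only [ir, Dirs.inn, hk]

theorem Gad_f {u : N.Un} {t : ℕ} (hu : N.val u) (hi : N.Int u t) (y : Fin 3 × Fin p.m1) :
    C.yv u t (.inr (.inl y)) = 0 := by
  rw [yv, Pi.add_apply, (C.gd u hu hi.1).1, C.Gad_px hi.1,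
    D.Gad_v0 _ _ hi.2.2.le fun y => by simp [Pm.cS], add_zero]

theorem Gad_s {u : N.Un} {t : ℕ} (hu : N.val u) (hi : N.Int u t) (y : Fin 3 × Fin p.s) :
    C.yv u t (.inr (.inr (.inl y))) = D.enc (C.gg u) y.2 := by
  rw [yv, Pi.add_apply, (C.gd u hu hi.1).2.1, C.Gad_px hi.1,
    D.Gad_v0 _ _ hi.2.2.le fun y => by simp [Pm.cS], add_zero]

theorem Gad_c {u : N.Un} (hu : N.val u) (hk : N.kd (N.bas u) = .gad) (t : ℕ) (y : p.Sp) :
    C.yv u t (p.cS y) = D.cv (D.gp (C.xi u) (C.gg u) t) (p.cS y) := by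
  rw [yv, Pi.add_apply, (C.gd u hu hk).2.2, C.Gad_px hk, zero_add]

theorem ga (ok : p.Ok) {u u' : N.Un} {t t' : ℕ} (hu : N.val u) (hu' : N.val u') (hi : N.Int u t)
    (ht' : t' < len p.T (N.kd (N.bas u'))) (hi' : ¬ N.Int u' t') (S : Finset (Fin p.n))
    (hS : S.card ≤ 2) (h : C.yv u' t' = C.yv u t + D.cv (∑ c ∈ S, e c)) :
    N.top (N.bas u') ∧ (C.ir u (t - 1) ∈ S ∨ C.ir u t ∈ S) := by
  obtain ⟨hk, h0, hT⟩ := id hi
  have key : N.top (N.bas u') ∧
      ((∀ y, C.yv u' t' (p.cS y) = 0) ∨ ∀ y, C.yv u' t' (p.cS y) = p.finS y) := by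
    by_cases hk' : N.kd (N.bas u') = .gad
    · refine ⟨N.gtop _ hk', ?_⟩
      rw [hk'] at ht'
      by_cases q : t' = 0
      · refine .inl fun y => ?_
        rw [C.Gad_c hu' hk', q]
        rfl
      · refine .inr fun y => ?_
        have : t' = p.T := by
          have : ¬ t' < p.T := fun q' => hi' ⟨hk', by omega, q'⟩
          change t' < p.T + 1 at ht'
          omega
        rw [C.Gad_c hu' hk', this, D.Gad_end ok]
        rfl
    · have : C.yv u' t' = C.CV u' ∨ C.yv u' t' = C.CV (N.nxt u') := by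
        rcases D.mid_cv ok ⟨u', hu', rfl⟩ hk' (C.xi u') (C.gg u') ht' with q | q
        · left
          rw [yv, px, q, add_zero]
        · right
          rw [yv, px, q, C.c1 u' hu']
      refine (C.fl u' hu' hk' _ this).resolve_left fun q => ?_
      have m : ∀ a, ∃ b, D.sd (.ct (.inr (.inl (a, b)))) ∈ S := fun a => by
        obtain ⟨b, hb⟩ := q a
        exact ⟨b, D.Gad_mem h (by rw [hb, C.Gad_f hu hi]; exact one_ne_zero)⟩
      obtain ⟨b0, m0⟩ := m 0
      obtain ⟨b1, m1⟩ := m 1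
      obtain ⟨b2, m2⟩ := m 2
      exact D.Gad_three hS m0 m1 m2 (by simp) (by simp) (by simp)
  refine ⟨key.1, ?_⟩
  rw [C.Gad_ir hk, C.Gad_ir hk]
  have hT' : p.T = 4 * p.r + 5 := rfl
  rcases key.2 with q | q
  · have md : D.sd (.ct (p.cS (.inr (if C.xi u = 1 then 0 else 1)))) ∈ S := D.Gad_mem h (by
      rw [q, C.Gad_c hu hk, D.Gad_vd _ _ hT.le, if_pos h0]; exact zero_ne_one)
    have my : ∀ y : Fin (p.r + 1) × Fin 3, 4 * y.1.1 + y.2.1 + 1 < t →
        D.sd (.ct (p.cS (.inl y))) ∈ S := fun y hy => D.Gad_mem h (by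
      rw [q, C.Gad_c hu hk, D.Gad_vy _ _ hT.le, if_pos hy]; exact zero_ne_one)
    obtain ⟨y1, e1⟩ := Dirs.Gad_ey (by omega : 1 < p.T) (by omega)
    obtain ⟨y2, e2⟩ := Dirs.Gad_ey (by omega : 2 < p.T) (by omega)
    left
    by_cases t1 : t = 1
    · rw [t1, Nat.sub_self, D.Gad_s0]
      exact md
    by_cases t2 : t = 2
    · rw [show t - 1 = 4 * y1.1.1 + y1.2.1 + 1 by omega, D.Gad_sy]
      exact my y1 (by omega)
    exact (D.Gad_three hS md (my y1 (by omega)) (my y2 (by omega)) (by simp [Pm.cS])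
      (by simp [Pm.cS]) (Dirs.Gad_yne (by omega))).elim
  · have md : D.sd (.ct (p.cS (.inr (if C.xi u = 1 then 1 else 0)))) ∈ S := D.Gad_mem h (by
      rw [q, C.Gad_c hu hk, D.Gad_ve _ _ hT.le, if_neg (by omega : ¬ 4 * p.r + 4 < t)]
      split_ifs <;> exact one_ne_zero)
    have my : ∀ y : Fin (p.r + 1) × Fin 3, ¬ 4 * y.1.1 + y.2.1 + 1 < t →
        D.sd (.ct (p.cS (.inl y))) ∈ S := fun y hy => D.Gad_mem h (by
      rw [q, C.Gad_c hu hk, D.Gad_vy _ _ hT.le, if_neg hy]; exact one_ne_zero)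
    obtain ⟨y1, e1⟩ := Dirs.Gad_ey (by omega : 4 * p.r + 3 < p.T) (by omega)
    obtain ⟨y2, e2⟩ := Dirs.Gad_ey (by omega : 4 * p.r + 2 < p.T) (by omega)
    right
    by_cases t1 : t = 4 * p.r + 4
    · rw [t1, D.Gad_sT]
      exact md
    by_cases t2 : t = 4 * p.r + 3
    · rw [t2, ← e1, D.Gad_sy]
      exact my y1 (by omega)
    exact (D.Gad_three hS md (my y1 (by omega)) (my y2 (by omega)) (by simp [Pm.cS])
      (by simp [Pm.cS]) (Dirs.Gad_yne (by omega))).elim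

theorem gb (ok : p.Ok) {u u' : N.Un} {t t' : ℕ} (hu : N.val u) (hu' : N.val u') (hi : N.Int u t)
    (hi' : N.Int u' t') (S : Finset (Fin p.n)) (hS : S.card ≤ 2) {E E' : V (Fin p.n)}
    (h1 : D.phi E = D.phi E') (h2 : D.cv E + C.CV u = D.cv E' + C.CV u')
    (h : E' + C.px u' t' = E + C.px u t + ∑ c ∈ S, e c) :
    C.ir u (t - 1) ∈ S ∨ C.ir u t ∈ S ∨ C.ir u' (t' - 1) ∈ S ∨ C.ir u' t' ∈ S ∨
      (E = E' ∧ (C.xi u = C.xi u' → t = t' ∧ S = ∅)) ∨
      (C.xi u ≠ C.xi u' ∧ E + C.px u p.T = E' + C.px u' p.T) := by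
  obtain ⟨hk, h0, hT⟩ := id hi
  obtain ⟨hk', h0', hT'⟩ := id hi'
  have hy : C.yv u' t' = C.yv u t + D.cv (∑ c ∈ S, e c) := by
    have := congrArg D.cv h
    simp only [D.cv_add] at this
    unfold yv
    linear_combination (exp := 1) this - h2 + vv (D.cv E) - vv (D.cv E')
  have hg : C.gg u' = C.gg u := by
    apply D.enci
    funext b
    by_contra q
    have m : ∀ a, D.sd (.ct (.inr (.inr (.inl (a, b))))) ∈ S := fun a => D.Gad_mem hy (by
      rw [C.Gad_s hu hi, C.Gad_s hu' hi']; exact q)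
    exact D.Gad_three hS (m 0) (m 1) (m 2) (by simp) (by simp) (by simp)
  have my : ∀ y : Fin (p.r + 1) × Fin 3,
      ¬ (4 * y.1.1 + y.2.1 + 1 < t ↔ 4 * y.1.1 + y.2.1 + 1 < t') → D.sd (.ct (p.cS (.inl y))) ∈ S := fun y q => D.Gad_mem hy (by
    rw [C.Gad_c hu hk, C.Gad_c hu' hk', D.Gad_vy _ _ hT.le, D.Gad_vy _ _ hT'.le]
    split_ifs <;> first | omega | simp)
  have hz : D.cv E (p.cS (.inr 2)) = D.cv E' (p.cS (.inr 2)) := by
    simpa [(C.gd u hu hk).2.2, (C.gd u' hu' hk').2.2] using congrFun h2 (p.cS (.inr 2))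
  have vd := fun (j : Fin 3) => D.Gad_mem hy (c := p.cS (.inr j))
  simp only [C.Gad_c hu hk, C.Gad_c hu' hk'] at vd
  simp only [C.Gad_ir hk, C.Gad_ir hk', C.Gad_px hk, C.Gad_px hk', hg] at h vd ⊢
  generalize C.xi u = ξ at *
  generalize C.xi u' = ξ' at *
  generalize C.gg u = g at *
  have hp := D.Gad_pp ok h1 h
  by_cases hx : ξ = ξ'
  · subst hx
    rcases lt_trichotomy t t' with q | rfl | q
    · rcases D.Gad_lt ok q hT' hS h1 (fun y _ _ => my y (by omega)) h with q | q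
      · exact .inr (.inl q)
      · exact .inr (.inr (.inl q))
    · have hS0 : S = ∅ := by
        by_contra q
        obtain ⟨c, d, hcd, rfl⟩ := card_eq_two.1 (show S.card = 2 by
          have := card_ne_zero.2 (nonempty_iff_ne_empty.2 q)
          omega)
        have q := congrArg D.phi h
        rw [sum_pair hcd, D.phi_add, D.phi_add, D.phi_add, D.phi_add, h1, left_eq_add, D.phi_e,
          D.phi_e] at q
        exact hcd (D.lam_inj ok (Dirs.Gad_lz q))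
      rw [hS0, sum_empty, add_zero, add_left_inj] at h
      exact .inr (.inr (.inr (.inr (.inl ⟨h.symm, fun _ => ⟨rfl, hS0⟩⟩))))
    · have h' : E + D.gp ξ g t = E' + D.gp ξ g t' + ∑ c ∈ S, e c := by
        rw [h, add_assoc, vv, add_zero]
      rcases D.Gad_lt ok q hT hS h1.symm (fun y _ _ => my y (by omega)) h' with q | q
      · exact .inr (.inr (.inr (.inl q)))
      · exact .inl q
  · have a1 := D.Gad_vd ξ g hT.le
    have a2 := D.Gad_ve ξ g hT.le
    have a3 := D.Gad_vd ξ' g hT'.le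
    have a4 := D.Gad_ve ξ' g hT'.le
    have hTT : p.T = 4 * p.r + 5 := rfl
    rw [if_pos h0] at a1
    rw [if_pos h0'] at a3
    rw [if_neg (by omega : ¬ 4 * p.r + 4 < t)] at a2
    rw [if_neg (by omega : ¬ 4 * p.r + 4 < t')] at a4
    have m : D.sd (.ct (p.cS (.inr 0))) ∈ S ∧ D.sd (.ct (p.cS (.inr 1))) ∈ S := by
      rcases Dirs.Gad_01 ξ with rfl | rfl <;> rcases Dirs.Gad_01 ξ' with rfl | rfl <;>
        first
        | exact absurd rfl hx
        | simp only [zero_ne_one, if_true, if_false] at a1 a2 a3 a4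
          exact ⟨vd 0 (by simp [a1, a2, a3, a4]), vd 1 (by simp [a1, a2, a3, a4])⟩
    have hne : D.sd (.ct (p.cS (.inr 0))) ≠ D.sd (.ct (p.cS (.inr 1))) :=
      mt D.Gad_cti.1 (by simp [Pm.cS])
    have hS2 : {D.sd (.ct (p.cS (.inr 0))), D.sd (.ct (p.cS (.inr 1)))} = S :=
      eq_of_subset_of_card_le (insert_subset m.1 (singleton_subset_iff.2 m.2))
        (hS.trans (card_pair hne).ge)
    have hc : S.card = 2 := hS2 ▸ card_pair hne
    have htt : t = t' := by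
      by_contra q
      obtain ⟨y, hy⟩ := Dirs.Gad_ey (s := if min t t' % 4 = 0 then min t t' + 1 else min t t')
        (p := p) (by split_ifs <;> omega) (by split_ifs <;> omega)
      exact D.Gad_three hS m.1 m.2 (my y (by split_ifs at hy <;> omega)) (by simp [Pm.cS])
        (by simp [Pm.cS]) (by simp [Pm.cS])
    subst htt
    rw [← hS2, sum_pair hne] at h
    have hv : ∀ t, D.gp 1 g t + D.gp 0 g t = D.gp ξ g t + D.gp ξ' g t := fun t => by
      rcases Dirs.Gad_01 ξ with rfl | rfl <;> rcases Dirs.Gad_01 ξ' with rfl | rfl <;>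
        first | exact absurd rfl hx | rfl | exact add_comm _ _
    rcases D.Gad_df ok g h0 hT h1 hz (by
      rw [hv]; linear_combination (exp := 1) h + vv E - vv (D.gp ξ' g t)) with q | q
    · exact .inr (.inr (.inr (.inr (.inl ⟨q, fun q => absurd q hx⟩))))
    · refine .inr (.inr (.inr (.inr (.inr ⟨hx, ?_⟩))))
      rw [hv] at q
      linear_combination (exp := 1) q - vv E' + vv (D.gp ξ g p.T)

end Ctr

end Pool.Agent.Work.MP_ede3c6_co.Y
end

-- merged part: Pool.Agent.Work.MP_ede3c6_co.Y.Bal2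
section
/-! Existence of the routes and of the control values.

PLAN. `g0 : Fin G` (`G1`, `G00`), `dm j x = fB (bas (un j x)) g0 + gv (e (lk (un j x)))`,
`Fs (j + 1) = Fs j + ∑ y < nu j, dm j y`, `Fg j x = Fs j + ∑ y < x, dm j y`. Unit of a slot:
`ys s = if s ≤ 2 M + 2 then s / 2 else M + 2`, `xs j s = if s = 0 then 0 else nb j + ys s`;
`key j s = (bas, cp) (un j (xs j s))`, `off j s = Fg j (nb j)` if `s ≠ 0 ∧ rk j = 3`, else
`Fg j (xs j s)`. Apply `bal1` (`l0`, `l1`). Let `ch = j / PP`, `gj j = ch % G`, and let `[m]` be `1`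
if `nb j + m < x`, else `0`. Define `cvf j x : V Ctl` by: `lo (j + [i + 1]) i` at
`inl (inl (inl i))`; `hi (j + [hh + i + 1]) i` at `inl (inl (inr i))`;
`b1 c.1 c.2 (iv _ _ (j + [2 hh + 1]))` at `inl (inr (inl c))`;
`b2 c.1 c.2 (iv _ _ (mc (j + [2 hh + 2])))` at `inl (inr (inr c))`; at a flag `inr (inl c)`:
`ρ ch (inl c)`, except if `rk j = 3` and `[2 hh + nR + 1 + eF c]`: then `ρ (ch + 1) (inl c)` if
`[xg + 1 + eF c]`, else `0`; at `inr (inr c)`: `ρ ch (inr c)`, except if `rk j = 3` and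
`[2 hh + 1 + eR c]`: then `ρ (ch + 1) (inr c)` if `[xg + nF + 1 + eR c]`, else
`Sum.elim (fun y => enc (gj j) y.2) 0 c + [xg] * finV (inr (inr c))`. Define
`gvf j x g = Fg j x g + bG g (iv G g (ch + if rk j = 3 then [xg] else 0))`. `CV u = cvf (co u)`,
`GV u = gvf (co u)`, `gg u = gj (co u).1`; `xi u` is `cvf (nx (co u)) c + cvf (co u) c` if the kind
is `oc c`, and `bG g (iv G g (ch + 1)) + bG g (iv G g ch)` for `g = gj j` otherwise.
`c1`: from `x` to `x + 1` only `[x - nb j]` changes; use `iv_succ`, `ru_eq`,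
`mc (j + 1) = mc j + (if md (j / P1) = j then 1 else 0)` (`md1`); a long `j` has
`j % 2 ^ (i + 2) = 2 ^ (i + 2) - 1 ≠ rl i σ` for `i < d1` and is not medium; the last unit of a
segment has kind `sg` and `(j + 1) / PP = ch + 1` iff `rk j = 3` (`rk3`). `c2`: `fB_eq`, `iv_succ`.
`me`, `mx`: by `sb` both units have the same role; if `j = j'` they are equal. Slots: `0` for a head,
`1` for the first unit of a long window, `2 M + 2`, `2 M + 3` for the last two units of a short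
window, `2 y` for the exit of octagon `y` (short window, or long with `y ≤ 2 hh`), `2 M + 4` for
`2 hh < y < xg` and `2 M + 5` for `xg ≤ y` in a long window. In long windows `dm j (nb j + y)` does
not depend on `j` for `y + 1 < LU` (`lb`, `lt`, `n1`), and the local bits do not change.
`fl`: outside long windows the flags are `ρ ch`; inside, they are `ρ ch` up to `y = 2 hh + nR + 1`,
then the spacers are `0` up to `y = xg`, `finS` up to `y = xg + nF + 1`, then the flags are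
`ρ (ch + 1)`; use `lt`. -/

set_option autoImplicit false

namespace Pool.Agent.Work.MP_ede3c6_co.Y

open Finset Vol

namespace Bal2

/-- the balanced functions -/
structure Bv (p : Pm) where
  ρ : ℕ → V p.Ro
  b2 : ℕ → Fin 2 → ℕ → ZMod 2
  b1 : ℕ → Fin 2 → ℕ → ZMod 2
  lo : ℕ → V (Fin p.hh)
  hi : ℕ → V (Fin p.hh)
  en : ℕ → V (Fin p.s)

section
variable {p : Pm} {k : ℕ} {a : ℕ → ℕ} {VV : ℕ} (S : Seg p k a VV) (B : Bv p)

/-- control values at place `y` of the window of segment `j` -/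
noncomputable def cw (j y : ℕ) : V p.Ctl
  | .inl (.inl (.inl i)) => B.lo (j + if (i : ℕ) + 1 < y then 1 else 0) i
  | .inl (.inl (.inr i)) => B.hi (j + if p.hh + i + 1 < y then 1 else 0) i
  | .inl (.inr (.inl c)) => B.b1 c.1 c.2 (iv (2 ^ ((c.1 : ℕ) + 2)) (X.rl c.1 c.2)
      (j + if 2 * p.hh + 1 < y then 1 else 0))
  | .inl (.inr (.inr c)) => B.b2 c.1 c.2 (iv (2 ^ ((c.1 : ℕ) + 2)) (X.rl c.1 c.2)
      (S.mc (j + if 2 * p.hh + 2 < y then 1 else 0)))
  | .inr (.inl c) => if S.rk j = 3 ∧ 2 * p.hh + p.nR + 1 + p.eF c < y then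
      (if p.xg + 1 + p.eF c < y then B.ρ (j / p.PP + 1) (.inl c) else 0)
      else B.ρ (j / p.PP) (.inl c)
  | .inr (.inr c) => if S.rk j = 3 ∧ 2 * p.hh + 1 + p.eR c < y then
      (if p.xg + p.nF + 1 + p.eR c < y then B.ρ (j / p.PP + 1) (.inr c) else
        Sum.elim (fun z : Fin 3 × Fin p.s => B.en j z.2) 0 c +
          if p.xg < y then p.finV (.inr (.inr c)) else 0)
      else B.ρ (j / p.PP) (.inr c)

/-- kinds in the window of segment `j` -/
noncomputable def kw (j y : ℕ) : Kd p.Ctl :=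
  if S.rk j = 3 then p.kL y else p.kS (ru p.d1 (j % 2 ^ (p.d1 + 1))) (S.c2 j) y

/-- number of units of the window -/
def wl (j : ℕ) : ℕ := if S.rk j = 3 then p.LU else p.M + 3

theorem nu_eq (j : ℕ) : S.nu j = S.nb j + wl S j := rfl

theorem nb4 (j : ℕ) : 4 ≤ S.nb j := by
  have := S.bl1 j
  unfold Seg.nb
  omega

theorem kj_add (j y : ℕ) : S.kj j (S.nb j + y) = kw S j y := by
  have := nb4 S j
  unfold Seg.kj kw
  rw [if_neg (by omega), if_neg (by omega), Nat.add_sub_cancel_left]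

theorem kj_lt {j x : ℕ} (h : x < S.nb j) : S.kj j x ≠ .gad ∧ ∀ c, S.kj j x ≠ .oc c := by
  unfold Seg.kj
  rw [if_pos h]
  split_ifs <;> simp

theorem kw_gad {j y : ℕ} : kw S j y = .gad ↔ S.rk j = 3 ∧ y = p.xg := by
  unfold kw Pm.kL Pm.kS
  have : p.LU = p.xg + 1 + (p.nF + p.nR) + 1 := rfl
  have : p.xg = 1 + 2 * p.hh + p.nR + p.nF := rfl
  split_ifs <;> simp <;> omega

theorem kw_rng {j y : ℕ} (h : kw S j y = .gad ∨ ∃ c, kw S j y = .oc c) :
    1 ≤ y ∧ (S.rk j = 3 → y + 1 < p.LU) ∧ (S.rk j ≠ 3 → y ≤ p.M) := by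
  by_cases r : S.rk j = 3
  · by_cases q : y = 0 ∨ p.LU ≤ y + 1
    · simp [kw, Pm.kL, r, q] at h
    · omega
  · by_cases q : y = 0 ∨ p.M < y
    · simp [kw, Pm.kS, r, q] at h
    · omega

theorem kw_R (j : ℕ) {y : ℕ} (h1 : 1 ≤ y) (h2 : y ≤ 2 * p.hh) : kw S j y = .oc (p.cR y) := by
  have : p.LU = p.xg + 1 + (p.nF + p.nR) + 1 := rfl
  have : p.xg = 1 + 2 * p.hh + p.nR + p.nF := rfl
  have : p.M = 2 * p.hh + 2 := rfl
  unfold kw Pm.kL Pm.kS
  split_ifs <;> first | rfl | omega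

theorem kw_lo (j : ℕ) (i : Fin p.hh) : kw S j (i + 1) = .oc (.inl (.inl (.inl i))) := by
  have := i.2
  rw [kw_R S j (by omega) (by omega), Pm.cR, dif_pos (by omega)]
  rfl

theorem kw_hi (j : ℕ) (i : Fin p.hh) : kw S j (p.hh + i + 1) = .oc (.inl (.inl (.inr i))) := by
  have := i.2
  rw [kw_R S j (by omega) (by omega), Pm.cR, dif_neg (by omega), dif_pos (by omega)]
  exact congrArg (fun z => Kd.oc (Sum.inl (Sum.inl (Sum.inr z)))) (Fin.ext (by simp))

theorem cF_e (c : Fin 3 × Fin p.m1) : p.cF (p.eF c) = .inr (.inl c) := by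
  rw [Pm.cF, dif_pos (p.eF c).2]
  simp

theorem cH_e (c : p.Rh) : p.cH (p.eR c) = .inr (.inr c) := by
  rw [Pm.cH, dif_pos (p.eR c).2]
  simp

theorem kw_F {j y : ℕ} (r : S.rk j = 3) (c : Fin 3 × Fin p.m1)
    (h : y = 2 * p.hh + p.nR + 1 + p.eF c ∨ y = p.xg + 1 + p.eF c) :
    kw S j y = .oc (.inr (.inl c)) := by
  have : p.LU = p.xg + 1 + (p.nF + p.nR) + 1 := rfl
  have : p.xg = 1 + 2 * p.hh + p.nR + p.nF := rfl
  have := (p.eF c).2
  rw [kw, if_pos r, Pm.kL, ← cF_e c]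
  split_ifs <;> first | omega | (congr 2; omega)

theorem kw_H {j y : ℕ} (r : S.rk j = 3) (c : p.Rh)
    (h : y = 2 * p.hh + 1 + p.eR c ∨ y = p.xg + p.nF + 1 + p.eR c) :
    kw S j y = .oc (.inr (.inr c)) := by
  have : p.LU = p.xg + 1 + (p.nF + p.nR) + 1 := rfl
  have : p.xg = 1 + 2 * p.hh + p.nR + p.nF := rfl
  have := (p.eR c).2
  rw [kw, if_pos r, Pm.kL, ← cH_e c]
  split_ifs <;> first | omega | (congr 2; omega)

theorem kw_1 {j : ℕ} (r : S.rk j ≠ 3) {c : Fin p.d1 × Fin 2}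
    (h : j % 2 ^ ((c.1 : ℕ) + 2) = X.rl c.1 c.2) :
    kw S j (2 * p.hh + 1) = .oc (.inl (.inr (.inl c))) := by
  have : p.M = 2 * p.hh + 2 := rfl
  have q : ru p.d1 (j % 2 ^ (p.d1 + 1)) = some c := by
    have := c.1.2
    rw [ru_eq, Nat.mod_mod_of_dvd _ (pow_dvd_pow 2 (by omega)), h]
  rw [kw, if_neg r, Pm.kS, if_neg (by omega), if_neg (by omega), if_pos rfl, q]
  rfl

theorem kw_2 {j : ℕ} (r : S.rk j ≠ 3) (m : S.md (j / p.P1) = j) {c : Fin p.d2 × Fin 2}
    (h : j / p.P1 % 2 ^ ((c.1 : ℕ) + 2) = X.rl c.1 c.2) :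
    kw S j (2 * p.hh + 2) = .oc (.inl (.inr (.inr c))) := by
  have : p.M = 2 * p.hh + 2 := rfl
  rw [kw, if_neg r, Pm.kS, if_neg (by omega), if_neg (by omega), if_neg (by omega), Seg.c2,
    if_pos m, ru_eq.2 h]
  rfl

theorem PP_pos (ok : p.Ok) : 0 < p.PP := Nat.mul_pos (Nat.two_pow_pos _) ok.P0

theorem long_mod (ok : p.Ok) {j : ℕ} (r : S.rk j = 3) {m : ℕ} (hm : m ≤ p.d1 + 1) :
    j % 2 ^ m = 2 ^ m - 1 := by
  have h := (S.rk3 j).1 r
  have hp := PP_pos ok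
  have d : 2 ^ m ∣ p.PP := (pow_dvd_pow 2 hm).mul_right _
  have d1 : p.PP ∣ j + 1 := by
    have := Nat.div_add_mod j p.PP
    exact ⟨j / p.PP + 1, by rw [mul_add]; omega⟩
  obtain ⟨t, ht⟩ := d.trans d1
  have := Nat.two_pow_pos m
  rcases t with _ | t
  · omega
  · have e : j = 2 ^ m - 1 + 2 ^ m * t := by
      rw [mul_add] at ht
      omega
    rw [e, Nat.add_mul_mod_self_left, Nat.mod_eq_of_lt (by omega)]

theorem long_rl (ok : p.Ok) {j : ℕ} (r : S.rk j = 3) (c : Fin p.d1 × Fin 2) :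
    j % 2 ^ ((c.1 : ℕ) + 2) ≠ X.rl c.1 c.2 := by
  have := c.1.2
  rw [long_mod S ok r (by omega), X.rl]
  have h2 := c.2.2
  have := Nat.two_pow_pos (c.1 : ℕ)
  have : (c.2 : ℕ) * 2 ^ ((c.1 : ℕ) + 1) ≤ 1 * 2 ^ ((c.1 : ℕ) + 1) :=
    Nat.mul_le_mul_right _ (by omega)
  rw [pow_succ] at this ⊢
  rw [pow_succ]
  omega

theorem long_md (ok : p.Ok) {j : ℕ} (r : S.rk j = 3) : S.md (j / p.P1) ≠ j := fun h => by
  have q := (S.md1 (j / p.P1)).2
  rw [h] at q
  exact q (long_mod S ok r (Nat.le_succ _))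

theorem mc_succ (j : ℕ) : S.mc (j + 1) = S.mc j + if S.md (j / p.P1) = j then 1 else 0 := by
  have hp : 0 < p.P1 := Nat.two_pow_pos _
  unfold Seg.mc
  rw [Nat.succ_div]
  by_cases d : p.P1 ∣ j + 1
  · rw [if_pos d]
    obtain ⟨h1, h2⟩ := S.md1 (j / p.P1)
    obtain ⟨h3, -⟩ := S.md1 (j / p.P1 + 1)
    have e1 : j + 1 = p.P1 * (j / p.P1 + 1) := by
      have := Nat.succ_div (a := j) (b := p.P1)
      rw [if_pos d] at this
      rw [← this, Nat.mul_div_cancel' d]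
    have e2 := Nat.div_add_mod (S.md (j / p.P1)) p.P1
    have e3 := Nat.div_add_mod (S.md (j / p.P1 + 1)) p.P1
    have e4 := Nat.mod_lt (S.md (j / p.P1)) hp
    rw [h1] at e2
    rw [h3] at e3
    rw [mul_add] at e1 e3
    split_ifs <;> omega
  · rw [if_neg d, add_zero]
    split_ifs <;> omega

theorem ch_succ (ok : p.Ok) (j : ℕ) :
    (j + 1) / p.PP = j / p.PP + if S.rk j = 3 then 1 else 0 := by
  have hp := PP_pos ok
  rw [Nat.succ_div]
  refine congrArg _ (if_congr ?_ rfl rfl)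
  rw [S.rk3]
  have := Nat.div_add_mod j p.PP
  have := Nat.mod_lt j hp
  refine ⟨fun d => ?_, fun h => ⟨j / p.PP + 1, by rw [mul_add]; omega⟩⟩
  have e : j + 1 = p.PP * (j / p.PP) + (j % p.PP + 1) := by omega
  rw [e] at d
  have := Nat.le_of_dvd (by omega) ((Nat.dvd_add_right (dvd_mul_right _ _)).1 d)
  omega

theorem ite_st {m y : ℕ} (h : y ≠ m) : (if m < y + 1 then 1 else 0 : ℕ) = if m < y then 1 else 0 :=
  if_congr (by omega) rfl rfl

theorem cw_step (ok : p.Ok) (j y : ℕ) (c : p.Ctl) (h : kw S j y ≠ .oc c) :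
    cw S B j (y + 1) c = cw S B j y c + if S.rk j = 3 ∧ y = p.xg then p.finV c else 0 := by
  have hx : p.xg = 1 + 2 * p.hh + p.nR + p.nF := rfl
  rcases c with ((i | i) | (c | c)) | (c | c)
  · have : y ≠ i + 1 := fun q => h (q ▸ kw_lo S j i)
    simp only [cw, ite_st this, Pm.finV, Sum.elim_inl, Pi.zero_apply, ite_self, add_zero]
  · have : y ≠ p.hh + i + 1 := fun q => h (q ▸ kw_hi S j i)
    simp only [cw, ite_st this, Pm.finV, Sum.elim_inl, Pi.zero_apply, ite_self, add_zero]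
  · simp only [cw, Pm.finV, Sum.elim_inl, Pi.zero_apply, ite_self, add_zero]
    by_cases q : y = 2 * p.hh + 1
    · have : j % 2 ^ ((c.1 : ℕ) + 2) ≠ X.rl c.1 c.2 := fun w => by
        by_cases r : S.rk j = 3
        · exact long_rl S ok r c w
        · exact h (q ▸ kw_1 S r w)
      rw [if_pos (by omega), if_neg (by omega), iv_succ (X.rl_lt _ _), if_neg this]
      rfl
    · rw [ite_st q]
  · simp only [cw, Pm.finV, Sum.elim_inl, Pi.zero_apply, ite_self, add_zero]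
    by_cases q : y = 2 * p.hh + 2
    · rw [if_pos (by omega), if_neg (by omega), mc_succ, add_zero j]
      split_ifs with m
      · have r : S.rk j ≠ 3 := fun r => long_md S ok r m
        have e : S.mc j = j / p.P1 := by
          rw [Seg.mc, if_neg (by omega), add_zero]
        rw [iv_succ (X.rl_lt _ _), if_neg fun w => h (q ▸ kw_2 S r m (e ▸ w))]
        rfl
      · rfl
    · rw [ite_st q]
  · simp only [cw, Pm.finV, Sum.elim_inl, Sum.elim_inr, Pi.zero_apply, ite_self, add_zero]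
    by_cases r : S.rk j = 3
    · have : ¬ (y = 2 * p.hh + p.nR + 1 + p.eF c ∨ y = p.xg + 1 + p.eF c) :=
        fun q => h (kw_F S r c q)
      exact if_congr (by omega) (if_congr (by omega) rfl rfl) rfl
    · simp only [r, false_and, if_false]
  · simp only [cw]
    by_cases r : S.rk j = 3
    · have : ¬ (y = 2 * p.hh + 1 + p.eR c ∨ y = p.xg + p.nF + 1 + p.eR c) :=
        fun q => h (kw_H S r c q)
      have := (p.eR c).2
      by_cases q : y = p.xg
      · rw [if_pos (by omega), if_neg (by omega), if_pos (by omega), if_pos (by omega),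
          if_neg (by omega), if_neg (by omega), if_pos ⟨r, q⟩, add_zero]
      · rw [if_neg (fun w : S.rk j = 3 ∧ y = p.xg => q w.2), add_zero]
        exact if_congr (by omega) (if_congr (by omega) rfl
          (congrArg _ (if_congr (by omega) rfl rfl))) rfl
    · simp only [r, false_and, if_false, add_zero]

theorem cw_end (ok : p.Ok) (j y : ℕ) (h : y + 1 = wl S j) : cw S B (j + 1) 0 = cw S B j y := by
  have hx : p.xg = 1 + 2 * p.hh + p.nR + p.nF := rfl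
  have : p.LU = p.xg + 1 + (p.nF + p.nR) + 1 := rfl
  have : p.M = 2 * p.hh + 2 := rfl
  have hc := ch_succ S ok j
  have h2 : 2 * p.hh + 2 < y := by
    have : 3 ≤ p.nR := by
      unfold Pm.nR
      omega
    unfold wl at h
    split_ifs at h <;> omega
  funext c
  rcases c with ((i | i) | (c | c)) | (c | c)
  · have := i.2
    simp only [cw]
    rw [if_neg (by omega), if_pos (by omega)]
  · have := i.2
    simp only [cw]
    rw [if_neg (by omega), if_pos (by omega)]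
  · simp only [cw]
    rw [if_neg (by omega), if_pos (by omega)]
  · simp only [cw]
    rw [if_neg (by omega), if_pos (by omega)]
  · have := (p.eF c).2
    simp only [cw]
    rw [if_neg (by omega), hc]
    by_cases r : S.rk j = 3
    · rw [wl, if_pos r] at h
      rw [if_pos r, if_pos (by omega), if_pos (by omega)]
    · rw [if_neg r, if_neg (fun w => r w.1), add_zero]
  · have := (p.eR c).2
    simp only [cw]
    rw [if_neg (by omega), hc]
    by_cases r : S.rk j = 3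
    · rw [wl, if_pos r] at h
      rw [if_pos r, if_pos (by omega), if_pos (by omega)]
    · rw [if_neg r, if_neg (fun w => r w.1), add_zero]

theorem cw_ro {j y : ℕ} (h : S.rk j ≠ 3 ∨ y = 0) (c : p.Ro) :
    cw S B j y (.inr c) = B.ρ (j / p.PP) c := by
  rcases c with c | c <;> simp only [cw] <;> rw [if_neg (by omega)]

theorem cw_fl (hρ : ∀ v i, ∃ b, B.ρ v (Sum.inl (i, b)) = 1) (j y : ℕ) : p.Good (cw S B j y) ∨
    (S.rk j = 3 ∧ 1 < y ∧
      ((∀ z, cw S B j y (p.cS z) = 0) ∨ ∀ z, cw S B j y (p.cS z) = p.finS z)) := by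
  have hx : p.xg = 1 + 2 * p.hh + p.nR + p.nF := rfl
  by_cases h : S.rk j ≠ 3 ∨ y ≤ 2 * p.hh + p.nR + 1
  · refine Or.inl fun i => (hρ (j / p.PP) i).imp fun b hb => ?_
    simp only [cw]
    rw [if_neg (by omega), hb]
  by_cases h' : p.xg + p.nF < y
  · refine Or.inl fun i => (hρ (j / p.PP + 1) i).imp fun b hb => ?_
    have := (p.eF (i, b)).2
    simp only [cw]
    rw [if_pos (by omega), if_pos (by omega), hb]
  refine Or.inr ⟨by omega, by omega, ?_⟩
  by_cases q : p.xg < y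
  · refine Or.inr fun z => ?_
    have := (p.eR (.inr z)).2
    simp only [cw, Pm.cS]
    rw [if_pos (by omega), if_neg (by omega), if_pos q]
    simp [Pm.finV]
  · refine Or.inl fun z => ?_
    have := (p.eR (.inr z)).2
    simp only [cw, Pm.cS]
    rw [if_pos (by omega), if_neg (by omega), if_neg q]
    simp

theorem cw_gd {j : ℕ} (r : S.rk j = 3) : (∀ z, cw S B j p.xg (.inr (.inl z)) = 0) ∧
    (∀ z, cw S B j p.xg (.inr (.inr (.inl z))) = B.en j z.2) ∧
      ∀ z, cw S B j p.xg (p.cS z) = 0 := by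
  have hx : p.xg = 1 + 2 * p.hh + p.nR + p.nF := rfl
  refine ⟨fun z => ?_, fun z => ?_, fun z => ?_⟩
  · have := (p.eF z).2
    simp only [cw]
    rw [if_pos (by omega), if_neg (by omega)]
  · have := (p.eR (.inl z)).2
    simp only [cw]
    rw [if_pos (by omega), if_neg (by omega), if_neg (by omega)]
    simp
  · have := (p.eR (.inr z)).2
    simp only [cw, Pm.cS]
    rw [if_pos (by omega), if_neg (by omega), if_neg (by omega)]
    simp

end

section
variable {p : Pm} {k : ℕ} {a : ℕ → ℕ} {VV : ℕ} (S : Seg p k a VV) (B : Bv p) {G : ℕ}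
  (bG : Fin G → ℕ → ZMod 2)

/-- the balanced part of the global coordinates -/
def gw (j y : ℕ) : V (Fin G) :=
  fun g => bG g (iv G g (j / p.PP + if S.rk j = 3 ∧ p.xg < y then 1 else 0))

theorem gw_step {j y : ℕ} (h : kw S j y ≠ .gad) : gw S bG j (y + 1) = gw S bG j y := by
  rw [Ne, kw_gad] at h
  funext g
  unfold gw
  rw [if_congr (show S.rk j = 3 ∧ p.xg < y + 1 ↔ S.rk j = 3 ∧ p.xg < y by omega) rfl rfl]

theorem gw_gad {j : ℕ} (r : S.rk j = 3) {g : Fin G} (hg : (g : ℕ) = j / p.PP % G) :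
    gw S bG j (p.xg + 1) = gw S bG j p.xg + (gw S bG j (p.xg + 1) g + gw S bG j p.xg g) • e g := by
  funext c
  rw [Pi.add_apply, Pi.smul_apply, e_apply]
  split_ifs with q
  · rw [q, smul_eq_mul, mul_one, add_left_comm, CharTwo.add_self_eq_zero, add_zero]
  · rw [smul_zero, add_zero]
    unfold gw
    rw [if_pos (by omega), if_neg (by omega), iv_succ c.2,
      if_neg fun w => q (Fin.ext (w.symm.trans hg.symm))]
    rfl

theorem gw_end (ok : p.Ok) {j y : ℕ} (h : y + 1 = wl S j) : gw S bG (j + 1) 0 = gw S bG j y := by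
  have : p.LU = p.xg + 1 + (p.nF + p.nR) + 1 := rfl
  funext g
  unfold gw
  rw [if_neg (by omega), ch_succ S ok, add_zero]
  refine congrArg (fun z => bG g (iv G g (j / p.PP + z))) (if_congr ⟨fun r => ⟨r, ?_⟩, And.left⟩ rfl rfl)
  rw [wl, if_pos r] at h
  omega

/-- the conclusion of the balancing -/
def Bal {Ky : Type} (key : ℕ → ℕ → Ky) (off : ℕ → ℕ → V (Fin G)) : Prop :=
  ∀ j < S.J, ∀ j' < S.J, ∀ s < p.ks, j ≠ j' →
    ((s = 0 ∨ S.rk j ≠ 3 ∧ S.rk j' ≠ 3) ∧ key j s = key j' s ∧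
        B.ρ (j / p.PP) = B.ρ (j' / p.PP) ∨ s ≠ 0 ∧ S.rk j = 3 ∧ S.rk j' = 3) →
    (∀ g : Fin G, off j s g +
        bG g (iv G g (j / p.PP + if s = 2 * p.M + 5 ∧ S.rk j = 3 then 1 else 0)) =
      off j' s g + bG g (iv G g (j' / p.PP + if s = 2 * p.M + 5 ∧ S.rk j' = 3 then 1 else 0))) →
    (∀ c : Fin p.d2 × Fin 2, B.b2 c.1 c.2 (iv (2 ^ ((c.1 : ℕ) + 2)) (X.rl c.1 c.2)
        (S.mc (j + if 2 * p.M ≤ s then 1 else 0))) =
      B.b2 c.1 c.2 (iv (2 ^ ((c.1 : ℕ) + 2)) (X.rl c.1 c.2)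
        (S.mc (j' + if 2 * p.M ≤ s then 1 else 0)))) →
    (∀ c : Fin p.d1 × Fin 2, B.b1 c.1 c.2 (iv (2 ^ ((c.1 : ℕ) + 2)) (X.rl c.1 c.2)
        (j + if 4 * p.hh + 2 ≤ s then 1 else 0)) =
      B.b1 c.1 c.2 (iv (2 ^ ((c.1 : ℕ) + 2)) (X.rl c.1 c.2)
        (j' + if 4 * p.hh + 2 ≤ s then 1 else 0))) →
    (s = 0 → ¬ (B.lo j = B.lo j' ∧ B.hi j = B.hi j')) ∧
      (1 ≤ s → s / 2 ≤ p.hh → B.hi j ≠ B.hi j') ∧
      (p.hh < s / 2 → B.lo (j + 1) ≠ B.lo (j' + 1))

theorem mc_long (ok : p.Ok) {j : ℕ} (r : S.rk j = 3) (P : Prop) [Decidable P] :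
    S.mc (j + if P then 1 else 0) = S.mc j := by
  split_ifs
  · rw [mc_succ, if_neg (long_md S ok r), add_zero]
  · rfl

variable {S B bG}

theorem core (ok : p.Ok) {Ky : Type} {key : ℕ → ℕ → Ky} {off : ℕ → ℕ → V (Fin G)}
    (hb : Bal S B bG key off) {j j' s y : ℕ} (hj : j < S.J) (hj' : j' < S.J) (hn : j ≠ j')
    (hs : s < p.ks)
    (hk : (s = 0 ∧ y = 0 ∨ S.rk j ≠ 3 ∧ S.rk j' ≠ 3) ∧ key j s = key j' s ∨
      s ≠ 0 ∧ S.rk j = 3 ∧ S.rk j' = 3)
    (hc : cw S B j y = cw S B j' y) (hg : off j s + gw S bG j y = off j' s + gw S bG j' y)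
    (a0 : s = 2 * p.M + 5 ↔ p.xg < y)
    (a2 : (2 * p.M ≤ s ↔ 2 * p.hh + 2 < y) ∨ S.rk j = 3 ∧ S.rk j' = 3)
    (a1 : 4 * p.hh + 2 ≤ s ↔ 2 * p.hh + 1 < y)
    (a3 : s = 0 ∧ y = 0 ∨ 1 ≤ s ∧ s / 2 ≤ p.hh ∧ y ≤ p.hh + 1 ∨ p.hh < s / 2 ∧ p.hh < y) :
    False := by
  have lo0 : y = 0 → B.lo j = B.lo j' := fun h => funext fun i => by
    have q := congrFun hc (.inl (.inl (.inl i)))
    simp only [cw] at q
    rwa [if_neg (by omega)] at q
  have lo1 : p.hh < y → B.lo (j + 1) = B.lo (j' + 1) := fun h => funext fun i => by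
    have q := congrFun hc (.inl (.inl (.inl i)))
    have := i.2
    simp only [cw] at q
    rwa [if_pos (by omega)] at q
  have hi0 : y ≤ p.hh + 1 → B.hi j = B.hi j' := fun h => funext fun i => by
    have q := congrFun hc (.inl (.inl (.inr i)))
    simp only [cw] at q
    rwa [if_neg (by omega)] at q
  obtain ⟨k1, k2, k3⟩ := hb j hj j' hj' s hs hn
    (hk.imp_left fun h => ⟨h.1.imp_left And.left, h.2, funext fun c => by
      rw [← cw_ro S B (j := j) (y := y) (by omega), ← cw_ro S B (j := j') (y := y) (by omega), hc]⟩)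
    (fun g => by
      have q := congrFun hg g
      simp only [gw, Pi.add_apply] at q
      rwa [if_congr (show s = 2 * p.M + 5 ∧ S.rk j = 3 ↔ S.rk j = 3 ∧ p.xg < y by omega) rfl rfl,
        if_congr (show s = 2 * p.M + 5 ∧ S.rk j' = 3 ↔ S.rk j' = 3 ∧ p.xg < y by omega) rfl rfl])
    (fun c => by
      have q := congrFun hc (.inl (.inr (.inr c)))
      simp only [cw] at q
      rcases a2 with h | ⟨r, r'⟩
      · rwa [if_congr h rfl rfl]
      · rwa [mc_long S ok r, mc_long S ok r'] at q ⊢)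
    (fun c => by
      have q := congrFun hc (.inl (.inr (.inl c)))
      simp only [cw] at q
      rwa [if_congr a1 rfl rfl])
  rcases a3 with h | h | h
  · exact k1 h.1 ⟨lo0 h.2, hi0 (by omega)⟩
  · exact k2 h.1 h.2.1 (hi0 h.2.2)
  · exact k3 h.1 (lo1 h.2)

end

section
variable {p : Pm} {η : ℝ} {I : Inn p η} {k : ℕ} {a : ℕ → ℕ} {VV : ℕ} {N : Net p I k a}
  {S : Seg p k a VV} (H : Shp N S) (D : Dirs N) (g0 : Fin D.G)

/-- forced change of the global coordinates in a unit -/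
noncomputable def dm (j x : ℕ) : V (Fin D.G) :=
  D.fB (N.bas (H.un j x)) g0 + D.gv (e (D.lk (H.un j x)))

/-- sum of the forced changes -/
noncomputable def Fg (j x : ℕ) : V (Fin D.G) :=
  ∑ i ∈ range j, ∑ y ∈ range (S.nu i), dm H D g0 i y + ∑ y ∈ range x, dm H D g0 j y

theorem Fg_nx (j x : ℕ) :
    Fg H D g0 (S.nx (j, x)).1 (S.nx (j, x)).2 = Fg H D g0 j x + dm H D g0 j x := by
  unfold Seg.nx Fg
  split_ifs with h
  · dsimp only at h ⊢
    rw [sum_range_succ, ← h, sum_range_succ, sum_range_zero, add_zero, add_assoc]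
  · dsimp only
    rw [sum_range_succ, add_assoc]

theorem dm_long {j j' y : ℕ} (hj : j < S.J) (hj' : j' < S.J) (r : S.rk j = 3) (r' : S.rk j' = 3)
    (hy : y + 1 < p.LU) : dm H D g0 j (S.nb j + y) = dm H D g0 j' (S.nb j' + y) := by
  have n : S.nu j = S.nb j + p.LU := by rw [Seg.nu, if_pos r]
  have n' : S.nu j' = S.nb j' + p.LU := by rw [Seg.nu, if_pos r']
  unfold dm Dirs.lk
  rw [if_neg (H.lt j hj r y (by omega)).2, if_neg (H.lt j' hj' r' y (by omega)).2,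
    H.n1 j hj _ (by omega), H.n1 j' hj' _ (by omega), add_assoc, add_assoc,
    H.lb j hj j' hj' r r' y (by omega), H.lb j hj j' hj' r r' _ hy]

theorem Fg_long {j j' y : ℕ} (hj : j < S.J) (hj' : j' < S.J) (r : S.rk j = 3) (r' : S.rk j' = 3)
    (hy : y < p.LU) : ∃ w, Fg H D g0 j (S.nb j + y) = Fg H D g0 j (S.nb j) + w ∧
      Fg H D g0 j' (S.nb j' + y) = Fg H D g0 j' (S.nb j') + w := by
  refine ⟨∑ i ∈ range y, dm H D g0 j (S.nb j + i), ?_, ?_⟩
  · unfold Fg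
    rw [sum_range_add, add_assoc]
  · unfold Fg
    rw [sum_range_add, add_assoc, sum_congr rfl fun i hi =>
      dm_long H D g0 hj hj' r r' (y := i) (by have := mem_range.1 hi; omega)]

/-- unit of a slot -/
def xs (S : Seg p k a VV) (j s : ℕ) : ℕ :=
  if s = 0 then 0 else S.nb j + if s ≤ 2 * p.M + 2 then s / 2 else p.M + 2

/-- key of a slot -/
def ky (j s : ℕ) : N.Bs × V (Fin p.kR) := (N.bas (H.un j (xs S j s)), N.cp (H.un j (xs S j s)))

/-- offset of a slot -/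
noncomputable def of (j s : ℕ) : V (Fin D.G) :=
  if s ≠ 0 ∧ S.rk j = 3 then Fg H D g0 j (S.nb j) else Fg H D g0 j (xs S j s)

variable {H D g0}

theorem core2 (ok : p.Ok) {B : Bv p} {bG : Fin D.G → ℕ → ZMod 2}
    (hb : Bal S B bG (ky H) (of H D g0)) {j j' x x' s y : ℕ} (hj : j < S.J) (hj' : j' < S.J)
    (hn : j ≠ j') (hs : s < p.ks) (e1 : N.bas (H.un j x) = N.bas (H.un j' x'))
    (e2 : N.cp (H.un j x) = N.cp (H.un j' x'))
    (hk : s = 0 ∧ y = 0 ∧ x = 0 ∧ x' = 0 ∨ s ≠ 0 ∧ ∃ z, x = S.nb j + z ∧ x' = S.nb j' + z ∧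
      (S.rk j ≠ 3 ∧ S.rk j' ≠ 3 ∧ (s ≤ 2 * p.M + 2 ∧ z = s / 2 ∨ 2 * p.M + 2 < s ∧ z = p.M + 2) ∨
        S.rk j = 3 ∧ S.rk j' = 3 ∧ z < p.LU))
    (hc : cw S B j y = cw S B j' y)
    (hg : Fg H D g0 j x + gw S bG j y = Fg H D g0 j' x' + gw S bG j' y)
    (a0 : s = 2 * p.M + 5 ↔ p.xg < y)
    (a2 : (2 * p.M ≤ s ↔ 2 * p.hh + 2 < y) ∨ S.rk j = 3 ∧ S.rk j' = 3)
    (a1 : 4 * p.hh + 2 ≤ s ↔ 2 * p.hh + 1 < y)
    (a3 : s = 0 ∧ y = 0 ∨ 1 ≤ s ∧ s / 2 ≤ p.hh ∧ y ≤ p.hh + 1 ∨ p.hh < s / 2 ∧ p.hh < y) :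
    False := by
  have A : (s = 0 ∧ y = 0 ∨ S.rk j ≠ 3 ∧ S.rk j' ≠ 3) → xs S j s = x → xs S j' s = x' → False :=
    fun h q q' => core ok hb hj hj' hn hs (Or.inl ⟨h, by rw [ky, ky, q, q', e1, e2]⟩) hc
      (by rwa [of, of, if_neg (by omega), if_neg (by omega), q, q']) a0 a2 a1 a3
  rcases hk with ⟨h1, h2, h3, h4⟩ | ⟨h1, z, h3, h4, ⟨r, r', h5⟩ | ⟨r, r', h5⟩⟩
  · exact A (Or.inl ⟨h1, h2⟩) (by rw [xs, if_pos h1, h3]) (by rw [xs, if_pos h1, h4])
  · refine A (Or.inr ⟨r, r'⟩) ?_ ?_ <;> rw [xs, if_neg h1] <;> split_ifs <;> omega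
  · obtain ⟨w, q, q'⟩ := Fg_long H D g0 hj hj' r r' h5
    refine core ok hb hj hj' hn hs (Or.inr ⟨h1, r, r'⟩) hc ?_ a0 a2 a1 a3
    rw [h3, h4, q, q', add_right_comm, add_right_comm _ w] at hg
    rw [of, of, if_pos ⟨h1, r⟩, if_pos ⟨h1, r'⟩]
    exact add_right_cancel hg

end

section
variable {p : Pm} {k : ℕ} {a : ℕ → ℕ} {VV : ℕ} (S : Seg p k a VV) (B : Bv p) {G : ℕ}
  (bG : Fin G → ℕ → ZMod 2) (gj : ℕ → Fin G)

/-- control values of a unit -/
noncomputable def CW (z : ℕ × ℕ) : V p.Ctl := cw S B z.1 (z.2 - S.nb z.1)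

/-- balanced part of the global values of a unit -/
def GW (z : ℕ × ℕ) : V (Fin G) := gw S bG z.1 (z.2 - S.nb z.1)

/-- route of a unit -/
noncomputable def xf (z : ℕ × ℕ) : Kd p.Ctl → ZMod 2
  | .oc c => CW S B (S.nx z) c + CW S B z c
  | _ => GW S bG (S.nx z) (gj z.1) + GW S bG z (gj z.1)

theorem wl3 (j : ℕ) : 3 ≤ wl S j ∧ (S.rk j = 3 → wl S j = p.LU) ∧
    (S.rk j ≠ 3 → wl S j = p.M + 3) := by
  have : p.LU = p.xg + 1 + (p.nF + p.nR) + 1 := rfl
  have : p.xg = 1 + 2 * p.hh + p.nR + p.nF := rfl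
  unfold wl
  split_ifs <;> omega

theorem nx_in {j x : ℕ} (h : x + 1 ≠ S.nu j) : S.nx (j, x) = (j, x + 1) := if_neg h

theorem nx_end {j x : ℕ} (h : x + 1 = S.nu j) : S.nx (j, x) = (j + 1, 0) := if_pos h

theorem kj_gad {j x : ℕ} : S.kj j x = .gad ↔ S.rk j = 3 ∧ x = S.nb j + p.xg := by
  rcases lt_or_ge x (S.nb j) with h | h
  · exact iff_of_false (kj_lt S h).1 (by omega)
  · obtain ⟨y, rfl⟩ := Nat.exists_eq_add_of_le h
    rw [kj_add, kw_gad, Nat.add_left_cancel_iff]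

theorem kj_rng {j x : ℕ} (h : S.kj j x = .gad ∨ ∃ c, S.kj j x = .oc c) :
    ∃ y, x = S.nb j + y ∧ 1 ≤ y ∧ (S.rk j = 3 → y + 1 < p.LU) ∧ (S.rk j ≠ 3 → y ≤ p.M) := by
  rcases lt_or_ge x (S.nb j) with q | q
  · exact (h.elim (kj_lt S q).1 fun ⟨c, w⟩ => (kj_lt S q).2 c w).elim
  · obtain ⟨y, rfl⟩ := Nat.exists_eq_add_of_le q
    rw [kj_add] at h
    exact ⟨y, rfl, kw_rng S h⟩

theorem CW_nx (ok : p.Ok) (j x : ℕ) (c : p.Ctl) (h : S.kj j x ≠ .oc c) :
    CW S B (S.nx (j, x)) c = CW S B (j, x) c +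
      if S.rk j = 3 ∧ x = S.nb j + p.xg then p.finV c else 0 := by
  have hw := wl3 S j
  have hn := nu_eq S j
  have : p.LU = p.xg + 1 + (p.nF + p.nR) + 1 := rfl
  have : p.xg = 1 + 2 * p.hh + p.nR + p.nF := rfl
  rcases lt_or_ge x (S.nb j) with q | q
  · rw [nx_in S (by omega), if_neg (by omega), add_zero, CW, CW]
    dsimp only
    rw [show x + 1 - S.nb j = x - S.nb j by omega]
  · obtain ⟨y, rfl⟩ := Nat.exists_eq_add_of_le q
    by_cases e : S.nb j + y + 1 = S.nu j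
    · rw [nx_end S e, if_neg (by omega), add_zero, CW, CW]
      dsimp only
      rw [Nat.zero_sub, Nat.add_sub_cancel_left, cw_end S B ok j y (by omega)]
    · rw [kj_add] at h
      rw [nx_in S e, CW, CW]
      dsimp only
      rw [add_assoc, Nat.add_sub_cancel_left, Nat.add_sub_cancel_left, cw_step S B ok j y c h]
      simp only [Nat.add_left_cancel_iff]

theorem GW_nx (ok : p.Ok) (j x : ℕ) (h : S.kj j x ≠ .gad) :
    GW S bG (S.nx (j, x)) = GW S bG (j, x) := by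
  have hw := wl3 S j
  have hn := nu_eq S j
  rcases lt_or_ge x (S.nb j) with q | q
  · rw [nx_in S (by omega), GW, GW]
    dsimp only
    rw [show x + 1 - S.nb j = x - S.nb j by omega]
  · obtain ⟨y, rfl⟩ := Nat.exists_eq_add_of_le q
    by_cases e : S.nb j + y + 1 = S.nu j
    · rw [nx_end S e, GW, GW]
      dsimp only
      rw [Nat.zero_sub, Nat.add_sub_cancel_left, gw_end S bG ok (y := y) (by omega)]
    · rw [kj_add] at h
      rw [nx_in S e, GW, GW]
      dsimp only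
      rw [add_assoc, Nat.add_sub_cancel_left, Nat.add_sub_cancel_left, gw_step S bG h]

theorem CW_d (ok : p.Ok) (j x : ℕ) :
    CW S B (S.nx (j, x)) = CW S B (j, x) + dC (xf S B bG gj (j, x) (S.kj j x)) (S.kj j x) := by
  funext c
  have h := CW_nx S B ok j x c
  have g := kj_gad S (j := j) (x := x)
  rw [Pi.add_apply]
  generalize S.kj j x = K at h g ⊢
  rcases K with _ | _ | _ | c' | _
  case oc =>
    rw [dC, xf, Pi.smul_apply, e_apply]
    split_ifs with q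
    · rw [q, smul_eq_mul, mul_one, add_left_comm, CharTwo.add_self_eq_zero, add_zero]
    · rw [smul_zero, h fun w => q (Kd.oc.inj w).symm, if_neg fun w => by simpa using g.2 w]
  case gad => rw [h (by simp), if_pos (g.1 rfl), dC]
  all_goals
    rw [h (by simp), if_neg fun w => by simpa using g.2 w]
    rfl

theorem GW_d (ok : p.Ok) (hg : ∀ j, (gj j : ℕ) = j / p.PP % G) (j x : ℕ) :
    GW S bG (S.nx (j, x)) =
      GW S bG (j, x) + dG (xf S B bG gj (j, x) (S.kj j x)) (gj j) (S.kj j x) := by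
  by_cases h : S.kj j x = .gad
  · obtain ⟨r, rfl⟩ := (kj_gad S).1 h
    have hw := wl3 S j
    have hn := nu_eq S j
    have : p.LU = p.xg + 1 + (p.nF + p.nR) + 1 := rfl
    rw [h, dG]
    simp only [xf]
    rw [nx_in S (by omega)]
    simp only [GW, add_assoc (S.nb j), Nat.add_sub_cancel_left]
    exact gw_gad S bG r (hg j)
  · rw [GW_nx S bG ok j x h]
    generalize S.kj j x = K at h ⊢
    rcases K with _ | _ | _ | c' | _
    case gad => exact absurd rfl h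
    all_goals exact (add_zero _).symm

end

end Bal2

theorem ctr_ex {p : Pm} {η : ℝ} {I : Inn p η} {k : ℕ} {a : ℕ → ℕ} {VV : ℕ} (ok : p.Ok)
    {N : Net p I k a} {S : Seg p k a VV} (H : Shp N S) (hk : k ≤ 2 ^ p.n) (D : Dirs N) :
    Nonempty (Ctr D) := by
  classical
  have hG : 0 < D.G := lt_of_lt_of_le ok.G00 D.G1
  let g0 : Fin D.G := ⟨0, hG⟩
  let gj : ℕ → Fin D.G := fun j => ⟨j / p.PP % D.G, Nat.mod_lt _ hG⟩
  obtain ⟨ρ, bG, b2, b1, lo, hi, hρ, hb⟩ := bal1 ok S hk D.G D.G1 D.G2 (Bal2.ky H)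
    (Bal2.of H D g0) (fun y => by
      refine le_trans (card_le_card fun j hj => ?_) (H.l0 y.1 y.2)
      simp only [mem_filter] at hj ⊢
      exact ⟨hj.1, congrArg Prod.fst hj.2, congrArg Prod.snd hj.2⟩)
    (fun s hs y => by
      refine le_trans (card_le_card fun j hj => ?_)
        (H.l1 (if s ≤ 2 * p.M + 2 then s / 2 else p.M + 2) (by split_ifs <;> omega) y.1 y.2)
      simp only [mem_filter] at hj ⊢
      obtain ⟨h1, h2, h3⟩ := hj
      rw [Bal2.ky, Bal2.xs, if_neg (by omega)] at h3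
      exact ⟨h1, h2, congrArg Prod.fst h3, congrArg Prod.snd h3⟩)
  let B : Bal2.Bv p := ⟨ρ, b2, b1, lo, hi, fun j => D.enc (gj j)⟩
  replace hb : Bal2.Bal S B bG (Bal2.ky H) (Bal2.of H D g0) := hb
  have hu : ∀ u, N.val u → ∃ j x, j < S.J ∧ x < S.nu j ∧ H.un j x = u ∧ H.co u = (j, x) ∧
      H.co (N.nxt u) = S.nx (j, x) ∧ N.kd (N.bas u) = S.kj j x := fun u h => by
    obtain ⟨h1, h2, h3⟩ := H.vu u h
    exact ⟨_, _, h1, h2, h3, rfl, H.nx u h, by rw [← H.kd _ h1 _ h2, h3]⟩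
  have hsb : ∀ j < S.J, ∀ x < S.nu j, ∀ j' < S.J, ∀ x' < S.nu j',
      N.bas (H.un j x) = N.bas (H.un j' x') → (x < S.nb j ∧ x' < S.nb j' ∧ x = x') ∨
        S.nb j ≤ x ∧ S.nb j' ≤ x' ∧ x + S.nb j' = x' + S.nb j ∧ (S.rk j = 3 ↔ S.rk j' = 3) :=
    fun j hj x hx j' hj' x' hx' w => (H.sb j hj x hx j' hj' x' hx' w).imp_right
      fun ⟨y, w1, w2, w3⟩ => ⟨by omega, by omega, by omega, w3⟩
  have hM : p.M = 2 * p.hh + 2 := rfl
  have hL : p.LU = p.xg + 1 + (p.nF + p.nR) + 1 := rfl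
  have hx : p.xg = 1 + 2 * p.hh + p.nR + p.nF := rfl
  have hs : p.ks = 2 * p.M + 6 := rfl
  have hR : 6 ≤ p.nR := by
    unfold Pm.nR
    omega
  refine ⟨{
    CV := fun u => Bal2.CW S B (H.co u)
    GV := fun u => Bal2.Fg H D g0 (H.co u).1 (H.co u).2 + Bal2.GW S bG (H.co u)
    xi := fun u => Bal2.xf S B bG gj (H.co u) (N.kd (N.bas u))
    gg := fun u => gj (H.co u).1
    c1 := fun u h => ?_
    c2 := fun u h _ => ?_
    me := fun u u' h h' e1 e2 hi e3 e4 => ?_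
    mx := fun u u' h h' e1 e2 hi e3 e4 => ?_
    fl := fun u h _ Y hY => ?_
    gd := fun u h hi => ?_ }⟩
  · obtain ⟨j, x, -, -, -, q1, q2, q3⟩ := hu u h
    rw [q1, q2, q3]
    exact Bal2.CW_d S B bG gj ok j x
  · obtain ⟨j, x, -, -, q0, q1, q2, q3⟩ := hu u h
    rw [q1, q2, q3, Bal2.Fg_nx, Bal2.GW_d S B bG gj ok (fun _ => rfl), Bal2.dm, q0,
      D.fB_eq _ g0 (gj j)]
    abel
  · obtain ⟨j, x, hj, hx0, q0, q1, -, -⟩ := hu u h
    obtain ⟨j', x', hj', hx0', q0', q1', -, -⟩ := hu u' h'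
    rw [q1, q1'] at e3 e4
    subst q0 q0'
    have sb := hsb j hj x hx0 j' hj' x' hx0' e1
    by_cases hn : j = j'
    · subst hn
      rw [show x = x' by omega]
    exfalso
    have n4 := Bal2.nb4 S j
    have n4' := Bal2.nb4 S j'
    have hw := Bal2.wl3 S j
    have hnu := Bal2.nu_eq S j
    have ey : x' - S.nb j' = x - S.nb j := by omega
    simp only [Bal2.CW, Bal2.GW, ey] at e3 e4
    rcases H.ui j hj x hx0 hi with w | w | w
    · exact Bal2.core2 ok hb (s := 0) hj hj' hn (by omega) e1 e2 (Or.inl (by omega)) e3 e4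
        (by omega) (by omega) (by omega) (by omega)
    · exact Bal2.core2 ok hb (s := 1) hj hj' hn (by omega) e1 e2
        (Or.inr ⟨by omega, 0, by omega⟩) e3 e4 (by omega) (by omega) (by omega) (by omega)
    · exact Bal2.core2 ok hb (s := p.M + 1 + (x - S.nb j)) hj hj' hn (by omega) e1 e2
        (Or.inr ⟨by omega, x - S.nb j, by omega⟩) e3 e4 (by omega) (by omega) (by omega) (by omega)
  · obtain ⟨j, x, hj, hx0, q0, q1, q2, q3⟩ := hu u h
    obtain ⟨j', x', hj', hx0', q0', q1', q2', q3'⟩ := hu u' h'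
    rw [q2, q2'] at e3
    rw [q1, q1', q3, q3', add_assoc, add_assoc, ← Bal2.GW_d S B bG gj ok (fun _ => rfl),
      ← Bal2.GW_d S B bG gj ok (fun _ => rfl)] at e4
    rw [q3] at hi
    obtain ⟨y, rfl, y1, y2, y3⟩ := Bal2.kj_rng S hi
    subst q0 q0'
    have sb := hsb j hj _ hx0 j' hj' x' hx0' e1
    by_cases hn : j = j'
    · subst hn
      rw [show x' = S.nb j + y by omega]
    exfalso
    obtain rfl : x' = S.nb j' + y := by omega
    replace sb : S.rk j = 3 ↔ S.rk j' = 3 := sb.elim (fun w => by omega) fun w => w.2.2.2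
    have hw := Bal2.wl3 S j
    have hw' := Bal2.wl3 S j'
    have hnu := Bal2.nu_eq S j
    have hnu' := Bal2.nu_eq S j'
    by_cases r : S.rk j = 3
    · have r' := sb.1 r
      replace y2 := y2 r
      replace hw := hw.2.1 r
      replace hw' := hw'.2.1 r'
      clear sb y3
      rw [Bal2.nx_in S (by omega), Bal2.nx_in S (by omega)] at e3 e4
      simp only [Bal2.CW, Bal2.GW, add_assoc (S.nb _), Nat.add_sub_cancel_left] at e3 e4
      clear hw hw' hnu hnu' hx0 hx0'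
      by_cases w : y ≤ 2 * p.hh
      · exact Bal2.core2 ok hb (s := 2 * y) hj hj' hn (by omega) e1 e2
          (Or.inr ⟨by omega, y, rfl, rfl, Or.inr ⟨r, r', by omega⟩⟩) e3 e4 (by omega)
          (Or.inr ⟨r, r'⟩) (by omega) (by omega)
      by_cases w' : y < p.xg
      · exact Bal2.core2 ok hb (s := 2 * p.M + 4) hj hj' hn (by omega) e1 e2
          (Or.inr ⟨by omega, y, rfl, rfl, Or.inr ⟨r, r', by omega⟩⟩) e3 e4 (by omega)
          (Or.inr ⟨r, r'⟩) (by omega) (by omega)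
      · exact Bal2.core2 ok hb (s := 2 * p.M + 5) hj hj' hn (by omega) e1 e2
          (Or.inr ⟨by omega, y, rfl, rfl, Or.inr ⟨r, r', by omega⟩⟩) e3 e4 (by omega)
          (Or.inr ⟨r, r'⟩) (by omega) (by omega)
    · have r' : S.rk j' ≠ 3 := fun w => r (sb.2 w)
      replace y3 := y3 r
      replace hw := hw.2.2 r
      replace hw' := hw'.2.2 r'
      clear sb y2
      rw [Bal2.nx_in S (by omega), Bal2.nx_in S (by omega)] at e3 e4
      simp only [Bal2.CW, Bal2.GW, add_assoc (S.nb _), Nat.add_sub_cancel_left] at e3 e4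
      clear hw hw' hnu hnu' hx0 hx0'
      exact Bal2.core2 ok hb (s := 2 * y) hj hj' hn (by omega) e1 e2
        (Or.inr ⟨by omega, y, rfl, rfl, Or.inl ⟨r, r', Or.inl (by omega)⟩⟩) e3 e4 (by omega)
        (Or.inl (by omega)) (by omega) (by omega)
  · obtain ⟨j, x, hj, hx0, q0, q1, q2, -⟩ := hu u h
    have hw := Bal2.wl3 S j
    have hnu := Bal2.nu_eq S j
    have tp : S.rk j = 3 → S.nb j ≤ x → N.top (N.bas u) := fun r w => by
      have := (H.lt j hj r (x - S.nb j) (by omega)).1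
      rwa [Nat.add_sub_cancel' w, q0] at this
    rw [q1, q2] at hY
    rcases hY with rfl | rfl
    · exact (Bal2.cw_fl S B hρ j (x - S.nb j)).imp_right fun w => ⟨tp w.1 (by omega), w.2.2⟩
    · by_cases e : x + 1 = S.nu j
      · rw [Bal2.nx_end S e]
        exact (Bal2.cw_fl S B hρ (j + 1) (0 - S.nb (j + 1))).imp_right fun w => by omega
      · rw [Bal2.nx_in S e]
        exact (Bal2.cw_fl S B hρ j (x + 1 - S.nb j)).imp_right fun w => ⟨tp w.1 (by omega), w.2.2⟩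
  · obtain ⟨j, x, -, -, -, q1, -, q3⟩ := hu u h
    obtain ⟨r, rfl⟩ := (Bal2.kj_gad S).1 (q3.symm.trans hi)
    simp only [q1, Bal2.CW, Nat.add_sub_cancel_left]
    exact Bal2.cw_gd S B r

end Pool.Agent.Work.MP_ede3c6_co.Y
end

-- merged part: Pool.Agent.Work.MP_ede3c6_co.Y.Top
section
/-! Leaves of the top vertices from the run condition.

PLAN. As `dat_path` in `V/C1.lean` with `u i := use k a n i ≠ 0` and `fit_of_run`: let `t i` be the
direction of the step from `x i` to `x (i + 1)`; a top vertex `i` uses all directions except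
`t i`, `t (i - 1)`, `t (i - 2)` if `u (i - 2)`, and `t (i + 1)` if `¬ u i`. If top vertices `i`,
`j = i + 2` have a common neighbour `x i + e c = x j + e d` with `c ≠ d` then
`e c + e d = e (t i) + e (t (i + 1))`, so `c = t i` (excluded) or `c = t (i + 1)`, `d = t i`
(excluded for one of the two). -/

set_option autoImplicit false

namespace Pool.Agent.Work.MP_ede3c6_co.Y

open Finset Vol

theorem top_dat {κ : Type} [Fintype κ] [DecidableEq κ] {k n : ℕ} {a : ℕ → ℕ}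
    (hn : Fintype.card κ = n) (hR : Run k a n) (x : ℕ → V κ) (tp : ℕ → Prop)
    (ld : ℕ → ℕ → κ) (xx : ∀ i < k, ∀ j < k, x i = x j → i = j)
    (st : ∀ i, i + 1 < k → ∃ c, x (i + 1) = x i + e c)
    (t1 : ∀ i < k, ∀ j < k, tp i → ∀ c, x j = x i + e c → j = i + 1 ∨ i = j + 1)
    (t2 : ∀ i < k, ∀ j < k, tp i → tp j → ∀ c d, c ≠ d → x i + e c = x j + e d →
      i = j + 2 ∨ j = i + 2)
    (t3 : ∀ i < k, ∀ j < k, tp i → ¬ tp j → ∀ m < a j, ∀ c, x j + e (ld j m) ≠ x i + e c)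
    (n1 : ∀ i < k, ∀ j < k, ¬ tp i → ¬ tp j → ∀ m < a i, ∀ m' < a j,
      x i + e (ld i m) = x j + e (ld j m') → i = j ∧ m = m')
    (n2 : ∀ i < k, ∀ j < k, ¬ tp j → ∀ m < a j, x j + e (ld j m) ≠ x i) :
    (cat k a).IsContained (cube n) := by
  classical
  have : Nonempty κ := ⟨ld 0 0⟩
  choose! p hp using st
  let t : ℕ → Finset κ := fun i => if i + 1 < k then {p i} else ∅
  have ht : ∀ i c, i + 1 < k → x (i + 1) = x i + e c → c ∈ t i := fun i c hi h => by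
    simp only [t, if_pos hi]
    exact mem_singleton.2 (e_inj (add_left_cancel (h.symm.trans (hp i hi))))
  have ht1 : ∀ i, (t i).card ≤ if i + 1 < k then 1 else 0 := fun i => by
    simp only [t]
    split_ifs <;> simp
  have ht3 : ∀ i, (t i).card ≤ 1 := fun i => (ht1 i).trans (by split_ifs <;> omega)
  let F : ℕ → Finset κ := fun i => (t i ∪ (if 0 < i then t (i - 1) else ∅)) ∪
    ((if 2 ≤ i ∧ use k a n (i - 2) ≠ 0 then t (i - 2) else ∅) ∪
      (if use k a n i ≠ 0 then ∅ else t (i + 1)))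
  have hF : ∀ i, i < k → a i ≤ ((F i)ᶜ).card := fun i hi => by
    rw [card_compl, hn]
    have c1 : (F i).card ≤ _ :=
      (card_union_le _ _).trans (add_le_add (card_union_le _ _) (card_union_le _ _))
    have c2 := ht1 i
    have c3 := ht3 (i - 1)
    have c4 := ht3 (i - 2)
    have c5 := ht3 (i + 1)
    have c6 := fit_of_run hR hi
    unfold deg back at c6
    have c7 : (∅ : Finset κ).card = 0 := rfl
    split_ifs at c1 c2 c6 <;> omega
  have hD : ∀ i, ∃ d : ℕ → κ, (¬ tp i → d = ld i) ∧ (i < k → tp i → (∀ l < a i, d l ∉ F i) ∧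
      ∀ l < a i, ∀ l' < a i, d l = d l' → l = l') := fun i => by
    by_cases h : i < k ∧ tp i
    · obtain ⟨φ, hφ⟩ := Function.Embedding.exists_of_card_le_finset (α := Fin (a i))
        (s := (F i)ᶜ) (by simpa using hF i h.1)
      refine ⟨fun l => if h : l < a i then φ ⟨l, h⟩ else ld i l, fun z => absurd h.2 z,
        fun _ _ => ⟨fun l hl => ?_, fun l hl l' hl' z => ?_⟩⟩
      · simp only [dif_pos hl]
        exact mem_compl.1 (hφ ⟨_, rfl⟩)
      · simp only [hl, hl', dif_pos] at z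
        simpa using φ.injective z
    · exact ⟨ld i, fun _ => rfl, fun h1 h2 => absurd ⟨h1, h2⟩ h⟩
  choose d d1 d2 using hD
  have two : ∀ i c c', i + 2 < k → c ∉ F i → c' ∉ F (i + 2) → c ≠ c' →
      x i + e c ≠ x (i + 2) + e c' := fun i c c' hi h1 h2 h3 z => by
    have q1 := hp i (by omega)
    have q2 := hp (i + 1) hi
    have q3 := ht i _ (by omega) q1
    have q4 := ht (i + 1) _ hi q2
    have q5 : c' ≠ p (i + 1) := by
      rintro rfl
      exact h2 (by simp [F, q4])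
    have q6 : (e c : V κ) = e (p i) + e (p (i + 1)) + e c' := by
      rw [q2, q1] at z
      linear_combination z
    obtain rfl : c' = p i := by
      by_contra hne
      have := congrFun q6 c'
      simp [e_apply, h3.symm, q5, hne] at this
    obtain rfl : c = p (i + 1) := e_inj (by rw [q6, add_right_comm, vv, zero_add])
    by_cases hu : use k a n i = 0
    · exact h1 (by simp [F, hu, q4])
    · exact h2 (by simp [F, hu, q3])
  refine Dat.contained (x := x) (y := fun i l => x i + e (d i l))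
    ⟨fun i j hi hj => xx i hi j hj, fun i j l hi hj hl z => ?_,
      fun i j l l' hi hj hl hl' z => ?_, fun i hi => by rw [hp i hi, hd_e],
      fun i l _ _ => hd_e _ _⟩ hn
  · by_cases h : tp j
    · have h1 := (d2 j hj h).1 l hl
      rcases t1 j hj i hi h _ z with rfl | rfl
      · exact h1 (by simp [F, ht j _ hi z])
      · have := ht i (d (i + 1) l) hj (by rw [z, add_assoc, vv, add_zero])
        exact h1 (by simp [F, this])
    · rw [d1 j h] at z
      exact n2 i hi j hj h l hl z.symm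
  · by_cases h : tp i <;> by_cases h' : tp j
    · by_cases q : d i l = d j l'
      · obtain rfl := xx i hi j hj (add_right_cancel (q ▸ z))
        exact ⟨rfl, (d2 i hi h).2 l hl l' hl' q⟩
      · rcases t2 i hi j hj h h' _ _ q z with rfl | rfl
        · exact absurd z.symm (two j _ _ hi ((d2 j hj h').1 l' hl') ((d2 _ hi h).1 l hl) (Ne.symm q))
        · exact absurd z (two i _ _ hj ((d2 i hi h).1 l hl) ((d2 _ hj h').1 l' hl') q)
    · rw [d1 j h'] at z
      exact absurd z.symm (t3 i hi j hj h h' l' hl' _)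
    · rw [d1 i h] at z
      exact absurd z (t3 j hj i hi h' h l hl _)
    · rw [d1 i h, d1 j h'] at z
      exact n1 i hi j hj h h' l hl l' hl' z

end Pool.Agent.Work.MP_ede3c6_co.Y
end

-- merged part: Pool.Agent.Work.MP_ede3c6_co.Y.Main
section
/-! The embedding from the abstract system.

PLAN. States `st : ℕ → Un × ℕ`, `st 0 = (u0, 0)`, `st (i + 1) = (u, t + 1)` if `t + 1 < len`, else
`(nxt u, 0)`; `dir i = ir u t` or `lk u`; `x 0 = 0`, `x (i + 1) = x i + e (dir i)`; `idx u + t = i`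
(`ids`). `On u`: `st (idx u) = (u, 0)` and all units up to then are valid; `E u = x (idx u)`; for
`t < len`, `x (idx u + t) = E u + px u t`. All positions `< k + 2` lie in units with `On` (`cov`).
Invariants for `On u`, with constants fixed at `u0`: `phi (E u) = nl u s + c`, `cv (E u) = CV u + c'`,
`gv (E u) = GV u + c''` (`st_in`, `gad_phi`, `st_lk`, `end_cv`, `end_gv`, `c1`, `c2`, `lk_nc`); for a
time that is not `Int`, `phi (E u + px u t) = nl u (ps kd ξ t) + c` and `np kd (ps kd ξ t)`.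
Exits: `On u`, `On u'`, same base of kind `oc` or `gad`, same `cp`, equal exit points give `u = u'`
(`mx`, `fB_eq`). Entries: `E u = E u'` gives `u = u'` by strong induction on `idx u`: `l1` gives the
same base and `cp`; if `¬ ui` use `me`; else both have predecessors (`ui0`) with the same base
(`hui`), not `ft` (`fo`), same `cp` (`nf`), same link, so equal exit points; use the exit lemma or
(kinds `sg`, `two`, `pre`: `px` depends on the base only) induction. Injectivity for all pairs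
`(u, t)` with `On u`, `t < len`: `l1` (the position determines `t` and, inside an octagon, `ξ`),
`ga` and `gb` with `S = ∅` (two gadget units have the same base by `r7`, and `cp = 0` by `gtop`,
`nd4`, `cp0`). `Det (bas u) (ps kd ξ t) z` at a position `i ≤ k` gives `dir i = sd z` or `0 < i` and
`dir (i - 1) = sd z` (`huo`, `hui`, `fo`, `ui0`). `t1` for all `i, j ≤ k`: `p1`, `ga`, `gb` with
`S = {c}`. `t2`: if `c` or `d` is the direction of the step after or before `i` or `j`, `t1` applies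
to the neighbour; `p2`, `ga`, `gb` with `S = {c, d}`. `t3`, `n1`, `n2`: `p3`, `p4`, `p5`, `dem`,
and `ga` (first part) when the other vertex is `Int`. Conclude with `top_dat`, `tp i := top (bas u)`,
`ld i m := D.ld (bas u) (ps kd ξ t) m`. -/

set_option autoImplicit false

namespace Pool.Agent.Work.MP_ede3c6_co.Y

open Finset Vol

section
variable {C : Type}

private theorem mn_len (T : ℕ) (kd : Kd C) : 0 < len T kd := by
  cases kd <;> simp [len]

private theorem mn_ps0 (kd : Kd C) (ξ : ZMod 2) : ps kd ξ 0 = .s := by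
  cases kd <;> simp [ps]

private theorem mn_psx {T : ℕ} (hT : 0 < T) (kd : Kd C) (ξ : ZMod 2) : ps kd ξ (len T kd - 1) = ex kd := by
  cases kd <;> simp [ps, len, ex, hT.ne']

private theorem mn_np (kd : Kd C) (ξ : ZMod 2) (t : ℕ) : np kd (ps kd ξ t) := by
  cases kd <;> simp only [ps, np] <;> split_ifs <;> simp

private theorem mn_nps (kd : Kd C) : np kd .s := by
  cases kd <;> simp [np]

private theorem mn_z2 {ξ ξ' : ZMod 2} (h : ξ ≠ 1) (h' : ξ' ≠ 1) : ξ = ξ' := by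
  revert ξ ξ'
  decide

private theorem mn_pst {T : ℕ} {kd : Kd C} {ξ ξ' : ZMod 2} {t t' : ℕ} (ht : t < len T kd)
    (ht' : t' < len T kd) (hi : ¬ (kd = .gad ∧ 0 < t ∧ t < T)) (hi' : ¬ (kd = .gad ∧ 0 < t' ∧ t' < T))
    (h : ps kd ξ t = ps kd ξ' t') :
    t = t' ∧ (t = 0 ∨ t + 1 = len T kd ∨ (kd ≠ .gad ∧ ξ = ξ')) := by
  cases kd with
  | oc c =>
    simp only [len] at ht ht' ⊢
    by_cases x : ξ = 1 <;> by_cases x' : ξ' = 1 <;> interval_cases t <;> interval_cases t' <;>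
      simp [ps, x, x'] at h ⊢ <;> exact mn_z2 x x'
  | gad =>
    simp only [len, ps, true_and] at *
    split_ifs at h <;> omega
  | _ =>
    simp only [len, ps] at *
    first | omega | (split_ifs at h <;> omega)

end

private theorem mn_T (p : Pm) : 0 < p.T := by
  unfold Pm.T
  omega

namespace Net
variable {p : Pm} {η : ℝ} {I : Inn p η} {k : ℕ} {a : ℕ → ℕ} (N : Net p I k a)

/-- the units in their order -/
private def U : ℕ → N.Un
  | 0 => N.u0
  | j + 1 => N.nxt (U j)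

/-- number of vertices of a unit -/
private def ln (j : ℕ) : ℕ := len p.T (N.kd (N.bas (N.U j)))

/-- all units up to this one are valid -/
private def On (j : ℕ) : Prop := ∀ i ≤ j, N.val (N.U i)

/-- position on the spine -/
private def pos (j t : ℕ) : ℕ := N.idx (N.U j) + t

variable {N}

private theorem On.val {j : ℕ} (h : N.On j) : N.val (N.U j) := h j le_rfl

private theorem On.pre {j : ℕ} (h : N.On (j + 1)) : N.On j := fun i hi => h i (by omega)

private theorem On.nxt {j : ℕ} (h : N.On j) (h' : N.pos j (N.ln j) < k + 2) : N.On (j + 1) := fun i hi => by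
  rcases Nat.of_le_succ hi with hi | rfl
  · exact h i hi
  · by_contra hn
    have := N.cov _ h.val hn
    rw [N.ids] at this
    exact absurd h' (not_lt.2 this)

private theorem idx_lt {j j' : ℕ} (h : j < j') : N.idx (N.U j) + N.ln j ≤ N.idx (N.U j') := by
  induction h with
  | refl => exact (N.ids _).ge
  | step _ ih => exact ih.trans ((Nat.le_add_right _ _).trans (N.ids _).ge)

private theorem pos_inj {j t j' t' : ℕ} (ht : t < N.ln j) (ht' : t' < N.ln j') (h : N.pos j t = N.pos j' t') :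
    j = j' ∧ t = t' := by
  unfold pos at h
  rcases lt_trichotomy j j' with q | rfl | q
  · have := idx_lt (N := N) q
    omega
  · omega
  · have := idx_lt (N := N) q
    omega

private theorem U_inj {j j' : ℕ} (h : N.U j = N.U j') : j = j' :=
  (pos_inj (mn_len _ _) (mn_len _ _) (congrArg (N.idx · + 0) h)).1

private theorem pos_ex : ∀ i < k + 2, ∃ j t, N.On j ∧ t < N.ln j ∧ N.pos j t = i
  | 0, _ => ⟨0, 0, fun i hi => by
      obtain rfl : i = 0 := by omega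
      exact N.v0, mn_len _ _, N.i0⟩
  | i + 1, hi => by
    obtain ⟨j, t, h1, h2, rfl⟩ := pos_ex i (by omega)
    by_cases h : t + 1 < N.ln j
    · exact ⟨j, t + 1, h1, h, rfl⟩
    · have h3 : N.ln j = t + 1 := by omega
      exact ⟨j + 1, 0, h1.nxt (by rw [h3]; exact hi), mn_len _ _, (N.ids _).trans
        (congrArg (N.idx (N.U j) + ·) h3)⟩

private theorem top_of_int {u : N.Un} {t : ℕ} (h : N.Int u t) : N.top (N.bas u) := N.gtop _ h.1

end Net

private theorem Dirs.lk_eq {p : Pm} {η : ℝ} {I : Inn p η} {k : ℕ} {a : ℕ → ℕ} {N : Net p I k a}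
    (D : Dirs N) {u : N.Un} (h : ¬ N.ft u) :
    D.lk u = D.sd (.pr (N.bas u) (N.bas (N.nxt u))) := if_neg h

namespace Ctr
variable {p : Pm} {η : ℝ} {I : Inn p η} {k : ℕ} {a : ℕ → ℕ} {N : Net p I k a} {D : Dirs N}
  (C : Ctr D)

/-- entry points of the units -/
private noncomputable def E : ℕ → V (Fin p.n)
  | 0 => 0
  | j + 1 => E j + C.px (N.U j) (N.ln j - 1) + e (D.lk (N.U j))

/-- the points of the walk -/
private noncomputable def X (j t : ℕ) : V (Fin p.n) := C.E j + C.px (N.U j) t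

/-- the positions of the walk inside the bases -/
private def o (j t : ℕ) : Pos := ps (N.kd (N.bas (N.U j))) (C.xi (N.U j)) t

/-- the step after or before a point of the walk has the direction `c` -/
private def Nb (j t : ℕ) (c : Fin p.n) : Prop :=
  (t + 1 < N.ln j ∧ C.ir (N.U j) t = c) ∨ (t + 1 = N.ln j ∧ D.lk (N.U j) = c) ∨
    (0 < t ∧ C.ir (N.U j) (t - 1) = c) ∨ (t = 0 ∧ ∃ i, j = i + 1 ∧ D.lk (N.U i) = c)

private theorem px0 (u : N.Un) : C.px u 0 = 0 := rfl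

private theorem px1 (u : N.Un) (t : ℕ) : C.px u (t + 1) = C.px u t + e (C.ir u t) := sum_range_succ _ _

private theorem X0 (j : ℕ) : C.X j 0 = C.E j := by rw [X, px0, add_zero]

private theorem X1 (j t : ℕ) : C.X j (t + 1) = C.X j t + e (C.ir (N.U j) t) := by rw [X, px1, X, add_assoc]

private theorem E1 (j : ℕ) : C.E (j + 1) = C.X j (N.ln j - 1) + e (D.lk (N.U j)) := rfl

private theorem onp (j t : ℕ) : np (N.kd (N.bas (N.U j))) (C.o j t) := mn_np _ _ _

variable {C}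

private theorem px_eq {u u' : N.Un} (hb : N.bas u = N.bas u') (hk : N.kd (N.bas u) ≠ .gad)
    (h : C.xi u = C.xi u' ∨ ¬ ∃ c, N.kd (N.bas u) = .oc c) (t : ℕ) : C.px u t = C.px u' t := by
  unfold px Dirs.pfx Dirs.inn
  rw [← hb]
  generalize N.kd (N.bas u) = kd at hk h
  cases kd with
  | oc c => rw [h.resolve_right fun q => q ⟨c, rfl⟩]
  | gad => exact absurd rfl hk
  | _ => rfl

private theorem ph0 (ok : p.Ok) {j : ℕ} (hu : N.val (N.U j)) {c : p.Lab}
    (h : D.phi (C.E j) + c = D.nl (N.U j) .s) {t : ℕ} (ht : t < N.ln j) (hi : ¬ N.Int (N.U j) t) :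
    D.phi (C.X j t) + c = D.nl (N.U j) (C.o j t) := by
  by_cases hk : N.kd (N.bas (N.U j)) = .gad
  · rcases Nat.eq_zero_or_pos t with rfl | h0
    · rw [X0, o, mn_ps0, h]
    · obtain rfl : t = p.T := by
        have : ¬ t < p.T := fun q => hi ⟨hk, h0, q⟩
        simp only [Net.ln, hk, len] at ht
        omega
      have h1 : C.o j p.T = .x := by simp [o, hk, ps, h0.ne']
      rw [h1, X, D.phi_add, add_right_comm, h, Dirs.nl, Dirs.nl,
        D.gad_phi ok hk (C.xi _) (C.gg _), add_right_comm]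
      rfl
  · clear hi
    induction t with
    | zero => rw [X0, o, mn_ps0, h]
    | succ t ih =>
      rw [X1, D.phi_add, D.phi_e, add_right_comm, ih (by omega)]
      exact (D.st_in ok hu hk _ _ ht).symm

private theorem nint (j : ℕ) : ¬ N.Int (N.U j) (N.ln j - 1) := fun h => by
  have := h.2.2
  simp [Net.ln, h.1, len] at this

private theorem ln1 (j : ℕ) : N.ln j - 1 < N.ln j := Nat.sub_lt (mn_len _ _) one_pos

private theorem inv (ok : p.Ok) : ∀ j, N.On j → D.phi (C.E j) + D.nl N.u0 .s = D.nl (N.U j) .s ∧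
    D.cv (C.E j) + C.CV N.u0 = C.CV (N.U j) ∧ D.gv (C.E j) + C.GV N.u0 = C.GV (N.U j)
  | 0, _ => by
    have h1 := D.phi_add 0 0
    have h2 := D.gv_add 0 0
    rw [add_zero, left_eq_add] at h1 h2
    exact ⟨by rw [E, h1, zero_add]; rfl, zero_add _, by rw [E, h2, zero_add]; rfl⟩
  | j + 1, h => by
    obtain ⟨h1, h2, h3⟩ := inv ok j h.pre
    have hu := h.pre.val
    have hb : N.used (N.bas (N.U j)) := ⟨_, hu, rfl⟩
    refine ⟨?_, ?_, ?_⟩
    · rw [E1, D.phi_add, D.phi_e, add_right_comm, ph0 ok hu h1 (ln1 j) (nint j), o, Net.ln,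
        mn_psx (mn_T p)]
      exact (D.st_lk ok hu h.val).symm
    · rw [E, D.cv_add, D.cv_add, D.cv_e (D.lk_nc ok hu h.val), add_zero, add_right_comm, h2, px,
        Net.ln, D.end_cv ok hb]
      exact (C.c1 _ hu).symm
    · rw [E, D.gv_add, D.gv_add, add_right_comm, add_right_comm (D.gv _), h3, px, Net.ln,
        D.end_gv ok hb, ← add_assoc]
      exact (C.c2 _ hu h.val).symm

private theorem ph (ok : p.Ok) {j t : ℕ} (h : N.On j) (ht : t < N.ln j) (hi : ¬ N.Int (N.U j) t) :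
    D.phi (C.X j t) + D.nl N.u0 .s = D.nl (N.U j) (C.o j t) := ph0 ok h.val (inv ok j h).1 ht hi

private theorem ph1 (ok : p.Ok) {j t : ℕ} (h : N.On j) (ht : t < N.ln j) (hi : ¬ N.Int (N.U j) t)
    (c : Fin p.n) :
    D.nl (N.U j) (C.o j t) + D.lam c = D.phi (C.X j t + e c) + D.nl N.u0 .s := by
  rw [← ph ok h ht hi, D.phi_add, D.phi_e, add_right_comm]

private theorem yv_eq (ok : p.Ok) {j : ℕ} (h : N.On j) (t : ℕ) :
    C.yv (N.U j) t = D.cv (C.X j t) + C.CV N.u0 := by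
  rw [yv, ← (inv ok j h).2.1, X, D.cv_add, add_right_comm]

private theorem exit (ok : p.Ok) {j j' : ℕ} (h : N.On j) (h' : N.On j')
    (hb : N.bas (N.U j) = N.bas (N.U j')) (hc : N.cp (N.U j) = N.cp (N.U j'))
    (hx : C.X j (N.ln j - 1) = C.X j' (N.ln j' - 1)) : j = j' ∨ C.E j = C.E j' := by
  by_cases hk : N.kd (N.bas (N.U j)) = .gad ∨ ∃ c, N.kd (N.bas (N.U j)) = .oc c
  · have h1 : ∀ i, N.On i → C.CV (N.nxt (N.U i)) = D.cv (C.X i (N.ln i - 1)) + C.CV N.u0 :=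
      fun i hi => by
        rw [← yv_eq ok hi, yv, px, Net.ln, D.end_cv ok ⟨_, hi.val, rfl⟩, C.c1 _ hi.val]
    have h2 : ∀ i, N.On i → C.GV (N.U i) + dG (C.xi (N.U i)) (C.gg (N.U i)) (N.kd (N.bas (N.U i))) +
        D.fB (N.bas (N.U i)) (C.gg (N.U j)) = D.gv (C.X i (N.ln i - 1)) + C.GV N.u0 := fun i hi => by
      rw [X, D.gv_add, add_right_comm (D.gv _), (inv ok i hi).2.2, px, Net.ln,
        D.end_gv ok ⟨_, hi.val, rfl⟩, D.fB_eq _ (C.gg (N.U j)) (C.gg (N.U i)), add_assoc, add_comm (dG _ _ _)]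
    refine .inl (Net.U_inj (C.mx _ _ h.val h'.val hb hc hk (by rw [h1 j h, h1 j' h', hx]) ?_))
    have h3 := h2 j h
    rw [hx, ← h2 j' h', ← hb] at h3
    rw [add_right_cancel h3, hb]
  · rw [not_or] at hk
    rw [X, X, px_eq hb hk.1 (.inr hk.2), Net.ln, Net.ln, hb] at hx
    exact .inr (add_right_cancel hx)

private theorem entry (ok : p.Ok) : ∀ j j', N.On j → N.On j' → C.E j = C.E j' → j = j' := by
  intro j
  induction j using Nat.strong_induction_on with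
  | _ j ih =>
  intro j' h h' hE
  obtain ⟨a1, a2, a3⟩ := inv (C := C) ok j h
  obtain ⟨b1, b2, b3⟩ := inv (C := C) ok j' h'
  obtain ⟨hb, -, hc⟩ := D.l1 h.val h'.val (mn_nps _) (mn_nps _) (by rw [← a1, ← b1, hE])
  by_cases hi : N.ui (N.bas (N.U j))
  · have hi' := hb ▸ hi
    rcases j with _ | j
    · exact absurd hi N.ui0
    rcases j' with _ | j'
    · exact absurd hi' N.ui0
    have hb' := N.hui _ _ h.pre.val h'.pre.val h.val h'.val hb hi
    have f : ¬ N.ft (N.U j) := fun q => (N.fo _ h.pre.val h.val q).2 hi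
    have f' : ¬ N.ft (N.U j') := fun q => (N.fo _ h'.pre.val h'.val q).2 hi'
    have hl : D.lk (N.U j) = D.lk (N.U j') := by
      rw [D.lk_eq f, D.lk_eq f', hb']
      exact congrArg (fun b => D.sd (.pr _ b)) hb
    rw [E1, E1, hl] at hE
    rcases exit ok h.pre h'.pre hb' (((N.nf _ h.pre.val h.val f).1.symm.trans hc).trans
      (N.nf _ h'.pre.val h'.val f').1) (add_right_cancel hE) with q | q
    · rw [q]
    · rw [ih j j.lt_succ_self j' h.pre h'.pre q]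
  · exact Net.U_inj (C.me _ _ h.val h'.val hb hc hi (by rw [← a2, ← b2, hE]) (by rw [← a3, ← b3, hE]))

private theorem nb_int {j t : ℕ} (hi : N.Int (N.U j) t) : C.Nb j t (C.ir (N.U j) (t - 1)) ∧
    C.Nb j t (C.ir (N.U j) t) :=
  ⟨.inr (.inr (.inl ⟨hi.2.1, rfl⟩)), .inl ⟨by simpa [Net.ln, hi.1, len] using hi.2.2, rfl⟩⟩

private theorem gad (ok : p.Ok) {j t j' t' : ℕ} (h : N.On j) (h' : N.On j') (ht' : t' < N.ln j')
    (hi : N.Int (N.U j) t) (S : Finset (Fin p.n)) (hS : S.card ≤ 2)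
    (hx : C.X j' t' = C.X j t + ∑ c ∈ S, e c) : N.top (N.bas (N.U j')) ∧
      ((∃ c ∈ S, C.Nb j t c ∨ C.Nb j' t' c) ∨ (j = j' ∧ t = t' ∧ S = ∅)) := by
  by_cases hi' : N.Int (N.U j') t'
  · have hb := N.r7 _ _ hi.1 hi'.1
    have h0 : ∀ u s, N.val u → N.Int u s → N.cp u = 0 := fun u s hu q => N.cp0 u hu
      ((N.nd4 u hu .s (mn_nps _)).2 ((N.nd4 u hu .s (mn_nps _)).1 (Net.top_of_int q)))
    have hc := (h0 _ _ h.val hi).trans (h0 _ _ h'.val hi').symm
    obtain ⟨a1, a2, -⟩ := inv (C := C) ok j h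
    obtain ⟨b1, b2, -⟩ := inv (C := C) ok j' h'
    refine ⟨Net.top_of_int hi', ?_⟩
    rcases C.gb ok h.val h'.val hi hi' S hS (E := C.E j) (E' := C.E j')
      (add_right_cancel (b := D.nl N.u0 .s) (by rw [a1, b1, Dirs.nl, Dirs.nl, hb, hc]))
      (by rw [← a2, ← b2, ← add_assoc, ← add_assoc, vv, vv]) hx with q | q | q | q | q | q
    · exact .inl ⟨_, q, .inl (nb_int hi).1⟩
    · exact .inl ⟨_, q, .inl (nb_int hi).2⟩
    · exact .inl ⟨_, q, .inr (nb_int hi').1⟩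
    · exact .inl ⟨_, q, .inr (nb_int hi').2⟩
    · obtain rfl := entry ok _ _ h h' q.1
      exact .inr ⟨rfl, q.2 rfl⟩
    · have h1 : ∀ i s, N.Int (N.U i) s → N.ln i - 1 = p.T := fun i s z => by
        simp [Net.ln, z.1, len]
      obtain rfl := (exit ok h h' hb hc (by rw [h1 _ _ hi, h1 _ _ hi']; exact q.2)).elim id
        (entry ok _ _ h h')
      exact absurd rfl q.1
  · obtain ⟨q1, q⟩ := C.ga ok h.val h'.val hi ht' hi' S hS
      (by rw [yv_eq ok h, yv_eq ok h', hx, D.cv_add, add_right_comm])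
    exact ⟨q1, .inl (q.elim (fun q => ⟨_, q, .inl (nb_int hi).1⟩) fun q => ⟨_, q, .inl (nb_int hi).2⟩)⟩

private theorem inj (ok : p.Ok) {j t j' t' : ℕ} (h : N.On j) (h' : N.On j') (ht : t < N.ln j)
    (ht' : t' < N.ln j') (hx : C.X j t = C.X j' t') : j = j' ∧ t = t' := by
  by_cases hi : N.Int (N.U j) t
  · simpa using (gad (C := C) ok h h' ht' hi ∅ (by simp) (by simp [hx])).2
  by_cases hi' : N.Int (N.U j') t'
  · simpa [eq_comm] using (gad (C := C) ok h' h ht hi' ∅ (by simp) (by simp [hx])).2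
  obtain ⟨hb, ho, hc⟩ := D.l1 h.val h'.val (C.onp j t) (C.onp j' t')
    (by rw [← ph ok h ht hi, ← ph ok h' ht' hi', hx])
  have hl : N.ln j' = N.ln j := by rw [Net.ln, ← hb, Net.ln]
  rw [o, o, ← hb] at ho
  rw [Net.Int, ← hb] at hi'
  obtain ⟨rfl, q⟩ := mn_pst ht (ht'.trans_eq hl) hi hi' ho
  refine ⟨?_, rfl⟩
  rcases q with rfl | q | q
  · exact entry ok _ _ h h' (by rwa [X0, X0] at hx)
  · have q' : N.ln j - 1 = t := by rw [Net.ln, ← q, Nat.add_sub_cancel]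
    exact (exit ok h h' hb hc (by rwa [hl, q'])).elim id (entry ok _ _ h h')
  · rw [X, X, px_eq hb q.1 (.inl q.2)] at hx
    exact entry ok _ _ h h' (add_right_cancel hx)

private theorem det {j t : ℕ} (h : N.On j) (ht : t < N.ln j) (hp : N.pos j t ≤ k) (hi : ¬ N.Int (N.U j) t)
    {z : N.Sd} (hz : N.Det (N.bas (N.U j)) (C.o j t) z) : C.Nb j t (D.sd z) := by
  rcases hz with q | q | ⟨q, hu, b, rfl, u, v1, v2, -, v3, rfl⟩ | ⟨q, hu, b, rfl, u, v1, v2, -, rfl, v3⟩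
  · refine .inl ?_
    unfold o at q
    unfold Net.ln at ht ⊢
    unfold ir Dirs.inn
    generalize N.kd (N.bas (N.U j)) = kd at ht q
    cases kd with
    | oc c =>
      simp only [len] at ht ⊢
      by_cases x : C.xi (N.U j) = 1 <;> interval_cases t <;> simp [ps, nx, x] at q ⊢ <;> rw [q]
    | two =>
      simp only [len] at ht ⊢
      interval_cases t <;> simp [ps, nx] at q ⊢
      rw [q]
    | _ => simp [nx] at q
  · refine .inr (.inr (.inl ?_))
    unfold o at q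
    unfold Net.ln at ht
    unfold ir Dirs.inn
    generalize N.kd (N.bas (N.U j)) = kd at ht q
    cases kd with
    | oc c =>
      simp only [len] at ht ⊢
      by_cases x : C.xi (N.U j) = 1 <;> interval_cases t <;> simp [ps, pv, x] at q ⊢ <;> rw [q]
    | two =>
      simp only [len] at ht ⊢
      interval_cases t <;> simp [ps, pv] at q ⊢
      rw [q]
    | _ => simp [pv] at q
  · have h1 : t + 1 = N.ln j := by
      have := (mn_pst ht (ln1 j) hi (nint j) (q.trans (mn_psx (mn_T p) _ 0).symm)).1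
      omega
    have h2 : N.val (N.nxt (N.U j)) := (h.nxt (by unfold Net.pos at *; omega)).val
    refine .inr (.inl ⟨h1, ?_⟩)
    rw [D.lk_eq fun f => (N.fo _ h.val h2 f).1 hu, N.huo _ _ h.val v1 h2 v2 v3.symm hu]
  · obtain rfl : t = 0 :=
      (mn_pst ht (mn_len _ _) hi (fun z => z.2.1.false) (q.trans (mn_ps0 _ 0).symm)).1
    rcases j with _ | j
    · exact absurd hu N.ui0
    refine .inr (.inr (.inr ⟨rfl, j, rfl, ?_⟩))
    rw [D.lk_eq fun f => (N.fo _ h.pre.val h.val f).2 hu,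
      N.hui _ _ h.pre.val v1 h.val v2 v3.symm hu]
    rfl

private theorem nb_ex {j t : ℕ} (h : N.On j) (ht : t < N.ln j) (hp : N.pos j t ≤ k) {c : Fin p.n}
    (hc : C.Nb j t c) : ∃ j' t', N.On j' ∧ t' < N.ln j' ∧ C.X j' t' = C.X j t + e c ∧
      (N.pos j' t' = N.pos j t + 1 ∨ N.pos j t = N.pos j' t' + 1) := by
  rcases hc with ⟨q, rfl⟩ | ⟨q, rfl⟩ | ⟨q, rfl⟩ | ⟨rfl, i, rfl, rfl⟩
  · exact ⟨j, t + 1, h, q, C.X1 j t, .inl rfl⟩
  · exact ⟨j + 1, 0, h.nxt (by unfold Net.pos at *; omega), mn_len _ _,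
      by rw [X0, E1, ← q, Nat.add_sub_cancel],
      .inl ((N.ids _).trans (congrArg (N.idx (N.U j) + ·) q.symm))⟩
  · obtain ⟨t, rfl⟩ : ∃ s, t = s + 1 := ⟨t - 1, by omega⟩
    exact ⟨j, t, h, by omega, by rw [X1, Nat.add_sub_cancel, add_assoc, vv, add_zero], .inr rfl⟩
  · refine ⟨i, N.ln i - 1, h.pre, ln1 i, by rw [X0, E1, add_assoc, vv, add_zero], .inr ?_⟩
    have h1 : N.idx (N.U (i + 1)) = N.idx (N.U i) + N.ln i := N.ids _
    have := ln1 (N := N) i
    unfold Net.pos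
    omega

private theorem t1 (ok : p.Ok) {j t j' t' : ℕ} (h : N.On j) (h' : N.On j') (ht : t < N.ln j)
    (ht' : t' < N.ln j') (hp : N.pos j t ≤ k) (hp' : N.pos j' t' ≤ k) (tp : N.top (N.bas (N.U j)))
    {c : Fin p.n} (hx : C.X j' t' = C.X j t + e c) :
    N.pos j' t' = N.pos j t + 1 ∨ N.pos j t = N.pos j' t' + 1 := by
  have hx' : C.X j t = C.X j' t' + e c := by rw [hx, add_assoc, vv, add_zero]
  have h1 : C.Nb j t c ∨ C.Nb j' t' c := by
    by_cases hi : N.Int (N.U j) t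
    · simpa using (gad (C := C) ok h h' ht' hi {c} (by simp) (by simpa using hx)).2
    by_cases hi' : N.Int (N.U j') t'
    · simpa [or_comm] using (gad (C := C) ok h' h ht hi' {c} (by simp) (by simpa using hx')).2
    obtain ⟨z, rfl, q⟩ := D.p1 ok h.val h'.val (C.onp j t) (C.onp j' t') tp (c := c)
      (by rw [ph1 ok h ht hi, ← ph ok h' ht' hi', hx])
    exact q.imp (det h ht hp hi) (det h' ht' hp' hi')
  rcases h1 with q | q
  · obtain ⟨i, s, a1, a2, a3, a4⟩ := nb_ex h ht hp q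
    obtain ⟨rfl, rfl⟩ := inj ok a1 h' a2 ht' (a3.trans hx.symm)
    exact a4
  · obtain ⟨i, s, a1, a2, a3, a4⟩ := nb_ex h' ht' hp' q
    obtain ⟨rfl, rfl⟩ := inj ok a1 h a2 ht (a3.trans hx'.symm)
    exact a4.symm

private theorem t2a (ok : p.Ok) {j t j' t' : ℕ} (h : N.On j) (h' : N.On j') (ht : t < N.ln j)
    (ht' : t' < N.ln j') (hp : N.pos j t < k) (hp' : N.pos j' t' < k) (tp : N.top (N.bas (N.U j')))
    {c d : Fin p.n} (hne : c ≠ d) (hx : C.X j t + e c = C.X j' t' + e d) (hc : C.Nb j t c) :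
    N.pos j t = N.pos j' t' + 2 ∨ N.pos j' t' = N.pos j t + 2 := by
  obtain ⟨i, s, a1, a2, a3, a4⟩ := nb_ex h ht hp.le hc
  have h1 := t1 ok h' a1 ht' a2 hp'.le (by omega) tp (a3.trans hx)
  have h2 : N.pos j t ≠ N.pos j' t' := fun q => by
    obtain ⟨rfl, rfl⟩ := Net.pos_inj ht ht' q
    exact hne (e_inj (add_left_cancel hx))
  omega

private theorem sw2 {x y : V (Fin p.n)} {c d : Fin p.n} (hne : c ≠ d) (h : x + e c = y + e d) :
    y = x + ∑ z ∈ {c, d}, e z ∧ x = y + ∑ z ∈ {c, d}, e z ∧ x + e d = y + e c := by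
  obtain rfl : y = x + (e c + e d) := by rw [← add_assoc, h, add_assoc, vv, add_zero]
  rw [sum_pair hne]
  exact ⟨rfl, by rw [add_assoc, vv, add_zero], by rw [add_assoc, add_right_comm, vv, zero_add]⟩

private theorem t2 (ok : p.Ok) {j t j' t' : ℕ} (h : N.On j) (h' : N.On j') (ht : t < N.ln j)
    (ht' : t' < N.ln j') (hp : N.pos j t < k) (hp' : N.pos j' t' < k) (tp : N.top (N.bas (N.U j)))
    (tp' : N.top (N.bas (N.U j'))) {c d : Fin p.n} (hne : c ≠ d)
    (hx : C.X j t + e c = C.X j' t' + e d) :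
    N.pos j t = N.pos j' t' + 2 ∨ N.pos j' t' = N.pos j t + 2 := by
  obtain ⟨x1, x2, x3⟩ := sw2 hne hx
  have h1 : ∃ z ∈ ({c, d} : Finset _), C.Nb j t z ∨ C.Nb j' t' z := by
    by_cases hi : N.Int (N.U j) t
    · exact (gad ok h h' ht' hi _ card_le_two x1).2.resolve_right fun q => by simpa using q.2.2
    by_cases hi' : N.Int (N.U j') t'
    · obtain ⟨z, q1, q2⟩ :=
        (gad ok h' h ht hi' _ card_le_two x2).2.resolve_right fun q => by simpa using q.2.2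
      exact ⟨z, q1, q2.symm⟩
    obtain ⟨z, q1, q⟩ := D.p2 ok h.val h'.val (C.onp j t) (C.onp j' t') tp tp' hne
      (by rw [ph1 ok h ht hi, ph1 ok h' ht' hi', hx])
    exact ⟨_, by simpa [eq_comm] using q1, q.imp (det h ht hp.le hi) (det h' ht' hp'.le hi')⟩
  simp only [mem_insert, mem_singleton] at h1
  obtain ⟨z, rfl | rfl, q | q⟩ := h1
  · exact t2a ok h h' ht ht' hp hp' tp' hne hx q
  · exact (t2a ok h' h ht' ht hp' hp tp hne x3.symm q).symm
  · exact t2a ok h h' ht ht' hp hp' tp' hne.symm x3 q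
  · exact (t2a ok h' h ht' ht hp' hp tp hne.symm hx.symm q).symm

end Ctr

theorem main {p : Pm} {η : ℝ} {I : Inn p η} {k : ℕ} {a : ℕ → ℕ} (ok : p.Ok) (N : Net p I k a)
    (D : Dirs N) (C : Ctr D) (hR : Run k a p.n) : (cat k a).IsContained (cube p.n) := by
  choose! J T h1 h2 h3 using Net.pos_ex (N := N)
  have a1 : ∀ i < k, N.On (J i) := fun i hi => h1 i (by omega)
  have a2 : ∀ i < k, T i < N.ln (J i) := fun i hi => h2 i (by omega)
  have a3 : ∀ i < k, N.pos (J i) (T i) = i := fun i hi => h3 i (by omega)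
  have a4 : ∀ i < k, N.pos (J i) (T i) < k := fun i hi => by rwa [a3 i hi]
  have a5 : ∀ i < k, ¬ N.top (N.bas (N.U (J i))) → ∀ m < a i,
      m < N.ty (N.nc (N.bas (N.U (J i))) (C.o (J i) (T i))) := fun i hi q m hm =>
    hm.trans_le ((congrArg a (a3 i hi)).ge.trans
      (N.dem _ (a1 i hi).val q _ (a2 i hi) (a4 i hi) _ (C.onp _ _)))
  have a6 : ∀ i, ¬ N.top (N.bas (N.U (J i))) → ¬ N.Int (N.U (J i)) (T i) := fun i q z =>
    q (Net.top_of_int z)
  have xx : ∀ i < k, ∀ j < k, C.X (J i) (T i) = C.X (J j) (T j) → i = j := fun i hi j hj q => by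
    obtain ⟨q1, q2⟩ := Ctr.inj ok (a1 i hi) (a1 j hj) (a2 i hi) (a2 j hj) q
    rw [← a3 i hi, q1, q2, a3 j hj]
  refine top_dat (Fintype.card_fin _) hR (fun i => C.X (J i) (T i))
    (fun i => N.top (N.bas (N.U (J i)))) (fun i => D.ld (N.bas (N.U (J i))) (C.o (J i) (T i))) xx
    (fun i hi => ?_) (fun i hi j hj q c z => ?_) (fun i hi j hj q q' c d hne z => ?_)
    (fun i hi j hj q q' m hm c z => ?_) (fun i hi j hj q q' m hm m' hm' z => ?_)
    fun i hi j hj q m hm z => ?_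
  · have hi' : i < k := by omega
    by_cases q : T i + 1 < N.ln (J i)
    · obtain ⟨q1, q2⟩ := Net.pos_inj (a2 _ hi) q
        ((a3 _ hi).trans (congrArg (· + 1) (a3 i hi').symm))
      exact ⟨_, by rw [q1, q2, C.X1]⟩
    · have q0 : N.ln (J i) = T i + 1 := by have := a2 i hi'; omega
      obtain ⟨q1, q2⟩ := Net.pos_inj (j' := J i + 1) (a2 _ hi) (mn_len _ _)
        (((a3 _ hi).trans (congrArg (· + 1) (a3 i hi').symm)).trans
          ((N.ids _).trans (congrArg (N.idx (N.U (J i)) + ·) q0)).symm)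
      exact ⟨_, by rw [q1, q2, C.X0, C.E1, q0, Nat.add_sub_cancel]⟩
  · have := Ctr.t1 ok (a1 i hi) (a1 j hj) (a2 i hi) (a2 j hj) (a4 i hi).le (a4 j hj).le q z
    rwa [a3 i hi, a3 j hj] at this
  · have := Ctr.t2 ok (a1 i hi) (a1 j hj) (a2 i hi) (a2 j hj) (a4 i hi) (a4 j hj) q q' hne z
    rwa [a3 i hi, a3 j hj] at this
  · by_cases w : N.Int (N.U (J i)) (T i)
    · by_cases hc : c = D.ld (N.bas (N.U (J j))) (C.o (J j) (T j)) m
      · exact q' (Ctr.gad (C := C) ok (a1 i hi) (a1 j hj) (a2 j hj) w ∅ (by simp)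
          (by rw [sum_empty, add_zero]; exact add_right_cancel (hc ▸ z))).1
      · exact q' (Ctr.gad ok (a1 i hi) (a1 j hj) (a2 j hj) w _ card_le_two (Ctr.sw2 hc z.symm).1).1
    · exact D.p3 ok (a1 i hi).val (a1 j hj).val (C.onp _ _) (C.onp _ _) q q' (a5 j hj q' m hm) c
        (by rw [Ctr.ph1 ok (a1 i hi) (a2 i hi) w, Ctr.ph1 ok (a1 j hj) (a2 j hj) (a6 j q'), z])
  · obtain ⟨b1, b2, rfl⟩ := D.p4 ok (a1 i hi).val (a1 j hj).val (C.onp _ _) (C.onp _ _)
      (a5 i hi q m hm) (a5 j hj q' m' hm')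
      (by rw [Ctr.ph1 ok (a1 i hi) (a2 i hi) (a6 i q), Ctr.ph1 ok (a1 j hj) (a2 j hj) (a6 j q'), z])
    rw [b1, b2] at z
    exact ⟨xx i hi j hj (add_right_cancel z), rfl⟩
  · by_cases w : N.Int (N.U (J i)) (T i)
    · exact q (Ctr.gad (C := C) ok (a1 i hi) (a1 j hj) (a2 j hj) w {_} (by simp)
        (by rw [sum_singleton, ← z, add_assoc, vv, add_zero])).1
    · exact D.p5 ok (a1 i hi).val (a1 j hj).val (C.onp _ _) (C.onp _ _) (a5 j hj q m hm)
        (by rw [Ctr.ph1 ok (a1 j hj) (a2 j hj) (a6 j q), z, Ctr.ph ok (a1 i hi) (a2 i hi) w])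

end Pool.Agent.Work.MP_ede3c6_co.Y
end

-- merged part: Pool.Agent.Work.MP_ede3c6_co.Y.DirsEx
section
/-! Existence of the directions.

PLAN. `A`: the finset of special directions in use; `|A| ≤ nS ≤ sqrt n` by `nbs`, `nlf`,
`card Ctl = nC`. `La`: `lam_ex` for the nonzero sums of two elements of `insert 0 (node labels of
used bases, 8 positions each)` and two elements of `insert 0 (image fD A)`; use `hL`. `JT`: a finset
of fat directions between `{u ≠ 0, (μ ≠ 0 or u = 1), i < mu - 2}` (cardinality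
`qF * (mu - 2) * 2 ^ (w0 + kR) ≤ thr ≤ n - |A|`) and `{u ≠ 0, (μ ≠ 0 or u = 1)}` (cardinality
`qF * mu * 2 ^ (w0 + kR) ≥ n`) with `|JT| = n - |A|` (`exists_subsuperset_card_eq`); `inF := (· ∈ JT)`;
`raw` is a bijection from `Fin n` onto `JT ⊕ A` (`disjSum`), `dr` its inverse, `fe` enumerates `JT`.
`basis_ex` for the finset `S` of directions that are not controls (`card Lab = 2 ^ nL`); `gl`
enumerates `S` minus the basis, so `G = n - nC - nb ≥ G0` by `dim`; `enc` from `G ≤ n ≤ 2 ^ s`. -/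

set_option autoImplicit false

namespace Pool.Agent.Work.MP_ede3c6_co.Y

open Finset Vol

theorem DirsEx_ctl (p : Pm) : Fintype.card p.Ctl = p.nC := by
  simp only [Pm.nC, Pm.nF, Pm.nR, Fintype.card_sum, Fintype.card_prod, Fintype.card_fin]

theorem DirsEx_lab (p : Pm) : Fintype.card p.Lab = 2 ^ p.nL := by
  simp only [Pm.nL, Fintype.card_prod, Fintype.card_fun, Fintype.card_fin, ZMod.card]
  ring

theorem DirsEx_two (p : Pm) (g : p.Lab) : g + g = 0 := by
  have h : ∀ c : ZMod 2, c + c = 0 := by decide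
  obtain ⟨g1, g2, g3, g4, g5, g6, g7, g8⟩ := g
  simp only [Prod.mk_add_mk, Prod.mk_eq_zero]
  exact ⟨funext fun _ => h _, funext fun _ => h _, funext fun _ => h _, funext fun _ => h _,
    funext fun _ => h _, funext fun _ => h _, funext fun _ => h _, h _⟩

open Classical in
theorem DirsEx_pair (p : Pm) (ht : 2 ≤ p.t) :
    #{z : V (Fin p.t) × V (Fin p.l0) | z.1 ≠ 0 ∧ (z.2 ≠ 0 ∨ z.1 = 1)} = p.qF := by
  have h1 : (1 : V (Fin p.t)) ≠ 0 := fun q => by
    have := congrFun q ⟨0, by omega⟩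
    exact absurd this (by decide : (1 : ZMod 2) ≠ 0)
  have e1 : ({z : V (Fin p.t) × V (Fin p.l0) | z.1 ≠ 0 ∧ (z.2 ≠ 0 ∨ z.1 = 1)} : Finset _) =
      insert (1, 0) ((univ.erase 0) ×ˢ (univ.erase 0)) := by
    ext ⟨u, m⟩
    simp only [mem_filter, mem_univ, true_and, mem_insert, Prod.mk.injEq, mem_product, mem_erase,
      and_true]
    constructor
    · rintro ⟨a, b | b⟩
      · exact Or.inr ⟨a, b⟩
      · by_cases c : m = 0
        · exact Or.inl ⟨b, c⟩
        · exact Or.inr ⟨a, c⟩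
    · rintro (⟨a, -⟩ | ⟨a, b⟩)
      · exact ⟨a ▸ h1, Or.inr a⟩
      · exact ⟨a, Or.inl b⟩
  rw [e1, card_insert_of_notMem (by simp), card_product, card_erase_of_mem (mem_univ _),
    card_erase_of_mem (mem_univ _)]
  simp [Pm.qF]

open Classical in
theorem DirsEx_fat (p : Pm) (ht : 2 ≤ p.t) (m : ℕ) (hm : m ≤ p.mu) :
    #{d : p.FD | d.1 ≠ 0 ∧ (d.2.2.2.1 ≠ 0 ∨ d.1 = 1) ∧ (d.2.1 : ℕ) < m} =
      p.qF * m * 2 ^ (p.w0 + p.kR) := by
  have e1 : #{i : Fin p.mu | (i : ℕ) < m} = m := by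
    rw [Fin.card_filter_val_lt]
    exact min_eq_right hm
  have e2 : #{d : p.FD | d.1 ≠ 0 ∧ (d.2.2.2.1 ≠ 0 ∨ d.1 = 1) ∧ (d.2.1 : ℕ) < m} =
      #(({z : V (Fin p.t) × V (Fin p.l0) | z.1 ≠ 0 ∧ (z.2 ≠ 0 ∨ z.1 = 1)} : Finset _) ×ˢ
        ({i : Fin p.mu | (i : ℕ) < m} : Finset _) ×ˢ
        (univ : Finset (V (Fin p.w0) × V (Fin p.kR)))) := by
    refine card_nbij' (fun d => ((d.1, d.2.2.2.1), d.2.1, d.2.2.1, d.2.2.2.2))
      (fun z => (z.1.1, z.2.1, z.2.2.1, z.1.2, z.2.2.2)) (fun d hd => ?_) (fun z hz => ?_)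
      (fun d _ => rfl) (fun z _ => rfl)
    · have h := (mem_filter.1 (mem_coe.1 hd)).2
      exact mem_coe.2 (mem_product.2 ⟨mem_filter.2 ⟨mem_univ _, h.1, h.2.1⟩,
        mem_product.2 ⟨mem_filter.2 ⟨mem_univ _, h.2.2⟩, mem_univ _⟩⟩)
    · have h := mem_product.1 (mem_coe.1 hz)
      have h1 := (mem_filter.1 h.1).2
      have h2 := (mem_filter.1 (mem_product.1 h.2).1).2
      exact mem_coe.2 (mem_filter.2 ⟨mem_univ _, h1.1, h1.2, h2⟩)
  rw [e2, card_product, card_product, DirsEx_pair p ht, e1, card_univ]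
  simp only [Fintype.card_prod, Fintype.card_fun, Fintype.card_fin, ZMod.card]
  ring

section
variable {p : Pm} {η : ℝ} {I : Inn p η} {k : ℕ} {a : ℕ → ℕ}

theorem DirsEx_spec (N : Net p I k a) :
    ∃ A : Finset N.Sd, A.card ≤ p.nS ∧ ∀ h, h ∈ A ↔ N.InS h := by
  classical
  obtain ⟨B, hB, mB⟩ := N.nbs
  obtain ⟨L, hL, mL⟩ := N.nlf
  refine ⟨(((B ×ˢ B).filter fun z => N.Ed z.1 z.2).image fun z => SD.pr z.1 z.2) ∪
    (B.image SD.d1 ∪ (B.image SD.d2 ∪ ((univ : Finset p.Ctl).image SD.ct ∪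
      (((univ : Finset (p.Ctl × Fin 3)).image fun z => SD.cm z.1 z.2) ∪ L.image SD.lf)))),
    ?_, fun h => ?_⟩
  · have c1 : #(((B ×ˢ B).filter fun z => N.Ed z.1 z.2).image
        fun z => (SD.pr z.1 z.2 : N.Sd)) ≤ p.nBs * p.nBs :=
      card_image_le.trans ((card_filter_le _ _).trans
        ((card_product _ _).le.trans (Nat.mul_le_mul hB hB)))
    have c2 : #(B.image (SD.d1 : _ → N.Sd)) ≤ p.nBs := card_image_le.trans hB
    have c3 : #(B.image (SD.d2 : _ → N.Sd)) ≤ p.nBs := card_image_le.trans hB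
    have c4 : #((univ : Finset p.Ctl).image (SD.ct : _ → N.Sd)) ≤ p.nC :=
      card_image_le.trans ((card_univ.trans (DirsEx_ctl p)).le)
    have c5 : #((univ : Finset (p.Ctl × Fin 3)).image fun z => (SD.cm z.1 z.2 : N.Sd)) ≤
        p.nC * 3 := card_image_le.trans (by
      rw [card_univ, Fintype.card_prod, DirsEx_ctl, Fintype.card_fin])
    have c6 : #(L.image (SD.lf : _ → N.Sd)) ≤ 2 * p.nA := card_image_le.trans hL
    refine (card_union_le _ _).trans ((Nat.add_le_add c1 ((card_union_le _ _).trans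
      (Nat.add_le_add c2 ((card_union_le _ _).trans (Nat.add_le_add c3
      ((card_union_le _ _).trans (Nat.add_le_add c4 ((card_union_le _ _).trans
      (Nat.add_le_add c5 c6))))))))).trans ?_)
    unfold Pm.nS
    omega
  · cases h with
    | pr b b' =>
      have h1 : N.Ed b b' → b ∈ B ∧ b' ∈ B := fun ⟨u, k1, k2, _, k4, k5⟩ =>
        ⟨(mB _).2 ⟨u, k1, k4⟩, (mB _).2 ⟨_, k2, k5⟩⟩
      simp only [mem_union, mem_image, mem_filter, mem_product, SD.pr.injEq, reduceCtorEq,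
        and_false, exists_false, or_false, Net.InS]
      constructor
      · rintro ⟨z, ⟨-, hz⟩, rfl, rfl⟩
        exact hz
      · exact fun hz => ⟨(b, b'), ⟨h1 hz, hz⟩, rfl, rfl⟩
    | d1 b => simp [Net.InS, mB]
    | d2 b => simp [Net.InS, mB]
    | ct c => simp [Net.InS]
    | cm c i => simp [Net.InS]
    | lf y =>
      rw [← mL]
      simp

theorem DirsEx_la (ok : p.Ok) (N : Net p I k a) : ∃ La : N.Fv →+ V (Fin p.kR),
    ∀ x x' y y', (x = 0 ∨ ∃ b o, N.used b ∧ x = N.fN b o) →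
      (x' = 0 ∨ ∃ b o, N.used b ∧ x' = N.fN b o) → (y = 0 ∨ ∃ h, N.InS h ∧ y = N.fD h) →
      (y' = 0 ∨ ∃ h, N.InS h ∧ y' = N.fD h) → La (x + x' + y + y') = 0 → x + x' + y + y' = 0 := by
  classical
  obtain ⟨B, hB, mB⟩ := N.nbs
  obtain ⟨A, hA, mA⟩ := DirsEx_spec N
  let Ps : Finset Pos := {.s, .a1, .a2, .a3, .b1, .b2, .b3, .x}
  have hP : ∀ o, o ∈ Ps := fun o => by cases o <;> simp [Ps]
  have cP : Ps.card ≤ 8 := by decide
  let X : Finset N.Fv := insert 0 ((B ×ˢ Ps).image fun z => N.fN z.1 z.2)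
  let Y : Finset N.Fv := insert 0 (A.image N.fD)
  have cX : X.card ≤ 8 * p.nBs + 1 := (card_insert_le _ _).trans (Nat.succ_le_succ
    (card_image_le.trans ((card_product _ _).le.trans
      ((Nat.mul_le_mul hB cP).trans (by omega)))))
  have cY : Y.card ≤ p.nS + 1 :=
    (card_insert_le _ _).trans (Nat.succ_le_succ (card_image_le.trans hA))
  have mX : ∀ x, (x = 0 ∨ ∃ b o, N.used b ∧ x = N.fN b o) → x ∈ X := by
    rintro x (rfl | ⟨b, o, hb, rfl⟩)
    · exact mem_insert_self _ _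
    · exact mem_insert_of_mem (mem_image.2 ⟨(b, o), mem_product.2 ⟨(mB b).2 hb, hP o⟩, rfl⟩)
  have mY : ∀ y, (y = 0 ∨ ∃ h, N.InS h ∧ y = N.fD h) → y ∈ Y := by
    rintro y (rfl | ⟨h, hh, rfl⟩)
    · exact mem_insert_self _ _
    · exact mem_insert_of_mem (mem_image.2 ⟨h, (mA h).2 hh, rfl⟩)
  obtain ⟨La, hLa⟩ := lam_ex p.kR
    ((((X ×ˢ X) ×ˢ (Y ×ˢ Y)).image fun z => z.1.1 + z.1.2 + z.2.1 + z.2.2).erase 0)
    (fun t ht => (mem_erase.1 ht).1) (by
      refine lt_of_le_of_lt (card_erase_le.trans (card_image_le.trans ?_)) ok.hL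
      rw [card_product, card_product, card_product, pow_two, pow_two]
      exact Nat.mul_le_mul (Nat.mul_le_mul cX cX) (Nat.mul_le_mul cY cY))
  refine ⟨La, fun x x' y y' h1 h2 h3 h4 h5 => ?_⟩
  by_contra hne
  exact hLa _ (mem_erase.2 ⟨hne, mem_image.2 ⟨((x, x'), (y, y')), mem_product.2
    ⟨mem_product.2 ⟨mX _ h1, mX _ h2⟩, mem_product.2 ⟨mY _ h3, mY _ h4⟩⟩, rfl⟩⟩) h5

theorem DirsEx_jt (ok : p.Ok) (c : ℕ) (hc : p.thr ≤ c) (hc' : c ≤ p.n) :
    ∃ JT : Finset p.FD, JT.card = c ∧ (∀ d ∈ JT, d.1 ≠ 0 ∧ (d.2.2.2.1 ≠ 0 ∨ d.1 = 1)) ∧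
      ∀ d : p.FD, d.1 ≠ 0 → (d.2.2.2.1 ≠ 0 ∨ d.1 = 1) → (d.2.1 : ℕ) < p.mu - 2 → d ∈ JT := by
  classical
  have h1 := DirsEx_fat p ok.t2 (p.mu - 2) (Nat.sub_le _ _)
  have h2 := DirsEx_fat p ok.t2 p.mu le_rfl
  obtain ⟨JT, k1, k2, k3⟩ := exists_subsuperset_card_eq (n := c)
    (s := {d : p.FD | d.1 ≠ 0 ∧ (d.2.2.2.1 ≠ 0 ∨ d.1 = 1) ∧ (d.2.1 : ℕ) < p.mu - 2})
    (t := {d : p.FD | d.1 ≠ 0 ∧ (d.2.2.2.1 ≠ 0 ∨ d.1 = 1) ∧ (d.2.1 : ℕ) < p.mu})
    (fun d hd => mem_filter.2 ⟨mem_univ _, (mem_filter.1 hd).2.1, (mem_filter.1 hd).2.2.1,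
      d.2.1.2⟩)
    ((le_of_eq (by rw [← h1])).trans (ok.hJ1.trans hc))
    (hc'.trans (ok.hJ2.trans (le_of_eq (by rw [← h2]))))
  exact ⟨JT, k3, fun d hd => ⟨(mem_filter.1 (k2 hd)).2.1, (mem_filter.1 (k2 hd)).2.2.1⟩,
    fun d a1 a2 a3 => k1 (mem_filter.2 ⟨mem_univ _, a1, a2, a3⟩)⟩

theorem DirsEx_enum {α : Type} (S : Finset α) (z : α) :
    ∃ f : ℕ → α, (∀ m < S.card, f m ∈ S) ∧ ∀ m < S.card, ∀ m' < S.card, f m = f m' → m = m' := by
  refine ⟨fun m => if h : m < S.card then (S.equivFin.symm ⟨m, h⟩).1 else z, fun m hm => ?_,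
    fun m hm m' hm' e => ?_⟩
  · simp only [dif_pos hm]
    exact (S.equivFin.symm ⟨m, hm⟩).2
  · simp only [dif_pos hm, dif_pos hm'] at e
    exact congrArg Fin.val (S.equivFin.symm.injective (Subtype.ext e))

end

theorem dirs_ex {p : Pm} {η : ℝ} {I : Inn p η} {k : ℕ} {a : ℕ → ℕ} (ok : p.Ok) (N : Net p I k a) :
    Nonempty (Dirs N) := by
  classical
  obtain ⟨A, hA, mA⟩ := DirsEx_spec N
  obtain ⟨La, hLa⟩ := DirsEx_la ok N
  have hA1 : A.card ≤ Nat.sqrt p.n := hA.trans ok.hS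
  have hA2 : A.card ≤ p.n := hA1.trans (Nat.sqrt_le_self _)
  have hthr : p.thr ≤ p.n - A.card := by unfold Pm.thr; omega
  obtain ⟨JT, cJ, j1, j2⟩ := DirsEx_jt ok (p.n - A.card) hthr (Nat.sub_le _ _)
  have cU : (JT.disjSum A).card = p.n := by rw [card_disjSum, cJ]; omega
  have hn : 0 < p.n := by have := ok.dim; have := ok.G00; omega
  have : Nonempty (Fin p.n) := ⟨⟨0, hn⟩⟩
  have mU : ∀ y, y ∈ JT.disjSum A ↔ Sum.elim (fun d => d ∈ JT) N.InS y := by
    rintro (d | h)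
    · simp
    · simp [mA]
  let q := equivFinOfCardEq cU
  let raw : Fin p.n → p.FD ⊕ N.Sd := fun h => (q.symm h).1
  have rinj : Function.Injective raw := fun h h' e => q.symm.injective (Subtype.ext e)
  obtain ⟨fe, fe1, fe2⟩ := DirsEx_enum JT (0, I.i0, 0, 0, 0)
  let S : Finset (Fin p.n) := {h | ¬ ∃ c, raw h = .inr (.ct c)}
  have cS : p.n ≤ S.card + p.nC := by
    have h1 : #{h : Fin p.n | ∃ c, raw h = .inr (.ct c)} ≤ p.nC := by
      rw [← DirsEx_ctl, ← card_univ]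
      refine le_trans (card_le_card_of_injOn (t := (univ : Finset p.Ctl).image
        fun c => (Sum.inr (.ct c) : p.FD ⊕ N.Sd)) raw (fun h hh => ?_) rinj.injOn) card_image_le
      obtain ⟨c, hc⟩ := (mem_filter.1 (mem_coe.1 hh)).2
      exact mem_coe.2 (mem_image.2 ⟨c, mem_univ _, hc.symm⟩)
    have h2 := card_filter_add_card_filter_not (s := (univ : Finset (Fin p.n)))
      (fun h => ∃ c, raw h = .inr (.ct c))
    rw [card_univ, Fintype.card_fin] at h2
    have h3 : S.card = #{h : Fin p.n | ¬ ∃ c, raw h = .inr (.ct c)} := rfl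
    omega
  obtain ⟨nb, bl, b1, b2, b3, b4, b5⟩ := basis_ex (DirsEx_two p)
    (fun h => Sum.elim p.lamF (N.lamS La) (raw h)) S p.nL (DirsEx_lab p).le
  let R : Finset (Fin p.n) := S \ (range nb).image bl
  have cR : S.card ≤ R.card + nb := by
    have h1 := le_card_sdiff ((range nb).image bl) S
    have h2 : #((range nb).image bl) ≤ nb := card_image_le.trans (card_range nb).le
    have h3 : R.card = #(S \ (range nb).image bl) := rfl
    omega
  have cR' : R.card ≤ p.n := (card_le_univ R).trans (Fintype.card_fin _).le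
  let gl : Fin R.card → Fin p.n := fun g => (R.equivFin.symm g).1
  have glR : ∀ g, gl g ∈ S ∧ gl g ∉ (range nb).image bl :=
    fun g => mem_sdiff.1 (R.equivFin.symm g).2
  choose Bg Bg1 spn using fun g => b5 (gl g) (glR g).1
  obtain ⟨enc⟩ := Function.Embedding.nonempty_of_card_le (α := Fin R.card) (β := V (Fin p.s))
    (by simpa using cR'.trans ok.hs)
  refine ⟨{
    La := La
    raw := raw
    dr := fun y => if hy : y ∈ JT.disjSum A then q ⟨y, hy⟩ else ⟨0, hn⟩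
    inF := fun d => d ∈ JT
    fe := fe
    G := R.card
    nb := nb
    gl := gl
    bl := bl
    Bg := Bg
    enc := enc
    rinj := rinj
    rdr := fun y hy => ?_
    rin := fun h => (mU _).1 (q.symm h).2
    f1 := j1
    f2 := j2
    fe1 := fun m hm => fe1 m (by omega)
    fe2 := fun m hm m' hm' => fe2 m (by omega) m' (by omega)
    g1 := fun h h' k1 k2 e => ?_
    g2 := fun b b' o o' h k1 k2 k3 e => ?_
    g3 := fun b b' o o' h h' k1 k2 k3 k4 e => hLa _ _ _ _ (Or.inr ⟨b, o, k1, rfl⟩)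
      (Or.inr ⟨b', o', k2, rfl⟩) (Or.inr ⟨h, k3, rfl⟩) (Or.inr ⟨h', k4, rfl⟩) e
    G1 := by have := ok.dim; omega
    G2 := cR'
    nb1 := b1
    gli := fun g g' e => R.equivFin.symm.injective (Subtype.ext e)
    enci := enc.injective
    glc := fun g c e => (mem_filter.1 (glR g).1).2 ⟨c, e⟩
    blc := fun i hi c e => (mem_filter.1 (b2 i hi)).2 ⟨c, e⟩
    gb := fun g i hi e => (glR g).2 (mem_image.2 ⟨i, mem_range.2 hi, e.symm⟩)
    bli := b4
    cvr := fun h => ?_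
    ind := b3
    Bg1 := Bg1
    spn := spn }⟩
  · have hy' := (mU y).2 hy
    simp only [dif_pos hy', raw, Equiv.symm_apply_apply]
  · have := hLa 0 0 _ _ (Or.inl rfl) (Or.inl rfl) (Or.inr ⟨h, k1, rfl⟩) (Or.inr ⟨h', k2, rfl⟩)
    rw [add_zero, zero_add] at this
    exact this e
  · have := hLa _ _ _ 0 (Or.inr ⟨b, o, k1, rfl⟩) (Or.inr ⟨b', o', k2, rfl⟩)
      (Or.inr ⟨h, k3, rfl⟩) (Or.inl rfl)
    rw [add_zero] at this
    exact this e
  · by_cases h1 : ∃ c, raw h = .inr (.ct c)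
    · exact Or.inl h1
    by_cases h2 : h ∈ (range nb).image bl
    · obtain ⟨i, hi, e⟩ := mem_image.1 h2
      exact Or.inr (Or.inr ⟨i, mem_range.1 hi, e.symm⟩)
    · have h3 : h ∈ R := mem_sdiff.2 ⟨mem_filter.2 ⟨mem_univ _, h1⟩, h2⟩
      exact Or.inr (Or.inl ⟨R.equivFin ⟨h, h3⟩, by simp only [gl, Equiv.symm_apply_apply]⟩)

end Pool.Agent.Work.MP_ede3c6_co.Y
end
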