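import Pool.Agent.Work.MP_ede3c6_co.Y.Dich
import Pool.Agent.Work.MP_ede3c6_co.X.Par
import Pool.Agent.Work.MP_ede3c6_co.Y.DirsEx

-- merged part: Pool.Agent.Work.MP_ede3c6_co.Y.SegEx
section
-- merged part: Pool.Agent.Work.MP_ede3c6_co.Y.Par
section
/-! Choice of the parameters.

PLAN (model `X/Par.lean`; `X.Par_grow` is useful). `η = ε / 20`, integer `ρ ≥ 1 / η`, `ρ ≥ 5`.
Constants that depend only on `ε`, `m0`: `t = l0 = m0 + 3` (then `2 qF ≤ 3 q q2`... any `t ≥ 4`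
gives `hN2`, `hth` for `mu ≥ 12`), `μ0 = m0 + 12`, `mu` will lie in `[μ0, 2 μ0 + 3]`, `m1` with
`24 ρ ≤ 2 ^ m1`, `hh` with `ρ (er + 2 ^ hh ks er + 1) ≤ 2 ^ (2 hh)`, `L0` the largest number allowed by
`hr` up to rounding (so `2 ^ (2 hh) ≤ (1 + 3 η) L0`), `C` a bound for `CJ` and `aS`,
`K ≥ w + 8 + 1000 ρ C w`, `K20 = (K + w) ^ 2`, then for given `K2`: `Kp ≥ 1000 ρ C ^ 2`.
For large `n`, `l = log 2 n`, `ν = log 2 l + 1`: `s = l + 1`, `d2 = 30 (l + 1)`... precisely: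
`nL ≤ 3 l` (since `2 ^ (w0 + kR) ≤ n`, `nZ ≤ l`), `nR ≤ 20 l`, `d1 = ν + 8`, `P' = n ^ c` with
`c` so large that `e1` holds (`2 ^ (G0 + 2 d2 + 2 d1) = 2 ^ (n - 2 hh - nF - nR - nL) ≥ 2 ^ n / n ^ 30`)
and `n N ≤ 2 ^ n / n`, `d2` with `(n + 1) PP ks ≤ 2 ^ (2 d2)`, `d2 ≤ 40 l`, so `cM + 1 ≤ P1`;
`nZ = c1 ν` with `ρ` times all rounding terms of `Fit` (`nB ≤ l ^ (Km + 4)` up to a constant) at most
`nA`; `w0 = nZ + 2 ν + c2`; `kk` the largest number with `qF μ0 2 ^ kk ≤ thr`, `kR = kk - w0`,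
`mu = thr / (qF 2 ^ kk) + 2`; `nBs`, `nS` are polylogarithmic; `G0` is the rest of `n`.
`L0 Q U nA ≥ 2 ^ (n - 1) / (1 + 3 η)` because `2 ^ (2 hh) Q U nA = 2 ^ (n - 1)` (`dim`).
Any other choice that works is fine. -/

set_option autoImplicit false

namespace Pool.Agent.Work.MP_ede3c6_co.Y

open Finset Vol

/-- the choice of the parameters -/
structure Par_H (p : Pm) (ρ y l ν : ℕ) : Prop where
  ρ2 : 2 ≤ ρ
  t4 : 4 ≤ p.t
  l0 : p.l0 = p.t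
  mu1 : 12 ≤ p.mu
  mu2 : 2 * p.t + p.mu + 16 ≤ y
  hh : p.hh = y
  m1 : p.m1 = y
  hD : ρ * (25 + p.er + p.ks * p.er) ≤ 2 ^ y
  L0 : p.L0 = 2 ^ y * 2 ^ y - 2 ^ y * (25 + p.er + p.ks * p.er)
  K : p.K = p.w + 8 + 2 * (2 ^ y) ^ 6
  K2 : (p.K + p.w) ^ 2 ≤ p.K2
  Kp : p.Kp = (2 ^ y) ^ 6
  Km : p.Km ≤ ν
  ν1 : 2 ^ ν ≤ 2 * l
  ν2 : l < 2 ^ ν
  hV : 256 * ν ^ 2 ≤ 2 ^ ν
  l1 : 2 ^ l ≤ p.n
  l2 : p.n < 2 ^ (l + 1)
  hL : 200 * l ≤ 2 ^ l
  hN : 2 * p.n ^ 4 ≤ 2 ^ p.n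
  nZ : p.nZ = ν * (2 * ν + 10)
  w0 : p.w0 = 2 * p.nZ
  kR : 28 * p.nZ < p.kR
  J1 : p.qF * (p.mu - 2) * 2 ^ (p.w0 + p.kR) ≤ p.thr
  J2 : p.n ≤ p.qF * p.mu * 2 ^ (p.w0 + p.kR)
  s : p.s = l + 1
  d1 : p.d1 = ν + 5
  d2 : p.d2 = 9 * l
  P' : p.P' = 2 ^ (15 * l)
  G0 : p.G0 = p.n - (p.nC + p.nL)

theorem Par_pw {a b : ℕ} (h : a ≤ b) : 2 ^ a ≤ 2 ^ b := Nat.pow_le_pow_right (by norm_num) h

theorem Par_sq {a : ℕ} (h : 1 ≤ a) : (a - 1) * (a - 1) + 1 ≤ a * a := by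
  obtain ⟨b, rfl⟩ := Nat.exists_eq_add_of_le' h
  rw [Nat.add_sub_cancel]
  nlinarith

theorem Par_Z {l ν : ℕ} (h1 : 2 ^ ν ≤ 2 * l) (h2 : 256 * ν ^ 2 ≤ 2 ^ ν) (h3 : 5 ≤ ν) :
    32 * (ν * (2 * ν + 10)) ≤ l ∧ 10 * ν ≤ ν * (2 * ν + 10) ∧ ν * ν ≤ l := by
  refine ⟨?_, ?_, ?_⟩ <;> nlinarith

theorem Par_rt {n ν : ℕ} (h : ν * ν ≤ n) (h3 : 3 ≤ ν) :
    ν ≤ Nat.sqrt n ∧ n + 1 ≤ 2 * (n - Nat.sqrt n) := by
  have h1 := Nat.le_sqrt.2 h
  have h2 := Nat.sqrt_le n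
  have h4 := Nat.mul_le_mul_right (Nat.sqrt n) (h3.trans h1)
  omega

namespace Par_H
variable {p : Pm} {ρ y l ν : ℕ} (h : Par_H p ρ y l ν)
include h

theorem M : p.M = 2 * y + 2 := by rw [Pm.M, h.hh]

theorem w : p.w = 10 * y + 13 := by rw [Pm.w, h.M]; ring

theorem ks : p.ks = 4 * y + 10 := by rw [Pm.ks, h.M]; ring

theorem er : p.er = 80 * y + 205 := by rw [Pm.er, h.ks]; ring

theorem cY : 168 * ρ ≤ 2 ^ y ∧ 80 * y + 230 ≤ 2 ^ y ∧ (2 ^ y) ^ 6 ≤ ν ∧ p.K + 1 ≤ ν ∧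
    p.Kp * p.K1 ≤ ν := by
  have a1 := h.hD
  have a2 := h.ρ2
  have a3 := h.Km
  have a4 : p.K + p.w ≤ p.K2 := (Nat.le_self_pow (by norm_num) _).trans h.K2
  have a5 : 1 ≤ p.Kp := h.Kp ▸ Nat.one_le_pow _ _ (Nat.two_pow_pos y)
  have a6 := Nat.mul_le_mul_right p.K1 a5
  have a7 : p.Kp * 1 ≤ p.Kp * p.K1 := Nat.mul_le_mul_left _ (by rw [Pm.K1]; omega)
  have a8 : p.K1 = p.K2 + p.w + 5 := rfl
  rw [Pm.Km, mul_assoc] at a3
  rw [h.er] at a1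
  generalize p.ks * (80 * y + 205) = c at a1
  refine ⟨?_, ?_, ?_, ?_, ?_⟩
  · clear * - ρ y c a2 a1
    nlinarith
  · clear * - y ρ c a2 a1
    nlinarith
  · rw [← h.Kp]
    omega
  · omega
  · omega

theorem cν : 2 ^ y ≤ ν ∧ 2 ^ y * 2 ^ y ≤ ν ∧ (2 ^ y) ^ 4 ≤ ν ∧ 80 * y + 230 ≤ ν ∧
    32 * p.nZ ≤ l ∧ 10 * ν ≤ p.nZ ∧ 200 * l ≤ p.n ∧ ν ≤ Nat.sqrt p.n ∧ p.n + 1 ≤ 2 * p.thr := by
  obtain ⟨-, a2, a3, -⟩ := h.cY
  have pw : ∀ {a : ℕ}, a ≤ 6 → (2 ^ y) ^ a ≤ ν := fun ha =>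
    (Nat.pow_le_pow_right (Nat.two_pow_pos y) ha).trans a3
  have a4 : 2 ^ y ≤ ν := by simpa using pw (show 1 ≤ 6 by norm_num)
  obtain ⟨b1, b2, b3⟩ := Par_Z h.ν1 h.hV (by omega)
  have a5 := h.hL.trans h.l1
  obtain ⟨c1, c2⟩ := Par_rt (n := p.n) (ν := ν) (by omega) (by omega)
  exact ⟨a4, (sq (2 ^ y)).symm.trans_le (pw (by norm_num)), pw (by norm_num), by omega,
    h.nZ ▸ b1, h.nZ ▸ b2, a5, c1, c2⟩

theorem cq : p.aS + 1 ≤ 2 ^ y ∧ p.L1 ≤ 2 ^ y * 2 ^ y ∧ 1 ≤ p.L0 ∧ p.CJ ≤ (2 ^ y) ^ 4 ∧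
    p.n ≤ 2 * p.thrN ∧ p.thrN < p.thr ∧ p.w0 + p.kR ≤ l := by
  obtain ⟨-, a2, -⟩ := h.cY
  have m1 := h.mu1
  have m2 := h.mu2
  have a1 : 2 ^ 4 ≤ 2 ^ p.t := Par_pw h.t4
  have a3 : p.mu < 2 ^ p.mu := Nat.lt_two_pow_self
  have a4 : 2 ^ p.t * 2 ^ p.t * 2 ^ p.mu ≤ 2 ^ y := by
    rw [← pow_add, ← pow_add]
    exact Par_pw (by omega)
  have L1 : p.L1 ≤ 2 ^ y * 2 ^ y ∧ 1 ≤ p.L0 := by
    have b1 := (Nat.mul_le_mul_right _ h.ρ2).trans h.hD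
    have b2 := Nat.mul_le_mul_left (2 ^ y) b1
    have b3 : 1 * 1 ≤ 2 ^ y * (25 + p.er + p.ks * p.er) := Nat.mul_le_mul (by omega) (by omega)
    rw [mul_left_comm] at b2
    rw [Pm.L1, h.L0]
    omega
  obtain ⟨q, hq⟩ := Nat.exists_eq_add_of_le' (show 2 ≤ 2 ^ p.t by omega)
  obtain ⟨u, hu⟩ := Nat.exists_eq_add_of_le' (show 2 ≤ p.mu by omega)
  have e1 : p.aS = q * q * u := by
    rw [Pm.aS, Pm.q, Pm.q2, h.l0, hq, hu, Nat.add_sub_cancel, Nat.add_sub_cancel]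
  have e2 : p.qF = (q + 1) * (q + 1) + 1 := by
    rw [Pm.qF, h.l0, hq]
    rfl
  have J1 := h.J1
  have J2 := h.J2
  have k0 := Nat.two_pow_pos (p.w0 + p.kR)
  rw [e2, hu] at J1 J2
  rw [Nat.add_sub_cancel] at J1
  have q14 : 14 ≤ q := by omega
  have u10 : 10 ≤ u := by omega
  refine ⟨?_, L1.1, L1.2, ?_, ?_, ?_, ?_⟩
  · refine le_trans ?_ a4
    rw [e1, hq]
    calc q * q * u + 1 ≤ (q + 2) * (q + 2) * (u + 1) := by clear * - q u p m1 a1 hq hu; nlinarith [Nat.zero_le (q * u)]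
      _ ≤ _ := Nat.mul_le_mul_left _ (by omega)
  · calc p.CJ = (p.M + 5) * p.L1 * 2 ^ (2 * p.l0 + p.mu + 16) := rfl
      _ ≤ 2 ^ y * (2 ^ y * 2 ^ y) * 2 ^ y := Nat.mul_le_mul
          (Nat.mul_le_mul (by rw [h.M]; omega) L1.1) (Par_pw (by rw [h.l0]; omega))
      _ = _ := by ring
  · rw [Pm.thrN, e1, ← mul_assoc]
    refine J2.trans (Nat.mul_le_mul_right _ ?_)
    have b1 : 2 * ((q + 1) * (q + 1) + 1) ≤ 3 * (q * q) := by clear * - q p a1 hq; nlinarith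
    have b2 := Nat.mul_le_mul b1 (show 3 * (u + 2) ≤ 4 * u by omega)
    clear * - q u b2
    nlinarith
  · rw [Pm.thrN, e1]
    refine lt_of_lt_of_le (Nat.mul_lt_mul_of_pos_right ?_ k0) J1
    exact Nat.mul_lt_mul_of_pos_right (by clear * - q p a1 hq; nlinarith) (by omega)
  · have b1 : 2 ^ (p.w0 + p.kR) ≤ p.thr :=
      (Nat.le_mul_of_pos_left _ (Nat.mul_pos (by omega) (by omega))).trans J1
    have b2 : p.thr ≤ p.n := Nat.sub_le _ _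
    have := (Nat.pow_lt_pow_iff_right (by norm_num)).1 ((b1.trans b2).trans_lt h.l2)
    omega

theorem cl : p.nL ≤ 2 * l ∧ p.nF + p.nR ≤ 10 * l ∧ p.nC ≤ 30 * l ∧ p.LW ≤ 150 * l ∧
    p.LU ≤ 30 * l ∧ ν ≤ p.LW := by
  obtain ⟨-, -, -, a4, a5, a6, -⟩ := h.cν
  have a7 := h.cq.2.2.2.2.2.2
  have m2 := h.mu2
  have b1 : p.nL ≤ 2 * l := by rw [Pm.nL, h.l0]; omega
  have b2 : p.nF + p.nR ≤ 10 * l := by rw [Pm.nF, Pm.nR, Pm.r, h.m1, h.s]; omega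
  have b3 : p.nZ ≤ p.nL := by rw [Pm.nL]; omega
  refine ⟨b1, b2, ?_, ?_, ?_, ?_⟩
  · rw [Pm.nC, h.hh, h.d1, h.d2]
    omega
  · rw [Pm.LW, Pm.T, Pm.r, h.hh]
    omega
  · rw [Pm.LU, Pm.xg, h.hh]
    omega
  · rw [Pm.LW, Pm.T, Pm.r]
    omega

theorem dim : p.n = p.G0 + p.nC + p.nL ∧ 1 ≤ p.G0 := by
  obtain ⟨-, -, -, a4, a5, a6, a7, -⟩ := h.cν
  obtain ⟨b1, -, b3, -⟩ := h.cl
  have := h.G0
  omega

theorem cN : p.N ≤ 2 ^ (p.n - 15 * l + 2) := by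
  obtain ⟨-, -, -, a4, a5, a6, a7, -⟩ := h.cν
  have b1 : 2 ^ (15 * l + 1) ≤ p.PP := by
    rw [Pm.PP, h.P', ← pow_add]
    exact Par_pw (by omega)
  have b2 : 2 ^ 1 ≤ 2 ^ p.n := Par_pw (by omega)
  have b3 : (2 ^ p.n + 2) / p.PP ≤ 2 ^ (p.n - 15 * l) := by
    refine Nat.div_le_of_le_mul (le_trans ?_ (Nat.mul_le_mul_right _ b1))
    rw [← pow_add, show 15 * l + 1 + (p.n - 15 * l) = p.n + 1 by omega, pow_succ]
    omega
  have b4 := Nat.two_pow_pos (p.n - 15 * l)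
  rw [Pm.N, pow_add]
  omega

theorem cS : 8 * p.nBs + 1 ≤ 2 ^ (5 * p.nZ) ∧ p.nS + 1 ≤ 2 ^ (9 * p.nZ) := by
  obtain ⟨-, -, -, a4, a5, a6, -⟩ := h.cν
  obtain ⟨-, -, b3, -⟩ := h.cl
  have m2 := h.mu2
  have c1 : p.nBs ≤ 2 ^ (4 * p.nZ) := Par_pw (by rw [h.l0, h.w0]; omega)
  have c2 : p.nBs * p.nBs ≤ 2 ^ (8 * p.nZ) :=
    (Nat.mul_le_mul c1 c1).trans_eq (by rw [← pow_add]; congr 1; ring)
  have c3 : 2 ^ (4 * p.nZ) ≤ 2 ^ (8 * p.nZ) := Par_pw (by omega)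
  have c4 : p.nA ≤ 2 ^ (8 * p.nZ) := Par_pw (by omega)
  have c5 : 2 ^ (ν + 7) ≤ 2 ^ (8 * p.nZ) := Par_pw (by omega)
  have c6 : 2 ^ (8 * p.nZ + 3) ≤ 2 ^ (9 * p.nZ) := Par_pw (by omega)
  have c7 : 2 ^ (4 * p.nZ + 4) ≤ 2 ^ (5 * p.nZ) := Par_pw (by omega)
  have c8 := Nat.two_pow_pos (4 * p.nZ)
  have := h.ν2
  rw [pow_add] at c5 c6 c7
  rw [Pm.nS]
  omega

theorem ok : p.Ok := by
  obtain ⟨-, y2, -, -, y5⟩ := h.cY
  obtain ⟨a1, a2, -, a4, a5, a6, a7, -⟩ := h.cν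
  obtain ⟨-, q2, q3, -, q5, q6, -⟩ := h.cq
  obtain ⟨b1, b2, -, -, -, b6⟩ := h.cl
  obtain ⟨d1, d2⟩ := h.dim
  obtain ⟨s1, s2⟩ := h.cS
  have t4 := h.t4
  have m1 := h.mu1
  have m2 := h.mu2
  have kR := h.kR
  have ν2 := h.ν2
  have νl : ν < 2 ^ ν := Nat.lt_two_pow_self
  have cM : p.cM + 1 ≤ 2 ^ (ν + 5) := by rw [Pm.cM, h.d2, pow_add]; omega
  have e2 : (p.n + 1) * p.PP * p.ks ≤ 2 ^ (p.d2 * 2) := by
    have c1 : p.ks ≤ 2 ^ y := by rw [h.ks]; omega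
    calc (p.n + 1) * p.PP * p.ks ≤ 2 ^ (l + 1) * (2 ^ (p.d1 + 1) * p.P') * 2 ^ y :=
          Nat.mul_le_mul (Nat.mul_le_mul_right _ h.l2) c1
      _ ≤ _ := by
          rw [h.P', ← pow_add, ← pow_add, ← pow_add, h.d1, h.d2]
          exact Par_pw (by omega)
  refine ⟨by omega, by rw [h.l0]; omega, by omega, by omega, by rw [h.d1]; omega,
    h.P' ▸ Nat.two_pow_pos _, by rw [h.m1]; omega, h.Kp ▸ Nat.one_le_pow _ _ (Nat.two_pow_pos y),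
    q3, h.J1, h.J2, q5, q6, d1, d2, h.s ▸ h.l2.le, ?_, ?_, by rw [h.K]; omega, h.K2, y5.trans b6,
    by rw [Pm.P1, h.d1]; exact cM, ?_, ?_, e2, ?_, ?_⟩
  · refine Nat.le_sqrt.2 (le_trans (Nat.mul_le_mul (Nat.le_of_succ_le s2) (Nat.le_of_succ_le s2))
      (le_trans ?_ h.l1))
    rw [← pow_add]
    exact Par_pw (by omega)
  · refine lt_of_le_of_lt (Nat.mul_le_mul (Nat.pow_le_pow_left s1 2) (Nat.pow_le_pow_left s2 2)) ?_
    rw [← pow_mul, ← pow_mul, ← pow_add]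
    exact Nat.pow_lt_pow_right (by norm_num) (by omega)
  · have c1 : p.Tb ≤ 2 ^ (y + p.nZ + 1) := by
      have c2 : 2 ^ (3 + p.t + p.mu + p.l0) * p.nA ≤ 2 ^ (y + p.nZ) := by
        rw [Pm.nA, ← pow_add, h.l0]
        exact Par_pw (by omega)
      have := Nat.two_pow_pos (y + p.nZ)
      rw [Pm.Tb, pow_succ]
      omega
    refine lt_of_le_of_lt (Nat.mul_le_mul (Nat.mul_le_mul q2 (Nat.le_of_succ_le cM)) c1) ?_
    rw [← pow_add, ← pow_add, ← pow_add, h.w0]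
    exact Nat.pow_lt_pow_right (by norm_num) (by omega)
  · refine h.cN.trans (Par_pw ?_)
    rw [Pm.nC, h.hh] at d1
    omega
  · refine le_trans ?_ (e2.trans (Par_pw (by omega)))
    rw [mul_assoc]
    exact Nat.mul_le_mul_right _ (by omega)
  · have c1 : 24 * p.L0 / 2 ^ p.m1 ≤ 24 * 2 ^ y := by
      refine Nat.div_le_of_le_mul ?_
      rw [h.m1, mul_left_comm]
      exact Nat.mul_le_mul_left _ ((Nat.le_succ _).trans q2)
    have c2 : 1 * p.er ≤ 2 ^ y * p.er := Nat.mul_le_mul_right _ (by omega)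
    have c3 := h.L0
    rw [mul_add, mul_add] at c3
    rw [h.hh, pow_add]
    omega

theorem rnd : ρ * (2 * p.nB * p.Km * (p.aS + 1) + p.CJ * (p.cM * p.nB) + p.nPG + p.LU) ≤ p.nA := by
  obtain ⟨y1, -⟩ := h.cY
  obtain ⟨a1, -, a3, a4, -⟩ := h.cν
  obtain ⟨q1, -, -, q4, -, -, q7⟩ := h.cq
  obtain ⟨-, -, -, -, b5, -⟩ := h.cl
  have m2 := h.mu2
  have ν2 := h.ν2
  have Km := h.Km
  have c0 : 2 ^ (2 * p.l0) ≤ 2 ^ y := Par_pw (by rw [h.l0]; omega)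
  have v1 : 256 * ν ≤ 2 ^ ν := le_trans (Nat.mul_le_mul_left _ (Nat.le_self_pow (by norm_num) _)) h.hV
  have e1 : 2 ^ (p.d1 + 1) = 64 * 2 ^ ν := by rw [h.d1]; ring
  have e2 : p.nA = (2 ^ ν) ^ 5 * ((2 ^ ν) ^ 5 * (2 ^ ν * 2 ^ ν) ^ ν) := by
    rw [Pm.nA, h.nZ, pow_mul]
    ring
  have c1 : p.cM ≤ 32 * 2 ^ ν := by rw [Pm.cM, h.d2]; omega
  rw [e2]
  have c2 : p.nT + 1 ≤ 2 ^ ν * 2 ^ ν := by
    clear * - p ν ρ y l a4 m2 q7 ν2 b5 v1 a1 q1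
    have d1 : p.mu * (p.w0 + p.kR + 1) ≤ ν * 2 ^ ν := Nat.mul_le_mul (by omega) (by omega)
    have d2 : (ν + 1) * 2 ^ ν ≤ 2 ^ ν * 2 ^ ν := Nat.mul_le_mul_right _ (by omega)
    rw [add_mul] at d2
    rw [Pm.nT]
    omega
  have c3 : p.nB ≤ (2 ^ ν) ^ 5 * (2 ^ ν * 2 ^ ν) ^ ν := by
    clear * - p ν e1 c2 ρ y l Km b5 ν2 v1 q7 a4
    rw [Pm.nB, e1]
    generalize 2 ^ ν = V at *
    have d1 : (p.nT + 1) ^ p.Km ≤ (V * V) ^ ν :=
      (Nat.pow_le_pow_left c2 _).trans (Nat.pow_le_pow_right (by omega) Km)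
    calc 64 * V * (p.Km + 1) * 128 * (p.kR + 1) ^ 2 * (p.nT + 1) ^ p.Km
        ≤ 64 * V * V * 128 * V ^ 2 * (V * V) ^ ν := by gcongr <;> omega
      _ = 8192 * V ^ 4 * (V * V) ^ ν := by ring
      _ ≤ V * V ^ 4 * (V * V) ^ ν := by gcongr; omega
      _ = _ := by ring
  have c4 : p.nPG ≤ 2 * ((2 ^ ν) ^ 5 * (2 ^ ν * 2 ^ ν) ^ ν) := by
    clear * - p ν ρ y l c2 q7 ν2 a1 b5 c0 v1
    rw [Pm.nPG]
    generalize 2 ^ ν = V at *
    have d1 : 1 ≤ (V * V) ^ ν := Nat.one_le_pow _ _ (by omega)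
    calc p.nT * 2 * (p.kR + 1) ^ 2 * 2 ^ (2 * p.l0) ≤ V * V * 2 * V ^ 2 * V := by
          gcongr <;> omega
      _ = 2 * (V ^ 5 * 1) := by ring
      _ ≤ _ := by gcongr
  have c5 : 1 ≤ (2 ^ ν) ^ 5 * (2 ^ ν * 2 ^ ν) ^ ν := Nat.pos_of_ne_zero (by positivity)
  generalize (2 ^ ν) ^ 5 * (2 ^ ν * 2 ^ ν) ^ ν = B at *
  generalize 2 ^ ν = V at *
  have V1 : 1 ≤ V := by omega
  calc ρ * (2 * p.nB * p.Km * (p.aS + 1) + p.CJ * (p.cM * p.nB) + p.nPG + p.LU)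
      ≤ V * (2 * B * V * V + V * (32 * V * B) + 2 * B + 30 * V) := by clear * - ρ V p B y l ν y1 a1 v1 V1 c3 Km q1 a3 q4 c1 c4 b5 ν2; gcongr <;> omega
    _ = V * (34 * V ^ 2 * B + 2 * V ^ 0 * B + 30 * V ^ 1 * 1) := by ring
    _ ≤ V * (34 * V ^ 3 * B + 2 * V ^ 3 * B + 30 * V ^ 3 * B) := by clear * - V B V1 c5; gcongr <;> norm_num
    _ = 66 * V ^ 4 * B := by ring
    _ ≤ V * V ^ 4 * B := by gcongr; omega
    _ = _ := by ring

theorem wt : ρ * (p.Ex + ((p.w + 6) * p.n + (p.K + 1) * Nat.sqrt p.n) * p.Tl +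
    (3 + p.CJ) * p.Wb) ≤ 7 * 2 ^ (p.n - 1) := by
  obtain ⟨y1, y2, y3, y4, -⟩ := h.cY
  obtain ⟨a1, -, -, a4, a5, a6, a7, a8, a9⟩ := h.cν
  obtain ⟨q1, -, -, q4, -⟩ := h.cq
  obtain ⟨-, -, -, b4, -⟩ := h.cl
  have Km := h.Km
  have ρ2 := h.ρ2
  have eS : 2 ^ p.n = 2 * 2 ^ (p.n - 1) := by
    rw [← pow_succ']
    congr 1
    omega
  have c1 : ρ * p.Ex ≤ 2 ^ p.n := by
    clear * - p ν l ρ y h a1 a5 a6 a7 q1 y1 b4 Km
    have d1 : p.P1 + 3 ≤ p.n := by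
      have := h.ν1
      rw [Pm.P1, h.d1, pow_add]
      omega
    calc ρ * p.Ex = ρ * ((p.P1 + 3) * (p.Km + p.LW + 3) * (p.n + 1)) := rfl
      _ ≤ p.n * (p.n * p.n * (2 * p.n)) := by gcongr <;> omega
      _ = 2 * p.n ^ 4 := by ring
      _ ≤ _ := h.hN
  have c2 : p.Ex ≤ 2 ^ p.n := (Nat.le_mul_of_pos_left _ (by omega)).trans c1
  have c3 : (2 ^ y) ^ 6 * ((p.n + 1) * p.Tl) ≤ 2 * 2 ^ p.n := by
    have d1 : (2 ^ y) ^ 6 ≤ (p.K - p.w - 6) / 2 := by rw [h.K]; omega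
    calc (2 ^ y) ^ 6 * ((p.n + 1) * p.Tl) ≤ (p.K - p.w - 6) / 2 * (2 * p.thr * p.Tl) := by gcongr
      _ = 2 * (p.Tl * ((p.K - p.w - 6) / 2 * p.thr)) := by ring
      _ ≤ _ := Nat.mul_le_mul_left _ (Nat.div_mul_le_self _ _)
  have c4 : (2 ^ y) ^ 6 * ((p.n + 1) * p.N) ≤ 2 ^ p.n := by
    have d1 : ν ≤ 2 ^ l := le_trans (by omega) (Nat.lt_two_pow_self (n := l)).le
    refine le_trans (Nat.mul_le_mul (y3.trans d1) (Nat.mul_le_mul h.l2 h.cN)) ?_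
    rw [← pow_add, ← pow_add]
    exact Par_pw (by omega)
  have c5 := Nat.mul_div_le (2 * (1 + p.aS) * (2 ^ p.n + p.Ex)) p.Kp
  have c6 : 1 ≤ p.N := Nat.succ_pos _
  have c7 : (p.K + 1) * Nat.sqrt p.n ≤ p.n :=
    (Nat.mul_le_mul_right _ (y4.trans a8)).trans (Nat.sqrt_le _)
  have c8 : p.w + 7 ≤ 2 ^ y := by rw [h.w]; omega
  rw [Pm.Wb]
  generalize 2 * (1 + p.aS) * (2 ^ p.n + p.Ex) / p.Kp = W at *
  rw [h.Kp] at c5
  generalize 2 ^ y = Y at *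
  have Y1 : 1 ≤ Y := by omega
  have pw : ∀ {a b : ℕ}, a ≤ b → Y ^ a ≤ Y ^ b := fun hab => Nat.pow_le_pow_right Y1 hab
  have f1 : Y ^ 5 * W ≤ 4 * 2 ^ p.n := by
    refine Nat.le_of_mul_le_mul_left (c := Y) ?_ Y1
    calc Y * (Y ^ 5 * W) = Y ^ 6 * W := by ring
      _ ≤ 2 * (1 + p.aS) * (2 ^ p.n + p.Ex) := c5
      _ ≤ 2 * Y * (2 ^ p.n + 2 ^ p.n) := by gcongr; omega
      _ = _ := by ring
  have f2 := (Nat.mul_le_mul_right _ (pw (show 5 ≤ 6 by norm_num))).trans c3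
  have f3 := (Nat.mul_le_mul_right _ (pw (show 5 ≤ 6 by norm_num))).trans c4
  have f4 : Y ^ 5 * (p.n + 1) ≤ Y ^ 5 * ((p.n + 1) * p.N) :=
    Nat.mul_le_mul_left _ (Nat.le_mul_of_pos_right _ c6)
  have f5 : 42 * (ρ * (3 + p.CJ)) ≤ Y ^ 5 := by
    clear * - Y pw ρ p y l ν W q4 y1
    have d1 := pw (show 0 ≤ 4 by norm_num)
    rw [pow_zero] at d1
    calc 42 * (ρ * (3 + p.CJ)) ≤ 42 * (ρ * (4 * Y ^ 4)) := by gcongr; omega
      _ = 168 * ρ * Y ^ 4 := by ring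
      _ ≤ Y * Y ^ 4 := by gcongr
      _ = _ := by ring
  have f6 : ρ * (((p.w + 6) * p.n + (p.K + 1) * Nat.sqrt p.n) * p.Tl) ≤ 2 * 2 ^ p.n := by
    clear * - ρ p Y y l ν W y1 y2 c7 c8 pw c3
    refine le_trans ?_ c3
    calc ρ * (((p.w + 6) * p.n + (p.K + 1) * Nat.sqrt p.n) * p.Tl)
        ≤ Y * (((p.w + 6) * p.n + p.n) * p.Tl) := by gcongr; omega
      _ = Y * (p.w + 7) * (p.n * p.Tl) := by ring
      _ ≤ Y * Y * ((p.n + 1) * p.Tl) := by gcongr; omega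
      _ ≤ _ := Nat.mul_le_mul_right _ ((sq Y).symm.trans_le (pw (by norm_num)))
  have f7 := Nat.mul_le_mul_right (2 * (W + (p.n + 1) * (2 * p.Tl + 2 * p.N)) + (p.n + 1)) f5
  have f8 : Y ^ 5 * (2 * (W + (p.n + 1) * (2 * p.Tl + 2 * p.N)) + (p.n + 1)) =
      2 * (Y ^ 5 * W) + 4 * (Y ^ 5 * ((p.n + 1) * p.Tl)) + 4 * (Y ^ 5 * ((p.n + 1) * p.N)) +
        Y ^ 5 * (p.n + 1) := by ring
  rw [f8, mul_assoc 42, mul_assoc ρ] at f7
  rw [mul_add ρ, mul_add ρ]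
  clear * - ρ p W y l ν eS c1 Y f1 f2 f3 f4 f6 f7 f8
  omega

theorem T : 2 ^ (p.n - 1) = 2 ^ y * 2 ^ y * (p.Q * p.U * p.nA) := by
  have d1 := h.dim.1
  rw [Pm.nC, Pm.nL, h.hh] at d1
  rw [Pm.Q, Pm.U, Pm.nA, ← pow_add, ← pow_add, ← pow_add, ← pow_add]
  congr 1
  omega

theorem fit {η : ℝ} (hη : 0 < η) (h1 : 20 * η ≤ 1) (hr : 1 ≤ η * ρ) {VV : ℕ}
    (hV : (VV : ℝ) ≤ (1 - 20 * η) * 2 ^ (p.n - 1)) : p.Fit η VV := by
  have dv : ∀ {a b : ℝ}, 0 ≤ a → ρ * a ≤ b → a ≤ η * b := fun ha hab => by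
    linarith only [mul_le_mul_of_nonneg_right hr ha, mul_le_mul_of_nonneg_left hab hη.le]
  have a1 := dv (Nat.cast_nonneg _) (b := 7 * 2 ^ (p.n - 1)) (by exact_mod_cast h.wt)
  have a3 := dv (Nat.cast_nonneg _) (b := p.nA) (by exact_mod_cast h.rnd)
  have a4 := dv (Nat.cast_nonneg _) (b := 2 ^ y) (by exact_mod_cast h.hD)
  have a5 : (1 - η) * (2 ^ y * 2 ^ y) ≤ (p.L0 : ℝ) := by
    have b1 := (Nat.le_mul_of_pos_left _ (show 0 < ρ by linarith [h.ρ2])).trans h.hD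
    have b2 := mul_le_mul_of_nonneg_left a4 (show (0 : ℝ) ≤ 2 ^ y by positivity)
    rw [h.L0, Nat.cast_sub (Nat.mul_le_mul_left _ b1), Nat.cast_mul, Nat.cast_mul, Nat.cast_pow,
      Nat.cast_ofNat]
    linarith
  have e0 : 0 < 1 - η := by linarith
  have T0 : (0 : ℝ) < 2 ^ (p.n - 1) := by positivity
  have a6 : (1 - η) * 2 ^ (p.n - 1) ≤ (p.nA : ℝ) * (p.L0 * p.Q * p.U) := by
    clear * - p y ρ l ν h η a5
    have e : (2 : ℝ) ^ (p.n - 1) = 2 ^ y * 2 ^ y * (p.Q * p.U * p.nA) := by exact_mod_cast h.T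
    rw [e]
    calc _ = (1 - η) * (2 ^ y * 2 ^ y) * ((p.Q : ℝ) * p.U * p.nA) := by ring
      _ ≤ p.L0 * ((p.Q : ℝ) * p.U * p.nA) := by gcongr
      _ = _ := by ring
  have D0 : (0 : ℝ) < p.L0 * p.Q * p.U :=
    pos_of_mul_pos_right (lt_of_lt_of_le (by positivity) a6) (Nat.cast_nonneg _)
  rw [Pm.Fit]
  generalize (p.L0 : ℝ) * p.Q * p.U = D at *
  generalize (2 : ℝ) ^ (p.n - 1) = T at *
  have a8 : (1 + η) * (p.Vb VV + p.CJ * p.Wb) / D ≤ (1 - η) * p.nA := by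
    clear * - η p VV D D0 T a6 e0 hV a1 hη h1 T0
    rw [div_le_iff₀ D0, Pm.Vb]
    push_cast at a1 ⊢
    have b1 := mul_le_mul_of_nonneg_left a6 e0.le
    have b3 : (VV : ℝ) + p.Ex + ((p.w + 6) * p.n + (p.K + 1) * (Nat.sqrt p.n : ℕ)) * p.Tl +
        3 * p.Wb + p.CJ * p.Wb ≤ (1 - 13 * η) * T := by linarith
    have b4 := mul_le_mul_of_nonneg_left b3 (show 0 ≤ 1 + η by linarith)
    have b6 : 0 ≤ η * η * T := by positivity
    have b7 : 0 ≤ η * T := by positivity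
    linarith only [b1, b4, b6, b7]
  push_cast at a3
  refine le_trans (le_of_eq ?_) (le_trans (add_le_add a8 a3) (le_of_eq (by ring)))
  ring

end Par_H

theorem par_ex (ε : ℝ) (hε : 0 < ε) (h1 : ε ≤ 1) (m0 : ℕ) : ∃ K K20 : ℕ, ∀ K2 ≥ K20, ∃ n0 : ℕ,
    ∀ n ≥ n0, ∃ p : Pm, p.n = n ∧ p.K = K ∧ p.K2 = K2 ∧ p.Ok ∧ m0 ≤ p.mu ∧ m0 ≤ p.t ∧
      m0 ≤ p.l0 ∧ ∀ VV : ℕ, (VV : ℝ) ≤ (1 - ε) * 2 ^ (n - 1) → p.Fit (ε / 20) VV := by
  obtain ⟨η, rfl⟩ : ∃ η, ε = 20 * η := ⟨ε / 20, by ring⟩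
  rw [show 20 * η / 20 = η by ring]
  have hη : 0 < η := by linarith
  obtain ⟨ρ, hr⟩ := exists_nat_ge (1 / η)
  rw [div_le_iff₀' hη] at hr
  have ρ2 : 2 ≤ ρ := by
    have : (2 : ℝ) ≤ ρ := by nlinarith
    exact_mod_cast this
  obtain ⟨N1, g1⟩ := X.Par_grow (ρ * 4300) 2
  obtain ⟨N2, g2⟩ := X.Par_grow 256 2
  obtain ⟨N3, g3⟩ := X.Par_grow 200 1
  obtain ⟨N4, g4⟩ := X.Par_grow 2 4
  obtain ⟨y, hy⟩ : ∃ y, y = N1 + 4 * m0 + 49 := ⟨_, rfl⟩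
  obtain ⟨K, hK⟩ : ∃ K, K = 5 * (2 * y + 2) + 3 + 8 + 2 * (2 ^ y) ^ 6 := ⟨_, rfl⟩
  refine ⟨K, (K + (5 * (2 * y + 2) + 3)) ^ 2, fun K2 hK2 => ?_⟩
  obtain ⟨N, hN⟩ : ∃ N, N = 2 * (2 ^ y) ^ 6 * (K2 + (5 * (2 * y + 2) + 3) + 5) + 2 ^ y + N2 + N3 +
    N4 := ⟨_, rfl⟩
  refine ⟨2 ^ 2 ^ N, fun n hn => ?_⟩
  have f1 := Nat.le_log_of_pow_le one_lt_two hn
  have f2 := Nat.le_log_of_pow_le one_lt_two f1
  have l1 := Nat.pow_log_le_self 2 (show n ≠ 0 from ((Nat.two_pow_pos _).trans_le hn).ne')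
  have l2 := Nat.lt_pow_succ_log_self one_lt_two n
  generalize Nat.log 2 n = l at *
  have ν1 := Nat.pow_log_le_self 2 (show l ≠ 0 from ((Nat.two_pow_pos _).trans_le f1).ne')
  have ν2 := Nat.lt_pow_succ_log_self one_lt_two l
  generalize Nat.log 2 l = ν0 at *
  have νl : ν0 ≤ l := Nat.lt_two_pow_self.le.trans ν1
  have ln : l ≤ n := Nat.lt_two_pow_self.le.trans l1
  obtain ⟨ν, hν⟩ : ∃ ν, ν = ν0 + 1 := ⟨_, rfl⟩
  have ν3 : 2 ^ ν ≤ 2 * l := by rw [hν, pow_succ]; omega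
  have ν4 : l < 2 ^ ν := hν ▸ ν2
  have yY : y < 2 ^ y := Nat.lt_two_pow_self
  have hV := g2 ν (by omega)
  obtain ⟨z1, z2, z3⟩ := Par_Z ν3 hV (by omega)
  obtain ⟨r1, r2⟩ := Par_rt (n := n) (ν := ν) (by omega) (by omega)
  have hL : 200 * l ≤ 2 ^ l := by simpa using g3 l (by omega)
  obtain ⟨qF, hq⟩ : ∃ q, q = (2 ^ (m0 + 4) - 1) * (2 ^ (m0 + 4) - 1) + 1 := ⟨_, rfl⟩
  have q1 : ∀ u ≤ 2 * (m0 + 12) + 1, qF * u ≤ 2 ^ y := fun u hu => by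
    refine le_trans (Nat.mul_le_mul (hq ▸ Par_sq Nat.one_le_two_pow) Nat.lt_two_pow_self.le) ?_
    rw [← pow_add, ← pow_add]
    exact Par_pw (by omega)
  have q2 := q1 (m0 + 12) (by omega)
  obtain ⟨mu, kk, m1, m2, -, m4, m5⟩ := X.Par_mu (q := qF) (μ0 := m0 + 12) (A := n - Nat.sqrt n)
    (by omega) (by omega) (by omega)
  have m6 : n ≤ qF * (mu + 1) * 2 ^ kk := by
    clear * - n qF kk mu m0 ρ N1 N2 N3 N4 y hy K K2 N hN l ν0 f2 ν hν yY r1 m2 r2 m5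
    have b1 : Nat.sqrt n ≤ qF * 2 ^ kk := by
      by_contra hc
      have c1 := Nat.sqrt_le n
      have c2 := Nat.mul_le_mul_left mu (not_le.1 hc).le
      have c3 := Nat.mul_le_mul_right (Nat.sqrt n) (show 2 * mu ≤ Nat.sqrt n by omega)
      rw [mul_assoc] at c3
      rw [mul_assoc, mul_left_comm] at m5
      omega
    rw [mul_add, add_mul, mul_one]
    omega
  have m7 : 30 * (ν * (2 * ν + 10)) < kk := by
    clear * - l y kk n l1 qF mu m6 q1 m0 ρ N1 N2 N3 N4 K K2 N ν0 ν m2 hy hN f2 νl hν yY z1 z2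
    have b1 := l1.trans (m6.trans (Nat.mul_le_mul_right _ (q1 (mu + 1) (by omega))))
    rw [← pow_add] at b1
    have := (Nat.pow_le_pow_iff_right (by norm_num)).1 b1
    omega
  obtain ⟨kR, rfl⟩ := Nat.exists_eq_add_of_le (show 2 * (ν * (2 * ν + 10)) ≤ kk by omega)
  let p1 : Pm := ⟨n, ν * (2 * ν + 10), m0 + 4, mu + 1, 2 * (ν * (2 * ν + 10)), m0 + 4, kR, y, ν + 5,
    9 * l, y, l + 1, K, K2, (2 ^ y) ^ 6, 2 ^ (15 * l), 0, 0⟩
  have h : Par_H { p1 with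
      G0 := n - (p1.nC + p1.nL)
      L0 := 2 ^ y * 2 ^ y - 2 ^ y * (25 + p1.er + p1.ks * p1.er) } ρ y l ν := by
    subst hq
    refine ⟨ρ2, Nat.le_add_left _ _, rfl, (by omega : 12 ≤ mu + 1),
      (by omega : 2 * (m0 + 4) + (mu + 1) + 16 ≤ y), rfl, rfl, ?_, rfl, hK, hK2, rfl,
      (by omega : 2 * (2 ^ y) ^ 6 * (K2 + (5 * (2 * y + 2) + 3) + 5) ≤ ν), ν3, ν4, hV, l1, l2, hL,
      g4 n (by omega), rfl, rfl, (by omega : 28 * (ν * (2 * ν + 10)) < kR), m4, m6, rfl, rfl, rfl,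
      rfl, rfl⟩
    refine le_trans ?_ (g1 y (by omega))
    rw [mul_assoc]
    refine Nat.mul_le_mul_left _ ?_
    show 25 + (5 + 20 * (2 * (2 * y + 2) + 6)) +
      (2 * (2 * y + 2) + 6) * (5 + 20 * (2 * (2 * y + 2) + 6)) ≤ 4300 * y ^ 2
    have : 1 ≤ y := by omega
    clear * - y N1 m0 hy
    nlinarith
  exact ⟨_, rfl, rfl, rfl, h.ok, (by omega : m0 ≤ mu + 1), Nat.le_add_right _ _,
    Nat.le_add_right _ _, fun VV hVV => h.fit hη h1 hr hVV⟩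

end Pool.Agent.Work.MP_ede3c6_co.Y
end

-- merged part: Pool.Agent.Work.MP_ede3c6_co.Y.SegEx
section
/-! Existence of the segmentation.

PLAN. `b = ap k a`, `y x` = least switch edge `≥ x + w + 3` (all edges from `k` on are switch
edges), `F x = y x + 2`, `far x := x + K1 ≤ F x`, `κ = K + w`. A short window that ends just before
`u` (the next block starts at `u`) has actual weight `om u` = sup of `b i` over
`u - w - 1 ≤ i < u + 2`. Recursion on states `(x, u, iso)` (`x = bs j ≤ u`), start `(0, 0, false)`: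
* `j` long: `bl = K` or `K + 1` with `x + bl` even, tile iff `iso`; next `(x', x', false)`,
  `x' = x + bl + LW` (note `u ≤ x'` if `¬ iso`, by `hLW`).
* `iso`, or `u = x` and `far x` (then put `u := F x`): tile; `D = u - x` satisfies `κ ≤ D`,
  `D % κ ≤ D / κ` (`hK2`); `bl = K` if `κ ∣ D`, else `K + 1`; if `bl + w = D` kind `1`, next
  `(u, u, false)`, else kind `2`, next `(x + bl + w, u, true)`. No edge in `[x + w + 3, u - 2)` is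
  a switch edge, these edges lie in `IE` (the stretch from the first tile has length `≥ K2`).
* else (`¬ far u`, `u ≤ x + Kp K1`): `u_i = F^[i] u`. If some `u_i`, `1 ≤ i ≤ Kp`, is far, take the
  least one, kind `1` (forced), next `(u_i, u_i, false)`. Else take `i` with minimal `om u_i`,
  kind `0` with `mx = max aS (om u_i)` if `om u_i ≤ thrN`, else kind `1`; next
  `(u_i, u_Kp, false)`. `bl = u_i - w - x`.
`av j o`: in a tile `tc c bl o` with `c = 0` in the first case of `hV`; in the second case `c = 1`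
(`c = 2`) if all even (odd) offsets in `[w + 4, bl - 1)` have `b ≤ n / 4`, else `c = 0`, and then
the tile contains an edge counted in the last term of `VP` (no two neighbours are both `≤ n / 4`;
if no two neighbours are both `> n / 4` the pattern alternates). Otherwise `av j o = b (x + o)`
except `av j o = mx (j - 1)` (`n` for `j = 0`) for `o < 2` and `av j (bl - 1) = mx j`. A tile
always follows a window with `mx = n` (after a minimal window `u_i` is not far).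
`J` = least `j` with `k + 2 ≤ bs j`. Counting: every tile contains `(K - w - 6) / 2` disjoint edges
with an end above `thr`, so there are at most `Tl` tiles. Over `j < J + 1 + P1`: the batches of
candidates are disjoint (the pointer, `u` if `¬ iso` and `x` if `iso`, never decreases), so `Kp`
times the weight of the minimal windows is at most `2 (1 + aS) (2 ^ n + Ex)` (`hN2`); a forced window
is followed by a tile or a block with a long window; `md g` minimises `mx` among the first `P1 - 1`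
junctions of group `g`, `cM ≤ P1 - 1`. -/

set_option autoImplicit false

namespace Pool.Agent.Work.MP_ede3c6_co.Y

open Finset Vol

theorem SegEx_md (P c : ℕ) (hc : c + 1 ≤ P) (hP : 2 ≤ P) (m : ℕ → ℕ) :
    ∃ md : ℕ → ℕ, (∀ g, md g / P = g ∧ md g % P ≠ P - 1) ∧ ∀ J,
      ∑ j ∈ range (J + 1), (if md (j / P) = j then c else 1) * (1 + m j) ≤
        2 * ∑ j ∈ range (J + 1 + P), (1 + m j) := by
  have e : ∀ g, ∃ t < P - 1, c * (1 + m (g * P + t)) ≤ ∑ o ∈ range P, (1 + m (g * P + o)) :=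
    fun g => by
      obtain ⟨t, ht, hm⟩ := exists_min_image (range (P - 1)) (fun o => m (g * P + o))
        ⟨0, mem_range.2 (by omega)⟩
      refine ⟨t, mem_range.1 ht, le_trans ?_
        (sum_le_sum_of_subset (range_mono (Nat.sub_le P 1)))⟩
      refine le_trans (Nat.mul_le_mul_right _ (show c ≤ (range (P - 1)).card by
        rw [card_range]; omega)) (card_nsmul_le_sum _ _ _ fun o ho => ?_)
      exact Nat.add_le_add_left (hm o ho) _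
  choose t t1 t2 using e
  have d1 : ∀ g o, o < P → (g * P + o) / P = g := fun g o ho => by
    rw [add_comm, Nat.add_mul_div_right _ _ (by omega), Nat.div_eq_of_lt ho, zero_add]
  have s1 : ∀ G, ∑ j ∈ range (G * P), (if j / P * P + t (j / P) = j then c * (1 + m j) else 0) ≤
      ∑ j ∈ range (G * P), (1 + m j) := fun G => by
    induction G with
    | zero => simp
    | succ G ih =>
      rw [Nat.succ_mul, sum_range_add, sum_range_add]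
      refine Nat.add_le_add ih (le_trans (sum_le_sum (g := fun o =>
        if o = t G then c * (1 + m (G * P + t G)) else 0) fun o ho => ?_) ?_)
      · rw [d1 G o (mem_range.1 ho)]
        by_cases u : o = t G
        · rw [u, if_pos rfl, if_pos rfl]
        · rw [if_neg (by omega)]
          exact Nat.zero_le _
      · rw [sum_ite_eq']
        split_ifs
        exacts [t2 G, Nat.zero_le _]
  refine ⟨fun g => g * P + t g, fun g => ⟨d1 g _ (by have := t1 g; omega), ?_⟩, fun J => ?_⟩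
  · have := t1 g
    dsimp only
    rw [Nat.mul_add_mod_self_right, Nat.mod_eq_of_lt (by omega)]
    omega
  have a1 := Nat.div_add_mod' J P
  have a2 := Nat.mod_lt J (show 0 < P by omega)
  have a3 : (J / P + 1) * P = J / P * P + P := Nat.succ_mul _ _
  have u1 : ∑ j ∈ range (J + 1), (if j / P * P + t (j / P) = j then c else 1) * (1 + m j) ≤
      ∑ j ∈ range (J + 1), ((if j / P * P + t (j / P) = j then c * (1 + m j) else 0) + (1 + m j)) :=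
    sum_le_sum fun j _ => by split_ifs <;> omega
  have u2 := sum_le_sum_of_subset (f := fun j => if j / P * P + t (j / P) = j then c * (1 + m j)
    else 0) (range_mono (show J + 1 ≤ (J / P + 1) * P by omega))
  have u3 := sum_le_sum_of_subset (f := fun j => 1 + m j)
    (range_mono (show (J / P + 1) * P ≤ J + 1 + P by omega))
  have u4 := sum_le_sum_of_subset (f := fun j => 1 + m j)
    (range_mono (show J + 1 ≤ J + 1 + P by omega))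
  have u5 := s1 (J / P + 1)
  rw [sum_add_distrib] at u1
  dsimp only
  omega

theorem SegEx_long (P A M : ℕ) (hP : 0 < P) (hM : M ≤ A + P) :
    ∑ j ∈ range M, (if j % P = P - 1 then 1 else 0) ≤ A / P + 2 := by
  rw [← card_filter]
  refine le_trans (card_le_card_of_injOn (t := range (A / P + 2)) (fun j => j / P)
    (fun j hj => ?_) fun i hi j hj e => ?_) (card_range _).le
  · have h1 := mem_range.1 (mem_filter.1 hj).1
    have h2 : j / P ≤ (A + P) / P := Nat.div_le_div_right (by omega)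
    rw [Nat.add_div_right _ hP] at h2
    exact mem_coe.2 (mem_range.2 (by dsimp only; omega))
  · rw [← Nat.div_add_mod' i P, ← Nat.div_add_mod' j P, (mem_filter.1 hi).2, (mem_filter.1 hj).2]
    exact congrArg (fun y => y * P + (P - 1)) e

theorem SegEx_heavy {n K2 k : ℕ} {a : ℕ → ℕ} (y c : ℕ)
    (h : ∀ o < 2 * c, IE n K2 k a (y + o)) :
    c * (n - Nat.sqrt n) ≤ ∑ o ∈ range (2 * c), ap k a (y + o) := by
  induction c with
  | zero => simp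
  | succ c ih =>
    have h1 := ih fun o ho => h o (by omega)
    have h2 := SegEx_ns (h (2 * c) (by omega))
    unfold sw at h2
    rw [Nat.mul_succ, sum_range_succ, sum_range_succ, Nat.succ_mul, ← add_assoc]
    omega

theorem seg_ex (p : Pm) (h : p.Ok) (k : ℕ) (a : ℕ → ℕ) (VV : ℕ) (ha : ∀ i < k, a i ≤ p.n)
    (hv : k + ∑ i ∈ range k, a i ≤ 2 ^ p.n)
    (hV : (∀ π < 2, VT p.n p.K2 k a π ≤ VV) ∨ ∀ π < 2, VP p.n p.K p.K2 k a π ≤ VV) :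
    Nonempty (Seg p k a VV) := by
  classical
  obtain ⟨n1, n2, n3, n4, n5, n6, n7, n8, n9, n10, n11, n12, n13, n14⟩ := SegEx_num p h
  have hb := SegEx_le ha
  have e1 : ∀ i < k, ap k a i = a i := fun i hi => if_pos hi
  have e0 : ∀ i, k ≤ i → ap k a i = 0 := fun i hi => if_neg (by omega)
  obtain ⟨v, v1, v2, v3, v4⟩ := SegEx_tile p h k a VV ha hV
  choose cf c1 c2 using v4
  obtain ⟨F, x, z, d, l, r, m, x0, hs⟩ := SegEx_seq p h k a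
  obtain ⟨tl, ht⟩ : ∃ tl : ℕ → Prop, ∀ j,
      tl j ↔ SegTL p F (j % p.PP = p.PP - 1) (x j) (z j) (d j) := ⟨_, fun _ => Iff.rfl⟩
  have S := fun j => (hs j).1
  have O := fun j => (hs j).2
  clear hs
  have xs : ∀ j, x j + l j + p.w ≤ x (j + 1) ∧ x (j + 1) ≤ x j + (p.Km + p.LW) := fun j => by
    clear * - r j x l p k a F z d m O n2 n4 n5 n6 n7 n8
    have := (O j).e3
    have := (O j).e2
    have := (O j).l2
    omega
  have xu : ∀ j i, x (j + i) ≤ x j + i * (p.Km + p.LW) := fun j i => by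
    induction i with
    | zero => simp
    | succ i ih =>
      have := xs (j + i)
      rw [← add_assoc, Nat.succ_mul]
      omega
  have xl : ∀ j, j ≤ x j := fun j => by
    induction j with
    | zero => omega
    | succ j ih =>
      have := xs j
      omega
  have mM : ∀ j, m j ≤ p.n := fun j => by
    by_cases u : r j = 0
    · have := ((O j).m0 u).2.1
      omega
    · exact ((O j).m1 u).le
  obtain ⟨pm, p0, p1⟩ : ∃ pm : ℕ → ℕ, pm 0 = p.n ∧ ∀ j, pm (j + 1) = m j :=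
    ⟨fun j => Nat.casesOn j p.n m, rfl, fun _ => rfl⟩
  have p2 : ∀ j, pm j ≤ p.n ∧ (tl j → pm j = p.n) ∧ ∀ o < 2, ap k a (x j + o) ≤ pm j := fun j => by
    rcases j with _ | j
    · exact ⟨p0.le, fun _ => p0, fun o _ => p0 ▸ hb _⟩
    rw [p1]
    by_cases u : r j = 0
    · obtain ⟨-, -, u1, u2, u3⟩ := (O j).m0 u
      refine ⟨mM j, fun w => ?_, fun o ho => u1 _ (by omega) (by omega)⟩
      rcases (ht _).1 w with w | w
      · exact absurd u2 w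
      · omega
    · exact ⟨mM j, fun _ => (O j).m1 u, fun o _ => (O j).m1 u ▸ hb _⟩
  obtain ⟨av, a1, a2⟩ : ∃ av : ℕ → ℕ → ℕ, (∀ j, tl j → ∀ o, av j o = p.tc (cf (x j) (l j)) (l j) o) ∧
      ∀ j, ¬ tl j → ∀ o, av j o =
        if o + 1 = l j then m j else if o < 2 then pm j else ap k a (x j + o) :=
    ⟨fun j o => if tl j then p.tc (cf (x j) (l j)) (l j) o else
      if o + 1 = l j then m j else if o < 2 then pm j else ap k a (x j + o),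
      fun j u _ => if_pos u, fun j u _ => if_neg u⟩
  have T := fun j (u : tl j) => (O j).tl ((ht j).1 u)
  have C := fun j (u : tl j) => c2 (x j) (l j) (T j u).1 (T j u).2.2
  have a3 : ∀ j, ∀ o < 2, av j o = pm j := fun j o ho => by
    have := (O j).l1
    by_cases u : tl j
    · rw [a1 j u, Pm.tc, if_pos (by omega), (p2 j).2.1 u]
    · rw [a2 j u, if_neg (by omega), if_pos ho]
  have ex : ∃ j, k + 2 ≤ x j := ⟨k + 2, xl _⟩
  obtain ⟨J, J1, J2, J3⟩ : ∃ J, k + 2 ≤ x (J + 1) ∧ J + 1 ≤ k + 2 ∧ x J < k + 2 := by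
    have u1 := Nat.find_spec ex
    have u2 := Nat.find_min' ex (xl (k + 2))
    have u3 : Nat.find ex ≠ 0 := fun u => by
      rw [u] at u1
      omega
    obtain ⟨J, hJ⟩ := Nat.exists_eq_succ_of_ne_zero u3
    have u4 := not_le.1 (Nat.find_min ex (show J < Nat.find ex by omega))
    rw [hJ] at u1 u2
    exact ⟨J, u1, u2, u4⟩
  have hE : (p.P1 + 3) * (p.Km + p.LW) + 9 ≤ p.Ex := by
    have u1 : (p.P1 + 3) * (p.Km + p.LW + 3) ≤ p.Ex := Nat.le_mul_of_pos_right _ (by omega)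
    rw [mul_add _ _ 3] at u1
    omega
  have hk : ∑ i ∈ range k, ap k a i = ∑ i ∈ range k, a i :=
    sum_congr rfl fun i hi => e1 i (mem_range.1 hi)
  have cT : ∀ M, ∑ j ∈ range M, (if tl j then 1 else 0) ≤ p.Tl := fun M => by
    clear * - p k a n2 n5 x pm ex J n10 n12 M l xs n1 hk hv e0 tl r T
    have u0 : 0 < (p.K - p.w - 6) / 2 * p.thr := Nat.mul_pos (by omega) (by omega)
    have u1 := X.SegEx_tel (ap k a) x l (fun j => by have := xs j; omega) M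
    have u2 := X.SegEx_tail (fun i => 1 + ap k a i) k (x M) (2 ^ p.n) (k + x M) le_rfl
      (by rw [sum_add_distrib, sum_const, card_range, smul_eq_mul, hk]; omega)
      fun i hi => by rw [e0 i hi]
    have u3 := sum_le_sum_of_subset (f := ap k a) (range_mono (Nat.le_add_left (x M) k))
    have u4 : ∑ i ∈ range (k + x M), ap k a i = ∑ i ∈ range k, a i := by
      rw [sum_range_add, hk, sum_eq_zero fun i _ => e0 _ (Nat.le_add_right _ _), add_zero]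
    rw [Pm.Tl, Nat.le_div_iff_mul_le u0, sum_mul]
    refine le_trans (sum_le_sum fun j _ => ?_) (u1.trans (by omega))
    split_ifs with u
    · obtain ⟨w1, -, w2⟩ := T j u
      have w3 := SegEx_heavy (x j + (p.w + 3)) ((p.K - p.w - 6) / 2) fun o ho => by
        rw [add_assoc]
        exact w2 _ (by omega) (by omega)
      have w4 := sum_le_sum_of_subset (f := fun o => ap k a (x j + o))
        (range_mono (show p.w + 3 + 2 * ((p.K - p.w - 6) / 2) ≤ l j by omega))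
      rw [sum_range_add] at w4
      simp only [← add_assoc (x j) (p.w + 3)] at w4
      rw [one_mul, n12]
      omega
    · simp
  have cL : ∀ M ≤ J + 1 + 1 + p.P1 + 1,
      ∑ j ∈ range M, (if j % p.PP = p.PP - 1 then 1 else 0) ≤ p.N := fun M hM =>
    SegEx_long p.PP (2 ^ p.n + 2) M (by omega) (by omega)
  have cW : ∑ j ∈ range (J + 1 + 1 + p.P1), (1 + m j) ≤
      2 * (1 + p.aS) * (2 ^ p.n + p.Ex) / p.Kp + (p.n + 1) * (2 * p.Tl + 2 * p.N) := by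
    clear * - p k a z m tl J F x d l r O ht mM pm p0 ex xu S n7 J3 hE hk hv e0 h cT cL
    obtain ⟨g, g1, g2⟩ : ∃ g : ℕ → ℕ, (∀ j, 2 * (1 + p.aS) * SegT k a (z j + 2) + p.Kp * g j ≤
        2 * (1 + p.aS) * SegT k a (z (j + 1) + 2)) ∧ ∀ j, 1 + m j ≤ g j + (p.n + 1) *
          ((if tl j then 1 else 0) + (if tl (j + 1) then 1 else 0) +
            (if j % p.PP = p.PP - 1 then 1 else 0) +
            if (j + 1) % p.PP = p.PP - 1 then 1 else 0) := by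
      refine ⟨fun j => if tl j ∨ tl (j + 1) ∨ j % p.PP = p.PP - 1 ∨ (j + 1) % p.PP = p.PP - 1
        then 0 else 1 + m j, fun j => ?_, fun j => ?_⟩
      · dsimp only
        split_ifs with u
        · exact Nat.mul_le_mul_left _ (SegT_mono k a (Nat.add_le_add_right (O j).zz 2))
        rcases (O j).wt with w | w | w | w
        · exact absurd (Or.inr (Or.inr (Or.inl w))) u
        · exact absurd (Or.inl ((ht j).2 w)) u
        · exact absurd (Or.inr (Or.inl ((ht _).2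
            (Or.inr ⟨fun w' => u (Or.inr (Or.inr (Or.inr w'))), w⟩)))) u
        · exact w
      · dsimp only
        by_cases u : tl j ∨ tl (j + 1) ∨ j % p.PP = p.PP - 1 ∨ (j + 1) % p.PP = p.PP - 1
        · rw [if_pos u, zero_add]
          refine le_trans (by have := mM j; omega) (Nat.le_mul_of_pos_right _ ?_)
          rcases u with u | u | u | u <;> rw [if_pos u] <;> omega
        · rw [if_neg u]
          exact Nat.le_add_right _ _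
    have g3 : ∀ M, p.Kp * ∑ j ∈ range M, g j ≤ 2 * (1 + p.aS) * SegT k a (z M + 2) := fun M => by
      induction M with
      | zero => simp
      | succ M ih =>
        have := g1 M
        rw [sum_range_succ, mul_add]
        omega
    have g4 : SegT k a (z (J + 1 + 1 + p.P1) + 2) ≤ 2 ^ p.n + p.Ex := by
      have u1 := xu J (p.P1 + 2)
      have u2 := (S (J + 1 + 1 + p.P1)).h2
      rw [show J + (p.P1 + 2) = J + 1 + 1 + p.P1 by omega] at u1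
      rw [show p.P1 + 3 = p.P1 + 2 + 1 from rfl, Nat.succ_mul] at hE
      exact X.SegEx_tail (fun i => 1 + ap k a i) k _ _ _ (by omega)
        (by rw [sum_add_distrib, sum_const, card_range, smul_eq_mul, hk]; omega)
        fun i hi => by rw [e0 i hi]
    have g5 : ∑ j ∈ range (J + 1 + 1 + p.P1), g j ≤ 2 * (1 + p.aS) * (2 ^ p.n + p.Ex) / p.Kp := by
      rw [Nat.le_div_iff_mul_le h.Kp0, mul_comm]
      exact (g3 _).trans (Nat.mul_le_mul_left _ g4)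
    have u1 := cT (J + 1 + 1 + p.P1)
    have u2 := cT (J + 1 + 1 + p.P1 + 1)
    have u3 := cL (J + 1 + 1 + p.P1) (by omega)
    have u4 := cL _ le_rfl
    rw [sum_range_succ'] at u2 u4
    refine (sum_le_sum fun j _ => g2 j).trans ?_
    rw [sum_add_distrib, ← mul_sum, sum_add_distrib, sum_add_distrib, sum_add_distrib]
    exact Nat.add_le_add g5 (Nat.mul_le_mul_left _ (by omega))
  obtain ⟨md, d1, d2⟩ := SegEx_md p.P1 p.cM h.hcM n13 m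
  have wr := d2 (J + 1)
  have eW : p.Wb = 2 * (2 * (1 + p.aS) * (2 ^ p.n + p.Ex) / p.Kp +
    (p.n + 1) * (2 * p.Tl + 2 * p.N)) + (p.n + 1) := rfl
  have wl : ∑ j ∈ range (J + 1 + 1),
      (if md ((j - 1) / p.P1) + 1 = j then p.cM else 1) * (1 + av j 0) ≤ p.Wb := by
    clear * - J md p av k a x m pm ex a3 p0 p1 cW wr eW
    rw [sum_range_succ', if_neg (by omega), a3 0 0 (by omega), p0]
    rw [sum_range_succ] at wr
    simp only [a3 _ 0 (by omega), p1, Nat.add_sub_cancel, Nat.add_right_cancel_iff]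
    omega
  have hc : ∀ (P : Prop) [Decidable P] (y : ℕ), y ≤ (if P then p.cM else 1) * y := fun P _ y =>
    Nat.le_mul_of_pos_left _ (by unfold Pm.cM; split_ifs <;> omega)
  refine ⟨⟨J + 1, x, l, av, m, r, md, x0, fun j => ?_, fun j => (O j).l1, fun j => (O j).l2,
    fun j => (O j).r4, fun j => (O j).r3, fun j => (O j).lp,
    fun j u => ⟨((O j).m0 u).1, ((O j).m0 u).2.1⟩, fun j => (O j).m1, fun j o => ?_,
    fun o ho => (a3 0 o ho).trans p0, fun j o ho => (a3 _ o ho).trans (p1 j), fun j => ?_,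
    fun j o h1 h2 => ?_, fun j u o h1 h2 => ?_, fun j u o h1 h2 h3 => ?_, fun j u i hi => ?_, d1,
    J1, J2, fun π hπ => ?_, by omega, wl⟩⟩
  · split_ifs with u
    exacts [(O j).e3 u, (O j).e2 u]
  · by_cases u : tl j
    · rw [a1 j u, Pm.tc]
      split_ifs <;> omega
    · rw [a2 j u]
      split_ifs
      exacts [mM j, (p2 j).1, hb _]
  · have := (O j).l1
    by_cases u : tl j
    · rw [a1 j u, Pm.tc, if_pos (by omega), (O j).m1 (T j u).2.1]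
    · rw [a2 j u, if_pos (by omega)]
  · rw [← e1 _ h2]
    by_cases u : tl j
    · rw [a1 j u]
      exact (C j u).1 o h1
    rw [a2 j u]
    split_ifs with w1 w2
    · by_cases w : r j = 0
      · have := (O j).e2 (by omega)
        exact ((O j).m0 w).2.2.1 _ (by omega) (by omega)
      · exact (O j).m1 w ▸ hb _
    exacts [(p2 j).2.2 o w2, le_rfl]
  · have := (O j).e2 (by omega)
    rw [← e1 _ h2]
    exact ((O j).m0 u).2.2.1 _ (by omega) (by omega)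
  · have w1 := (O j).e2 (by omega)
    obtain ⟨w2, w3⟩ := (O j).r1 u
    rw [← e1 _ h3, n12]
    by_cases w : o + 2 = p.w
    · rwa [show x j + l j + o = x (j + 1) - 2 by omega]
    · rwa [show x j + l j + o = x (j + 1) - 2 + 1 by omega]
  · have w : tl i := by
      rcases hi with rfl | rfl
      exacts [(ht _).2 ((O i).r2 u).1, (ht _).2 (Or.inl ((O j).r2 u).2)]
    exact ⟨(T i w).1, (T i w).2.1, _, c1 _ _, fun o _ => a1 i w o⟩
  have u1 : ∀ j, ∑ o ∈ range (l j), X.wt π (x j + o) (av j o) ≤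
      ∑ o ∈ range (l j), v π (x j + o) +
        ((p.w + 6) * p.n + (p.K + 1) * Nat.sqrt p.n) * (if tl j then 1 else 0) +
        2 * (1 + av j 0) + (1 + m j) := fun j => by
    clear * - l j π x av v p tl m cf k a C a1 pm ex J md v2 a2 a3
    by_cases u : tl j
    · have := (C j u).2 π
      simp only [a1 j u, if_pos u]
      omega
    have w1 : ∑ o ∈ range (l j), X.wt π (x j + o) (av j o) ≤ ∑ o ∈ range (l j), (v π (x j + o) +
        (if o < 2 then 1 + pm j else 0) + if o + 1 = l j then 1 + m j else 0) := by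
      refine sum_le_sum fun o _ => ?_
      have := v2 π (x j + o)
      rw [a2 j u]
      unfold X.wt at this ⊢
      split_ifs at this ⊢ <;> omega
    have w2 := SegEx_few (l j) (1 + pm j) (fun o => o < 2) (range 2) fun o => mem_range.2
    have w3 := SegEx_few (l j) (1 + m j) (fun o => o + 1 = l j) {l j - 1} fun o ho =>
      mem_singleton.2 (by omega)
    rw [sum_add_distrib, sum_add_distrib] at w1
    rw [card_range] at w2
    rw [card_singleton] at w3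
    rw [a3 j 0 (by omega)]
    omega
  have u2 := sum_le_sum fun j (_ : j ∈ range (J + 1 + 1)) => u1 j
  have u3 := X.SegEx_tel (v π) x l (fun j => by have := xs j; omega) (J + 1 + 1)
  have u4 := X.SegEx_tail (v π) k p.Ex VV (x (J + 1 + 1)) (by
    have w1 : x (J + 1 + 1) ≤ _ := xu J 2
    have w2 : 2 * (p.Km + p.LW) ≤ (p.P1 + 3) * (p.Km + p.LW) := Nat.mul_le_mul_right _ (by omega)
    omega) (v1 π hπ) (v3 π)
  have u5 := Nat.mul_le_mul_left ((p.w + 6) * p.n + (p.K + 1) * Nat.sqrt p.n) (cT (J + 1 + 1))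
  have u6 := (sum_le_sum fun j _ => hc _ _).trans wl
  have u7 := (sum_le_sum fun j _ => hc _ _).trans wr
  rw [sum_add_distrib, sum_add_distrib, sum_add_distrib, ← mul_sum, ← mul_sum] at u2
  unfold Pm.Vb
  clear * - J l π x av VV p k a v m tl pm p0 ex cW md eW u2 u3 u4 u5 u6 u7
  omega

end Pool.Agent.Work.MP_ede3c6_co.Y
end
end

-- merged part: Pool.Agent.Work.MP_ede3c6_co.Y.Core
section
-- merged part: Pool.Agent.Work.MP_ede3c6_co.Y.Cn0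
section
/-! The units of the concrete system: cases, kinds, positions.

PLAN. Unfold; `kS` and `kL` take the values `sg`, `oc _`, and `kL xg = gad` only. The sum of the
lengths over a block is `2 + (nb - 1) = bl`, over a short window `w`, over a long window `LW`. -/

set_option autoImplicit false

namespace Pool.Agent.Work.MP_ede3c6_co.Y

open Finset Vol

theorem kS_cases (p : Pm) (o1 : Option (Fin p.d1 × Fin 2)) (o2 : Option (Fin p.d2 × Fin 2))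
    (y : ℕ) : ((y = 0 ∨ p.M < y) ∧ p.kS o1 o2 y = .sg) ∨
      (1 ≤ y ∧ y ≤ p.M ∧ ∃ c, p.kS o1 o2 y = .oc c) := by
  unfold Pm.kS
  split_ifs with h
  exacts [.inl ⟨h, rfl⟩, .inr ⟨by omega, by omega, _, rfl⟩, .inr ⟨by omega, by omega, _, rfl⟩,
    .inr ⟨by omega, by omega, _, rfl⟩]

theorem kL_cases (p : Pm) (y : ℕ) : ((y = 0 ∨ p.LU ≤ y + 1) ∧ p.kL y = .sg) ∨
    (y = p.xg ∧ p.kL y = .gad) ∨ (1 ≤ y ∧ y + 1 < p.LU ∧ y ≠ p.xg ∧ ∃ c, p.kL y = .oc c) := by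
  have e : p.xg = 1 + 2 * p.hh + p.nR + p.nF := rfl
  unfold Pm.kL
  split_ifs with h _ _ _ h5
  · exact .inl ⟨h, rfl⟩
  any_goals exact .inr (.inr ⟨by omega, by omega, by omega, _, rfl⟩)
  exact .inr (.inl ⟨h5, rfl⟩)

namespace Cx
variable (x : Cx)

theorem Cn0_step (j y : ℕ) : x.idx (j, y + 1) = x.idx (j, y) + len x.p.T (x.S.kj j y) := by
  simp only [idx, sum_range_succ, add_assoc]

theorem Cn0_kj (j y : ℕ) : x.S.kj j (x.S.nb j + y) = if x.S.rk j = 3 then x.p.kL y else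
    x.p.kS (ru x.p.d1 (j % 2 ^ (x.p.d1 + 1))) (x.S.c2 j) y := by
  have := x.nb4 j
  rw [Seg.kj, if_neg (by omega), if_neg (by omega), Nat.add_sub_cancel_left]

theorem idx_blk (j : ℕ) {y : ℕ} (h : y ≤ x.S.nb j) :
    x.idx (j, y) = x.S.bs j + if y = 0 then 0 else y + 1 := by
  induction y with
  | zero => simp [idx]
  | succ y ih =>
    rw [Cn0_step, ih (by omega), if_neg y.succ_ne_zero, Seg.kj]
    split_ifs <;> first | omega | (simp only [len]; omega)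

theorem idx_sh {j : ℕ} (h : x.S.rk j ≠ 3) (y : ℕ) : x.idx (j, x.S.nb j + y) =
    x.S.bs j + x.S.bl j + if y = 0 then 0 else if y ≤ x.p.M + 1 then 5 * y - 4 else
      4 * x.p.M + y := by
  have := x.nb4 j
  induction y with
  | zero => rw [add_zero, x.idx_blk j le_rfl, if_neg (by omega), if_pos rfl]; omega
  | succ y ih =>
    rw [← add_assoc, Cn0_step, ih, Cn0_kj, if_neg h, if_neg y.succ_ne_zero]
    rcases kS_cases x.p (ru x.p.d1 (j % 2 ^ (x.p.d1 + 1))) (x.S.c2 j) y with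
      ⟨h1, e⟩ | ⟨h1, h2, c, e⟩ <;> rw [e, len] <;> split_ifs <;> omega

theorem Cn0_lg {j : ℕ} (h : x.S.rk j = 3) {y : ℕ} (hy : y < x.p.LU) : x.idx (j, x.S.nb j + y) =
    x.S.bs j + x.S.bl j + if y = 0 then 0 else if y ≤ x.p.xg then 5 * y - 4 else
      5 * y - 8 + x.p.T := by
  have := x.nb4 j
  have e2 : x.p.xg = 1 + 2 * x.p.hh + x.p.nR + x.p.nF := rfl
  induction y with
  | zero => rw [add_zero, x.idx_blk j le_rfl, if_neg (by omega), if_pos rfl]; omega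
  | succ y ih =>
    rw [← add_assoc, Cn0_step, ih (by omega), Cn0_kj, if_pos h, if_neg y.succ_ne_zero]
    rcases kL_cases x.p y with ⟨h1, e⟩ | ⟨h1, e⟩ | ⟨h1, h2, h3, c, e⟩ <;> rw [e, len] <;>
      split_ifs <;> omega

theorem Cn0_nu (j : ℕ) : 0 < x.S.nu j := by
  have := x.nb4 j
  rw [Seg.nu]
  omega

theorem ids (u : ℕ × ℕ) : x.idx (x.S.nx u) = x.idx u + len x.p.T (x.S.kj u.1 u.2) := by
  obtain ⟨j, z⟩ := u
  rw [← Cn0_step, Seg.nx]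
  split_ifs with h
  swap
  · rfl
  have e : x.idx (j + 1, 0) = x.S.bs (j + 1) := by simp [idx]
  have e1 : x.p.LU = x.p.xg + 1 + (x.p.nF + x.p.nR) + 1 := rfl
  have e2 : x.p.xg = 1 + 2 * x.p.hh + x.p.nR + x.p.nF := rfl
  rw [e, x.S.bss, show z + 1 = _ from h, Seg.nu]
  split_ifs with h3
  · have k : x.p.kL (x.p.xg + 1 + (x.p.nF + x.p.nR)) = .sg := if_pos (.inr e1.le)
    rw [e1, ← add_assoc, Cn0_step, x.Cn0_lg h3 (by omega), Cn0_kj, if_pos h3, k, len,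
      if_neg (by omega), if_neg (by omega), Pm.LW]
    omega
  · rw [x.idx_sh h3, if_neg (by omega), if_neg (by omega), Pm.w]
    omega

theorem v0 : x.val (0, 0) := by
  refine ⟨Nat.pos_of_ne_zero fun h => ?_, x.Cn0_nu 0⟩
  have := x.S.cov
  rw [h, x.S.bs0] at this
  omega

theorem cov (u : ℕ × ℕ) (h : x.val u) (h' : ¬ x.val (x.S.nx u)) : x.k + 2 ≤ x.idx (x.S.nx u) := by
  obtain ⟨h1, h2⟩ := h
  rw [Seg.nx] at h' ⊢
  split_ifs at h' ⊢ with e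
  · have : u.1 + 1 = x.S.J := by
      by_contra k
      exact h' ⟨show u.1 + 1 < _ by omega, x.Cn0_nu _⟩
    simpa [idx, this] using x.S.cov
  · exact absurd ⟨h1, show u.2 + 1 < x.S.nu u.1 by omega⟩ h'

theorem pre0 (b : x.Bs) (h : x.bkd b = .pre) : (x.bad b).2.1 = 0 ∧ ¬ x.top b := by
  cases b with
  | blk B f y =>
    rw [bkd] at h
    split_ifs at h with h1 h2
    exact ⟨by rw [bad, if_pos h1]; rfl, fun k => k.2 ⟨h1, h2⟩⟩
  | con B f v y o =>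
    rcases kS_cases x.p _ o y with ⟨-, e⟩ | ⟨-, -, c, e⟩ <;> cases e.symm.trans h
  | lg y => rcases kL_cases x.p y with ⟨-, e⟩ | ⟨-, e⟩ | ⟨-, -, -, c, e⟩ <;> cases e.symm.trans h
  | _ => cases h

theorem Cn0_gad (b : x.Bs) (h : x.bkd b = .gad) : b = .lg x.p.xg := by
  cases b with
  | blk B f y =>
    rw [bkd] at h
    split_ifs at h
  | con B f v y o =>
    rcases kS_cases x.p _ o y with ⟨-, e⟩ | ⟨-, -, c, e⟩ <;> cases e.symm.trans h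
  | lg y =>
    rcases kL_cases x.p y with ⟨-, e⟩ | ⟨e, -⟩ | ⟨-, -, -, c, e⟩
    · cases e.symm.trans h
    · rw [e]
    · cases e.symm.trans h
  | _ => cases h

theorem gtop (b : x.Bs) (h : x.bkd b = .gad) : x.top b := by
  rw [x.Cn0_gad b h]
  trivial

theorem r7 (b b' : x.Bs) (h : x.bkd b = .gad) (h' : x.bkd b' = .gad) : b = b' := by
  rw [x.Cn0_gad b h, x.Cn0_gad b' h']

end Cx

namespace Alc
variable {x : Cx} (A : Alc x)

theorem Cn0_lo {j y : ℕ} (h : y < x.S.nb j) : A.bas (j, y) = .blk (x.bt j) (x.ff j) y := if_pos h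

theorem Cn0_hi (j y : ℕ) : A.bas (j, x.S.nb j + y) = A.wb j y := by
  rw [bas, if_neg (by simp), Nat.add_sub_cancel_left]

theorem Cn0_3 {j : ℕ} (h : x.S.rk j = 3) (y : ℕ) : A.bas (j, x.S.nb j + y) = .lg y :=
  (A.Cn0_hi j y).trans (if_pos h)

theorem Cn0_p {j : ℕ} (h : x.S.rk j = 0) : A.bas (j, x.S.nb j + (x.p.M + 1)) =
    .pq (x.pgj j) (A.pz j) (A.pg j) 0 := by
  rw [Cn0_hi, wb, if_neg (by omega), if_pos ⟨h, rfl⟩]

theorem Cn0_q {j : ℕ} (h : x.S.rk j = 0) : A.bas (j, x.S.nb j + (x.p.M + 2)) =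
    .pq (x.pgj j) (A.pz j) (A.qg j) 1 := by
  rw [Cn0_hi, wb, if_neg (by omega), if_neg (by omega), if_pos ⟨h, rfl⟩]

theorem Cn0_s {j : ℕ} (h : x.S.rk j = 1) : A.bas (j, x.S.nb j + (x.p.M + 2)) =
    .qs (x.bt (j + 1)) (x.ff (j + 1)) (A.qx j) := by
  rw [Cn0_hi, wb, if_neg (by omega), if_neg (by omega), if_neg (by omega), if_pos ⟨h, rfl⟩]

theorem Cn0_c {j y : ℕ} (h : x.S.rk j ≠ 3) (h' : y ≤ x.p.M ∨ (y = x.p.M + 1 ∧ x.S.rk j ≠ 0) ∨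
    (y = x.p.M + 2 ∧ x.S.rk j = 2)) : A.bas (j, x.S.nb j + y) =
    .con (x.bt j) (x.ff j) (A.kx j) y (x.S.c2 j) := by
  rw [Cn0_hi, wb, if_neg h, if_neg (by omega), if_neg (by omega), if_neg (by omega)]

theorem kd_bas (u : ℕ × ℕ) : x.bkd (A.bas u) = x.S.kj u.1 u.2 := by
  obtain ⟨j, z⟩ := u
  rcases lt_or_ge z (x.S.nb j) with h | h
  · rw [A.Cn0_lo h, Cx.bkd, x.lk_bt, Seg.kj, if_pos h]
  obtain ⟨y, rfl⟩ := Nat.exists_eq_add_of_le h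
  have k : x.p.M < y → ∀ o1 o2, Kd.sg = x.p.kS o1 o2 y := fun h _ _ => (if_pos (.inr h)).symm
  rw [Cn0_hi, x.Cn0_kj, wb]
  split_ifs with h1 h2 h3 h4
  exacts [rfl, k (by omega) _ _, k (by omega) _ _, k (by omega) _ _,
    by rw [Cx.bkd, (x.same_bt j).jm]]

/-- the six kinds of units -/
theorem cases {u : ℕ × ℕ} (h : x.val u) :
    (u.2 < x.S.nb u.1 ∧ A.bas u = .blk (x.bt u.1) (x.ff u.1) u.2 ∧ x.cpu u = x.cp u.1) ∨
    ∃ y, u.2 = x.S.nb u.1 + y ∧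
      ((x.S.rk u.1 = 3 ∧ y < x.p.LU ∧ A.bas u = .lg y ∧ x.cpu u = 0) ∨
      (x.S.rk u.1 = 0 ∧ y = x.p.M + 1 ∧ A.bas u = .pq (x.pgj u.1) (A.pz u.1) (A.pg u.1) 0 ∧
        x.cpu u = x.cp u.1) ∨
      (x.S.rk u.1 = 0 ∧ y = x.p.M + 2 ∧ A.bas u = .pq (x.pgj u.1) (A.pz u.1) (A.qg u.1) 1 ∧
        x.cpu u = x.cp (u.1 + 1)) ∨
      (x.S.rk u.1 = 1 ∧ y = x.p.M + 2 ∧
        A.bas u = .qs (x.bt (u.1 + 1)) (x.ff (u.1 + 1)) (A.qx u.1) ∧ x.cpu u = 0) ∨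
      (x.S.rk u.1 ≠ 3 ∧ (y ≤ x.p.M ∨ (y = x.p.M + 1 ∧ x.S.rk u.1 ≠ 0) ∨
          (y = x.p.M + 2 ∧ x.S.rk u.1 = 2)) ∧
        A.bas u = .con (x.bt u.1) (x.ff u.1) (A.kx u.1) y (x.S.c2 u.1) ∧ x.cpu u = x.cp u.1)) := by
  obtain ⟨j, z⟩ := u
  have hz : z < x.S.nb j + if x.S.rk j = 3 then x.p.LU else x.p.M + 3 := h.2
  have r4 := x.S.rk4 j
  have c1 : ¬ (x.S.rk j = 0 ∧ z = x.S.nb j + (x.p.M + 2)) → x.cpu (j, z) = x.cp j := fun k =>
    if_neg k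
  have c0 : x.S.rk j ≠ 0 → x.cpu (j, z) = 0 := fun k =>
    (c1 fun q => k q.1).trans (x.Sb_lv (x.tl_top k).2.1).2.1
  rcases lt_or_ge z (x.S.nb j) with k | k
  · exact .inl ⟨k, A.Cn0_lo k, c1 (by omega)⟩
  obtain ⟨y, rfl⟩ := Nat.exists_eq_add_of_le k
  refine .inr ⟨y, rfl, ?_⟩
  split_ifs at hz with h3
  · exact .inl ⟨h3, by omega, A.Cn0_3 h3 y, c0 (by omega)⟩
  by_cases h1 : x.S.rk j = 0 ∧ y = x.p.M + 1
  · obtain ⟨h1, rfl⟩ := h1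
    exact .inr (.inl ⟨h1, rfl, A.Cn0_p h1, c1 (by omega)⟩)
  by_cases h2 : x.S.rk j = 0 ∧ y = x.p.M + 2
  · obtain ⟨h2, rfl⟩ := h2
    exact .inr (.inr (.inl ⟨h2, rfl, A.Cn0_q h2, if_pos ⟨h2, rfl⟩⟩))
  by_cases h4 : x.S.rk j = 1 ∧ y = x.p.M + 2
  · obtain ⟨h4, rfl⟩ := h4
    exact .inr (.inr (.inr (.inl ⟨h4, rfl, A.Cn0_s h4, c0 (by omega)⟩)))
  have h5 : y ≤ x.p.M ∨ (y = x.p.M + 1 ∧ x.S.rk j ≠ 0) ∨ (y = x.p.M + 2 ∧ x.S.rk j = 2) := by omega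
  exact .inr (.inr (.inr (.inr ⟨h3, h5, A.Cn0_c h3 h5, c1 (by omega)⟩)))

/-- the eleven kinds of links -/
theorem links {u : ℕ × ℕ} (h : x.val u) : ∃ j, u.1 = j ∧
    ((u.2 + 1 < x.S.nb j ∧ x.S.nx u = (j, u.2 + 1) ∧ A.bas u = .blk (x.bt j) (x.ff j) u.2 ∧
      A.bas (x.S.nx u) = .blk (x.bt j) (x.ff j) (u.2 + 1)) ∨
    (u.2 + 1 = x.S.nb j ∧ x.S.rk j = 3 ∧ x.S.nx u = (j, u.2 + 1) ∧
      A.bas u = .blk (x.bt j) (x.ff j) u.2 ∧ A.bas (x.S.nx u) = .lg 0) ∨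
    (u.2 + 1 = x.S.nb j ∧ x.S.rk j ≠ 3 ∧ x.S.nx u = (j, u.2 + 1) ∧
      A.bas u = .blk (x.bt j) (x.ff j) u.2 ∧
      A.bas (x.S.nx u) = .con (x.bt j) (x.ff j) (A.kx j) 0 (x.S.c2 j)) ∨
    (∃ y, u.2 = x.S.nb j + y ∧ x.S.rk j = 3 ∧ y + 1 < x.p.LU ∧ x.S.nx u = (j, u.2 + 1) ∧
      A.bas u = .lg y ∧ A.bas (x.S.nx u) = .lg (y + 1)) ∨
    (∃ y, u.2 = x.S.nb j + y ∧ x.S.rk j = 3 ∧ y + 1 = x.p.LU ∧ x.S.nx u = (j + 1, 0) ∧
      A.bas u = .lg y ∧ A.bas (x.S.nx u) = .blk (x.bt (j + 1)) (x.ff (j + 1)) 0) ∨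
    (∃ y, u.2 = x.S.nb j + y ∧ x.S.rk j ≠ 3 ∧ (y < x.p.M ∨ (y = x.p.M ∧ x.S.rk j ≠ 0) ∨
        (y = x.p.M + 1 ∧ x.S.rk j = 2)) ∧ x.S.nx u = (j, u.2 + 1) ∧
      A.bas u = .con (x.bt j) (x.ff j) (A.kx j) y (x.S.c2 j) ∧
      A.bas (x.S.nx u) = .con (x.bt j) (x.ff j) (A.kx j) (y + 1) (x.S.c2 j)) ∨
    (u.2 = x.S.nb j + x.p.M ∧ x.S.rk j = 0 ∧ x.S.nx u = (j, u.2 + 1) ∧
      A.bas u = .con (x.bt j) (x.ff j) (A.kx j) x.p.M (x.S.c2 j) ∧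
      A.bas (x.S.nx u) = .pq (x.pgj j) (A.pz j) (A.pg j) 0) ∨
    (u.2 = x.S.nb j + (x.p.M + 1) ∧ x.S.rk j = 0 ∧ x.S.nx u = (j, u.2 + 1) ∧
      A.bas u = .pq (x.pgj j) (A.pz j) (A.pg j) 0 ∧
      A.bas (x.S.nx u) = .pq (x.pgj j) (A.pz j) (A.qg j) 1) ∨
    (u.2 = x.S.nb j + (x.p.M + 2) ∧ x.S.rk j = 0 ∧ x.S.nx u = (j + 1, 0) ∧
      A.bas u = .pq (x.pgj j) (A.pz j) (A.qg j) 1 ∧
      A.bas (x.S.nx u) = .blk (x.bt (j + 1)) (x.ff (j + 1)) 0) ∨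
    (u.2 = x.S.nb j + (x.p.M + 1) ∧ x.S.rk j = 1 ∧ x.S.nx u = (j, u.2 + 1) ∧
      A.bas u = .con (x.bt j) (x.ff j) (A.kx j) (x.p.M + 1) (x.S.c2 j) ∧
      A.bas (x.S.nx u) = .qs (x.bt (j + 1)) (x.ff (j + 1)) (A.qx j)) ∨
    (u.2 = x.S.nb j + (x.p.M + 2) ∧ x.S.nx u = (j + 1, 0) ∧
      ((x.S.rk j = 1 ∧ A.bas u = .qs (x.bt (j + 1)) (x.ff (j + 1)) (A.qx j)) ∨
        (x.S.rk j = 2 ∧ A.bas u = .con (x.bt j) (x.ff j) (A.kx j) (x.p.M + 2) (x.S.c2 j))) ∧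
      A.bas (x.S.nx u) = .blk (x.bt (j + 1)) (x.ff (j + 1)) 0)) := by
  obtain ⟨j, z⟩ := u
  refine ⟨j, rfl, ?_⟩
  have eu : x.S.nu j = x.S.nb j + if x.S.rk j = 3 then x.p.LU else x.p.M + 3 := rfl
  have eL : x.p.LU = x.p.xg + 1 + (x.p.nF + x.p.nR) + 1 := rfl
  have hz : z < x.S.nu j := h.2
  have r4 := x.S.rk4 j
  have n1 : z + 1 ≠ x.S.nu j → x.S.nx (j, z) = (j, z + 1) := fun k => if_neg k
  have n2 : z + 1 = x.S.nu j → x.S.nx (j, z) = (j + 1, 0) := fun k => if_pos k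
  have b0 := A.Cn0_lo (j := j + 1) (y := 0) (by linarith [x.nb4 (j + 1)])
  dsimp only
  rcases lt_trichotomy (z + 1) (x.S.nb j) with k | k | k
  · have e := n1 (by omega)
    exact .inl ⟨k, e, A.Cn0_lo (by omega), e ▸ A.Cn0_lo k⟩
  · have e := n1 (by split_ifs at eu <;> omega)
    have b := A.Cn0_lo (show z < x.S.nb j by omega)
    by_cases h3 : x.S.rk j = 3
    · exact .inr (.inl ⟨k, h3, e, b, by rw [e, k]; exact A.Cn0_3 h3 0⟩)
    · exact .inr (.inr (.inl ⟨k, h3, e, b, by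
        rw [e, k]; exact A.Cn0_c h3 (.inl (Nat.zero_le _))⟩))
  obtain ⟨y, rfl⟩ := Nat.exists_eq_add_of_le (Nat.le_of_lt_succ k)
  refine .inr (.inr (.inr ?_))
  split_ifs at eu with h3
  · by_cases q : y + 1 < x.p.LU
    · have e := n1 (by omega)
      exact .inl ⟨y, rfl, h3, q, e, A.Cn0_3 h3 y, e ▸ A.Cn0_3 h3 (y + 1)⟩
    · have e := n2 (by omega)
      exact .inr (.inl ⟨y, rfl, h3, by omega, e, A.Cn0_3 h3 y, e ▸ b0⟩)
  refine .inr (.inr ?_)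
  by_cases q : y < x.p.M ∨ (y = x.p.M ∧ x.S.rk j ≠ 0) ∨ (y = x.p.M + 1 ∧ x.S.rk j = 2)
  · have e := n1 (by omega)
    exact .inl ⟨y, rfl, h3, q, e, A.Cn0_c h3 (by omega), e ▸ A.Cn0_c (y := y + 1) h3 (by omega)⟩
  refine .inr ?_
  obtain ⟨rfl, r⟩ | ⟨rfl, r⟩ | ⟨rfl, r⟩ | ⟨rfl, r⟩ | ⟨rfl, r⟩ | ⟨rfl, r⟩ :
    (y = x.p.M ∧ x.S.rk j = 0) ∨ (y = x.p.M + 1 ∧ x.S.rk j = 0) ∨ (y = x.p.M + 2 ∧ x.S.rk j = 0) ∨
      (y = x.p.M + 1 ∧ x.S.rk j = 1) ∨ (y = x.p.M + 2 ∧ x.S.rk j = 1) ∨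
      (y = x.p.M + 2 ∧ x.S.rk j = 2) := by omega
  · have e := n1 (by omega)
    exact .inl ⟨rfl, r, e, A.Cn0_c h3 (.inl le_rfl), e ▸ A.Cn0_p r⟩
  · have e := n1 (by omega)
    exact .inr (.inl ⟨rfl, r, e, A.Cn0_p r, e ▸ A.Cn0_q r⟩)
  · have e := n2 (by omega)
    exact .inr (.inr (.inl ⟨rfl, r, e, A.Cn0_q r, e ▸ b0⟩))
  · have e := n1 (by omega)
    exact .inr (.inr (.inr (.inl ⟨rfl, r, e, A.Cn0_c h3 (by omega), e ▸ A.Cn0_s r⟩)))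
  · have e := n2 (by omega)
    exact .inr (.inr (.inr (.inr ⟨rfl, e, .inl ⟨r, A.Cn0_s r⟩, e ▸ b0⟩)))
  · have e := n2 (by omega)
    exact .inr (.inr (.inr (.inr ⟨rfl, e, .inr ⟨r, A.Cn0_c h3 (by omega)⟩, e ▸ b0⟩)))

end Alc

end Pool.Agent.Work.MP_ede3c6_co.Y
end

-- merged part: Pool.Agent.Work.MP_ede3c6_co.Y.Cn1
section
/-! Classes and nodes of the concrete system.

PLAN. For a class `c` in use: `ct c ∈ TS`, `lev (ct c) ≤ w0 + cv c`, `cv c ≤ kR` (`ta_mem`, `lev_le`,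
`lv_le`, `ta_succ`, the lemmas `_bt`, `rd_n`, `lev1`), and `cus c ≠ 0` implies that `c` belongs to a
group `hd` with `lk = 0` or `pq`, so `ct c ≤ thrN` (`hd_low`, `tl_low`). `inj`: `z1`, `z2`, `z3`
(a small class has `ct < aS ≤ thr`). `big`: `ioN` and `w0 - ee + l = max (lev τ) l`. For the nodes
use `A.cases`, `kS_cases`, `kL_cases` (`par sg s = 0`, `pf = 0` unless the kind is `pre`), `ad1`
with `mm_pos`, `ee_le`, `cd0`, `sa1` (`ms = 4 q 2 ^ (mu + w0) * (2 ^ l0 - 1)`), `hp.p1`, `cp_sup`,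
`Sb_lv`, `mu_ne`, `tl_top`. `dem`: `idx_blk`, `idx_sh`, `cv1`, `cv2`, `cv3`, `av01`, and
`α ≤ min (rd α) thr` whenever `rd α ≤ thr` (`rd1`, `rdF`, `rdU`). -/

set_option autoImplicit false

namespace Pool.Agent.Work.MP_ede3c6_co.Y

open Finset Vol

namespace Alc
variable {x : Cx} (A : Alc x)

theorem Cn1_cpr (γ : Gr x.PG) (π : ZMod 2) : x.cpr (.inr (γ, π)) = x.cpr (.inr (γ, 0)) + π := by
  cases γ <;> simp only [Cx.cpr, add_zero]

theorem Cn1_ct (γ : Gr x.PG) (π π' : ZMod 2) : x.ct (.inr (γ, π)) = x.ct (.inr (γ, π')) := by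
  cases γ <;> rfl

theorem Cn1_cl (c : x.Cl) (hc : A.okC c) : x.ct c ∈ x.I.TS ∧
    x.I.lev (x.ct c) ≤ x.p.w0 + x.cv c ∧ x.cv c ≤ x.p.kR ∧ (x.cus c ≠ 0 → x.ct c ≤ x.p.thrN) := by
  have b1 : ∀ j, 1 < x.S.bl j := fun j => by have := x.S.bl1 j; omega
  have b2 : ∀ j, x.S.bl j - 1 < x.S.bl j := fun j => by have := x.S.bl1 j; omega
  rcases c with c | ⟨γ, π⟩
  · obtain ⟨j, -, y, -, hy, rfl⟩ := hc
    refine ⟨x.ta_mem _ _, x.lev_le ?_, x.lv_le _, fun q => absurd rfl q⟩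
    have := (x.nb4 j).2.1
    change y + 1 < x.S.bl (x.bt j)
    rw [x.bl_bt]
    omega
  obtain ⟨j, -, rfl | ⟨-, y, -, rfl⟩ | ⟨-, rfl⟩ | ⟨h0, rfl⟩ | ⟨y, -, rfl⟩⟩ := hc
  · refine ⟨x.ta_mem _ _, x.lev_le (b1 _), x.lv_le _, fun q => x.hd_low ?_⟩
    by_contra h
    exact q (if_neg h)
  · exact ⟨x.ta_mem _ _, x.lev_le (b2 _), x.lv_le _, fun q => absurd rfl q⟩
  · exact ⟨x.ta_mem _ _, x.lev_le (b1 _), x.lv_le _, fun q => absurd rfl q⟩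
  · refine ⟨x.ta_mem _ _, ?_, ?_, fun _ => (x.tl_low h0).2.2⟩
    · change x.I.lev (x.tl j) ≤ x.p.w0 + if π = 0 then x.lv j else x.lv (j + 1)
      split_ifs
      · exact x.lev_le (b2 _)
      · exact x.ta_succ j ▸ x.lev_le (b1 _)
    · change (if π = 0 then x.lv j else x.lv (j + 1)) ≤ _
      split_ifs <;> exact x.lv_le _
  · exact ⟨x.rd_n.subst (motive := (· ∈ x.I.TS)) (x.I.rdT _ le_rfl), x.I.lev1 _,
      le_rfl, fun q => absurd rfl q⟩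

open Classical in
theorem Cn1_res {c : ℕ × ℕ × ℕ} {r : ℕ} {π : ZMod 2}
    (h3 : x.csm (.inl c) ∧ r = 0 → x.cpr (.inl c) = π)
    (h4 : ¬ (x.csm (.inl c) ∧ r = 0) → x.cpr (.inl c) + 1 = π) :
    A.rz (.inl c) r = A.zM π (c, r) := by
  rw [rz]
  split_ifs with q
  · rw [h3 q]
  · rw [h4 q]

theorem Cn1_ad (τ l : ℕ) {v : ℕ} (h : v < x.mm τ l) :
    (x.I.ad (x.I.io τ) (x.ee τ l) v).1 ∈ x.I.Cd (x.I.io τ) ∧
      Sup (x.I.ad (x.I.io τ) (x.ee τ l) v).2 0 (x.ee τ l) := x.I.ad1 _ _ (x.ee_le τ l) v h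

theorem Cn1_da (τ l v : ℕ) : (x.da τ l v).2.1 + (0 : ZMod 2) • (1 : V (Fin x.p.t)) =
    (0 : ZMod 2) • 1 ∧ (x.da τ l v).2.2.1 + (0 : ZMod 2) • e x.I.i0 + (0 : ZMod 2) • e x.I.i0 ∈
      x.I.Cd (x.I.io τ) ∧ Sup (x.da τ l v).2.2.2 0 (x.ee τ l) := by
  simp only [zero_smul, add_zero]
  exact ⟨rfl, Cn1_ad τ l (Nat.mod_lt _ (x.mm_pos τ l))⟩

theorem Cn1_rd {α : ℕ} (h : x.I.rd α ≤ x.p.thr) : α ≤ min (x.I.rd α) x.p.thr := by
  have h1 := x.thr_lt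
  have h2 := x.I.rd1 α
  have h3 := x.I.rdF α
  have h4 := x.I.rdU α
  omega

theorem Cn1_blk (B f y : ℕ) (π : ZMod 2) : x.ct (x.bcl (.blk B f y) π) = x.ta B (y + 1) := by
  rw [Cx.bcl]
  split_ifs with q
  · rw [q]
    rfl
  · rfl

theorem Cn1_cp {j f : ℕ} (h : x.mu j f = 0) : x.cp j = 0 := by
  by_contra q
  exact x.mu_ne (fun s => q (x.Sb_lv s).2.1) f h

theorem inj (c d : x.Cl) (r r' : ℕ) (hc : A.okC c) (hd : A.okC d)
    (h1 : r = 0 ∨ x.csm c ∧ r ≤ min (x.ct c) x.p.thr)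
    (h2 : r' = 0 ∨ x.csm d ∧ r' ≤ min (x.ct d) x.p.thr) (h : A.rz c r = A.rz d r') (π : ZMod 2)
    (h3 : x.csm c ∧ r = 0 → x.cpr c = π) (h4 : ¬ (x.csm c ∧ r = 0) → x.cpr c + 1 = π)
    (h5 : x.csm d ∧ r' = 0 → x.cpr d = π) (h6 : ¬ (x.csm d ∧ r' = 0) → x.cpr d + 1 = π) :
    c = d ∧ r = r' := by
  rcases c with c | ⟨γ, π1⟩ <;> rcases d with d | ⟨δ, π2⟩
  · rw [A.Cn1_res h3 h4, A.Cn1_res h5 h6] at h
    obtain ⟨rfl, rfl⟩ := A.z2 π c r d r'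
      ⟨hc, h1.imp_right fun q => ⟨q.1, q.2.trans (min_le_left _ _)⟩, h3, h4⟩
      ⟨hd, h2.imp_right fun q => ⟨q.1, q.2.trans (min_le_left _ _)⟩, h5, h6⟩ h
    exact ⟨rfl, rfl⟩
  · rw [A.Cn1_res h3 h4] at h
    exact absurd h.symm (A.z3 π δ c r hd
      ⟨hc, h1.imp_right fun q => ⟨q.1, q.2.trans (min_le_left _ _)⟩, h3, h4⟩)
  · rw [A.Cn1_res h5 h6] at h
    exact absurd h (A.z3 π γ d r' hc
      ⟨hd, h2.imp_right fun q => ⟨q.1, q.2.trans (min_le_left _ _)⟩, h5, h6⟩)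
  · obtain rfl : γ = δ := A.z1 γ δ hc hd h
    have q := (h4 fun q => q.1).trans (h6 fun q => q.1).symm
    rw [add_left_inj, Cn1_cpr γ π1, Cn1_cpr γ π2, add_right_inj] at q
    exact ⟨q ▸ rfl, (h1.resolve_right fun q => q.1).trans (h2.resolve_right fun q => q.1).symm⟩

theorem pair (c d : x.Cl) (hc : A.okC c) (hd : A.okC d) (h : x.cus c = 1)
    (h1 : A.rz d 0 = A.rz c 0) : ¬ x.p.thrN < x.ct d := by
  classical
  have h2 := (A.Cn1_cl c hc).2.2.2 (h ▸ one_ne_zero)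
  rcases c with c | ⟨γ, π1⟩
  · exact absurd h zero_ne_one
  rcases d with d | ⟨δ, π2⟩
  · exact absurd h1.symm (A.z3 _ γ d 0 hc ⟨hd, .inl rfl, fun q => (if_pos q).symm,
      fun q => (if_neg q).symm⟩)
  · obtain rfl : δ = γ := A.z1 δ γ hd hc h1
    rw [Cn1_ct δ π2 π1]
    omega

theorem fu1 (c : x.Cl) (hc : A.okC c) (h : x.p.thrN < x.ct c) : ¬ x.csm c ∧ x.cus c = 0 ∧
    x.I.io (x.ct c) = x.p.mu ∧ x.ee (x.ct c) (x.cv c) = 0 ∧ x.cv c = x.p.kR := by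
  obtain ⟨-, h1, h2, h3⟩ := A.Cn1_cl c hc
  obtain ⟨h4, h5⟩ := x.I.ioF _ h
  have h6 := x.thr_lt.1
  refine ⟨fun q => ?_, by_contra fun q => absurd (h3 q) (not_le.2 h), h4, ?_, by omega⟩
  · rcases c with c | g
    · have : x.ct (.inl c) < x.p.aS := q.1
      omega
    · exact q
  · unfold Cx.ee
    omega

theorem big (c : x.Cl) (hc : A.okC c) (h : ¬ x.p.thrN < x.ct c) :
    x.I.io (x.ct c) ≤ x.p.mu - 2 ∧ x.cv c ≤ x.p.kR ∧ min (x.ct c) x.p.thr ≤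
      x.p.cap (x.I.io (x.ct c)) (x.ee (x.ct c) (x.cv c)) (x.cv c) := by
  obtain ⟨h0, h1, h2, -⟩ := A.Cn1_cl c hc
  obtain ⟨h4, h5⟩ := x.I.ioN _ h0 (not_lt.1 h)
  refine ⟨h4, h2, (min_le_left _ _).trans (h5.trans (Nat.mul_le_mul_left _
    (Nat.pow_le_pow_right two_pos ?_)))⟩
  unfold Cx.ee
  omega

theorem nd1 (u : ℕ × ℕ) (hu : x.val u) (o : Pos) (ho : np (x.bkd (A.bas u)) o) :
    A.okC (A.nc u o) ∧ x.cpr (A.nc u o) = x.cpr (x.bcl (A.bas u) 0) + par (x.bkd (A.bas u)) o ∧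
      A.rz (A.nc u o) 0 = A.rz (x.bcl (A.bas u) 0) 0 ∧ Sup (x.cpu u) (x.cv (A.nc u o)) x.p.kR := by
  have s0 : ∀ i j, Sup (0 : V (Fin x.p.kR)) i j := fun _ _ _ _ => rfl
  have s1 : Sup (x.cp u.1) (x.lv (x.bt u.1)) x.p.kR := by
    rw [x.lv_bt]
    exact x.cp_sup u.1
  unfold nc
  rcases A.cases hu with ⟨hy, hb, hc⟩ | ⟨y, -, ⟨-, hy, hb, hc⟩ | ⟨h0, -, hb, hc⟩ | ⟨h0, -, hb, hc⟩ |
    ⟨h0, -, hb, hc⟩ | ⟨h0, hy, hb, hc⟩⟩ <;> rw [hb] at ho <;> rw [hb, hc]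
  · by_cases q : u.2 = 0
    · simp only [Cx.bcl, if_pos q]
      refine ⟨⟨u.1, hu.1, .inl ?_⟩, Cn1_cpr _ _, rfl, ?_⟩
      · rw [x.ta_bt1, x.lv_bt]
      · exact s1
    · simp only [Cx.bcl, Cx.bkd, if_neg q] at ho ⊢
      obtain rfl : o = .s := ho
      refine ⟨⟨u.1, hu.1, u.2, by omega, hy, ?_⟩, (add_zero _).symm, trivial, ?_⟩
      · rw [Cx.sc, x.ta_bt u.1 (by have := (x.nb4 u.1).2.1; omega), x.lv_bt]
      · exact s1
  · exact ⟨⟨u.1, hu.1, .inr (.inr (.inr (.inr ⟨y, hy, rfl⟩)))⟩, Cn1_cpr _ _, rfl, s0 _ _⟩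
  · obtain rfl : o = .s := ho
    exact ⟨⟨u.1, hu.1, .inr (.inr (.inr (.inl ⟨h0, rfl⟩)))⟩, (add_zero _).symm, rfl, x.cp_sup u.1⟩
  · obtain rfl : o = .s := ho
    exact ⟨⟨u.1, hu.1, .inr (.inr (.inr (.inl ⟨h0, rfl⟩)))⟩, (add_zero _).symm, rfl,
      x.cp_sup (u.1 + 1)⟩
  · refine ⟨⟨u.1, hu.1, .inr (.inr (.inl ⟨h0, ?_⟩))⟩, Cn1_cpr _ _, rfl, s0 _ _⟩
    simp only [x.ta_bt1, x.lv_bt]
  · refine ⟨⟨u.1, hu.1, .inr (.inl ⟨h0, y, by omega, ?_⟩)⟩, Cn1_cpr _ _, rfl, ?_⟩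
    · simp only [x.tl_bt, x.lv_bt]
    · exact s1

theorem nd2 (u : ℕ × ℕ) (hu : x.val u) (o : Pos) (h : x.csm (A.nc u o)) :
    x.bkd (A.bas u) = .sg ∧ (x.bad (A.bas u)).2.1 ≠ 0 ∧ (x.bad (A.bas u)).2.1 ≠ 1 ∧
      x.bm (A.bas u) ≠ 0 := by
  unfold nc at h
  generalize A.bas u = b at h ⊢
  rcases b with ⟨B, f, y⟩ | _ | _ | _ | _
  · by_cases q : y = 0
    · simp only [Cx.bcl, if_pos q] at h
      exact h.elim
    · simp only [Cx.bcl, if_neg q] at h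
      have h : x.sm (x.ta B (y + 1)) (x.lv B) := h
      simp only [Cx.bkd, Cx.bad, Cx.bm, Cx.sa, if_neg q, if_pos h]
      have h1 := x.I.sa1 (f % x.p.ms / (2 ^ x.p.l0 - 1))
        (Nat.div_lt_of_lt_mul ((Nat.mod_lt _ x.ms_pos).trans_eq (mul_comm _ _)))
      refine ⟨trivial, h1.1, h1.2, x.mu_ne (fun s => ?_) f⟩
      have := (x.Sb_lv s).1
      have := h.2
      have := x.ok.kR0
      omega
  all_goals exact h.elim

theorem nd3 (u : ℕ × ℕ) (hu : x.val u) (o : Pos) (ho : np (x.bkd (A.bas u)) o)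
    (h : ¬ x.csm (A.nc u o)) :
    (x.bad (A.bas u)).2.1 + pf (x.bkd (A.bas u)) o • (1 : V (Fin x.p.t)) = x.cus (A.nc u o) • 1 ∧
    (x.bad (A.bas u)).2.2.1 + pf (x.bkd (A.bas u)) o • e x.I.i0 + x.cus (A.nc u o) • e x.I.i0 ∈
      x.I.Cd (x.I.io (x.ct (A.nc u o))) ∧
    Sup (x.bad (A.bas u)).2.2.2 0 (x.ee (x.ct (A.nc u o)) (x.cv (A.nc u o))) := by
  have hq : ∀ (g : x.PG) (z : ℕ) (γ : V (Fin x.p.w0)) (π : ZMod 2),
      (x.bad (.pq g z γ π)).2.2.1 + (0 : ZMod 2) • e x.I.i0 + π • e x.I.i0 ∈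
        x.I.Cd (x.I.io g.1) := fun g z γ π => by
    rw [zero_smul, add_zero, Cx.bad, add_assoc, vv, add_zero]
    exact (x.I.ad1 _ 0 (Nat.zero_le _) 0 (by simpa using x.I.cd0 _)).1
  unfold nc at h ⊢
  rcases A.cases hu with ⟨hy, hb, -⟩ | ⟨y, -, ⟨-, hy, hb, -⟩ | ⟨h0, -, hb, -⟩ | ⟨h0, -, hb, -⟩ |
    ⟨h0, -, hb, -⟩ | ⟨h0, hy, hb, -⟩⟩ <;> rw [hb] at ho h <;> rw [hb]
  · generalize x.bt u.1 = B at ho h ⊢
    by_cases q : u.2 = 0
    · simp only [Cx.bcl, Cx.bkd, Cx.bad, if_pos q, Cx.cus, Cx.ct, Cx.cv] at ho ⊢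
      have h1 := Cn1_da (x := x) (x.ta B 1) (x.lv B) (x.ff u.1)
      split_ifs at ho ⊢ with q'
      · rcases ho with rfl | rfl
        · refine ⟨by simp [Cx.da, pf, par], ?_, h1.2.2⟩
          simpa [pf, par, add_assoc, vv] using h1.2.1
        · exact h1
      · exact h1
    · simp only [Cx.bcl, if_neg q] at h
      have h : ¬ x.sm (x.ta B (u.2 + 1)) (x.lv B) := h
      simp only [Cx.bcl, Cx.bkd, Cx.bad, if_neg q, Cx.cus, Cx.ct, Cx.cv, Cx.sa, if_neg h, pf,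
        zero_smul, add_zero]
      exact ⟨trivial, Cn1_ad _ _ (Nat.div_lt_of_lt_mul (Nat.mod_lt _
        (Nat.mul_pos four_pos (x.mm_pos _ _))))⟩
  · have : pf (x.bkd (.lg y)) o = 0 := by
      rcases kL_cases x.p y with ⟨-, q⟩ | ⟨-, q⟩ | ⟨-, -, -, c, q⟩ <;> rw [Cx.bkd, q] <;> rfl
    rw [this]
    exact Cn1_da _ _ _
  · exact ⟨(congrArg _ (zero_smul _ _)).trans (add_zero _), hq _ _ _ _, (A.hp.p1 u.1 hu.1 h0).1⟩
  · exact ⟨(congrArg _ (zero_smul _ _)).trans (add_zero _), hq _ _ _ _, (A.hp.p1 u.1 hu.1 h0).2⟩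
  · exact Cn1_da _ _ _
  · have : pf (x.bkd (.con (x.bt u.1) (x.ff u.1) (A.kx u.1) y (x.S.c2 u.1))) o = 0 := by
      rcases kS_cases x.p (ru x.p.d1 (x.bt u.1 % 2 ^ (x.p.d1 + 1))) (x.S.c2 u.1) y with
        ⟨-, q⟩ | ⟨-, -, c, q⟩ <;> rw [Cx.bkd, q] <;> rfl
    rw [this]
    exact Cn1_da _ _ _

theorem nd4 (u : ℕ × ℕ) (hu : x.val u) (o : Pos) :
    (x.top (A.bas u) → x.p.thrN < x.ct (A.nc u o)) ∧
      (x.p.thrN < x.ct (A.nc u o) → x.bm (A.bas u) = 0) := by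
  have h1 := x.thr_lt
  have b1 := x.S.bl1
  unfold nc
  rcases A.cases hu with ⟨hy, hb, -⟩ | ⟨y, -, ⟨-, hy, hb, -⟩ | ⟨h0, -, hb, -⟩ | ⟨h0, -, hb, -⟩ |
    ⟨h0, -, hb, -⟩ | ⟨h0, hy, hb, -⟩⟩ <;> rw [hb]
  · rw [Cn1_blk]
    refine ⟨fun q => h1.2.1.trans q.1, fun q => (x.Sb_lv ⟨u.2 + 1, ?_, q⟩).2.2 _⟩
    have := (x.nb4 u.1).2.1
    rw [x.bl_bt]
    omega
  · exact ⟨fun _ => h1.2.1.trans h1.2.2, fun _ => rfl⟩
  · exact ⟨fun q => q.elim, fun q => absurd (x.tl_low h0).2.2 (not_le.2 q)⟩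
  · exact ⟨fun q => q.elim, fun q => absurd (x.tl_low h0).2.2 (not_le.2 q)⟩
  · exact ⟨fun q => q.elim, fun q => (x.Sb_lv ⟨1, by have := b1 (x.bt (u.1 + 1)); omega, q⟩).2.2 _⟩
  · exact ⟨fun q => (h1.2.1.trans h1.2.2).trans_eq (x.tl_top q.1).1.symm,
      fun q => (x.Sb_lv ⟨_, by have := b1 (x.bt u.1); omega, q⟩).2.2 _⟩

theorem cp0 (u : ℕ × ℕ) (hu : x.val u) (h : x.bm (A.bas u) = 0) : x.cpu u = 0 := by
  rcases A.cases hu with ⟨hy, hb, hc⟩ | ⟨y, -, ⟨-, hy, hb, hc⟩ | ⟨h0, -, hb, hc⟩ | ⟨h0, -, hb, hc⟩ |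
    ⟨h0, -, hb, hc⟩ | ⟨h0, hy, hb, hc⟩⟩ <;> rw [hb] at h <;> rw [hc]
  · exact Cn1_cp ((x.mu_bt _ _).symm.trans h)
  · exact Cn1_cp h
  · exact Cn1_cp h
  · exact Cn1_cp ((x.mu_bt _ _).symm.trans h)

theorem dem (u : ℕ × ℕ) (hu : x.val u) (h : ¬ x.top (A.bas u)) (t : ℕ)
    (ht : t < len x.p.T (x.bkd (A.bas u))) (hk : x.idx u + t < x.k) (o : Pos) :
    x.a (x.idx u + t) ≤ min (x.ct (A.nc u o)) x.p.thr := by
  obtain ⟨j, z⟩ := u
  have h1 := x.thr_lt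
  have h2 := (x.nb4 j).2.1
  have hw : x.p.w = 5 * x.p.M + 3 := rfl
  have lo : x.S.rk j = 0 → ∀ i < x.p.w, x.S.bs j + x.S.bl j + i < x.k →
      x.a (x.S.bs j + x.S.bl j + i) ≤ min (x.tl j) x.p.thr := fun q i hi hk => by
    have := x.S.cv2 j q i hi hk
    have := x.tl_low q
    omega
  have up : x.S.rk j = 1 → ∀ i < x.p.w, x.p.w ≤ i + 2 → x.S.bs j + x.S.bl j + i < x.k →
      x.a (x.S.bs j + x.S.bl j + i) ≤ min (x.tl j) x.p.thr := fun q i hi hi' hk => by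
    have := x.S.cv3 j q i hi hi' hk
    have := (x.tl_top (j := j) (by omega)).1
    omega
  unfold nc
  rcases A.cases hu with ⟨hy, hb, -⟩ | ⟨y, hz, ⟨-, hy, hb, -⟩ | ⟨h0, hy, hb, -⟩ | ⟨h0, hy, hb, -⟩ |
    ⟨h0, hy, hb, -⟩ | ⟨h0, hy, hb, -⟩⟩ <;> rw [hb] at h ht <;> rw [hb] <;> dsimp only at *
  · have h3 : x.ta j (z + 1) ≤ x.p.thr := by
      rw [← x.ta_bt j (by omega)]
      by_contra q
      refine h ⟨not_le.1 q, fun q' => q ?_⟩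
      rw [q'.1]
      exact (x.hd_low q'.2).trans h1.2.1.le
    rw [Cn1_blk, x.ta_bt j (by omega)]
    refine le_trans ?_ (Cn1_rd h3)
    rw [x.idx_blk j hy.le] at hk ⊢
    by_cases q : z = 0
    · have ht : t < 2 := by
        rw [Cx.bkd, if_pos q] at ht
        split_ifs at ht <;> exact ht
      rw [if_pos q, add_zero] at hk ⊢
      refine (x.S.cv1 j t (by omega) hk).trans_eq ?_
      rw [q]
      interval_cases t
      · exact x.av01 j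
      · rfl
    · have ht : t < 1 := by rwa [Cx.bkd, if_neg q] at ht
      obtain rfl : t = 0 := by omega
      rw [if_neg q, add_zero] at hk ⊢
      exact x.S.cv1 j _ (by omega) hk
  · exact absurd trivial h
  · obtain rfl : t = 0 := Nat.lt_one_iff.1 ht
    rw [hz, x.idx_sh (by omega), add_zero] at hk ⊢
    exact lo h0 _ (by split_ifs <;> omega) hk
  · obtain rfl : t = 0 := Nat.lt_one_iff.1 ht
    rw [hz, x.idx_sh (by omega), add_zero] at hk ⊢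
    exact lo h0 _ (by split_ifs <;> omega) hk
  · obtain rfl : t = 0 := Nat.lt_one_iff.1 ht
    rw [hz, x.idx_sh (by omega), add_zero] at hk ⊢
    exact (up h0 _ (by split_ifs <;> omega) (by split_ifs <;> omega) hk).trans_eq
      (congrArg (min · _) ((x.ta_bt1 _).trans (x.ta_succ j)).symm)
  · have h3 : x.S.rk j = 0 ∨ x.S.rk j = 1 ∧ y = x.p.M + 1 := by
      rw [← x.rk_bt j]
      by_contra q
      exact h (not_or.1 q)
    have h4 : t < 1 ∨ 1 ≤ y ∧ y ≤ x.p.M ∧ t < 5 := by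
      rcases kS_cases x.p (ru x.p.d1 (x.bt j % 2 ^ (x.p.d1 + 1))) (x.S.c2 j) y with
        ⟨-, q⟩ | ⟨q1, q2, c, q⟩ <;> rw [Cx.bkd, q] at ht
      · exact .inl ht
      · exact .inr ⟨q1, q2, ht⟩
    rw [hz, x.idx_sh h0, add_assoc] at hk ⊢
    refine le_trans ?_ (congrArg (min · _) (x.tl_bt j)).ge
    rcases h3 with q | ⟨q, q'⟩
    · exact lo q _ (by split_ifs <;> omega) hk
    · exact up q _ (by split_ifs <;> omega) (by split_ifs <;> omega) hk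

end Alc

end Pool.Agent.Work.MP_ede3c6_co.Y
end

-- merged part: Pool.Agent.Work.MP_ede3c6_co.Y.Cn2
section
/-! Addresses determine nodes; roles and loads of the units.

PLAN. `au`: `A.cases` for both units; the class determines the constructor. In a group the second
component of the class is the parity of the position; with the corner (the first component of the
address is `0`) it determines the position (`kS_cases`, `kL_cases`, finite check), so first get the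
same kind (for `con` the kinds may differ only in the control), then `o = o'`. The quotient (in the
class) and the remainder (`ad2`, `zt2`, `sa2`, `mv2`; `ms` is a multiple of `2 ^ l0 - 1`; a block
with a small class has `lv = 0`, so it is not `Sb` by `Sb_lv`, `kR0`) determine the index; then use
`hk.k1`, `hq.q1`. `l0`: `load`. `l1`: cases on `b`, `hk.k2`, `hq.q2`, `hp.p2`, `hp.p3`. -/

set_option autoImplicit false

namespace Pool.Agent.Work.MP_ede3c6_co.Y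

open Finset Vol

theorem Cn2_pos {C : Type} {k k' : Kd C} (h : k = k' ∨ ∃ c c', k = .oc c ∧ k' = .oc c') {o o' : Pos}
    (ho : np k o) (ho' : np k' o') (h1 : par k o = par k' o') (h2 : zo k o = zo k' o') :
    o = o' ∧ pf k o = pf k' o' := by
  have hoc : ∀ c c' : C, par (.oc c) o = par (.oc c') o' → zo (.oc c) o = zo (.oc c') o' →
      o = o' ∧ pf (.oc c) o = pf (.oc c') o' := fun c c' => by
    cases o <;> cases o' <;> simp only [par, zo, pf] <;> decide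
  rcases h with rfl | ⟨c, c', rfl, rfl⟩
  · cases k with
    | oc c => exact hoc c c h1 h2
    | sg => exact ⟨ho.trans ho'.symm, rfl⟩
    | _ =>
      rcases ho with rfl | rfl <;> rcases ho' with rfl | rfl <;>
        first | exact ⟨rfl, rfl⟩ | exact absurd h1 (by simp only [par]; decide)
  · exact hoc c c' h1 h2

theorem Cn2_dm {D f f' : ℕ} (h1 : f / D = f' / D) (h2 : f % D = f' % D) : f = f' := by
  rw [← Nat.div_add_mod f D, h1, h2, Nat.div_add_mod]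

namespace Cx
variable (x : Cx)

theorem Cn2_ad {τ l v v' : ℕ} (h : v < x.mm τ l) (h' : v' < x.mm τ l)
    (h3 : (x.I.ad (x.I.io τ) (x.ee τ l) v).1 = (x.I.ad (x.I.io τ) (x.ee τ l) v').1)
    (h4 : (x.I.ad (x.I.io τ) (x.ee τ l) v).2 = (x.I.ad (x.I.io τ) (x.ee τ l) v').2) : v = v' :=
  x.I.ad2 _ _ (x.ee_le τ l) _ h _ h' (Prod.ext h3 h4)

theorem Cn2_da {τ l v v' : ℕ} {k k' : Kd x.p.Ctl} (h : k = k' ∨ ∃ c c', k = .oc c ∧ k' = .oc c')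
    {o o' : Pos} (ho : np k o) (ho' : np k' o') (h0 : v / x.mm τ l = v' / x.mm τ l)
    (h1 : par k o = par k' o') (h2 : (x.da τ l v).1 + zo k o = (x.da τ l v').1 + zo k' o')
    (h3 : (x.da τ l v).2.2.1 + pf k o • e x.I.i0 = (x.da τ l v').2.2.1 + pf k' o' • e x.I.i0)
    (h4 : (x.da τ l v).2.2.2 = (x.da τ l v').2.2.2) : o = o' ∧ v = v' := by
  obtain ⟨h5, h6⟩ := Cn2_pos h ho ho' h1 (add_left_cancel (a := 0) h2)
  rw [h6] at h3
  exact ⟨h5, Cn2_dm h0 (x.Cn2_ad (Nat.mod_lt _ (x.mm_pos τ l)) (Nat.mod_lt _ (x.mm_pos τ l))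
    (add_right_cancel h3) h4)⟩

theorem Cn2_sa {B τ f f' : ℕ} (h0 : f / x.cs τ (x.lv B) = f' / x.cs τ (x.lv B))
    (h2 : (x.sa τ (x.lv B) f).1 = (x.sa τ (x.lv B) f').1)
    (h3 : (x.sa τ (x.lv B) f).2.2.1 = (x.sa τ (x.lv B) f').2.2.1)
    (h4 : (x.sa τ (x.lv B) f).2.2.2 = (x.sa τ (x.lv B) f').2.2.2)
    (h5 : x.sm τ (x.lv B) → (x.sa τ (x.lv B) f).2.1 = (x.sa τ (x.lv B) f').2.1 ∧
      x.mu B f = x.mu B f') : f = f' := by
  refine Cn2_dm h0 ?_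
  unfold Cx.sa at h2 h3 h4 h5
  unfold Cx.cs
  by_cases hs : x.sm τ (x.lv B)
  · simp only [if_pos hs] at h2 h3 h4 h5 ⊢
    obtain ⟨h6, h7⟩ := h5 hs
    have hD : 0 < 2 ^ x.p.l0 - 1 :=
      Nat.sub_pos_of_lt (Nat.one_lt_two_pow (by have := x.ok.l2; omega))
    have hb : ¬ x.Sb B := fun q => by
      have h8 := (x.Sb_lv q).1
      have h9 := x.ok.kR0
      have := hs.2
      omega
    have hl : ∀ v, v % x.p.ms / (2 ^ x.p.l0 - 1) < 4 * x.p.q * 2 ^ (x.p.mu + x.p.w0) := fun v =>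
      (Nat.div_lt_iff_lt_mul hD).2 (Nat.mod_lt _ x.ms_pos)
    have hd : 2 ^ x.p.l0 - 1 ∣ x.p.ms := Dvd.intro_left _ rfl
    rw [Cx.mu, Cx.mu, if_neg hb, if_neg hb] at h7
    refine Cn2_dm (x.I.sa2 _ (hl f) _ (hl f') (Prod.ext h2 (Prod.ext h6 (Prod.ext h3 h4)))) ?_
    rw [Nat.mod_mod_of_dvd _ hd, Nat.mod_mod_of_dvd _ hd]
    exact x.I.mv2 _ (Nat.mod_lt _ hD) _ (Nat.mod_lt _ hD) h7
  · simp only [if_neg hs] at h2 h3 h4 ⊢
    have hl : ∀ v, v % (4 * x.mm τ (x.lv B)) / 4 < x.mm τ (x.lv B) := fun v =>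
      Nat.div_lt_of_lt_mul (Nat.mod_lt _ (Nat.mul_pos (by norm_num) (x.mm_pos _ _)))
    refine Cn2_dm (x.Cn2_ad (hl f) (hl f') h3 h4) ?_
    rw [Nat.mod_mul_right_mod, Nat.mod_mul_right_mod]
    exact x.I.zt2 _ (Nat.mod_lt _ (by norm_num)) _ (Nat.mod_lt _ (by norm_num)) h2

theorem Cn2_base (b b' : x.Bs) {o o' : Pos} (ho : np (x.bkd b) o) (ho' : np (x.bkd b') o')
    (h1 : x.bcl b (par (x.bkd b) o) = x.bcl b' (par (x.bkd b') o'))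
    (h2 : (x.bad b).1 + zo (x.bkd b) o = (x.bad b').1 + zo (x.bkd b') o')
    (h3 : (x.bad b).2.2.1 + pf (x.bkd b) o • e x.I.i0 =
      (x.bad b').2.2.1 + pf (x.bkd b') o' • e x.I.i0)
    (h4 : (x.bad b).2.2.2 = (x.bad b').2.2.2)
    (h5 : x.csm (x.bcl b (par (x.bkd b) o)) → (x.bad b).2.1 = (x.bad b').2.1 ∧ x.bm b = x.bm b') :
    o = o' ∧ (b = b' ∨ (∃ B f f' v y c c', b = .con B f v y c ∧ b' = .con B f' v y c') ∨
      ∃ B f f' v, b = .qs B f v ∧ b' = .qs B f' v) := by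
  rcases b with ⟨B, f, y⟩ | ⟨B, f, v, y, c⟩ | ⟨B, f, v⟩ | ⟨g, z, γ, π⟩ | y <;>
    rcases b' with ⟨B', f', y'⟩ | ⟨B', f', v', y', c'⟩ | ⟨B', f', v'⟩ | ⟨g', z', γ', π'⟩ | y' <;>
    simp only [Cx.bcl] at h1 <;> (try (exfalso; split_ifs at h1 <;> cases h1)) <;>
    (try (exfalso; cases h1; done))
  · by_cases hy : y = 0 <;> by_cases hy' : y' = 0 <;> simp only [hy, hy', if_true, if_false] at h1
    · subst hy hy'
      obtain ⟨q1, q2⟩ := Prod.mk.inj (Sum.inr.inj h1)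
      obtain ⟨rfl, q3⟩ := Gr.hd.inj q1
      obtain ⟨q4, rfl⟩ := x.Cn2_da (Or.inl rfl) ho ho' q3 q2 h2 h3 h4
      exact ⟨q4, Or.inl rfl⟩
    · cases h1
    · cases h1
    · obtain ⟨rfl, q1⟩ := Prod.mk.inj (Sum.inl.inj h1)
      obtain ⟨rfl, q2⟩ := Prod.mk.inj q1
      simp only [Cx.bkd, Cx.bad, Cx.bcl, Cx.bm, Cx.csm, if_neg hy] at ho ho' h2 h3 h4 h5
      obtain rfl : o = .s := ho
      obtain rfl : o' = .s := ho'
      obtain rfl := x.Cn2_sa q2 (add_right_cancel h2) (add_right_cancel h3) h4 h5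
      exact ⟨rfl, Or.inl rfl⟩
  · obtain ⟨q1, q2⟩ := Prod.mk.inj (Sum.inr.inj h1)
    obtain ⟨rfl, rfl, q3⟩ := Gr.cn.inj q1
    have hk : x.bkd (.con B f v y c) = x.bkd (.con B f' v' y c') ∨
        ∃ d d', x.bkd (.con B f v y c) = .oc d ∧ x.bkd (.con B f' v' y c') = .oc d' := by
      rcases kS_cases x.p (ru x.p.d1 (B % 2 ^ (x.p.d1 + 1))) c y with ⟨a, a'⟩ | ⟨a, a', d, a''⟩ <;>
        rcases kS_cases x.p (ru x.p.d1 (B % 2 ^ (x.p.d1 + 1))) c' y with ⟨r, r'⟩ | ⟨r, r', d', r''⟩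
      · exact Or.inl (a'.trans r'.symm)
      · omega
      · omega
      · exact Or.inr ⟨d, d', a'', r''⟩
    obtain ⟨q4, rfl⟩ := x.Cn2_da hk ho ho' q3 q2 h2 h3 h4
    exact ⟨q4, Or.inr (Or.inl ⟨_, _, _, _, _, _, _, rfl, rfl⟩)⟩
  · obtain ⟨q1, q2⟩ := Prod.mk.inj (Sum.inr.inj h1)
    obtain ⟨rfl, q3⟩ := Gr.qs.inj q1
    obtain ⟨q4, rfl⟩ := x.Cn2_da (Or.inl rfl) ho ho' q3 q2 h2 h3 h4
    exact ⟨q4, Or.inr (Or.inr ⟨_, _, _, _, rfl, rfl⟩)⟩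
  · obtain ⟨q1, rfl⟩ := Prod.mk.inj (Sum.inr.inj h1)
    obtain ⟨rfl, rfl⟩ := Gr.pq.inj q1
    obtain rfl : γ = γ' := h4
    exact ⟨Eq.trans ho (Eq.symm ho'), Or.inl rfl⟩
  · obtain ⟨q1, q2⟩ := Prod.mk.inj (Sum.inr.inj h1)
    obtain rfl := Gr.lg.inj q1
    exact ⟨(x.Cn2_da (Or.inl rfl) ho ho' rfl q2 h2 h3 h4).1, Or.inl rfl⟩

/-- the part of the segment and the index of the units with a given base -/
def Cn2_ix : x.Bs → ℕ × ℕ
  | .blk _ _ y => (0, y)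
  | .con _ _ _ y _ => (1, y)
  | .qs _ _ _ => (1, x.p.M + 2)
  | .pq _ _ _ π => (1, if π = 0 then x.p.M + 1 else x.p.M + 2)
  | .lg y => (2, y)

end Cx

namespace Alc
variable {x : Cx} (A : Alc x)

theorem Cn2_con {u : ℕ × ℕ} (h : x.val u) {B f v y : ℕ} {c : Option (Fin x.p.d2 × Fin 2)}
    (q : A.bas u = .con B f v y c) : x.S.rk u.1 ≠ 3 ∧ x.bt u.1 = B ∧ x.ff u.1 = f ∧
      A.kx u.1 = v ∧ x.S.c2 u.1 = c ∧ x.cpu u = x.cp u.1 := by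
  rcases A.cases h with ⟨-, r, -⟩ | ⟨y', -, ⟨-, -, r, -⟩ | ⟨-, -, r, -⟩ | ⟨-, -, r, -⟩ | ⟨-, -, r, -⟩ |
    ⟨r1, -, r, r2⟩⟩ <;> rw [r] at q <;> cases q
  exact ⟨r1, rfl, rfl, rfl, rfl, r2⟩

theorem Cn2_qs {u : ℕ × ℕ} (h : x.val u) {B f v : ℕ} (q : A.bas u = .qs B f v) :
    x.S.rk u.1 = 1 ∧ x.bt (u.1 + 1) = B ∧ x.ff (u.1 + 1) = f ∧ A.qx u.1 = v := by
  rcases A.cases h with ⟨-, r, -⟩ | ⟨y', -, ⟨-, -, r, -⟩ | ⟨-, -, r, -⟩ | ⟨-, -, r, -⟩ | ⟨r1, -, r, -⟩ |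
    ⟨-, -, r, -⟩⟩ <;> rw [r] at q <;> cases q
  exact ⟨r1, rfl, rfl, rfl⟩

theorem Cn2_pq {u : ℕ × ℕ} (h : x.val u) {g : x.PG} {z : ℕ} {γ : V (Fin x.p.w0)} {π : ZMod 2}
    (q : A.bas u = .pq g z γ π) : x.S.rk u.1 = 0 ∧ x.pgj u.1 = g ∧ A.pz u.1 = z ∧
      ((π = 0 ∧ A.pg u.1 = γ ∧ x.cpu u = x.cp u.1) ∨
        (π = 1 ∧ A.qg u.1 = γ ∧ x.cpu u = x.cp (u.1 + 1))) := by
  rcases A.cases h with ⟨-, r, -⟩ | ⟨y', -, ⟨-, -, r, -⟩ | ⟨r1, -, r, r2⟩ | ⟨r1, -, r, r2⟩ |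
    ⟨-, -, r, -⟩ | ⟨-, -, r, -⟩⟩ <;> rw [r] at q <;> cases q
  · exact ⟨r1, rfl, rfl, Or.inl ⟨rfl, rfl, r2⟩⟩
  · exact ⟨r1, rfl, rfl, Or.inr ⟨rfl, rfl, r2⟩⟩

theorem Cn2_ix_bas (j y : ℕ) : x.Cn2_ix (A.bas (j, y)) =
    if y < x.S.nb j then (0, y) else (if x.S.rk j = 3 then 2 else 1, y - x.S.nb j) := by
  unfold Alc.bas Alc.wb
  dsimp only
  split_ifs with h1 h2 h3 h4 h5
  · rfl
  · rfl
  · rw [h3.2]
    rfl
  · rw [h4.2]
    rfl
  · rw [h5.2]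
    rfl
  · rfl

theorem au (u u' : ℕ × ℕ) (hu : x.val u) (hu' : x.val u') (o o' : Pos)
    (ho : np (x.bkd (A.bas u)) o) (ho' : np (x.bkd (A.bas u')) o') (h1 : A.nc u o = A.nc u' o')
    (h2 : (x.bad (A.bas u)).1 + zo (x.bkd (A.bas u)) o =
      (x.bad (A.bas u')).1 + zo (x.bkd (A.bas u')) o')
    (h3 : (x.bad (A.bas u)).2.2.1 + pf (x.bkd (A.bas u)) o • e x.I.i0 =
      (x.bad (A.bas u')).2.2.1 + pf (x.bkd (A.bas u')) o' • e x.I.i0)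
    (h4 : (x.bad (A.bas u)).2.2.2 = (x.bad (A.bas u')).2.2.2)
    (h5 : x.csm (A.nc u o) → (x.bad (A.bas u)).2.1 = (x.bad (A.bas u')).2.1 ∧
      x.bm (A.bas u) = x.bm (A.bas u')) : A.bas u = A.bas u' ∧ o = o' := by
  obtain ⟨q, r | ⟨B, f, f', v, y, c, c', r, r'⟩ | ⟨B, f, f', v, r, r'⟩⟩ :=
    x.Cn2_base _ _ ho ho' h1 h2 h3 h4 h5
  · exact ⟨r, q⟩
  · obtain ⟨a1, a2, a3, a4, a5, -⟩ := A.Cn2_con hu r
    obtain ⟨-, b2, b3, b4, b5, -⟩ := A.Cn2_con hu' r'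
    obtain ⟨k1, k2, -⟩ := A.hk.k1 _ hu.1 _ hu'.1 a1 (a2.trans b2.symm) (a4.trans b4.symm)
    rw [r, r', ← a3, ← a5, ← b3, ← b5, k1, k2]
    exact ⟨rfl, q⟩
  · obtain ⟨a1, a2, a3, a4⟩ := A.Cn2_qs hu r
    obtain ⟨b1, b2, b3, b4⟩ := A.Cn2_qs hu' r'
    rw [r, r', ← a3, ← b3, A.hq.q1 _ hu.1 _ hu'.1 a1 b1 (a2.trans b2.symm) (a4.trans b4.symm)]
    exact ⟨rfl, q⟩

theorem sui {j y : ℕ} (h : x.val (j, y)) (hi : ¬ x.ui (A.bas (j, y))) :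
    y = 0 ∨ (x.S.rk j = 3 ∧ y = x.S.nb j) ∨ (x.S.rk j ≠ 3 ∧ x.S.nb j + x.p.M < y) := by
  rcases A.cases h with ⟨-, r, -⟩ | ⟨y', e, ⟨r1, -, r, -⟩ | ⟨r1, r2, -⟩ | ⟨r1, r2, -⟩ | ⟨r1, r2, -⟩ |
    ⟨-, -, r, -⟩⟩
  · rw [r] at hi
    exact Or.inl (by_contra fun q => hi (Or.inl (Nat.one_le_iff_ne_zero.2 q)))
  · rw [r] at hi
    have h1 : ¬ 1 ≤ y' := hi
    dsimp only at e r1
    omega
  · dsimp only at e r1
    omega
  · dsimp only at e r1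
    omega
  · dsimp only at e r1
    omega
  · rw [r] at hi
    exact absurd trivial hi

theorem ssb {j y j' y' : ℕ} (h : x.val (j, y)) (h' : x.val (j', y'))
    (q : A.bas (j, y) = A.bas (j', y')) : (y < x.S.nb j ∧ y' < x.S.nb j' ∧ y = y') ∨
      ∃ z, y = x.S.nb j + z ∧ y' = x.S.nb j' + z ∧ (x.S.rk j = 3 ↔ x.S.rk j' = 3) := by
  have h1 := A.Cn2_ix_bas j y
  rw [q, A.Cn2_ix_bas] at h1
  have _ := h
  have _ := h'
  by_cases a : y < x.S.nb j <;> by_cases a' : y' < x.S.nb j' <;>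
    simp only [a, a', if_true, if_false, Prod.mk.injEq] at h1
  · exact Or.inl ⟨a, a', h1.2.symm⟩
  · exact absurd h1.1 (by split_ifs <;> simp)
  · exact absurd h1.1 (by split_ifs <;> simp)
  · refine Or.inr ⟨y - x.S.nb j, by omega, by omega, ?_⟩
    split_ifs at h1 <;> omega

theorem slg {j : ℕ} (h : x.S.rk j = 3) (y : ℕ) : A.bas (j, x.S.nb j + y) = .lg y := by
  unfold Alc.bas Alc.wb
  dsimp only
  rw [if_neg (by omega), if_pos h, Nat.add_sub_cancel_left]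

open Classical in
theorem sl0 (b : x.Bs) (β : V (Fin x.p.kR)) :
    #{j ∈ range x.S.J | A.bas (j, 0) = b ∧ x.cpu (j, 0) = β} ≤ x.p.L0 * x.p.Q := by
  have h0 : ∀ j, A.bas (j, 0) = .blk (x.bt j) (x.ff j) 0 := fun j =>
    if_pos (lt_of_lt_of_le (by norm_num) (x.nb4 j).1)
  have h1 : ∀ j, x.cpu (j, 0) = x.cp j := fun j => if_neg fun q => absurd q.2 (by dsimp only; omega)
  rcases eq_empty_or_nonempty {j ∈ range x.S.J | A.bas (j, 0) = b ∧ x.cpu (j, 0) = β} with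
    h | ⟨i, hi⟩
  · rw [h]
    exact Nat.zero_le _
  refine (card_le_card fun j hj => ?_).trans (x.load (x.bt i) (x.ff i) β)
  obtain ⟨h2, h3, h4⟩ := mem_filter.1 hj
  rw [← (mem_filter.1 hi).2.1, h0, h0] at h3
  obtain ⟨h5, h6, -⟩ := Ba.blk.inj h3
  exact mem_filter.2 ⟨mem_range.2 (Nat.lt_succ_of_lt (mem_range.1 h2)), h5, h6, (h1 j).symm.trans h4⟩

open Classical in
theorem sl1 {y : ℕ} (h : y ≤ x.p.M + 2) (b : x.Bs) (β : V (Fin x.p.kR)) :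
    #{j ∈ range x.S.J | x.S.rk j ≠ 3 ∧ A.bas (j, x.S.nb j + y) = b ∧
      x.cpu (j, x.S.nb j + y) = β} ≤ x.p.Q := by
  have hv : ∀ j ∈ range x.S.J, x.S.rk j ≠ 3 → x.val (j, x.S.nb j + y) := fun j hj q =>
    ⟨mem_range.1 hj, by
      unfold Seg.nu
      dsimp only
      rw [if_neg q]
      omega⟩
  have hx : ∀ j, x.S.rk j ≠ 3 → (x.Cn2_ix (A.bas (j, x.S.nb j + y))).1 = 1 := fun j q => by
    rw [A.Cn2_ix_bas, if_neg (by omega), if_neg q]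
  rcases b with ⟨B, f, y'⟩ | ⟨B, f, v, y', c⟩ | ⟨B, f, v⟩ | ⟨g, z, γ, π⟩ | y'
  · refine (card_le_card fun j hj => ?_).trans (A.hq.q2 0 0)
    obtain ⟨-, h2, h3, -⟩ := mem_filter.1 hj
    have h4 := hx j h2
    rw [h3] at h4
    cases h4
  · refine (card_le_card fun j hj => ?_).trans (A.hk.k2 B v β)
    obtain ⟨h1, h2, h3, h4⟩ := mem_filter.1 hj
    obtain ⟨-, a2, -, a4, -, a6⟩ := A.Cn2_con (hv j h1 h2) h3
    exact mem_filter.2 ⟨h1, h2, a2, a4, a6.symm.trans h4⟩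
  · refine (card_le_card fun j hj => ?_).trans (A.hq.q2 B v)
    obtain ⟨h1, h2, h3, -⟩ := mem_filter.1 hj
    obtain ⟨a1, a2, -, a4⟩ := A.Cn2_qs (hv j h1 h2) h3
    exact mem_filter.2 ⟨h1, a1, a2, a4⟩
  · by_cases hπ : π = 0
    · refine (card_le_card fun j hj => ?_).trans (A.hp.p2 g z γ β)
      obtain ⟨h1, h2, h3, h4⟩ := mem_filter.1 hj
      obtain ⟨a1, a2, a3, ⟨-, a5, a6⟩ | ⟨a4, -⟩⟩ := A.Cn2_pq (hv j h1 h2) h3
      · exact mem_filter.2 ⟨h1, a1, a2, a3, a5, a6.symm.trans h4⟩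
      · exact absurd (hπ.symm.trans a4) (by decide)
    · refine (card_le_card fun j hj => ?_).trans (A.hp.p3 g z γ β)
      obtain ⟨h1, h2, h3, h4⟩ := mem_filter.1 hj
      obtain ⟨a1, a2, a3, ⟨a4, -⟩ | ⟨-, a5, a6⟩⟩ := A.Cn2_pq (hv j h1 h2) h3
      · exact absurd a4 hπ
      · exact mem_filter.2 ⟨h1, a1, a2, a3, a5, a6.symm.trans h4⟩
  · refine (card_le_card fun j hj => ?_).trans (A.hq.q2 0 0)
    obtain ⟨-, h2, h3, -⟩ := mem_filter.1 hj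
    have h4 := hx j h2
    rw [h3] at h4
    cases h4

end Alc

end Pool.Agent.Work.MP_ede3c6_co.Y
end

-- merged part: Pool.Agent.Work.MP_ede3c6_co.Y.Cn3
section
/-! The links between consecutive units.

PLAN. Use `A.links` (and `kS_cases`, `kL_cases`, the lemmas `_bt`, `lk_succ`, `nb4`). `lp`: `bss`,
`lgp`; `w = 5 M + 3`, `T` is odd, `LW` is even, `LU` is odd, `M` is even. `nf`: `tl_top`, `Sb_lv`; the
layer of an address `sa` is `0` or (small case, `sa1`) neither `0` nor `1`, and two small positions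
of a block have the same address; `(0 : V (Fin t)) ≠ 1` by `t2`. `huo`: `hk.k1` for the last unit
of a window of kind `2`. `hui`: equal `bt` gives equal `nb`, `rk`, `lk`. `r0`, `r5`: the stage
`blk _ _ y ↦ y`, `con _ _ _ y _ ↦ Km + y`, `qs ↦ Km + M + 2`, `pq _ _ _ π ↦ Km + M + 1 + π.val`,
`lg y ↦ Km + y` grows along every link, except the links into stage `0`, which start at a stage
`≥ 2`, while stage `0` is followed by stage `1`. `r1`: the head after a low window is not top by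
definition. -/

set_option autoImplicit false

namespace Pool.Agent.Work.MP_ede3c6_co.Y

open Finset Vol

theorem Cn3_cast {a b : ℕ} (h : a % 2 = b % 2) : (a : ZMod 2) = b :=
  (ZMod.natCast_eq_natCast_iff' a b 2).2 h

theorem Cn3_kS (p : Pm) (o1 : Option (Fin p.d1 × Fin 2)) (o2 : Option (Fin p.d2 × Fin 2)) (y : ℕ) :
    par (p.kS o1 o2 y) (ex (p.kS o1 o2 y)) = 0 ∧ pf (p.kS o1 o2 y) .s = 0 ∧ p.kS o1 o2 y ≠ .pre ∧
      (y = 0 ∨ p.M < y → p.kS o1 o2 y = .sg) := by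
  rcases kS_cases p o1 o2 y with ⟨-, h⟩ | ⟨h1, h2, c, h⟩
  · rw [h]
    exact ⟨rfl, rfl, nofun, fun _ => rfl⟩
  · rw [h]
    exact ⟨rfl, rfl, nofun, fun k => by omega⟩

theorem Cn3_LU (p : Pm) : 1 ≤ p.xg ∧ p.xg + 2 ≤ p.LU ∧ p.LU % 2 = 1 ∧ p.LW % 2 = 0 ∧ 2 ≤ p.M ∧
    p.w = 5 * p.M + 3 := by
  unfold Pm.LU Pm.LW Pm.xg Pm.T Pm.w Pm.M
  omega

theorem Cn3_kL (p : Pm) (y : ℕ) :
    par (p.kL y) (ex (p.kL y)) = ((if y = p.xg then 1 else 0 : ℕ) : ZMod 2) ∧ pf (p.kL y) .s = 0 ∧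
      p.kL y ≠ .pre ∧ (y = 0 ∨ p.LU ≤ y + 1 → p.kL y = .sg) := by
  have := Cn3_LU p
  rcases kL_cases p y with ⟨k, h⟩ | ⟨k, h⟩ | ⟨h1, h2, h3, c, h⟩
  · rw [h, if_neg (by omega)]
    exact ⟨rfl, rfl, nofun, fun _ => rfl⟩
  · rw [h, if_pos k]
    exact ⟨rfl, rfl, nofun, fun _ => by omega⟩
  · rw [h, if_neg h3]
    exact ⟨rfl, rfl, nofun, fun _ => by omega⟩

namespace Cx
variable (x : Cx)

theorem Cn3_pb (B f y : ℕ) : x.cpr (x.bcl (.blk B f y) 0) =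
    ((x.S.bs B + if y = 0 then 0 else y + 1 : ℕ) : ZMod 2) := by
  by_cases h : y = 0
  · simp [bcl, cpr, h]
  · simp [bcl, cpr, h, add_assoc]

theorem Cn3_kb (B f y : ℕ) : par (x.bkd (.blk B f y)) (ex (x.bkd (.blk B f y))) =
    ((if y = 0 then 1 else 0 : ℕ) : ZMod 2) := by
  simp only [bkd]
  split_ifs <;> rfl

theorem Cn3_kb1 (B f : ℕ) {y : ℕ} (h : y ≠ 0) : x.bkd (.blk B f y) = .sg := if_neg h

theorem Cn3_kb2 (B f y : ℕ) (c : x.p.Ctl) : x.bkd (.blk B f y) ≠ .oc c := by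
  simp only [bkd]
  split_ifs <;> nofun

theorem Cn3_kb3 (B f : ℕ) : x.bkd (.blk B f 0) ≠ .sg := by
  simp only [bkd]
  split_ifs <;> nofun

theorem Cn3_kb4 (f : ℕ) {B : ℕ} (h : x.S.lk B ≠ 0) : x.bkd (.blk B f 0) = .two := by
  simp [bkd, h]

theorem Cn3_kb5 (f : ℕ) {B : ℕ} (h : x.S.lk B = 0) : x.bkd (.blk B f 0) = .pre := by
  simp [bkd, h]

theorem Cn3_pc (B f v y : ℕ) (o : Option (Fin x.p.d2 × Fin 2)) :
    x.cpr (x.bcl (.con B f v y o) 0) = ((x.S.bs B + x.S.bl B + y : ℕ) : ZMod 2) := add_zero _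

theorem Cn3_pq (B f v : ℕ) : x.cpr (x.bcl (.qs B f v) 0) = ((x.S.bs B + 1 : ℕ) : ZMod 2) :=
  add_zero _

theorem Cn3_pp0 (j z : ℕ) (γ : V (Fin x.p.w0)) : x.cpr (x.bcl (.pq (x.pgj j) z γ 0) 0) =
    ((x.S.bs j + x.S.bl j + x.p.M + 1 : ℕ) : ZMod 2) := add_zero _

theorem Cn3_pp1 (j z : ℕ) (γ : V (Fin x.p.w0)) : x.cpr (x.bcl (.pq (x.pgj j) z γ 1) 0) =
    ((x.S.bs j + x.S.bl j + x.p.M + 1 + 1 : ℕ) : ZMod 2) := (Nat.cast_succ _).symm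

theorem Cn3_pl (y : ℕ) : x.cpr (x.bcl (.lg y) 0) =
    ((if y ≤ x.p.xg then y else y + 1 : ℕ) : ZMod 2) := add_zero _

theorem Cn3_01 : (0 : V (Fin x.p.t)) ≠ 1 := fun h => by
  have := congrFun h ⟨0, by have := x.ok.t2; omega⟩
  exact zero_ne_one this

/-- the layer of the address of a unit of a block -/
theorem Cn3_lay (B f : ℕ) : ∃ σ : V (Fin x.p.t), σ ≠ 1 ∧
    ∀ y, (x.bad (.blk B f y)).2.1 = 0 ∨ (x.bad (.blk B f y)).2.1 = σ := by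
  refine ⟨(x.I.sa (f % x.p.ms / (2 ^ x.p.l0 - 1))).2.1, (x.I.sa1 _ ?_).2, fun y => ?_⟩
  · exact Nat.div_lt_of_lt_mul (by rw [mul_comm]; exact Nat.mod_lt _ x.ms_pos)
  · simp only [bad, sa]
    split_ifs
    · exact Or.inl rfl
    · exact Or.inr rfl
    · exact Or.inl rfl

end Cx

namespace Alc
variable {x : Cx} (A : Alc x)

/-- the links between bases -/
inductive Cn3Lk : x.Bs → x.Bs → Prop
  | l1 (B f y y' : ℕ) (h1 : y + 1 < x.S.nb B) (h2 : y' = y + 1) : Cn3Lk (.blk B f y) (.blk B f y')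
  | l2 (B f y y' : ℕ) (h1 : y + 1 = x.S.nb B) (h2 : x.S.rk B = 3) (h3 : y' = 0) :
      Cn3Lk (.blk B f y) (.lg y')
  | l3 (B f y v y' : ℕ) (o : Option (Fin x.p.d2 × Fin 2)) (h1 : y + 1 = x.S.nb B)
      (h2 : x.S.rk B ≠ 3) (h3 : y' = 0) : Cn3Lk (.blk B f y) (.con B f v y' o)
  | l4 (y y' : ℕ) (h1 : y + 1 < x.p.LU) (h2 : y' = y + 1) : Cn3Lk (.lg y) (.lg y')
  | l5 (y B f y' : ℕ) (h1 : y + 1 = x.p.LU) (h2 : x.S.lk B = 3) (h3 : y' = 0) :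
      Cn3Lk (.lg y) (.blk B f y')
  | l6 (B f v y y' : ℕ) (o : Option (Fin x.p.d2 × Fin 2))
      (h1 : y < x.p.M ∨ (y = x.p.M ∧ x.S.rk B ≠ 0) ∨ (y = x.p.M + 1 ∧ x.S.rk B = 2))
      (h2 : y' = y + 1) : Cn3Lk (.con B f v y o) (.con B f v y' o)
  | l7 (B f v y : ℕ) (o : Option (Fin x.p.d2 × Fin 2)) (g : x.PG) (z : ℕ) (γ : V (Fin x.p.w0))
      (π : ZMod 2) (h1 : y = x.p.M) (h2 : x.S.rk B = 0) (h3 : π.val = 0) :
      Cn3Lk (.con B f v y o) (.pq g z γ π)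
  | l8 (g : x.PG) (z : ℕ) (γ γ' : V (Fin x.p.w0)) (π π' : ZMod 2) (h1 : π.val = 0)
      (h2 : π'.val = 1) : Cn3Lk (.pq g z γ π) (.pq g z γ' π')
  | l9 (g : x.PG) (z : ℕ) (γ : V (Fin x.p.w0)) (π : ZMod 2) (B f y' : ℕ) (h1 : π.val = 1)
      (h2 : x.S.lk B = 0) (h3 : y' = 0) : Cn3Lk (.pq g z γ π) (.blk B f y')
  | l10 (B f v y : ℕ) (o : Option (Fin x.p.d2 × Fin 2)) (B' f' v' : ℕ) (h1 : y = x.p.M + 1)
      (h2 : x.S.rk B = 1) : Cn3Lk (.con B f v y o) (.qs B' f' v')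
  | l11 (B f v y' : ℕ) (h2 : x.S.lk B = 1) (h3 : y' = 0) : Cn3Lk (.qs B f v) (.blk B f y')
  | l12 (B f v y : ℕ) (o : Option (Fin x.p.d2 × Fin 2)) (B' f' y' j : ℕ) (h1 : y = x.p.M + 2)
      (h2 : x.S.rk B = 2) (h3 : y' = 0) (h4 : x.S.lk B' = 2) (h5 : j < x.S.J ∧ x.S.rk j = 2 ∧
        B = x.bt j ∧ v = A.kx j ∧ B' = x.bt (j + 1) ∧ f' = x.ff (j + 1)) :
      Cn3Lk (.con B f v y o) (.blk B' f' y')

theorem Cn3_lk {u : ℕ × ℕ} (hu : x.val u) : A.Cn3Lk (A.bas u) (A.bas (x.S.nx u)) := by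
  obtain ⟨j, hj, H⟩ := A.links hu
  have n1 := x.nb_bt j
  have n2 := x.rk_bt j
  have n3 : x.S.lk (x.bt (j + 1)) = x.S.rk j := (x.lk_bt _).trans (x.lk_succ j)
  rcases H with ⟨h1, -, e1, e2⟩ | ⟨h1, h2, -, e1, e2⟩ | ⟨h1, h2, -, e1, e2⟩ |
    ⟨y, -, -, h1, -, e1, e2⟩ | ⟨y, -, h2, h1, -, e1, e2⟩ | ⟨y, -, -, h1, -, e1, e2⟩ |
    ⟨-, h2, -, e1, e2⟩ | ⟨-, -, -, e1, e2⟩ | ⟨-, h2, -, e1, e2⟩ | ⟨-, h2, -, e1, e2⟩ |
    ⟨-, -, ⟨h2, e1⟩ | ⟨h2, e1⟩, e2⟩ <;> rw [e1, e2]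
  · exact .l1 _ _ _ _ (by omega) rfl
  · exact .l2 _ _ _ _ (by omega) (by omega) rfl
  · exact .l3 _ _ _ _ _ _ (by omega) (by omega) rfl
  · exact .l4 _ _ h1 rfl
  · exact .l5 _ _ _ _ h1 (by omega) rfl
  · exact .l6 _ _ _ _ _ _ (by omega) rfl
  · exact .l7 _ _ _ _ _ _ _ _ _ rfl (by omega) rfl
  · exact .l8 _ _ _ _ _ _ rfl rfl
  · exact .l9 _ _ _ _ _ _ _ rfl (by omega) rfl
  · exact .l10 _ _ _ _ _ _ _ _ rfl (by omega)
  · exact .l11 _ _ _ _ (by omega) rfl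
  · exact .l12 _ _ _ _ _ _ _ _ j rfl (by omega) rfl (by omega)
      ⟨hj ▸ hu.1, h2, rfl, rfl, rfl, rfl⟩

theorem Cn3_ft {u : ℕ × ℕ} (hu : x.val u) (h : x.ft u) : ∃ g z γ γ',
    A.bas u = .pq g z γ 0 ∧ A.bas (x.S.nx u) = .pq g z γ' 1 := by
  obtain ⟨j, hj, H⟩ := A.links hu
  obtain ⟨k1, k2⟩ := h
  rw [hj] at k1 k2
  rcases H with ⟨h1, -⟩ | ⟨h1, -⟩ | ⟨h1, -⟩ | ⟨y, -, h1, -⟩ | ⟨y, -, h1, -⟩ | ⟨y, h0, -, h1, -⟩ |
    ⟨h1, -⟩ | ⟨-, -, -, e1, e2⟩ | ⟨h1, -⟩ | ⟨-, h1, -⟩ | ⟨h1, -⟩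
  any_goals omega
  exact ⟨_, _, _, _, e1, e2⟩

theorem lp (u : ℕ × ℕ) (hu : x.val u) : x.cpr (x.bcl (A.bas (x.S.nx u)) 0) =
    x.cpr (x.bcl (A.bas u) 0) + par (x.bkd (A.bas u)) (ex (x.bkd (A.bas u))) + 1 := by
  obtain ⟨j, -, H⟩ := A.links hu
  have key : ∀ {a b c : ℕ}, a % 2 = (b + c + 1) % 2 → (a : ZMod 2) = (b : ZMod 2) + c + 1 :=
    fun h => (Cn3_cast h).trans (by push_cast; rfl)
  have key0 : ∀ {a b : ℕ}, a % 2 = (b + 1) % 2 → (a : ZMod 2) = (b : ZMod 2) + 0 + 1 :=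
    fun h => (Cn3_cast h).trans (by push_cast; rw [add_zero])
  have n1 := (x.same_bt j).bs
  have n2 := (x.same_bt (j + 1)).bs
  have n3 := x.bl_bt j
  have n4 := x.nb4 j
  have n5 := x.S.bss j
  have n6 := x.S.lgp j
  have n7 := Cn3_LU x.p
  rcases H with ⟨h1, -, e1, e2⟩ | ⟨h1, h2, -, e1, e2⟩ | ⟨h1, h2, -, e1, e2⟩ |
    ⟨y, -, -, h1, -, e1, e2⟩ | ⟨y, -, h2, h1, -, e1, e2⟩ | ⟨y, -, -, h1, -, e1, e2⟩ |
    ⟨-, h2, -, e1, e2⟩ | ⟨-, -, -, e1, e2⟩ | ⟨-, h2, -, e1, e2⟩ | ⟨-, h2, -, e1, e2⟩ |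
    ⟨-, -, ⟨h2, e1⟩ | ⟨h2, e1⟩, e2⟩ <;> rw [e1, e2]
  · rw [x.Cn3_pb, x.Cn3_pb, x.Cn3_kb, if_neg (Nat.succ_ne_zero _)]
    exact key (by split_ifs <;> omega)
  · rw [x.Cn3_pl, x.Cn3_pb, x.Cn3_kb]
    exact key (by split_ifs <;> omega)
  · rw [x.Cn3_pc, x.Cn3_pb, x.Cn3_kb]
    exact key (by split_ifs <;> omega)
  · rw [x.Cn3_pl, x.Cn3_pl]
    exact (key (by split_ifs <;> omega)).trans (congrArg (_ + · + 1) (Cn3_kL x.p y).1.symm)
  · rw [x.Cn3_pb, x.Cn3_pl]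
    rw [if_pos h2] at n5
    exact (key (by split_ifs <;> omega)).trans (congrArg (_ + · + 1) (Cn3_kL x.p y).1.symm)
  · rw [x.Cn3_pc, x.Cn3_pc]
    exact (key0 (by omega)).trans (congrArg (_ + · + 1) (Cn3_kS x.p _ _ y).1.symm)
  · rw [x.Cn3_pp0, x.Cn3_pc]
    exact (key0 (by omega)).trans (congrArg (_ + · + 1) (Cn3_kS x.p _ _ _).1.symm)
  · rw [x.Cn3_pp1, x.Cn3_pp0]
    exact key0 (by omega)
  · rw [x.Cn3_pb, x.Cn3_pp1]
    rw [if_neg (by omega)] at n5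
    exact key0 (by split_ifs <;> omega)
  · rw [x.Cn3_pq, x.Cn3_pc]
    rw [if_neg (by omega)] at n5
    exact (key0 (by omega)).trans (congrArg (_ + · + 1) (Cn3_kS x.p _ _ _).1.symm)
  · rw [x.Cn3_pb, x.Cn3_pq]
    exact key0 (by split_ifs <;> omega)
  · rw [x.Cn3_pb, x.Cn3_pc]
    rw [if_neg (by omega)] at n5
    exact (key0 (by split_ifs <;> omega)).trans (congrArg (_ + · + 1) (Cn3_kS x.p _ _ _).1.symm)

theorem nf (u : ℕ × ℕ) (hu : x.val u) (h : ¬ x.ft u) : x.cpu (x.S.nx u) = x.cpu u ∧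
    x.bm (A.bas (x.S.nx u)) = x.bm (A.bas u) ∧ (x.bad (A.bas u)).2.1 +
      ((x.bad (A.bas (x.S.nx u))).2.1 + pf (x.bkd (A.bas (x.S.nx u))) .s • 1) ≠ 1 := by
  obtain ⟨j, hj, H⟩ := A.links hu
  obtain ⟨u1, u2⟩ := u
  obtain rfl : u1 = j := hj
  have n3 : x.S.lk (x.bt (u1 + 1)) = x.S.rk u1 := (x.lk_bt _).trans (x.lk_succ u1)
  have z1 := x.Cn3_01
  have c1 : ∀ j y, ¬ (x.S.rk j = 0 ∧ y = x.S.nb j + (x.p.M + 2)) → x.cpu (j, y) = x.cp j :=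
    fun j y k => if_neg k
  have c2 : x.S.rk u1 ≠ 0 → x.cp (u1 + 1) = x.cp u1 ∧ (∀ f, x.mu (x.bt u1) f = 0) ∧
      ∀ f, x.mu (x.bt (u1 + 1)) f = 0 := fun k => by
    obtain ⟨-, k1, k2⟩ := x.tl_top k
    exact ⟨(x.Sb_lv k2).2.1.trans (x.Sb_lv k1).2.1.symm,
      fun f => (x.mu_bt _ f).trans ((x.Sb_lv k1).2.2 f),
      fun f => (x.mu_bt _ f).trans ((x.Sb_lv k2).2.2 f)⟩
  have z2 : ∀ {a : V (Fin x.p.t)} {k : ZMod 2}, a ≠ 1 → k = 0 → a + (0 + k • 1) ≠ 1 :=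
    fun h1 h2 => by rwa [h2, zero_smul, add_zero, add_zero]
  obtain ⟨σ, s1, s2⟩ := x.Cn3_lay (x.bt u1) (x.ff u1)
  have s3 : ∀ y, (x.bad (.blk (x.bt u1) (x.ff u1) y)).2.1 ≠ 1 := fun y => by
    rcases s2 y with k | k <;> rwa [k]
  rcases H with ⟨h1, e0, e1, e2⟩ | ⟨h1, h2, e0, e1, e2⟩ | ⟨h1, h2, e0, e1, e2⟩ |
    ⟨y, h0, h2, h1, e0, e1, e2⟩ | ⟨y, h0, h2, h1, e0, e1, e2⟩ | ⟨y, h0, h2, h1, e0, e1, e2⟩ |
    ⟨h1, h2, e0, e1, e2⟩ | ⟨h1, h2, -⟩ | ⟨h1, h2, e0, e1, e2⟩ | ⟨h1, h2, e0, e1, e2⟩ |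
    ⟨h1, e0, ⟨h2, e1⟩ | ⟨h2, e1⟩, e2⟩
  on_goal 8 => exact absurd ⟨h2, h1⟩ h
  all_goals
    dsimp only at *
    rw [e1, e2, e0]
  · refine ⟨(c1 _ _ (by omega)).trans (c1 _ _ (by omega)).symm, rfl, ?_⟩
    rw [x.Cn3_kb1 _ _ (Nat.succ_ne_zero _)]
    show _ + (_ + (0 : ZMod 2) • 1) ≠ _
    rw [zero_smul, add_zero]
    rcases s2 u2 with k | k <;> rcases s2 (u2 + 1) with k' | k' <;> rw [k, k']
    · rwa [add_zero]
    · rwa [zero_add]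
    · rwa [add_zero]
    · rwa [vv]
  · exact ⟨(c1 _ _ (by omega)).trans (c1 _ _ (by omega)).symm, ((c2 (by omega)).2.1 _).symm,
      z2 (s3 _) (Cn3_kL x.p 0).2.1⟩
  · exact ⟨(c1 _ _ (by omega)).trans (c1 _ _ (by omega)).symm, rfl,
      z2 (s3 _) (Cn3_kS x.p _ _ 0).2.1⟩
  · exact ⟨(c1 _ _ (by omega)).trans (c1 _ _ (by omega)).symm, rfl, z2 z1 (Cn3_kL x.p _).2.1⟩
  · refine ⟨((c1 _ _ (by omega)).trans (c2 (by omega)).1).trans (c1 _ _ (by omega)).symm,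
      (c2 (by omega)).2.2 _, z2 z1 ?_⟩
    rw [x.Cn3_kb4 _ (by omega)]
    rfl
  · exact ⟨(c1 _ _ (by omega)).trans (c1 _ _ (by omega)).symm, rfl, z2 z1 (Cn3_kS x.p _ _ _).2.1⟩
  · refine ⟨(c1 _ _ (by omega)).trans (c1 _ _ (by omega)).symm,
      by simp [Cx.bm, Cx.pgj, x.mu_bt], ?_⟩
    show 0 + ((0 : ZMod 2) • 1 + (0 : ZMod 2) • 1) ≠ (1 : V (Fin x.p.t))
    rwa [vv, add_zero]
  · refine ⟨(c1 _ _ (by omega)).trans (if_pos ⟨h2, h1⟩).symm,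
      by simp [Cx.bm, Cx.pgj, x.mu_bt], ?_⟩
    rw [x.Cn3_kb5 _ (by omega)]
    show (1 : ZMod 2) • 1 + (0 + (1 : ZMod 2) • 1) ≠ (1 : V (Fin x.p.t))
    rwa [zero_add, vv]
  · exact ⟨(c1 _ _ (by omega)).trans (c1 _ _ (by omega)).symm,
      ((c2 (by omega)).2.2 _).trans ((c2 (by omega)).2.1 _).symm, z2 z1 rfl⟩
  · refine ⟨((c1 _ _ (by omega)).trans (c2 (by omega)).1).trans (c1 _ _ (by omega)).symm, rfl,
      z2 z1 ?_⟩
    rw [x.Cn3_kb4 _ (by omega)]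
    rfl
  · refine ⟨((c1 _ _ (by omega)).trans (c2 (by omega)).1).trans (c1 _ _ (by omega)).symm,
      ((c2 (by omega)).2.2 _).trans ((c2 (by omega)).2.1 _).symm, z2 z1 ?_⟩
    rw [x.Cn3_kb4 _ (by omega)]
    rfl

theorem ff (u : ℕ × ℕ) (hu : x.val u) (h : x.ft u) : x.bkd (A.bas u) = .sg ∧
    x.bkd (A.bas (x.S.nx u)) = .sg ∧
    A.rz (x.bcl (A.bas (x.S.nx u)) 0) 0 = A.rz (x.bcl (A.bas u) 0) 0 ∧
    (x.bad (A.bas (x.S.nx u))).1 = (x.bad (A.bas u)).1 ∧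
    (x.bad (A.bas (x.S.nx u))).2.1 = (x.bad (A.bas u)).2.1 + 1 ∧
    (x.bad (A.bas (x.S.nx u))).2.2.1 = (x.bad (A.bas u)).2.2.1 + e x.I.i0 := by
  obtain ⟨g, z, γ, γ', e1, e2⟩ := A.Cn3_ft hu h
  rw [e1, e2]
  exact ⟨rfl, rfl, rfl, rfl, by simp [Cx.bad], by simp [Cx.bad]⟩

theorem fo (u : ℕ × ℕ) (hu : x.val u) (h : x.ft u) :
    ¬ x.uo (A.bas u) ∧ ¬ x.ui (A.bas (x.S.nx u)) := by
  obtain ⟨g, z, γ, γ', e1, e2⟩ := A.Cn3_ft hu h
  rw [e1, e2]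
  exact ⟨id, id⟩

theorem huo (u u' : ℕ × ℕ) (hu : x.val u) (hu' : x.val u') (h : A.bas u = A.bas u')
    (h' : x.uo (A.bas u)) : A.bas (x.S.nx u) = A.bas (x.S.nx u') := by
  have k := A.Cn3_lk hu
  have k' := A.Cn3_lk hu'
  rw [← h] at k'
  generalize A.bas u = a at k k' h'
  generalize A.bas (x.S.nx u) = b at k
  generalize A.bas (x.S.nx u') = c at k'
  cases k with
  | l12 B f v y o B' f' y' j h1 h2 h3 h4 h5 =>
    cases k' with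
    | l12 _ _ _ _ _ B'' f'' y'' j' g1 g2 g3 g4 g5 =>
      obtain ⟨a1, a2, a3, a4, rfl, rfl⟩ := h5
      obtain ⟨b1, -, b3, b4, rfl, rfl⟩ := g5
      obtain ⟨c1, c2⟩ := (A.hk.k1 j a1 j' b1 (by omega) (a3.symm.trans b3) (a4.symm.trans b4)).2.2 a2
      rw [c1, c2, h3, g3]
    | _ => omega
  | _ =>
    cases k' <;> simp only [Cx.uo] at h' <;> first | omega | (subst_vars; rfl)

theorem hui (u u' : ℕ × ℕ) (hu : x.val u) (hu' : x.val u')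
    (h : A.bas (x.S.nx u) = A.bas (x.S.nx u')) (h' : x.ui (A.bas (x.S.nx u))) :
    A.bas u = A.bas u' := by
  have k := A.Cn3_lk hu
  have k' := A.Cn3_lk hu'
  rw [← h] at k'
  generalize A.bas (x.S.nx u) = b at k k' h'
  generalize A.bas u = a at k
  generalize A.bas u' = c at k'
  cases k <;> cases k' <;> simp only [Cx.ui] at h' <;> first | omega | (congr 1; omega)

theorem ui0 : ¬ x.ui (A.bas (0, 0)) := by
  have h := x.nb4 0
  have h1 : x.S.lk (x.bt 0) = 1 := (x.lk_bt 0).trans (if_pos rfl)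
  rw [bas, if_pos (by dsimp only; omega)]
  simp only [Cx.ui]
  omega

theorem r0 (u : ℕ × ℕ) (hu : x.val u) : A.bas u ≠ A.bas (x.S.nx u) := by
  intro h
  have k := A.Cn3_lk hu
  rw [← h] at k
  generalize A.bas u = a at k
  cases k <;> omega

theorem r5 (u u' : ℕ × ℕ) (hu : x.val u) (hu' : x.val u') (h : A.bas (x.S.nx u) = A.bas u') :
    A.bas (x.S.nx u') ≠ A.bas u := by
  intro h'
  have k := A.Cn3_lk hu
  have k' := A.Cn3_lk hu'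
  rw [← h, h'] at k'
  generalize A.bas (x.S.nx u) = b at k k'
  generalize A.bas u = a at k k'
  have n1 := Cn3_LU x.p
  cases k <;> cases k' <;> omega

theorem r1 (u : ℕ × ℕ) (hu : x.val u) (h : x.top (A.bas u) ∨ x.top (A.bas (x.S.nx u))) :
    x.uo (A.bas u) ∨ x.ui (A.bas (x.S.nx u)) := by
  have k := A.Cn3_lk hu
  generalize A.bas (x.S.nx u) = b at k h
  generalize A.bas u = a at k h
  cases k <;> simp only [Cx.uo, Cx.ui, Cx.top, or_true, true_or, or_false, false_or] at h ⊢ <;>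
    omega

theorem r2 (u u' : ℕ × ℕ) (hu : x.val u) (hu' : x.val u') (h : A.bas (x.S.nx u) = A.bas u')
    (h1 : x.top (A.bas u)) (h2 : x.bkd (A.bas u') = .sg) :
    x.uo (A.bas u) ∨ x.ui (A.bas (x.S.nx u')) := by
  have k := A.Cn3_lk hu
  have k' := A.Cn3_lk hu'
  rw [h] at k
  generalize A.bas (x.S.nx u') = c at k'
  generalize A.bas u' = b at k k' h2
  generalize A.bas u = a at k h1
  have n1 := Cn3_LU x.p
  cases k with
  | l3 B f y v y' o g1 g2 g3 =>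
    cases k' with
    | l6 => exact Or.inr trivial
    | _ => omega
  | l5 y B f y' g1 g2 g3 => exact absurd (g3 ▸ h2) (x.Cn3_kb3 B f)
  | _ =>
    left
    simp only [Cx.uo, Cx.top] at h1 ⊢ <;> omega

theorem r3 (u : ℕ × ℕ) (c : x.p.Ctl) (hu : x.val u) (h : x.top (A.bas u))
    (h' : x.bkd (A.bas u) = .oc c) : x.ui (A.bas (x.S.nx u)) := by
  have k := A.Cn3_lk hu
  generalize A.bas (x.S.nx u) = b at k
  generalize A.bas u = a at k h h'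
  cases k with
  | l2 => exact absurd h' (x.Cn3_kb2 _ _ _ c)
  | l12 B f v y o B' f' y' j h1 =>
    exact absurd (((Cn3_kS x.p _ o y).2.2.2 (by omega)).symm.trans h') nofun
  | _ => simp only [Cx.ui, Cx.top] at h ⊢ <;> omega

theorem r4 (u : ℕ × ℕ) (c : x.p.Ctl) (hu : x.val u) (h : x.bkd (A.bas (x.S.nx u)) = .oc c) :
    x.uo (A.bas u) := by
  have k := A.Cn3_lk hu
  generalize A.bas (x.S.nx u) = b at k h
  generalize A.bas u = a at k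
  cases k with
  | l3 B f y v y' o g1 g2 g3 =>
    exact absurd (((Cn3_kS x.p _ o y').2.2.2 (Or.inl g3)).symm.trans h) nofun
  | l5 => exact absurd h (x.Cn3_kb2 _ _ _ c)
  | l7 => exact absurd h nofun
  | l8 => exact absurd h nofun
  | l9 => exact absurd h (x.Cn3_kb2 _ _ _ c)
  | l10 => exact absurd h nofun
  | _ => simp only [Cx.uo] <;> omega

theorem r6 (u : ℕ × ℕ) (hu : x.val u) (h : x.bkd (A.bas (x.S.nx u)) = .pre) :
    x.bkd (A.bas u) = .sg := by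
  have k := A.Cn3_lk hu
  generalize A.bas (x.S.nx u) = b at k h
  generalize A.bas u = a at k
  cases k with
  | l1 B f y y' g1 g2 => exact absurd ((x.Cn3_kb1 B f (by omega)).symm.trans h) nofun
  | l2 => exact absurd h (Cn3_kL x.p _).2.2.1
  | l3 => exact absurd h (Cn3_kS x.p _ _ _).2.2.1
  | l4 => exact absurd h (Cn3_kL x.p _).2.2.1
  | l5 y B f y' g1 => exact (Cn3_kL x.p y).2.2.2 (by omega)
  | l6 => exact absurd h (Cn3_kS x.p _ _ _).2.2.1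
  | l7 => exact absurd h nofun
  | l10 => exact absurd h nofun
  | l12 B f v y o B' f' y' j h1 => exact (Cn3_kS x.p _ o y).2.2.2 (by omega)
  | _ => rfl

end Alc

end Pool.Agent.Work.MP_ede3c6_co.Y
end

-- merged part: Pool.Agent.Work.MP_ede3c6_co.Y.AlS
section
/-! Heads, last units of switch windows, and single classes: existence and counting.

PLAN. `hd_cnt`: for `B ∈ BB` the second component is at most `FB B / mm` (`ff_lt`), so there are at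
most `FB B / mm + 1 ≤ 4 Z (W B 1) + 2` values (`KL`, `hd_big`); sum with `sum_l`, `card_BB`.
`qx_ex`: `X.fill1` for `j < J`, key `(bt (j + 1), ff (j + 1), cp (j + 1))`, `nu = L1`, `c = Q` (`load`,
shift `j ↦ j + 1`) gives `ν j < L1`; `qx j = ff (j + 1) * L1 + ν j < FB * L1`; `cp (j + 1) = 0` if
`rk j = 1` (`tl_top`, `Sb_lv`). `rm_cnt`: `R` is the union over `B ∈ BB`, `1 ≤ y < nb B` of
`range (FB B / cs + 1)` times the admissible `r`. Let `o = y + 1`, `π'` the parity `π.val`. If the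
class is not small only `r = 0` occurs, and only if the parity of `bs B + o` is not `π`; then
`wt π' (bs j + o) (av j o) = av j o` and `KL` gives `FB B / (4 mm) ≤ Z (W B o) + 1`. If it is small,
`KS` gives `FB B / ms ≤ Z (NB B) + 1`; there is one `r` if the parity is `π` (weight `1`), else
`τ = av j o` values of `r` (`rdS`; `ta < aS` forces `av < aS` by `rd1`, `rdF`, `rdU`). Sum with
`vol`, `card_BB`, `nb4`. -/

set_option autoImplicit false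

namespace Pool.Agent.Work.MP_ede3c6_co.Y

open Finset Vol

theorem AlS_Z (x : Cx) (w : ℝ) : x.Z w = x.Z 1 * w := by
  unfold Cx.Z; ring

theorem AlS_Z0 (x : Cx) : 0 ≤ x.Z 1 := by
  have := x.η0
  unfold Cx.Z; positivity

theorem AlS_cnt (T : Finset ℕ) (s : Finset (ℕ × ℕ)) (N : ℕ → ℕ)
    (h : ∀ c ∈ s, c.1 ∈ T ∧ c.2 ≤ N c.1) : (#s : ℝ) ≤ ∑ B ∈ T, ((N B : ℝ) + 1) := by
  have h1 : s ⊆ T.biUnion fun B => {B} ×ˢ range (N B + 1) := fun c hc =>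
    mem_biUnion.2 ⟨c.1, (h c hc).1, mem_product.2
      ⟨mem_singleton_self _, mem_range.2 (Nat.lt_succ_of_le (h c hc).2)⟩⟩
  have h2 := (card_le_card h1).trans card_biUnion_le
  simp only [card_product, card_singleton, card_range, one_mul] at h2
  exact_mod_cast h2

theorem AlS_div {F m : ℕ} {z : ℝ} (hm : 0 < m) (h : (F : ℝ) ≤ m * z) : ((F / m : ℕ) : ℝ) ≤ z :=
  Nat.cast_div_le.trans (by rwa [div_le_iff₀' (by exact_mod_cast hm)])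

theorem AlS_mem (x : Cx) {j : ℕ} (h : j ≤ x.S.J) : x.bt j ∈ x.BB :=
  mem_image_of_mem _ (mem_range.2 (Nat.lt_succ_of_le h))

theorem AlS_KL (x : Cx) {B : ℕ} (hB : B ∈ x.BB) :
    (x.FB B : ℝ) ≤ x.mm (x.ta B 1) (x.lv B) * (4 * x.Z (x.W B 1) + 1) :=
  x.KL hB (by have := x.nb4 B; omega) fun h => absurd (x.hd_big B).1 (not_le.2 h.1)

theorem AlS_sum (x : Cx) : ∑ B ∈ x.BB, x.Z (x.W B 1) ≤ x.Z x.p.Wb := by
  classical
  have h1 : ∑ B ∈ x.BB, x.W B 1 ≤ x.p.Wb := by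
    refine le_trans (sum_le_sum fun B _ => Nat.le_mul_of_pos_left _ ?_) x.sum_l
    split_ifs
    · exact Nat.succ_pos _
    · exact one_pos
  simp only [AlS_Z x (x.W _ 1), AlS_Z x x.p.Wb]
  rw [← mul_sum]
  exact mul_le_mul_of_nonneg_left (by exact_mod_cast h1) (AlS_Z0 x)

theorem AlS_small (x : Cx) {a : ℕ} (h : x.I.rd a < x.p.aS) : x.I.rd a = a := by
  have t := x.thr_lt
  refine x.I.rdS a ?_
  rcases le_or_gt a x.p.thrN with h1 | h1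
  · exact (x.I.rd1 a h1).1.trans_lt h
  rcases le_or_gt a x.p.thr with h2 | h2
  · rw [x.I.rdF a h1 h2] at h; omega
  · rw [x.I.rdU a h2] at h; omega

/-- admissible resources -/
def AlS_A (x : Cx) (π : ZMod 2) (B y : ℕ) : Finset ℕ :=
  if x.sm (x.ta B (y + 1)) (x.lv B) then
    (if ((x.S.bs B + y + 1 : ℕ) : ZMod 2) = π then {0} else Ioc 0 (x.ta B (y + 1)))
  else (if ((x.S.bs B + y + 1 : ℕ) : ZMod 2) = π then ∅ else {0})

/-- weight at a position of a type -/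
noncomputable def AlS_T (x : Cx) (π : ZMod 2) (B o : ℕ) : ℕ :=
  ∑ j ∈ range (x.S.J + 1) with x.bt j = B, X.wt π.val (x.S.bs j + o) (x.S.av j o)

theorem AlS_wt (x : Cx) (π : ZMod 2) (j y a : ℕ) : X.wt π.val (x.S.bs j + (y + 1)) a =
    if ((x.S.bs (x.bt j) + y + 1 : ℕ) : ZMod 2) = π then 1 else a := by
  have e : ((x.S.bs (x.bt j) + y + 1 : ℕ) : ZMod 2) = ((x.S.bs j + (y + 1) : ℕ) : ZMod 2) := by
    push_cast
    rw [x.bs_bt j, add_assoc]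
  rw [e, X.wt, ← ZMod.val_natCast 2]
  exact if_congr (ZMod.val_injective 2).eq_iff rfl rfl

theorem AlS_one (x : Cx) (π : ZMod 2) {B y : ℕ} (hB : B ∈ x.BB) (hy : y < x.S.nb B) :
    (((x.FB B / x.cs (x.ta B (y + 1)) (x.lv B) + 1) * #(AlS_A x π B y) : ℕ) : ℝ) ≤
      x.Z (AlS_T x π B (y + 1)) + 2 * (x.p.aS + 1) := by
  have z0 := AlS_Z0 x
  have hy' : y + 1 < x.S.bl B := by have := x.nb4 B; omega
  have a0 : (0 : ℝ) ≤ x.p.aS := by positivity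
  have hT : ∀ g : ℕ → ℕ, (∀ j, x.bt j = B →
      (if ((x.S.bs B + y + 1 : ℕ) : ZMod 2) = π then 1 else x.S.av j (y + 1)) = g j) →
      AlS_T x π B (y + 1) = ∑ j ∈ range (x.S.J + 1) with x.bt j = B, g j := fun g hg =>
    sum_congr rfl fun j hj => by
      have e := (mem_filter.1 hj).2
      rw [AlS_wt, e, hg j e]
  rw [AlS_A, Cx.cs]
  split_ifs with h1 h2 h2
  · have k := AlS_div x.ms_pos (x.KS hB h1.2)
    rw [hT (fun _ => 1) fun j _ => if_pos h2, ← card_eq_sum_ones, card_singleton]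
    push_cast
    rw [Cx.NB] at k
    linarith
  · have k := AlS_div x.ms_pos (x.KS hB h1.2)
    rw [hT (fun _ => x.ta B (y + 1)) fun j hj => ?_, sum_const, Nat.card_Ioc, smul_eq_mul,
      Nat.sub_zero]
    · have t : (x.ta B (y + 1) : ℝ) ≤ x.p.aS := by exact_mod_cast h1.1.le
      have t0 : (0 : ℝ) ≤ x.ta B (y + 1) := by positivity
      have k2 := mul_le_mul_of_nonneg_right k t0
      rw [Cx.NB, AlS_Z] at k2
      push_cast
      rw [AlS_Z]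
      linarith
    · subst hj
      have e := x.ta_bt j (o := y + 1) (by rwa [x.bl_bt] at hy')
      rw [if_neg h2, e]
      exact (AlS_small x (by have := h1.1; rwa [e] at this)).symm
  · rw [card_empty, mul_zero, AlS_Z]
    push_cast
    positivity
  · have k := AlS_div (F := x.FB B) (m := 4 * x.mm (x.ta B (y + 1)) (x.lv B))
      (z := x.Z (x.W B (y + 1)) + 1 / 4) (by have := x.mm_pos (x.ta B (y + 1)) (x.lv B); omega)
      ((x.KL hB hy' h1).trans_eq (by push_cast; ring))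
    rw [hT (fun j => x.S.av j (y + 1)) fun j _ => if_neg h2, card_singleton]
    rw [Cx.W] at k
    rw [mul_one, Nat.cast_add, Nat.cast_one]
    linarith

theorem AlS_vol (x : Cx) (π : ZMod 2) :
    ∑ B ∈ x.BB, ∑ y ∈ range (x.S.nb B), AlS_T x π B (y + 1) ≤ x.p.Vb x.VV := by
  refine le_trans ?_ (x.S.vol π.val π.val_lt)
  rw [← sum_fiberwise_of_maps_to (s := range (x.S.J + 1)) (t := x.BB) (g := x.bt)
    fun j hj => mem_image_of_mem _ hj]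
  refine sum_le_sum fun B _ => ?_
  have e : ∑ j ∈ range (x.S.J + 1) with x.bt j = B, ∑ o ∈ range (x.S.bl j),
      X.wt π.val (x.S.bs j + o) (x.S.av j o) = ∑ o ∈ range (x.S.bl B), AlS_T x π B o := by
    simp only [AlS_T]
    rw [sum_comm]
    exact sum_congr rfl fun j hj => by rw [← (mem_filter.1 hj).2, x.bl_bt]
  rw [e, ← (x.nb4 B).2.1, sum_range_succ']
  exact Nat.le_add_right _ _

open Classical in
theorem hd_cnt (x : Cx) : (#((range x.S.J).image fun j =>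
    (x.bt j, x.ff j / x.mm (x.ta j 1) (x.lv j))) : ℝ) ≤ 4 * x.Z x.p.Wb + 2 * x.p.nB := by
  refine (AlS_cnt x.BB _ (fun B => x.FB B / x.mm (x.ta B 1) (x.lv B)) fun c hc => ?_).trans ?_
  · obtain ⟨j, hj, rfl⟩ := mem_image.1 hc
    have hj' := (mem_range.1 hj).le
    refine ⟨AlS_mem x hj', ?_⟩
    simp only [x.ta_bt1, x.lv_bt]
    exact Nat.div_le_div_right (x.ff_lt hj').le
  · refine (sum_le_sum (g := fun B => 4 * x.Z (x.W B 1) + 2) fun B hB => ?_).trans ?_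
    · have := AlS_div (x.mm_pos _ _) (AlS_KL x hB)
      linarith
    · have h1 := AlS_sum x
      have h2 : (#x.BB : ℝ) ≤ x.p.nB := by exact_mod_cast x.card_BB
      rw [sum_add_distrib, ← mul_sum, sum_const, nsmul_eq_mul]
      linarith

open Classical in
theorem qx_ex (x : Cx) : ∃ qx : ℕ → ℕ, x.QX qx ∧
    (#(({j ∈ range x.S.J | x.S.rk j = 1} : Finset ℕ).image fun j =>
      (x.bt (j + 1), qx j / x.mm (x.ta (j + 1) 1) (x.lv (j + 1)))) : ℝ) ≤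
      x.p.L1 * 4 * (x.Z x.p.Wb + x.p.nB) := by
  have hL : 0 < x.p.L1 := Nat.succ_pos _
  obtain ⟨ν, n1, n2⟩ := X.fill1 (range x.S.J) (fun j => (x.bt (j + 1), x.ff (j + 1), x.cp (j + 1)))
    (fun _ => x.p.L1) x.p.Q fun i _ => by
      refine lt_of_le_of_lt (le_trans ?_ (x.load (x.bt (i + 1)) (x.ff (i + 1)) (x.cp (i + 1))))
        (Nat.mul_lt_mul_of_pos_right (Nat.lt_succ_self _) (Nat.two_pow_pos _))
      refine card_le_card_of_injOn (· + 1) (fun j hj => ?_) fun a _ b _ h => Nat.succ_injective h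
      simp only [coe_filter, Set.mem_ofPred_eq, Prod.mk.injEq, mem_range] at hj ⊢
      exact ⟨Nat.succ_lt_succ hj.1, hj.2⟩
  have d1 : ∀ j < x.S.J, (x.ff (j + 1) * x.p.L1 + ν j) / x.p.L1 = x.ff (j + 1) := fun j hj => by
    rw [add_comm, Nat.add_mul_div_right _ _ hL, Nat.div_eq_of_lt (n1 j (mem_range.2 hj)), zero_add]
  have d2 : ∀ j < x.S.J, (x.ff (j + 1) * x.p.L1 + ν j) % x.p.L1 = ν j := fun j hj => by
    rw [add_comm, Nat.add_mul_mod_self_right, Nat.mod_eq_of_lt (n1 j (mem_range.2 hj))]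
  refine ⟨fun j => x.ff (j + 1) * x.p.L1 + ν j, ⟨fun j hj j' hj' _ _ _ h => ?_, fun B v => ?_⟩, ?_⟩
  · rw [← d1 j hj, h, d1 j' hj']
  · refine le_trans (card_le_card fun j hj => ?_) (n2 (B, v / x.p.L1, 0) (v % x.p.L1))
    obtain ⟨a, b, c, d⟩ := mem_filter.1 hj
    simp only [mem_filter]
    refine ⟨a, ?_, by rw [← d, d2 j (mem_range.1 a)]⟩
    rw [c, ← d, d1 j (mem_range.1 a), (x.Sb_lv (x.tl_top (j := j) (by omega)).2.2).2.1]
  refine (AlS_cnt x.BB _ (fun B => x.FB B * x.p.L1 / x.mm (x.ta B 1) (x.lv B))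
    fun c hc => ?_).trans ?_
  · obtain ⟨j, hj, rfl⟩ := mem_image.1 hc
    have hj' := mem_range.1 (mem_filter.1 hj).1
    refine ⟨AlS_mem x hj', ?_⟩
    simp only [x.ta_bt1, x.lv_bt]
    refine Nat.div_le_div_right ?_
    have a := n1 j (mem_range.2 hj')
    have b := Nat.mul_le_mul_right x.p.L1 (x.ff_lt (j := j + 1) hj')
    rw [Nat.succ_mul] at b
    exact le_trans (Nat.add_le_add_left a.le _) b
  · have l1 : (1 : ℝ) ≤ x.p.L1 := by exact_mod_cast hL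
    refine (sum_le_sum (g := fun B => x.p.L1 * 4 * (x.Z (x.W B 1) + 1)) fun B hB => ?_).trans ?_
    · have := AlS_div (F := x.FB B * x.p.L1) (z := (4 * x.Z (x.W B 1) + 1) * x.p.L1)
        (x.mm_pos (x.ta B 1) (x.lv B)) (by
          rw [← mul_assoc, Nat.cast_mul]
          exact mul_le_mul_of_nonneg_right (AlS_KL x hB) (by positivity))
      linarith
    · have h1 := AlS_sum x
      have h2 : (#x.BB : ℝ) ≤ x.p.nB := by exact_mod_cast x.card_BB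
      rw [← mul_sum, sum_add_distrib, sum_const, nsmul_eq_mul, mul_one]
      exact mul_le_mul_of_nonneg_left (by linarith) (by positivity)

theorem rm_cnt (x : Cx) (π : ZMod 2) : ∃ R : Finset ((ℕ × ℕ × ℕ) × ℕ),
    (∀ c r, x.Res π c r → (c, r) ∈ R) ∧
      (#R : ℝ) ≤ x.Z (x.p.Vb x.VV) + 2 * x.p.nB * x.p.Km * (x.p.aS + 1) := by
  classical
  refine ⟨x.BB.biUnion fun B => (range (x.S.nb B)).biUnion fun y =>
    ({B} ×ˢ {y} ×ˢ range (x.FB B / x.cs (x.ta B (y + 1)) (x.lv B) + 1)) ×ˢ AlS_A x π B y, ?_, ?_⟩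
  · rintro c r ⟨⟨j, hj, y, -, hy, rfl⟩, h1, h2, h3⟩
    have hy' : y + 1 < x.S.bl j := by have := x.nb4 j; omega
    refine mem_biUnion.2 ⟨x.bt j, AlS_mem x hj.le, mem_biUnion.2
      ⟨y, mem_range.2 (by rwa [x.nb_bt]), mem_product.2 ⟨?_, ?_⟩⟩⟩
    · simp only [Cx.sc, mem_product, mem_singleton, mem_range, true_and, x.ta_bt j hy', x.lv_bt]
      exact Nat.lt_succ_of_le (Nat.div_le_div_right (x.ff_lt hj.le).le)
    · simp only [Cx.sc, Cx.csm, Cx.ct, Cx.cpr] at h1 h2 h3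
      have ne : ∀ a : ZMod 2, a + 1 ≠ a := by decide
      show r ∈ AlS_A x π (x.bt j) y
      rw [AlS_A]
      split_ifs with k1 k2 k2
      · by_contra k
        exact ne _ ((h3 fun q => k (mem_singleton.2 q.2)).trans k2.symm)
      · have r0 : r ≠ 0 := fun q => k2 (h2 ⟨k1, q⟩)
        exact mem_Ioc.2 ⟨Nat.pos_of_ne_zero r0, (h1.resolve_left r0).2⟩
      · exact absurd ((h3 fun q => k1 q.1).trans k2.symm) (ne _)
      · exact mem_singleton.2 (h1.resolve_right fun q => k1 q.1)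
  · have h1 := (card_biUnion_le (s := x.BB) (t := fun B => (range (x.S.nb B)).biUnion fun y =>
      ({B} ×ˢ {y} ×ˢ range (x.FB B / x.cs (x.ta B (y + 1)) (x.lv B) + 1)) ×ˢ AlS_A x π B y)).trans
        (sum_le_sum fun B _ => card_biUnion_le)
    simp only [card_product, card_singleton, card_range, one_mul] at h1
    refine (Nat.cast_le.2 h1).trans ?_
    rw [Nat.cast_sum]
    refine (sum_le_sum (g := fun B => x.Z 1 * ((∑ y ∈ range (x.S.nb B),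
      AlS_T x π B (y + 1) : ℕ) : ℝ) + x.p.Km * (2 * (x.p.aS + 1))) fun B hB => ?_).trans ?_
    · rw [Nat.cast_sum, Nat.cast_sum, mul_sum]
      refine (sum_le_sum fun y hy => AlS_one x π hB (mem_range.1 hy)).trans ?_
      have k : (x.S.nb B : ℝ) ≤ x.p.Km := by
        have := x.nb4 B
        exact_mod_cast (by omega : x.S.nb B ≤ x.p.Km)
      rw [sum_add_distrib, sum_const, card_range, nsmul_eq_mul]
      exact add_le_add (sum_congr rfl fun y _ => AlS_Z x _).le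
        (mul_le_mul_of_nonneg_right k (by positivity))
    · have h2 : (#x.BB : ℝ) ≤ x.p.nB := by exact_mod_cast x.card_BB
      have h3 := mul_le_mul_of_nonneg_left (Nat.cast_le (α := ℝ).2 (AlS_vol x π)) (AlS_Z0 x)
      have h4 := mul_le_mul_of_nonneg_right h2
        (by positivity : (0 : ℝ) ≤ x.p.Km * (2 * (x.p.aS + 1)))
      rw [sum_add_distrib, ← mul_sum, ← Nat.cast_sum, sum_const, nsmul_eq_mul, AlS_Z x (x.p.Vb _)]
      linarith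

end Pool.Agent.Work.MP_ede3c6_co.Y
end

-- merged part: Pool.Agent.Work.MP_ede3c6_co.Y.AlEx
section
/-! Existence of the allocation.

PLAN. `RJ` is the union of the images of the four finsets of `hd_cnt`, `kx_ex` (times
`range (M + 3)`), `qx_ex`, `pz_ex` and of `range LU`; it contains all `γ` with `okG`. Its cardinality
is at most `CJ (Z Wb + cM nB) + nPG + LU` (`CJ = (M + 5) L1 2 ^ (2 l0 + mu + 16)`, `1 ≤ cM`,
`L0 ≤ L1`). Apply `X.AlcExA.zones` with `A = univ` (`nA` elements), `RM π` from `rm_cnt`, and `fit`. -/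

set_option autoImplicit false

namespace Pool.Agent.Work.MP_ede3c6_co.Y

open Finset Vol

theorem AlEx_num {M L0 L1 E Z c B h k q z G : ℝ} (hM : 0 ≤ M) (h0 : L0 + 1 = L1) (h1 : 0 ≤ L0)
    (hE : 1 ≤ E) (hZ : 0 ≤ Z) (hc : 1 ≤ c) (hB : 0 ≤ B) (hh : h ≤ 4 * Z + 2 * B)
    (hk : k ≤ L1 * 2 ^ 14 * (Z + c * B)) (hq : q ≤ L1 * 4 * (Z + B))
    (hz : z ≤ L0 * (E * 2 ^ 3) * (Z + B) + G) :
    h + k * (M + 3) + q + z ≤ (M + 5) * L1 * (E * 2 ^ 16) * (Z + c * B) + G := by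
  have a1 : B ≤ c * B := le_mul_of_one_le_left hB hc
  obtain ⟨Y, hY⟩ : ∃ Y, Y = Z + c * B := ⟨_, rfl⟩
  rw [← hY] at hk ⊢
  have a2 : Z + B ≤ Y := by linarith
  have a3 : 0 ≤ Y := by linarith
  have a4 : 0 ≤ L1 * Y := mul_nonneg (by linarith) a3
  have a5 : Y ≤ L1 * Y := le_mul_of_one_le_left a3 (by linarith)
  have a6 : L1 * Y ≤ E * (L1 * Y) := le_mul_of_one_le_left a4 hE
  have a7 : L1 * (Z + B) ≤ L1 * Y := mul_le_mul_of_nonneg_left a2 (by linarith)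
  have a8 : L0 * (Z + B) ≤ L1 * Y := mul_le_mul (by linarith) a2 (by linarith) (by linarith)
  have a9 : E * (L0 * (Z + B)) ≤ E * (L1 * Y) := mul_le_mul_of_nonneg_left a8 (by linarith)
  have b1 : k ≤ 2 ^ 16 * (E * (L1 * Y)) := by linarith
  have b2 : k * (M + 3) ≤ 2 ^ 16 * (E * (L1 * Y)) * (M + 3) :=
    mul_le_mul_of_nonneg_right b1 (by linarith)
  linarith

open Classical in
theorem AlEx_rj (x : Cx) : ∃ (kx qx pz : ℕ → ℕ) (pg qg : ℕ → V (Fin x.p.w0))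
    (RJ : Finset (Gr x.PG)), x.KX kx ∧ x.QX qx ∧ x.PX pz pg qg ∧
    (∀ γ, x.okG kx qx pz γ → γ ∈ RJ) ∧
    (#RJ : ℝ) ≤ x.p.CJ * (x.Z x.p.Wb + x.p.cM * x.p.nB) + x.p.nPG + x.p.LU := by
  have hh := hd_cnt x
  obtain ⟨kx, hk, ck⟩ := kx_ex x
  obtain ⟨qx, hq, cq⟩ := qx_ex x
  obtain ⟨pz, pg, qg, hp, cp⟩ := pz_ex x
  obtain ⟨s1, m1, c1⟩ : ∃ s : Finset (ℕ × ℕ), (∀ j < x.S.J,
      (x.bt j, x.ff j / x.mm (x.ta j 1) (x.lv j)) ∈ s) ∧ (#s : ℝ) ≤ _ :=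
    ⟨_, fun j hj => mem_image.2 ⟨j, mem_range.2 hj, rfl⟩, hh⟩
  obtain ⟨s2, m2, c2⟩ : ∃ s : Finset (ℕ × ℕ), (∀ j < x.S.J, x.S.rk j ≠ 3 →
      (x.bt j, kx j / x.mm (x.tl j) (x.lv j)) ∈ s) ∧ (#s : ℝ) ≤ _ :=
    ⟨_, fun j hj h => mem_image.2 ⟨j, mem_filter.2 ⟨mem_range.2 hj, h⟩, rfl⟩, ck⟩
  obtain ⟨s3, m3, c3⟩ : ∃ s : Finset (ℕ × ℕ), (∀ j < x.S.J, x.S.rk j = 1 →
      (x.bt (j + 1), qx j / x.mm (x.ta (j + 1) 1) (x.lv (j + 1))) ∈ s) ∧ (#s : ℝ) ≤ _ :=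
    ⟨_, fun j hj h => mem_image.2 ⟨j, mem_filter.2 ⟨mem_range.2 hj, h⟩, rfl⟩, cq⟩
  obtain ⟨s4, m4, c4⟩ : ∃ s : Finset (x.PG × ℕ), (∀ j < x.S.J, x.S.rk j = 0 →
      (x.pgj j, pz j) ∈ s) ∧ (#s : ℝ) ≤ _ :=
    ⟨_, fun j hj h => mem_image.2 ⟨j, mem_filter.2 ⟨mem_range.2 hj, h⟩, rfl⟩, cp⟩
  let t1 : Finset (Gr x.PG) := s1.image fun u => .hd u.1 u.2
  let t2 : Finset (Gr x.PG) := (s2 ×ˢ range (x.p.M + 3)).image fun u => .cn u.1.1 u.2 u.1.2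
  let t3 : Finset (Gr x.PG) := s3.image fun u => .qs u.1 u.2
  let t4 : Finset (Gr x.PG) := s4.image fun u => .pq u.1 u.2
  let t5 : Finset (Gr x.PG) := (range x.p.LU).image fun u => .lg u
  refine ⟨kx, qx, pz, pg, qg, t1 ∪ t2 ∪ t3 ∪ t4 ∪ t5, hk, hq, hp, ?_, ?_⟩
  · rintro γ ⟨j, hj, rfl | ⟨h, y, hy, rfl⟩ | ⟨h, rfl⟩ | ⟨h, rfl⟩ | ⟨y, hy, rfl⟩⟩
    · exact mem_union_left _ (mem_union_left _ (mem_union_left _ (mem_union_left _
        (mem_image.2 ⟨_, m1 j hj, rfl⟩))))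
    · exact mem_union_left _ (mem_union_left _ (mem_union_left _ (mem_union_right _
        (mem_image.2 ⟨(_, y), mem_product.2 ⟨m2 j hj h, mem_range.2 (Nat.lt_succ_of_le hy)⟩, rfl⟩))))
    · exact mem_union_left _ (mem_union_left _ (mem_union_right _ (mem_image.2 ⟨_, m3 j hj h, rfl⟩)))
    · exact mem_union_left _ (mem_union_right _ (mem_image.2 ⟨_, m4 j hj h, rfl⟩))
    · exact mem_union_right _ (mem_image.2 ⟨y, mem_range.2 hy, rfl⟩)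
  · have d1 : #t1 ≤ #s1 := card_image_le
    have d2 : #t2 ≤ #s2 * (x.p.M + 3) := card_image_le.trans (by rw [card_product, card_range])
    have d3 : #t3 ≤ #s3 := card_image_le
    have d4 : #t4 ≤ #s4 := card_image_le
    have d5 : #t5 ≤ x.p.LU := card_image_le.trans (card_range _).le
    have u1 := card_union_le t1 t2
    have u2 := card_union_le (t1 ∪ t2) t3
    have u3 := card_union_le (t1 ∪ t2 ∪ t3) t4
    have u4 := card_union_le (t1 ∪ t2 ∪ t3 ∪ t4) t5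
    have u5 : #(t1 ∪ t2 ∪ t3 ∪ t4 ∪ t5) ≤ #s1 + #s2 * (x.p.M + 3) + #s3 + #s4 + x.p.LU := by omega
    have u6 : (#(t1 ∪ t2 ∪ t3 ∪ t4 ∪ t5) : ℝ) ≤
        #s1 + #s2 * (x.p.M + 3) + #s3 + #s4 + x.p.LU := by exact_mod_cast u5
    have hZ : 0 ≤ x.Z x.p.Wb := by
      have := x.η0
      unfold Cx.Z
      positivity
    rw [pow_add _ _ 3] at c4
    have e := AlEx_num (M := x.p.M) (L0 := x.p.L0) (L1 := x.p.L1)
      (E := 2 ^ (2 * x.p.l0 + x.p.mu)) (c := x.p.cM) (Nat.cast_nonneg _) (by simp [Pm.L1])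
      (Nat.cast_nonneg _) (one_le_pow₀ one_le_two) hZ (by simp [Pm.cM]) (Nat.cast_nonneg _) c1 c2 c3 c4
    have e2 : (x.p.CJ : ℝ) = (x.p.M + 5) * x.p.L1 * (2 ^ (2 * x.p.l0 + x.p.mu) * 2 ^ 16) := by
      rw [Pm.CJ]
      push_cast
      ring
    rw [e2]
    linarith

theorem alc_ex (x : Cx) : Nonempty (Alc x) := by
  obtain ⟨kx, qx, pz, pg, qg, RJ, hk, hq, hp, hm, hc⟩ := AlEx_rj x
  choose RM rm rc using rm_cnt x
  have hA : #(univ : Finset (V (Fin x.p.nZ))) = x.p.nA := by simp [Pm.nA]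
  have h1 : ∀ π, #RJ + #(RM π) ≤ #(univ : Finset (V (Fin x.p.nZ))) := fun π => by
    have f := x.fit
    have r := rc π
    unfold Pm.Fit at f
    unfold Cx.Z at hc r
    rw [hA]
    have : (#RJ : ℝ) + #(RM π) ≤ x.p.nA := by linarith
    exact_mod_cast this
  obtain ⟨gJ, gM, -, g2, -, g4, g5⟩ := X.AlcExA.zones univ RJ RM
    ((Nat.le_add_right _ _).trans (h1 0)) h1
  exact ⟨⟨kx, qx, pz, pg, qg, gM, gJ, hk, hq, hp, fun γ γ' a b => g2 γ (hm γ a) γ' (hm γ' b),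
    fun π c r c' r' a b e => Prod.mk.inj (g4 π _ (rm π c r a) _ (rm π c' r' b) e),
    fun π γ c r a b => g5 π γ (hm γ a) _ (rm π c r b)⟩⟩

end Pool.Agent.Work.MP_ede3c6_co.Y
end

-- merged part: Pool.Agent.Work.MP_ede3c6_co.Y.Core
section
/-! The main embedding theorem. -/

set_option autoImplicit false

namespace Pool.Agent.Work.MP_ede3c6_co.Y

open Finset Vol

namespace Alc
variable {x : Cx} (A : Alc x)

/-- the concrete system -/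
noncomputable def net : Net x.p x.I x.k x.a where
  Bs := x.Bs
  Cl := x.Cl
  Un := ℕ × ℕ
  ok := A.okC
  ty c := min (x.ct c) x.p.thr
  sm := x.csm
  fu c := x.p.thrN < x.ct c
  io c := x.I.io (x.ct c)
  ee c := x.ee (x.ct c) (x.cv c)
  ll := x.cv
  us := x.cus
  pr := x.cpr
  rz := A.rz
  kd := x.bkd
  top := x.top
  uo := x.uo
  ui := x.ui
  cl := x.bcl
  bz b := (x.bad b).1
  bu b := (x.bad b).2.1
  bc b := (x.bad b).2.2.1
  bg b := (x.bad b).2.2.2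
  bm := x.bm
  val := x.val
  u0 := (0, 0)
  nxt := x.S.nx
  idx := x.idx
  bas := A.bas
  cp := x.cpu
  ft := x.ft
  inj := A.inj
  pair c d hc hd h h1 _ := A.pair c d hc hd h h1
  fu1 c hc h := let ⟨h1, h2, h3, h4, h5⟩ := A.fu1 c hc h; ⟨h1, h2, h3, h4, h5, min_le_right _ _⟩
  big c hc _ h := let ⟨h1, h2, h3⟩ := A.big c hc h; ⟨h1, x.ee_le _ _, h2, h3⟩
  nd1 u hu o ho := let ⟨h1, h2, h3, h4⟩ := A.nd1 u hu o ho; ⟨h1, h2, h3, fun _ => h4⟩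
  nd2 u hu o _ := A.nd2 u hu o
  nd3 := A.nd3
  nd4 u hu o _ := A.nd4 u hu o
  au := A.au
  pre0 := x.pre0
  gtop := x.gtop
  v0 := x.v0
  i0 := by simp [Cx.idx, x.S.bs0]
  ids u := by rw [x.ids, A.kd_bas]
  cov := x.cov
  cp0 := A.cp0
  lp u hu _ := A.lp u hu
  nf u hu _ := A.nf u hu
  ff u hu _ := A.ff u hu
  fo u hu _ := A.fo u hu
  huo u u' hu hu' _ _ := A.huo u u' hu hu'
  hui u u' hu hu' _ _ := A.hui u u' hu hu'
  ui0 := A.ui0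
  r0 u hu _ := A.r0 u hu
  r5 u u' hu hu' _ _ := A.r5 u u' hu hu'
  r1 u hu _ := A.r1 u hu
  r2 u u' hu hu' _ _ h h1 _ := A.r2 u u' hu hu' h h1
  r3 u c hu _ := A.r3 u c hu
  r4 u c hu _ := A.r4 u c hu
  r6 u hu _ := A.r6 u hu
  r7 := x.r7
  dem u hu h t ht hk o _ := A.dem u hu h t ht hk o

/-- its shape -/
noncomputable def shp : Shp A.net x.S where
  un j y := (j, y)
  co u := u
  vu _ h := ⟨h.1, h.2, rfl⟩
  uv _ h _ h' := ⟨⟨h, h'⟩, rfl⟩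
  nx _ _ := rfl
  n1 _ _ _ h := if_neg h.ne
  kd j _ y _ := A.kd_bas (j, y)
  ui _ h _ h' := A.sui ⟨h, h'⟩
  sb _ h _ h' _ k _ k' := A.ssb ⟨h, h'⟩ ⟨k, k'⟩
  lb _ _ _ _ h h' y _ := (A.slg h y).trans (A.slg h' y).symm
  lt j _ h y _ := ⟨by
    show x.top (A.bas (j, x.S.nb j + y))
    rw [A.slg h y]
    trivial, fun q => by have := q.1; simp only at this; omega⟩
  l0 b β := (X.cf fun _ => Iff.rfl).trans_le (A.sl0 b β)
  l1 _ h b β := (X.cf fun _ => Iff.rfl).trans_le (A.sl1 h b β)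

end Alc

theorem core : CoreSt := by
  intro ε hε
  obtain ⟨m0, hm⟩ := inn_ex (min ε 1 / 20) (by positivity)
  obtain ⟨K, K20, h⟩ := par_ex (min ε 1) (by positivity) (min_le_right _ _) m0
  refine ⟨K, K20, fun K2 hK2 => ?_⟩
  obtain ⟨n0, h⟩ := h K2 hK2
  refine ⟨n0, fun n hn k a hR hv hV => ?_⟩
  obtain ⟨p, rfl, rfl, rfl, ok, h1, h2, h3, hf⟩ := h n hn
  obtain ⟨I⟩ := hm p ok h1 h2 h3
  have h0 : (0 : ℝ) ≤ (1 - min ε 1) * 2 ^ (p.n - 1) :=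
    mul_nonneg (sub_nonneg.2 (min_le_right _ _)) (by positivity)
  have hle : ∀ v : ℕ, (v : ℝ) ≤ (1 - ε) * 2 ^ (p.n - 1) → v ≤ ⌊(1 - min ε 1) * 2 ^ (p.n - 1)⌋₊ :=
    fun v q => Nat.le_floor (q.trans (mul_le_mul_of_nonneg_right
      (sub_le_sub_left (min_le_left _ _) _) (by positivity)))
  obtain ⟨S⟩ := seg_ex p ok k a ⌊(1 - min ε 1) * (2 : ℝ) ^ (p.n - 1)⌋₊
    (fun i hi => by simpa [ap, hi] using Dich_run hR i) hv
    (hV.imp (fun q π hπ => hle _ (q π hπ)) fun q π hπ => hle _ (q π hπ))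
  let x : Cx := ⟨p, _, I, k, a, _, S, ok, by positivity, hf _ (Nat.floor_le h0)⟩
  obtain ⟨A⟩ := alc_ex x
  obtain ⟨D⟩ := dirs_ex ok A.net
  obtain ⟨C⟩ := ctr_ex ok A.shp ((Nat.le_add_right _ _).trans hv) D
  exact main ok A.net D C hR

end Pool.Agent.Work.MP_ede3c6_co.Y
end
end
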