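import Pool.Agent.Work.MP_ede3c6_co.V.C1
import Pool.Agent.Work.MP_ede3c6_co.X.Par

-- merged part: Pool.Agent.Work.MP_ede3c6_co.Y.Fr
section
/-! Formal labels of nodes and special directions; the three facts about them.

PLAN. Evaluate the formal equation at generators. The coordinates `g b` decide which of the
directions are private (`pr`) and which bases they join (`r0`, `r5`). What remains is an equation
between offsets; the coordinates `d1 b`, `d2 b` only occur in offsets of the base `b` and in the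
directions `d1 b`, `d2 b`; an offset or a direction that is not private involves the generators
`cm c i` of at most one `c`, except the exit offset of the base of kind `gad` (unique by `r7`),
which involves at least five (`h5`), so it can never be cancelled by at most four others.
`fr1`: same base: the direction is an inner edge, forced at the inner end. Different bases:
`h = pr b b'` gives `o = ex`, `o' = s` (`b'` is not of kind `pre` by `r6`, `tz`), use `r1`;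
`h = pr b' b` gives `o' = ex`, `o = s`. `fr2`: same base: finite check. One private direction:
the other one is an inner edge next to the exit or next to the entry. Two private directions with a
common base `b''`: `b → b'' → b'` (`b''` has kind `sg`, `r2`), `b → b'' ← b'` (`¬ ui b''` by
`ui1`, so `uo b` by `r1` and `b` is not an octagon by `r3`), `b ← b'' → b'` (`uo1`, `r1`, `r4`). -/

set_option autoImplicit false

namespace Pool.Agent.Work.MP_ede3c6_co.Y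

open Finset Vol

/-- positions inside a base -/
inductive Pos : Type
  | s | a1 | a2 | a3 | b1 | b2 | b3 | x
  deriving DecidableEq

/-- kinds of bases -/
inductive Kd (C : Type) : Type
  | sg | two | pre | oc (c : C) | gad

/-- special directions -/
inductive SD (B C L : Type) : Type
  | pr (b b' : B) | d1 (b : B) | d2 (b : B) | ct (c : C) | cm (c : C) (i : Fin 3) | lf (y : L)

/-- generators -/
inductive Gen (B C L : Type) : Type
  | g (b : B) | d1 (b : B) | d2 (b : B) | cm (c : C) (i : Fin 3) | lf (y : L)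

/-- formal vectors -/
abbrev FV (B C L : Type) : Type := Gen B C L → ZMod 2

section
variable {B C L : Type}

open Classical in
/-- a generator as a formal vector -/
noncomputable def ug (y : Gen B C L) : FV B C L := fun z => if z = y then 1 else 0

/-- formal label of a control direction -/
noncomputable def fc (c : C) : FV B C L := ug (.cm c 0) + ug (.cm c 1) + ug (.cm c 2)

/-- the positions of a kind -/
def np : Kd C → Pos → Prop
  | .sg, o => o = .s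
  | .oc _, _ => True
  | _, o => o = .s ∨ o = .x

/-- the exit position -/
def ex : Kd C → Pos
  | .sg => .s
  | _ => .x

/-- formal offset of a position -/
noncomputable def off (fin : Finset C) (b : B) : Kd C → Pos → FV B C L
  | .oc c, .a1 => fc c
  | .oc c, .a2 => fc c + ug (.d1 b)
  | .oc c, .a3 => fc c + ug (.d1 b) + ug (.cm c 0)
  | .oc _, .b1 => ug (.d2 b)
  | .oc c, .b2 => ug (.d2 b) + ug (.cm c 1)
  | .oc c, .b3 => ug (.d2 b) + ug (.cm c 1) + ug (.d1 b)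
  | .oc c, .x => ug (.d2 b) + ug (.cm c 1) + ug (.d1 b) + ug (.cm c 2)
  | .two, .x => ug (.d1 b)
  | .gad, .x => ∑ c ∈ fin, fc c
  | _, _ => 0

/-- the forced inner step out of a position -/
def nx (b : B) : Kd C → Pos → Option (SD B C L)
  | .oc _, .a1 => some (.d1 b)
  | .oc c, .a2 => some (.cm c 0)
  | .oc _, .a3 => some (.d2 b)
  | .oc c, .b1 => some (.cm c 1)
  | .oc _, .b2 => some (.d1 b)
  | .oc c, .b3 => some (.cm c 2)
  | .two, .s => some (.d1 b)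
  | _, _ => none

/-- the forced inner step into a position -/
def pv (b : B) : Kd C → Pos → Option (SD B C L)
  | .oc c, .a1 => some (.ct c)
  | .oc _, .a2 => some (.d1 b)
  | .oc c, .a3 => some (.cm c 0)
  | .oc _, .b1 => some (.d2 b)
  | .oc c, .b2 => some (.cm c 1)
  | .oc _, .b3 => some (.d1 b)
  | .two, .x => some (.d1 b)
  | _, _ => none

end

section aux
variable {B C L : Type} {fin : Finset C} {b b' : B} {k k' : Kd C} {o o' : Pos}

theorem fr_two : (2 : FV B C L) = 0 := by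
  funext z
  rfl

theorem fr_11 : (1 : ZMod 2) + 1 = 0 := by decide

open Classical in
theorem fr_fc_cm (c c0 : C) (i : Fin 3) :
    (fc c : FV B C L) (.cm c0 i) = if c0 = c then 1 else 0 := by
  by_cases h : c0 = c <;> fin_cases i <;> simp [fc, ug, h]

theorem fr_big_cm {c0 : C} (h : c0 ∈ fin) (i : Fin 3) :
    (∑ c ∈ fin, fc c : FV B C L) (.cm c0 i) = 1 := by
  classical
  rw [Finset.sum_apply, Finset.sum_eq_single c0]
  · simp [fr_fc_cm]
  · intro c _ hc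
    simp [fr_fc_cm, hc.symm]
  · intro h'
    exact absurd h h'

theorem fr_off_g (b0 : B) : (off fin b k o : FV B C L) (.g b0) = 0 := by
  cases k <;> cases o <;> simp [off, fc, ug, Finset.sum_apply]

theorem fr_off_lf (y : L) : (off fin b k o : FV B C L) (.lf y) = 0 := by
  cases k <;> cases o <;> simp [off, fc, ug, Finset.sum_apply]

theorem fr_off_d1 {b0 : B} (h : b0 ≠ b) : (off fin b k o : FV B C L) (.d1 b0) = 0 := by
  cases k <;> cases o <;> simp [off, fc, ug, Finset.sum_apply, h]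

theorem fr_off_d2 {b0 : B} (h : b0 ≠ b) : (off fin b k o : FV B C L) (.d2 b0) = 0 := by
  cases k <;> cases o <;> simp [off, fc, ug, Finset.sum_apply, h]

theorem fr_off_s : (off fin b k .s : FV B C L) = 0 := by
  cases k <;> rfl

theorem fr_off_pre : (off fin b (.pre : Kd C) o : FV B C L) = 0 := by
  cases o <;> rfl

/-- the vector involves the generators `cm c 0` for at most `n` values of `c` -/
def FrSm (n : ℕ) (v : FV B C L) : Prop :=
  ∃ s : Finset C, s.card ≤ n ∧ ∀ c, c ∉ s → v (.cm c 0) = 0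

theorem FrSm.add {n m : ℕ} {v w : FV B C L} (hv : FrSm n v) (hw : FrSm m w) :
    FrSm (n + m) (v + w) := by
  classical
  obtain ⟨s, hs, hs'⟩ := hv
  obtain ⟨t, ht, ht'⟩ := hw
  refine ⟨s ∪ t, (card_union_le s t).trans (Nat.add_le_add hs ht), fun c hc => ?_⟩
  rw [mem_union, not_or] at hc
  rw [Pi.add_apply, hs' c hc.1, ht' c hc.2, add_zero]

theorem fr_not_sm (h5 : 5 ≤ fin.card) {n : ℕ} (hn : n ≤ 4) {v : FV B C L} (hv : FrSm n v)
    (e : (∑ c ∈ fin, fc c) + v = 0) : False := by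
  obtain ⟨s, hs, hs'⟩ := hv
  obtain ⟨c, hc, hc'⟩ := exists_mem_notMem_of_card_lt_card (s := s) (t := fin) (by omega)
  have := congrFun e (.cm c 0)
  rw [Pi.add_apply, fr_big_cm hc, hs' c hc', Pi.zero_apply] at this
  exact absurd this (by decide)

theorem fr_sm_zero : FrSm 0 (0 : FV B C L) := ⟨∅, le_rfl, fun _ _ => rfl⟩

theorem fr_sm_off (hk : k ≠ .gad) : FrSm 1 (off fin b k o : FV B C L) := by
  cases k with
  | oc c =>
    refine ⟨{c}, by simp, fun c0 hc => ?_⟩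
    have hc' : c0 ≠ c := by simpa using hc
    cases o <;> simp [off, fc, ug, hc']
  | gad => exact absurd rfl hk
  | _ =>
    refine ⟨∅, by simp, fun c0 _ => ?_⟩
    cases o <;> simp [off, ug]

theorem fr_W00 (ho : np k o) (h1 : (off fin b k o : FV B C L) (.d1 b) = 0)
    (h2 : (off fin b k o : FV B C L) (.d2 b) = 0) :
    (k = .pre ∨ o = .s) ∨ (∃ c, k = .oc c ∧ o = .a1) ∨ (k = .gad ∧ o = .x) := by
  cases k <;> cases o <;> simp_all [np, off, fc, ug]

theorem fr_W10 (ho : np k o) (h1 : (off fin b k o : FV B C L) (.d1 b) = 1)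
    (h2 : (off fin b k o : FV B C L) (.d2 b) = 0) :
    (k = .two ∧ o = .x) ∨ ∃ c, k = .oc c ∧ (o = .a2 ∨ o = .a3) := by
  cases k <;> cases o <;> simp_all [np, off, fc, ug, Finset.sum_apply]

theorem fr_W01 (ho : np k o) (h1 : (off fin b k o : FV B C L) (.d1 b) = 0)
    (h2 : (off fin b k o : FV B C L) (.d2 b) = 1) :
    ∃ c, k = .oc c ∧ (o = .b1 ∨ o = .b2) := by
  cases k <;> cases o <;> simp_all [np, off, fc, ug, Finset.sum_apply]

theorem fr_U00 (ho : np k o)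
    (h1 : (off fin b k o + off fin b k (ex k) : FV B C L) (.d1 b) = 0)
    (h2 : (off fin b k o + off fin b k (ex k) : FV B C L) (.d2 b) = 0) :
    (k = .pre ∨ o = ex k) ∨ (∃ c, k = .oc c ∧ o = .b3) ∨ (k = .gad ∧ o = .s) := by
  cases k <;> cases o <;> simp_all [np, off, ex, fc, ug, fr_11]

theorem fr_U10 (ho : np k o)
    (h1 : (off fin b k o + off fin b k (ex k) : FV B C L) (.d1 b) = 1)
    (h2 : (off fin b k o + off fin b k (ex k) : FV B C L) (.d2 b) = 0) :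
    (k = .two ∧ o = .s) ∨ ∃ c, k = .oc c ∧ (o = .b1 ∨ o = .b2) := by
  cases k <;> cases o <;> simp_all [np, off, ex, fc, ug, fr_11, Finset.sum_apply]

theorem fr_U01 (ho : np k o)
    (h1 : (off fin b k o + off fin b k (ex k) : FV B C L) (.d1 b) = 0)
    (h2 : (off fin b k o + off fin b k (ex k) : FV B C L) (.d2 b) = 1) :
    ∃ c, k = .oc c ∧ (o = .a2 ∨ o = .a3) := by
  cases k <;> cases o <;> simp_all [np, off, ex, fc, ug, fr_11, Finset.sum_apply]

theorem fr_W0 (h : k = .pre ∨ o = .s) : (off fin b k o : FV B C L) = 0 := by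
  rcases h with rfl | rfl
  · exact fr_off_pre
  · exact fr_off_s

theorem fr_U0 (h : k = .pre ∨ o = ex k) :
    (off fin b k o + off fin b k (ex k) : FV B C L) = 0 := by
  rcases h with rfl | rfl
  · rw [fr_off_pre, fr_off_pre, add_zero]
  · linear_combination (off fin b k (ex k) : FV B C L) * fr_two

theorem fr_Ub3 (c : C) : (off fin b (.oc c) .b3 + off fin b (.oc c) (ex (.oc c)) : FV B C L) =
    ug (.cm c 2) := by
  simp only [off, ex]
  linear_combination (ug (.d2 b) + ug (.cm c 1) + ug (.d1 b) : FV B C L) * fr_two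

theorem fr_Ugad : (off fin b (.gad : Kd C) .s + off fin b .gad (ex (.gad : Kd C)) : FV B C L) =
    ∑ c ∈ fin, fc c := by
  simp only [off, ex, zero_add]

/-- exit difference at one base against an offset at another base -/
theorem fr_A (h5 : 5 ≤ fin.card) (hb : b ≠ b') (hg : k = .gad → k' = .gad → False)
    (ho : np k o) (ho' : np k' o')
    (e : (off fin b k o + off fin b k (ex k) + off fin b' k' o' : FV B C L) = 0) :
    (k = .pre ∨ o = ex k) ∧ (k' = .pre ∨ o' = .s) := by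
  have e1 := congrFun e (.d1 b)
  have e2 := congrFun e (.d2 b)
  have e3 := congrFun e (.d1 b')
  have e4 := congrFun e (.d2 b')
  rw [Pi.add_apply, fr_off_d1 hb, add_zero] at e1
  rw [Pi.add_apply, fr_off_d2 hb, add_zero] at e2
  rw [Pi.add_apply, Pi.add_apply, fr_off_d1 hb.symm, fr_off_d1 hb.symm, add_zero, zero_add] at e3
  rw [Pi.add_apply, Pi.add_apply, fr_off_d2 hb.symm, fr_off_d2 hb.symm, add_zero, zero_add] at e4
  rcases fr_W00 ho' e3 e4 with hW | ⟨c', rfl, rfl⟩ | ⟨rfl, rfl⟩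
  · refine ⟨?_, hW⟩
    rw [fr_W0 hW, add_zero] at e
    rcases fr_U00 ho e1 e2 with hU | ⟨c, rfl, rfl⟩ | ⟨rfl, rfl⟩
    · exact hU
    · rw [fr_Ub3] at e
      have := congrFun e (.cm c 2)
      simp [ug] at this
    · rw [fr_Ugad] at e
      exact (fr_not_sm h5 (by omega) fr_sm_zero (by rw [e, add_zero])).elim
  · exfalso
    rcases fr_U00 ho e1 e2 with hU | ⟨c, rfl, rfl⟩ | ⟨rfl, rfl⟩
    · rw [fr_U0 hU] at e
      have := congrFun e (.cm c' 0)
      simp [off, fc, ug] at this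
    · rw [fr_Ub3] at e
      have := congrFun e (.cm c' 0)
      simp [off, fc, ug] at this
    · rw [fr_Ugad] at e
      exact fr_not_sm h5 (by omega) (fr_sm_off (by simp)) e
  · exfalso
    have hk : k ≠ .gad := fun h => hg h rfl
    refine fr_not_sm (B := B) (L := L) h5 (by omega)
      ((fr_sm_off (fin := fin) (b := b) (o := o) hk).add
        (fr_sm_off (fin := fin) (b := b) (o := ex k) hk)) ?_
    rw [add_comm]
    exact e

/-- local directions of an octagon -/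
def frLd (b : B) (c : C) : Fin 6 → SD B C L :=
  ![.d1 b, .d2 b, .ct c, .cm c 0, .cm c 1, .cm c 2]

/-- local generators of an octagon -/
def frLt (b : B) (c : C) : Fin 5 → Gen B C L := ![.d1 b, .d2 b, .cm c 0, .cm c 1, .cm c 2]

/-- local coordinates of the local directions -/
def frLv : Fin 6 → Fin 5 → ZMod 2 :=
  ![![1, 0, 0, 0, 0], ![0, 1, 0, 0, 0], ![0, 0, 1, 1, 1], ![0, 0, 1, 0, 0], ![0, 0, 0, 1, 0],
    ![0, 0, 0, 0, 1]]

/-- local coordinates of the offsets -/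
def frLo : Pos → Fin 5 → ZMod 2
  | .s => ![0, 0, 0, 0, 0]
  | .a1 => ![0, 0, 1, 1, 1]
  | .a2 => ![1, 0, 1, 1, 1]
  | .a3 => ![1, 0, 0, 1, 1]
  | .b1 => ![0, 1, 0, 0, 0]
  | .b2 => ![0, 1, 0, 1, 0]
  | .b3 => ![1, 1, 0, 1, 0]
  | .x => ![1, 1, 0, 1, 1]

/-- the forced local steps -/
def frLf : Pos → List (Fin 6)
  | .s => []
  | .a1 => [0, 2]
  | .a2 => [3, 0]
  | .a3 => [1, 3]
  | .b1 => [4, 1]
  | .b2 => [0, 4]
  | .b3 => [5, 0]
  | .x => []

theorem fr_lo (c : C) (i : Fin 5) :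
    (off fin b (.oc c) o : FV B C L) (frLt b c i) = frLo o i := by
  cases o <;> fin_cases i <;> simp [off, frLt, frLo, fc, ug, fr_11]

theorem fr_lf (c : C) {d : Fin 6} (h : d ∈ frLf o) :
    nx b (.oc c) o = some (frLd b c d : SD B C L) ∨
      pv b (.oc c) o = some (frLd b c d : SD B C L) := by
  cases o <;> simp only [frLf, List.mem_cons, List.not_mem_nil, or_false] at h <;>
    rcases h with rfl | rfl <;> simp [nx, pv, frLd]

theorem fr_out (c : C) {z : Gen B C L} (hz : ∀ i, z ≠ frLt b c i) :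
    (off fin b (.oc c) o : FV B C L) z = 0 := by
  have h0 : z ≠ .d1 b := hz 0
  have h1 : z ≠ .d2 b := hz 1
  have h2 : z ≠ .cm c 0 := hz 2
  have h3 : z ≠ .cm c 1 := hz 3
  have h4 : z ≠ .cm c 2 := hz 4
  cases o <;> simp [off, fc, ug, h0, h1, h2, h3, h4]

theorem fr_dec1 (o o' : Pos) : ∀ d : Fin 6, (∀ i, frLo o i + frLo o' i + frLv d i = 0) →
    d ∈ frLf o ∨ d ∈ frLf o' := by
  cases o <;> cases o' <;> decide

theorem fr_dec2 (o o' : Pos) : ∀ d d' : Fin 6, d ≠ d' →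
    (∀ i, frLo o i + frLo o' i + frLv d i + frLv d' i = 0) →
      d ∈ frLf o ∨ d' ∈ frLf o ∨ d ∈ frLf o' ∨ d' ∈ frLf o' := by
  cases o <;> cases o' <;> decide

open Classical in
/-- indicator of equality of bases -/
noncomputable def frI (x z : B) : ZMod 2 := if z = x then 1 else 0

theorem fr_ug_g (x z : B) : (ug (.g x) : FV B C L) (.g z) = frI x z := by
  by_cases h : z = x <;> simp [ug, frI, h]

theorem fr_I_self (x : B) : frI x x = 1 := by simp [frI]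

theorem fr_I_ne {x z : B} (h : z ≠ x) : frI x z = 0 := by simp [frI, h]

theorem fr_add1 : ∀ {x : ZMod 2}, x + 1 = 0 → x = 1 := by decide

theorem fr_mem {x y z : B} (h : frI x z + frI y z + 1 = 0) : z = x ∨ z = y := by
  by_contra hc
  rw [not_or] at hc
  rw [fr_I_ne hc.1, fr_I_ne hc.2] at h
  exact absurd h (by decide)

theorem fr_same (h : ∀ z, frI b z + frI b' z = 0) : b = b' := by
  by_contra hc
  have := h b
  rw [fr_I_self, fr_I_ne hc] at this
  exact absurd this (by decide)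

theorem fr_pair {b1 b2 : B} (h12 : b1 ≠ b2)
    (h : ∀ z, frI b z + frI b' z + (frI b1 z + frI b2 z) = 0) :
    (b = b1 ∧ b' = b2) ∨ (b = b2 ∧ b' = b1) := by
  have h1 := h b1
  have h2 := h b2
  rw [fr_I_self, fr_I_ne h12, add_zero] at h1
  rw [fr_I_self, fr_I_ne h12.symm, zero_add] at h2
  rcases fr_mem h1 with e1 | e1 <;> rcases fr_mem h2 with e2 | e2
  · exact absurd (e1.trans e2.symm) h12
  · exact Or.inl ⟨e1.symm, e2.symm⟩
  · exact Or.inr ⟨e2.symm, e1.symm⟩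
  · exact absurd (e1.trans e2.symm) h12

theorem fr_share {b1 b2 b3 b4 : B} (h12 : b1 ≠ b2)
    (h : ∀ z, frI b z + frI b' z + (frI b1 z + frI b2 z) + (frI b3 z + frI b4 z) = 0)
    (h34 : b3 ≠ b4) : b1 = b3 ∨ b1 = b4 ∨ b2 = b3 ∨ b2 = b4 := by
  by_contra hc
  simp only [not_or] at hc
  obtain ⟨h13, h14, h23, h24⟩ := hc
  have h1 := h b1
  have h2 := h b2
  have h3 := h b3
  rw [fr_I_self, fr_I_ne h12, fr_I_ne h13, fr_I_ne h14, add_zero, add_zero, add_zero] at h1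
  rw [fr_I_self, fr_I_ne h12.symm, fr_I_ne h23, fr_I_ne h24, zero_add, add_zero, add_zero] at h2
  rw [fr_I_self, fr_I_ne (Ne.symm h13), fr_I_ne (Ne.symm h23), fr_I_ne h34, add_zero, add_zero,
    add_zero] at h3
  rcases fr_mem h1 with e1 | e1 <;> rcases fr_mem h2 with e2 | e2 <;>
    rcases fr_mem h3 with e3 | e3
  all_goals first
    | exact h12 (e1.trans e2.symm)
    | exact h13 (e1.trans e3.symm)
    | exact h23 (e2.trans e3.symm)

theorem fr_z2 : (2 : ZMod 2) = 0 := rfl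

end aux

/-- The graph of bases and its rules. -/
structure Fr (B C L : Type) where
  kd : B → Kd C
  top : B → Prop
  nz : B → Prop
  uo : B → Prop
  ui : B → Prop
  Ed : B → B → Prop
  fin : Finset C
  h5 : 5 ≤ fin.card
  r0 : ∀ b b', Ed b b' → b ≠ b'
  r5 : ∀ b b', Ed b b' → ¬ Ed b' b
  r1 : ∀ b b', Ed b b' → top b ∨ top b' → uo b ∨ ui b'
  r2 : ∀ b b'' b', Ed b b'' → Ed b'' b' → top b → top b' → kd b'' = .sg → uo b ∨ ui b'
  r3 : ∀ b b' c, Ed b b' → top b → kd b = .oc c → ui b'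
  r4 : ∀ b b' c, Ed b' b → top b → kd b = .oc c → uo b'
  r6 : ∀ b b', Ed b b' → kd b' = .pre → nz b
  r7 : ∀ b b', kd b = .gad → kd b' = .gad → b = b'
  tz : ∀ b, top b → ¬ nz b ∧ kd b ≠ .pre
  uo1 : ∀ b b1 b2, uo b → Ed b b1 → Ed b b2 → b1 = b2
  ui1 : ∀ b b1 b2, ui b → Ed b1 b → Ed b2 b → b1 = b2

namespace Fr
variable {B C L : Type} (F : Fr B C L)

/-- formal label of a node -/
noncomputable def fN (b : B) (o : Pos) : FV B C L := ug (.g b) + off F.fin b (F.kd b) o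

/-- formal label of a special direction -/
noncomputable def fD : SD B C L → FV B C L
  | .pr b b' => F.fN b (ex (F.kd b)) + F.fN b' .s
  | .d1 b => ug (.d1 b)
  | .d2 b => ug (.d2 b)
  | .ct c => fc c
  | .cm c i => ug (.cm c i)
  | .lf y => ug (.lf y)

/-- private directions join adjacent bases -/
def InA : SD B C L → Prop
  | .pr b b' => F.Ed b b'
  | _ => True

/-- nodes in the layer zero -/
def zn (b : B) (o : Pos) : Prop := np (F.kd b) o ∧ ¬ F.nz b ∧ ¬ (F.kd b = .pre ∧ o = .s)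

/-- every visit of the node leaves it, or every visit enters it, in the direction `h` -/
def Det (b : B) (o : Pos) (h : SD B C L) : Prop :=
  nx b (F.kd b) o = some h ∨ pv b (F.kd b) o = some h ∨
    (o = ex (F.kd b) ∧ F.uo b ∧ ∃ b', h = .pr b b' ∧ F.Ed b b') ∨
    (o = .s ∧ F.ui b ∧ ∃ b', h = .pr b' b ∧ F.Ed b' b)

/-- directions that are not private -/
def Np (h : SD B C L) : Prop := ∀ b1 b2, h ≠ .pr b1 b2

theorem fr_cases (h : SD B C L) : (∃ b1 b2, h = .pr b1 b2) ∨ Np h := by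
  by_contra hc
  rw [not_or] at hc
  exact hc.2 fun b1 b2 e => hc.1 ⟨b1, b2, e⟩

theorem fr_fN_g (b : B) (o : Pos) (z : B) : F.fN b o (.g z) = frI b z := by
  rw [fN, Pi.add_apply, fr_off_g, add_zero, fr_ug_g]

theorem fr_fD_pr (b1 b2 : B) : F.fD (.pr b1 b2) =
    ug (.g b1) + off F.fin b1 (F.kd b1) (ex (F.kd b1)) + ug (.g b2) := by
  simp only [fD, fN, fr_off_s, add_zero]

theorem fr_pr_g (b1 b2 z : B) : F.fD (.pr b1 b2) (.g z) = frI b1 z + frI b2 z := by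
  simp only [fD, Pi.add_apply, fr_fN_g]

variable {F}

theorem fr_np_g {h : SD B C L} (hn : Np h) (z : B) : F.fD h (.g z) = 0 := by
  cases h with
  | pr b1 b2 => exact absurd rfl (hn b1 b2)
  | _ => simp [fD, fc, ug]

theorem fr_np_ne {h : SD B C L} (hn : Np h) : F.fD h ≠ 0 := by
  intro e
  cases h with
  | pr b1 b2 => exact absurd rfl (hn b1 b2)
  | d1 b => simpa [fD, ug] using congrFun e (.d1 b)
  | d2 b => simpa [fD, ug] using congrFun e (.d2 b)
  | ct c => simpa [fD, fc, ug] using congrFun e (.cm c 0)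
  | cm c i => simpa [fD, ug] using congrFun e (.cm c i)
  | lf y => simpa [fD, ug] using congrFun e (.lf y)

theorem fr_np_sm {h : SD B C L} (hn : Np h) : FrSm 1 (F.fD h) := by
  cases h with
  | pr b1 b2 => exact absurd rfl (hn b1 b2)
  | ct c =>
    refine ⟨{c}, by simp, fun c0 hc => ?_⟩
    have hc' : c0 ≠ c := by simpa using hc
    simp [fD, fc, ug, hc']
  | cm c i =>
    refine ⟨{c}, by simp, fun c0 hc => ?_⟩
    have hc' : c0 ≠ c := by simpa using hc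
    simp [fD, ug, hc']
  | _ => exact ⟨∅, by simp, fun c0 _ => by simp [fD, ug]⟩

theorem fr_np_d1 {h : SD B C L} (hn : Np h) {b : B} (e : F.fD h (.d1 b) ≠ 0) : h = .d1 b := by
  cases h with
  | pr b1 b2 => exact absurd rfl (hn b1 b2)
  | d1 b0 =>
    by_contra hc
    have : b ≠ b0 := fun h => hc (by rw [h])
    simp [fD, ug, this] at e
  | _ => simp [fD, fc, ug] at e

theorem fr_lv (b : B) (c : C) (d : Fin 6) (i : Fin 5) :
    F.fD (frLd b c d) (frLt b c i) = frLv d i := by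
  fin_cases d <;> fin_cases i <;> simp [fD, frLd, frLt, frLv, fc, ug]

theorem fr_ld_out (b : B) (c : C) (d : Fin 6) {z : Gen B C L} (hz : ∀ i, z ≠ frLt b c i) :
    F.fD (frLd b c d) z = 0 := by
  have h0 : z ≠ .d1 b := hz 0
  have h1 : z ≠ .d2 b := hz 1
  have h2 : z ≠ .cm c 0 := hz 2
  have h3 : z ≠ .cm c 1 := hz 3
  have h4 : z ≠ .cm c 2 := hz 4
  fin_cases d <;> simp [fD, frLd, fc, ug, h0, h1, h2, h3, h4]

theorem fr_loc {h : SD B C L} (hn : Np h) (b : B) (c : C) :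
    (∃ d, h = frLd b c d) ∨ ∀ i, F.fD h (frLt b c i) = 0 := by
  cases h with
  | pr b1 b2 => exact absurd rfl (hn b1 b2)
  | d1 b0 =>
    by_cases h : b = b0
    · exact Or.inl ⟨0, by rw [h]; rfl⟩
    · exact Or.inr fun i => by fin_cases i <;> simp [fD, frLt, ug, h]
  | d2 b0 =>
    by_cases h : b = b0
    · exact Or.inl ⟨1, by rw [h]; rfl⟩
    · exact Or.inr fun i => by fin_cases i <;> simp [fD, frLt, ug, h]
  | ct c0 =>
    by_cases h : c = c0
    · exact Or.inl ⟨2, by rw [h]; rfl⟩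
    · exact Or.inr fun i => by fin_cases i <;> simp [fD, frLt, fc, ug, h]
  | cm c0 j =>
    by_cases h : c = c0
    · subst h
      fin_cases j
      · exact Or.inl ⟨3, rfl⟩
      · exact Or.inl ⟨4, rfl⟩
      · exact Or.inl ⟨5, rfl⟩
    · exact Or.inr fun i => by fin_cases i <;> simp [fD, frLt, ug, h]
  | lf y => exact Or.inr fun i => by fin_cases i <;> simp [fD, frLt, ug]

theorem fr_B {b b' : B} {k k' : Kd C} {o o' : Pos} (hb : b ≠ b')
    (hg : k = .gad → k' = .gad → False) (ho : np k o) (ho' : np k' o') {h : SD B C L} (hn : Np h)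
    (e : off F.fin b k o + off F.fin b k (ex k) + off F.fin b' k' o' + F.fD h = 0) :
    (nx b k o = some h ∨ pv b k o = some h) ∨ (nx b' k' o' = some h ∨ pv b' k' o' = some h) := by
  have hU : ¬ (k = .gad ∧ o = .s) := by
    rintro ⟨rfl, rfl⟩
    rw [fr_Ugad, add_assoc] at e
    exact fr_not_sm F.h5 (by omega) ((fr_sm_off fun h => hg rfl h).add (fr_np_sm hn)) e
  have hW : ¬ (k' = .gad ∧ o' = .x) := by
    rintro ⟨rfl, rfl⟩
    have hk : k ≠ .gad := fun h => hg h rfl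
    refine fr_not_sm F.h5 (by omega) (((fr_sm_off (fin := F.fin) (b := b) (o := o) hk).add
      (fr_sm_off (fin := F.fin) (b := b) (o := ex k) hk)).add (fr_np_sm (F := F) hn)) ?_
    rw [← e]
    simp only [off]
    abel
  have e1 := congrFun e (.d1 b)
  have e2 := congrFun e (.d2 b)
  have e3 := congrFun e (.d1 b')
  have e4 := congrFun e (.d2 b')
  rw [Pi.add_apply, Pi.add_apply, fr_off_d1 hb, add_zero, Pi.zero_apply] at e1
  rw [Pi.add_apply, Pi.add_apply, fr_off_d2 hb, add_zero, Pi.zero_apply] at e2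
  rw [Pi.add_apply, Pi.add_apply, Pi.add_apply, fr_off_d1 hb.symm, fr_off_d1 hb.symm, add_zero,
    zero_add, Pi.zero_apply] at e3
  rw [Pi.add_apply, Pi.add_apply, Pi.add_apply, fr_off_d2 hb.symm, fr_off_d2 hb.symm, add_zero,
    zero_add, Pi.zero_apply] at e4
  have U0 : F.fD h (.d1 b) = 0 → F.fD h (.d2 b) = 0 →
      (off F.fin b k o + off F.fin b k (ex k) : FV B C L) = 0 ∨ ∃ c, k = .oc c ∧ o = .b3 := by
    intro h1 h2
    rw [h1, add_zero] at e1
    rw [h2, add_zero] at e2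
    rcases fr_U00 ho e1 e2 with h3 | h3 | h3
    · exact Or.inl (fr_U0 h3)
    · exact Or.inr h3
    · exact absurd h3 hU
  have W0 : F.fD h (.d1 b') = 0 → F.fD h (.d2 b') = 0 →
      (off F.fin b' k' o' : FV B C L) = 0 ∨ ∃ c, k' = .oc c ∧ o' = .a1 := by
    intro h1 h2
    rw [h1, add_zero] at e3
    rw [h2, add_zero] at e4
    rcases fr_W00 ho' e3 e4 with h3 | h3 | h3
    · exact Or.inl (fr_W0 h3)
    · exact Or.inr h3
    · exact absurd h3 hW
  cases h with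
  | pr b1 b2 => exact absurd rfl (hn b1 b2)
  | lf y =>
    have := congrFun e (.lf y)
    simp [fr_off_lf, fD, ug] at this
  | d1 b0 =>
    by_cases h0 : b0 = b
    · subst h0
      have t1 : F.fD (.d1 b0) (.d1 b0) = 1 := by simp [fD, ug]
      have t2 : F.fD (.d1 b0) (.d2 b0) = 0 := by simp [fD, ug]
      rw [t1] at e1
      rw [t2, add_zero] at e2
      rcases fr_U10 ho (fr_add1 e1) e2 with ⟨rfl, rfl⟩ | ⟨c, rfl, hc⟩
      · exact Or.inl (Or.inl rfl)
      exfalso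
      rcases W0 (by simp [fD, ug, hb.symm]) (by simp [fD, ug]) with hw | ⟨c', rfl, rfl⟩
      · rw [hw] at e
        have := congrFun e (.cm c 2)
        rcases hc with rfl | rfl <;> simp [off, ex, fD, ug] at this
      · have := congrFun e (.cm c' 0)
        rcases hc with rfl | rfl <;> simp [off, ex, fD, fc, ug] at this
    by_cases h0' : b0 = b'
    · subst h0'
      have t1 : F.fD (.d1 b0) (.d1 b0) = 1 := by simp [fD, ug]
      have t2 : F.fD (.d1 b0) (.d2 b0) = 0 := by simp [fD, ug]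
      rw [t1] at e3
      rw [t2, add_zero] at e4
      rcases fr_W10 ho' (fr_add1 e3) e4 with ⟨rfl, rfl⟩ | ⟨c', rfl, hc⟩
      · exact Or.inr (Or.inr rfl)
      exfalso
      rcases U0 (by simp [fD, ug, hb]) (by simp [fD, ug]) with hu | ⟨c, rfl, rfl⟩
      · rw [hu] at e
        have := congrFun e (.cm c' 1)
        rcases hc with rfl | rfl <;> simp [off, fD, fc, ug] at this
      · rw [fr_Ub3] at e
        have := congrFun e (.cm c' 1)
        rcases hc with rfl | rfl <;> simp [off, fD, fc, ug] at this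
    · have := congrFun e (.d1 b0)
      simp [fr_off_d1 h0, fr_off_d1 h0', fD, ug] at this
  | d2 b0 =>
    by_cases h0 : b0 = b
    · subst h0
      have t1 : F.fD (.d2 b0) (.d1 b0) = 0 := by simp [fD, ug]
      have t2 : F.fD (.d2 b0) (.d2 b0) = 1 := by simp [fD, ug]
      rw [t1, add_zero] at e1
      rw [t2] at e2
      obtain ⟨c, rfl, rfl | rfl⟩ := fr_U01 ho e1 (fr_add1 e2)
      swap
      · exact Or.inl (Or.inl rfl)
      exfalso
      rcases W0 (by simp [fD, ug]) (by simp [fD, ug, hb.symm]) with hw | ⟨c', rfl, rfl⟩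
      · rw [hw] at e
        have := congrFun e (.cm c 0)
        simp [off, ex, fD, fc, ug] at this
      · have := congrFun e (.cm c' 1)
        by_cases hc : c' = c <;> simp [off, ex, fD, fc, ug, hc, fr_11] at this
    by_cases h0' : b0 = b'
    · subst h0'
      have t1 : F.fD (.d2 b0) (.d1 b0) = 0 := by simp [fD, ug]
      have t2 : F.fD (.d2 b0) (.d2 b0) = 1 := by simp [fD, ug]
      rw [t1, add_zero] at e3
      rw [t2] at e4
      obtain ⟨c', rfl, rfl | rfl⟩ := fr_W01 ho' e3 (fr_add1 e4)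
      · exact Or.inr (Or.inr rfl)
      exfalso
      rcases U0 (by simp [fD, ug]) (by simp [fD, ug, hb]) with hu | ⟨c, rfl, rfl⟩
      · rw [hu] at e
        have := congrFun e (.cm c' 1)
        simp [off, fD, ug] at this
      · rw [fr_Ub3] at e
        have := congrFun e (.cm c' 1)
        simp [off, fD, ug] at this
    · have := congrFun e (.d2 b0)
      simp [fr_off_d2 h0, fr_off_d2 h0', fD, ug] at this
  | ct c0 =>
    rcases U0 (by simp [fD, fc, ug]) (by simp [fD, fc, ug]) with hu | ⟨c, rfl, rfl⟩ <;>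
      rcases W0 (by simp [fD, fc, ug]) (by simp [fD, fc, ug]) with hw | ⟨c', rfl, rfl⟩
    · rw [hu, hw, add_zero, zero_add] at e
      exact absurd e (fr_np_ne hn)
    · rw [hu] at e
      have := congrFun e (.cm c0 0)
      by_cases hc : c0 = c'
      · subst hc
        exact Or.inr (Or.inr rfl)
      · simp [off, fD, fc, ug, hc] at this
    · rw [hw, fr_Ub3] at e
      have := congrFun e (.cm c0 0)
      simp [fD, fc, ug] at this
    · rw [fr_Ub3] at e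
      have t0 := congrFun e (.cm c 0)
      have t2 := congrFun e (.cm c 2)
      simp only [off, fD, Pi.add_apply, fr_fc_cm, Pi.zero_apply] at t0 t2
      have u0 : (ug (.cm c 2) : FV B C L) (.cm c 0) = 0 := by simp [ug]
      have u2 : (ug (.cm c 2) : FV B C L) (.cm c 2) = 1 := by simp [ug]
      rw [u0, zero_add] at t0
      rw [u2, add_assoc, t0] at t2
      exact absurd t2 (by decide)
  | cm c0 i =>
    rcases U0 (by simp [fD, ug]) (by simp [fD, ug]) with hu | ⟨c, rfl, rfl⟩ <;>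
      rcases W0 (by simp [fD, ug]) (by simp [fD, ug]) with hw | ⟨c', rfl, rfl⟩
    · rw [hu, hw, add_zero, zero_add] at e
      exact absurd e (fr_np_ne hn)
    · rw [hu] at e
      have t0 := congrFun e (.cm c' 0)
      have t1 := congrFun e (.cm c' 1)
      fin_cases i <;> simp [off, fD, fc, ug] at t0 t1
    · rw [hw, fr_Ub3] at e
      have := congrFun e (.cm c 2)
      by_cases hc : c = c0 ∧ (2 : Fin 3) = i
      · obtain ⟨rfl, rfl⟩ := hc
        exact Or.inl (Or.inl rfl)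
      · simp [fD, ug, hc] at this
    · rw [fr_Ub3] at e
      have t0 := congrFun e (.cm c' 0)
      have t1 := congrFun e (.cm c' 1)
      fin_cases i <;> simp [off, fD, fc, ug] at t0 t1

variable (F)

theorem frinj {h h' : SD B C L} (hh : F.InA h) (hh' : F.InA h') (e : F.fD h + F.fD h' = 0) :
    h = h' := by
  have eg : ∀ z, F.fD h (.g z) + F.fD h' (.g z) = 0 := fun z => congrFun e (.g z)
  rcases fr_cases h with ⟨b1, b2, rfl⟩ | hn <;> rcases fr_cases h' with ⟨b3, b4, rfl⟩ | hn'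
  · simp only [fr_pr_g] at eg
    rcases fr_pair (F.r0 _ _ hh') eg with ⟨rfl, rfl⟩ | ⟨rfl, rfl⟩
    · rfl
    · exact absurd hh' (F.r5 _ _ hh)
  · simp only [fr_pr_g, fr_np_g hn', add_zero] at eg
    exact absurd (fr_same eg) (F.r0 _ _ hh)
  · simp only [fr_pr_g, fr_np_g hn, zero_add] at eg
    exact absurd (fr_same eg) (F.r0 _ _ hh')
  · by_contra hne
    cases h with
    | pr b1 b2 => exact absurd rfl (hn b1 b2)
    | d1 b =>
      have t := congrFun e (.d1 b)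
      cases h' <;> simp_all [fD, fc, ug, Np]
    | d2 b =>
      have t := congrFun e (.d2 b)
      cases h' <;> simp_all [fD, fc, ug, Np]
    | ct c =>
      have t0 := congrFun e (.cm c 0)
      have t1 := congrFun e (.cm c 1)
      cases h' with
      | cm c' i => fin_cases i <;> simp [fD, fc, ug] at t0 t1
      | _ => simp_all [fD, fc, ug, Np]
    | cm c i =>
      have t := congrFun e (.cm c i)
      cases h' with
      | ct c' =>
        have t0 := congrFun e (.cm c' 0)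
        have t1 := congrFun e (.cm c' 1)
        fin_cases i <;> simp [fD, fc, ug] at t0 t1
      | cm c' j =>
        have : ¬ (c = c' ∧ i = j) := fun h => hne (by rw [h.1, h.2])
        simp [fD, ug, this] at t
      | _ => simp_all [fD, ug, Np]
    | lf y =>
      have t := congrFun e (.lf y)
      cases h' <;> simp_all [fD, fc, ug, Np]

theorem fr_inA {h : SD B C L} (hn : Np h) : F.InA h := by
  cases h with
  | pr b1 b2 => exact absurd rfl (hn b1 b2)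
  | _ => trivial

variable {F}

theorem fr_gad {b b' : B} (hb : b ≠ b') : F.kd b = .gad → F.kd b' = .gad → False :=
  fun h h' => hb (F.r7 _ _ h h')

theorem fr_det {b : B} {o : Pos} {h : SD B C L}
    (H : nx b (F.kd b) o = some h ∨ pv b (F.kd b) o = some h) : F.Det b o h :=
  H.elim Or.inl fun h => Or.inr (Or.inl h)

theorem fr_det_lf {b : B} {o : Pos} {c : C} (hk : F.kd b = .oc c) {d : Fin 6} (hd : d ∈ frLf o) :
    F.Det b o (frLd b c d) :=
  fr_det (by rw [hk]; exact fr_lf c hd)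

theorem fr_det_two {b : B} {o : Pos} (hk : F.kd b = .two) (ho : np (F.kd b) o) :
    F.Det b o (.d1 b) := by
  refine fr_det ?_
  rw [hk] at ho ⊢
  rcases ho with rfl | rfl
  · exact Or.inl rfl
  · exact Or.inr rfl

/-- the difference of two offsets of a base that is not an octagon -/
theorem fr_diff {fin : Finset C} {b : B} {k : Kd C} {o o' : Pos} (ho : np k o) (ho' : np k o') :
    (∃ c, k = .oc c) ∨ (off fin b k o + off fin b k o' : FV B C L) = 0 ∨
      (k = .two ∧ (off fin b k o + off fin b k o' : FV B C L) = ug (.d1 b)) ∨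
        (off fin b k o + off fin b k o' : FV B C L) = ∑ c ∈ fin, fc c := by
  by_cases h : o = o'
  · subst h
    exact Or.inr (Or.inl (by linear_combination (off fin b k o : FV B C L) * fr_two))
  cases k with
  | oc c => exact Or.inl ⟨c, rfl⟩
  | sg => exact absurd (Eq.trans ho (Eq.symm ho')) h
  | pre => exact Or.inr (Or.inl (by rw [fr_off_pre, fr_off_pre, add_zero]))
  | two =>
    rcases ho with rfl | rfl <;> rcases ho' with rfl | rfl <;> simp_all [off]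
  | gad =>
    rcases ho with rfl | rfl <;> rcases ho' with rfl | rfl <;> simp_all [off]

theorem fr2_np {b : B} {o o' : Pos} {h h' : SD B C L} (ho : np (F.kd b) o) (ho' : np (F.kd b) o')
    (hn : Np h) (hn' : Np h') (hne : h ≠ h')
    (e : off F.fin b (F.kd b) o + off F.fin b (F.kd b) o' + F.fD h + F.fD h' = 0) :
    F.Det b o h ∨ F.Det b o h' ∨ F.Det b o' h ∨ F.Det b o' h' := by
  have inj : F.fD h + F.fD h' ≠ 0 := fun e => hne (F.frinj (F.fr_inA hn) (F.fr_inA hn') e)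
  rcases fr_diff (L := L) (fin := F.fin) (b := b) ho ho' with ⟨c, hk⟩ | h0 | ⟨hk, h0⟩ | h0
  · rw [hk] at e
    have out : ∀ z, (∀ i, z ≠ frLt b c i) → F.fD h z + F.fD h' z = 0 := by
      intro z hz
      have := congrFun e z
      rwa [Pi.add_apply, Pi.add_apply, Pi.add_apply, fr_out c hz, fr_out c hz, add_zero,
        zero_add] at this
    rcases fr_loc (F := F) hn b c with ⟨d, rfl⟩ | hl <;>
      rcases fr_loc (F := F) hn' b c with ⟨d', rfl⟩ | hl'
    · have hd : d ≠ d' := fun h => hne (by rw [h])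
      have := fr_dec2 o o' d d' hd fun i => by
        have := congrFun e (frLt b c i)
        rwa [Pi.add_apply, Pi.add_apply, Pi.add_apply, fr_lo, fr_lo, fr_lv, fr_lv] at this
      rcases this with t | t | t | t
      · exact Or.inl (fr_det_lf hk t)
      · exact Or.inr (Or.inl (fr_det_lf hk t))
      · exact Or.inr (Or.inr (Or.inl (fr_det_lf hk t)))
      · exact Or.inr (Or.inr (Or.inr (fr_det_lf hk t)))
    · refine absurd (funext fun z => ?_) (fr_np_ne (F := F) hn')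
      by_cases hz : ∀ i, z ≠ frLt b c i
      · have := out z hz
        rwa [fr_ld_out b c d hz, zero_add] at this
      · obtain ⟨i, hi⟩ := not_forall.1 hz
        rw [not_not.1 hi]
        exact hl' i
    · refine absurd (funext fun z => ?_) (fr_np_ne (F := F) hn)
      by_cases hz : ∀ i, z ≠ frLt b c i
      · have := out z hz
        rwa [fr_ld_out b c d' hz, add_zero] at this
      · obtain ⟨i, hi⟩ := not_forall.1 hz
        rw [not_not.1 hi]
        exact hl i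
    · refine absurd (funext fun z => ?_) inj
      by_cases hz : ∀ i, z ≠ frLt b c i
      · exact out z hz
      · obtain ⟨i, hi⟩ := not_forall.1 hz
        rw [not_not.1 hi, Pi.add_apply, hl i, hl' i, add_zero]
        rfl
  · rw [h0, zero_add] at e
    exact absurd e inj
  · rw [h0] at e
    have t := congrFun e (.d1 b)
    have u : (ug (.d1 b) : FV B C L) (.d1 b) = 1 := by simp [ug]
    rw [Pi.add_apply, Pi.add_apply, u, Pi.zero_apply] at t
    by_cases h1 : F.fD h (.d1 b) = 0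
    · have h2 : F.fD h' (.d1 b) ≠ 0 := by
        intro h2
        rw [h1, h2] at t
        exact absurd t (by decide)
      rw [fr_np_d1 hn' h2]
      exact Or.inr (Or.inl (fr_det_two hk ho))
    · rw [fr_np_d1 hn h1]
      exact Or.inl (fr_det_two hk ho)
  · rw [h0, add_assoc] at e
    exact (fr_not_sm F.h5 (by omega) ((fr_np_sm hn).add (fr_np_sm hn')) e).elim

theorem fr2_one {b b' : B} {o o' : Pos} {h' : SD B C L} (ho : np (F.kd b) o)
    (ho' : np (F.kd b') o') (hh : F.Ed b b') (hn' : Np h')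
    (e : F.fN b o + F.fN b' o' + F.fD (.pr b b') + F.fD h' = 0) :
    F.Det b o h' ∨ F.Det b' o' h' := by
  have hb := F.r0 _ _ hh
  refine (fr_B (F := F) hb (fr_gad hb) ho ho' hn' ?_).imp fr_det fr_det
  rw [fr_fD_pr] at e
  simp only [fN] at e
  linear_combination e - (ug (.g b) + ug (.g b') : FV B C L) * fr_two

theorem fr2_a {b b' b'' : B} {o o' : Pos} (ht : F.top b) (ht' : F.top b') (ho : np (F.kd b) o)
    (ho' : np (F.kd b') o') (hb : b ≠ b') (hh : F.Ed b b'') (hh' : F.Ed b'' b')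
    (e : F.fN b o + F.fN b' o' + F.fD (.pr b b'') + F.fD (.pr b'' b') = 0) :
    F.Det b o (.pr b b'') ∨ F.Det b' o' (.pr b'' b') := by
  have h1 := F.r0 _ _ hh
  have h2 := F.r0 _ _ hh'
  have e' : (off F.fin b (F.kd b) o + off F.fin b (F.kd b) (ex (F.kd b)) +
      off F.fin b' (F.kd b') o' + off F.fin b'' (F.kd b'') (ex (F.kd b'')) : FV B C L) = 0 := by
    rw [fr_fD_pr, fr_fD_pr] at e
    simp only [fN] at e
    linear_combination e - (ug (.g b) + ug (.g b') + ug (.g b'') : FV B C L) * fr_two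
  have t := congrFun e' (.d1 b'')
  rw [Pi.add_apply, Pi.add_apply, Pi.add_apply, fr_off_d1 h1.symm, fr_off_d1 h1.symm,
    fr_off_d1 h2, add_zero, add_zero, zero_add, Pi.zero_apply] at t
  have hs : F.kd b'' = .sg := by
    cases hk : F.kd b'' with
    | sg => rfl
    | pre => exact absurd (F.r6 _ _ hh hk) (F.tz _ ht).1
    | two =>
      rw [hk] at t
      simp [off, ex, ug] at t
    | oc c =>
      rw [hk] at t
      simp [off, ex, ug] at t
    | gad =>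
      exfalso
      have k1 : F.kd b ≠ .gad := fun h => fr_gad h1 h hk
      have k2 : F.kd b' ≠ .gad := fun h => fr_gad h2 hk h
      refine fr_not_sm (B := B) (L := L) F.h5 (by omega)
        (((fr_sm_off (fin := F.fin) (b := b) (o := o) k1).add
          (fr_sm_off (fin := F.fin) (b := b) (o := ex (F.kd b)) k1)).add
            (fr_sm_off (fin := F.fin) (b := b') (o := o') k2)) ?_
      rw [hk, add_comm] at e'
      exact e'
  rw [hs, show ex (.sg : Kd C) = .s from rfl, fr_off_s, add_zero] at e'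
  obtain ⟨a1, a2⟩ := fr_A F.h5 hb (fr_gad hb) ho ho' e'
  have a1' := a1.resolve_left (F.tz _ ht).2
  have a2' := a2.resolve_left (F.tz _ ht').2
  rcases F.r2 _ _ _ hh hh' ht ht' hs with hu | hu
  · exact Or.inl (Or.inr (Or.inr (Or.inl ⟨a1', hu, _, rfl, hh⟩)))
  · exact Or.inr (Or.inr (Or.inr (Or.inr ⟨a2', hu, _, rfl, hh'⟩)))

theorem fr2_b {b b' b'' : B} {o o' : Pos} (ht : F.top b) (ho : np (F.kd b) o)
    (hb : b ≠ b') (hh : F.Ed b b'') (hh' : F.Ed b' b'')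
    (e : F.fN b o + F.fN b' o' + F.fD (.pr b b'') + F.fD (.pr b' b'') = 0) :
    F.Det b o (.pr b b'') := by
  have e' : (off F.fin b (F.kd b) o + off F.fin b (F.kd b) (ex (F.kd b)) +
      (off F.fin b' (F.kd b') o' + off F.fin b' (F.kd b') (ex (F.kd b'))) : FV B C L) = 0 := by
    rw [fr_fD_pr, fr_fD_pr] at e
    simp only [fN] at e
    linear_combination e - (ug (.g b) + ug (.g b') + ug (.g b'') : FV B C L) * fr_two
  have hi : ¬ F.ui b'' := fun h => hb (F.ui1 _ _ _ h hh hh')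
  have hu : F.uo b := (F.r1 _ _ hh (Or.inl ht)).resolve_right hi
  have e1 := congrFun e' (.d1 b)
  have e2 := congrFun e' (.d2 b)
  rw [Pi.add_apply, Pi.add_apply (off F.fin b' _ _), fr_off_d1 hb, fr_off_d1 hb, add_zero,
    add_zero, Pi.zero_apply] at e1
  rw [Pi.add_apply, Pi.add_apply (off F.fin b' _ _), fr_off_d2 hb, fr_off_d2 hb, add_zero,
    add_zero, Pi.zero_apply] at e2
  rcases fr_U00 ho e1 e2 with a | ⟨c, hk, _⟩ | ⟨hk, rfl⟩
  · exact Or.inr (Or.inr (Or.inl ⟨a.resolve_left (F.tz _ ht).2, hu, _, rfl, hh⟩))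
  · exact absurd (F.r3 _ _ c hh ht hk) hi
  · have k2 : F.kd b' ≠ .gad := fun h => fr_gad hb hk h
    rw [hk, fr_Ugad] at e'
    exact (fr_not_sm F.h5 (by omega) ((fr_sm_off k2).add (fr_sm_off k2)) e').elim

theorem fr2_c {b b' b'' : B} {o o' : Pos} (ht : F.top b) (ho : np (F.kd b) o)
    (hb : b ≠ b') (hh : F.Ed b'' b) (hh' : F.Ed b'' b')
    (e : F.fN b o + F.fN b' o' + F.fD (.pr b'' b) + F.fD (.pr b'' b') = 0) :
    F.Det b o (.pr b'' b) := by
  have e' : (off F.fin b (F.kd b) o + off F.fin b' (F.kd b') o' : FV B C L) = 0 := by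
    rw [fr_fD_pr, fr_fD_pr] at e
    simp only [fN] at e
    linear_combination e - (ug (.g b) + ug (.g b') + ug (.g b'') +
      off F.fin b'' (F.kd b'') (ex (F.kd b'')) : FV B C L) * fr_two
  have hi : ¬ F.uo b'' := fun h => hb (F.uo1 _ _ _ h hh hh')
  have hu : F.ui b := (F.r1 _ _ hh (Or.inr ht)).resolve_left hi
  have e1 := congrFun e' (.d1 b)
  have e2 := congrFun e' (.d2 b)
  rw [Pi.add_apply, fr_off_d1 hb, add_zero, Pi.zero_apply] at e1
  rw [Pi.add_apply, fr_off_d2 hb, add_zero, Pi.zero_apply] at e2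
  rcases fr_W00 ho e1 e2 with a | ⟨c, hk, _⟩ | ⟨hk, rfl⟩
  · exact Or.inr (Or.inr (Or.inr ⟨a.resolve_left (F.tz _ ht).2, hu, _, rfl, hh⟩))
  · exact absurd (F.r4 _ _ c hh ht hk) hi
  · have k2 : F.kd b' ≠ .gad := fun h => fr_gad hb hk h
    rw [hk] at e'
    exact (fr_not_sm F.h5 (by omega) (fr_sm_off k2) e').elim

variable (F)

theorem fr1 {b b' : B} {o o' : Pos} {h : SD B C L} (ht : F.top b) (ho : np (F.kd b) o)
    (ho' : F.zn b' o') (hh : F.InA h) (e : F.fN b o + F.fN b' o' + F.fD h = 0) :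
    F.Det b o h ∨ F.Det b' o' h := by
  have eg : ∀ z, frI b z + frI b' z + F.fD h (.g z) = 0 := fun z => by
    have := congrFun e (.g z)
    rwa [Pi.add_apply, Pi.add_apply, fr_fN_g, fr_fN_g] at this
  rcases fr_cases h with ⟨b1, b2, rfl⟩ | hn
  · simp only [fr_pr_g] at eg
    have hh' : F.Ed b1 b2 := hh
    have h12 := F.r0 _ _ hh'
    rw [fr_fD_pr] at e
    simp only [fN] at e
    rcases fr_pair h12 eg with ⟨rfl, rfl⟩ | ⟨rfl, rfl⟩
    · obtain ⟨a1, a2⟩ := fr_A (L := L) F.h5 h12 (fr_gad h12) ho ho'.1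
        (by linear_combination e - (ug (.g b) + ug (.g b') : FV B C L) * fr_two)
      have a1' := a1.resolve_left (F.tz _ ht).2
      have a2' := a2.resolve_left fun h => (F.tz _ ht).1 (F.r6 _ _ hh' h)
      rcases F.r1 _ _ hh' (Or.inl ht) with hu | hu
      · exact Or.inl (Or.inr (Or.inr (Or.inl ⟨a1', hu, _, rfl, hh'⟩)))
      · exact Or.inr (Or.inr (Or.inr (Or.inr ⟨a2', hu, _, rfl, hh'⟩)))
    · obtain ⟨a1, a2⟩ := fr_A (L := L) F.h5 h12 (fr_gad h12) ho'.1 ho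
        (by linear_combination e - (ug (.g b) + ug (.g b') : FV B C L) * fr_two)
      have a2' := a2.resolve_left (F.tz _ ht).2
      have a1' : o' = ex (F.kd b') := by
        rcases a1 with hk | a1
        · have h1 := ho'.1
          have h2 := ho'.2.2
          rw [hk] at h1 h2 ⊢
          rcases h1 with h1 | h1
          · exact absurd ⟨rfl, h1⟩ h2
          · exact h1
        · exact a1
      rcases F.r1 _ _ hh' (Or.inr ht) with hu | hu
      · exact Or.inr (Or.inr (Or.inr (Or.inl ⟨a1', hu, _, rfl, hh'⟩)))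
      · exact Or.inl (Or.inr (Or.inr (Or.inr ⟨a2', hu, _, rfl, hh'⟩)))
  · simp only [fr_np_g hn, add_zero] at eg
    obtain rfl := fr_same eg
    have e' : off F.fin b (F.kd b) o + off F.fin b (F.kd b) o' + F.fD h = 0 := by
      simp only [fN] at e
      linear_combination e - (ug (.g b) : FV B C L) * fr_two
    rcases fr_diff (L := L) (fin := F.fin) (b := b) ho ho'.1 with ⟨c, hk⟩ | h0 | ⟨hk, h0⟩ | h0
    · rw [hk] at e'
      rcases fr_loc (F := F) hn b c with ⟨d, rfl⟩ | hl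
      · refine (fr_dec1 o o' d fun i => ?_).imp (fr_det_lf hk) (fr_det_lf hk)
        have := congrFun e' (frLt b c i)
        rwa [Pi.add_apply, Pi.add_apply, fr_lo, fr_lo, fr_lv] at this
      · refine absurd (funext fun z => ?_) (fr_np_ne (F := F) hn)
        by_cases hz : ∀ i, z ≠ frLt b c i
        · have := congrFun e' z
          rwa [Pi.add_apply, Pi.add_apply, fr_out c hz, fr_out c hz, add_zero, zero_add] at this
        · obtain ⟨i, hi⟩ := not_forall.1 hz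
          rw [not_not.1 hi]
          exact hl i
    · rw [h0, zero_add] at e'
      exact absurd e' (fr_np_ne hn)
    · rw [h0] at e'
      have := F.frinj (h := .d1 b) trivial hh e'
      rw [← this]
      exact Or.inl (fr_det_two hk ho)
    · rw [h0] at e'
      exact (fr_not_sm F.h5 (by omega) (fr_np_sm hn) e').elim

theorem fr2 {b b' : B} {o o' : Pos} {h h' : SD B C L} (ht : F.top b) (ht' : F.top b')
    (ho : np (F.kd b) o) (ho' : np (F.kd b') o') (hh : F.InA h) (hh' : F.InA h') (hne : h ≠ h')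
    (e : F.fN b o + F.fN b' o' + F.fD h + F.fD h' = 0) :
    F.Det b o h ∨ F.Det b o h' ∨ F.Det b' o' h ∨ F.Det b' o' h' := by
  have eg : ∀ z, frI b z + frI b' z + F.fD h (.g z) + F.fD h' (.g z) = 0 := fun z => by
    have := congrFun e (.g z)
    rwa [Pi.add_apply, Pi.add_apply, Pi.add_apply, fr_fN_g, fr_fN_g] at this
  have s1 : F.fN b' o' + F.fN b o + F.fD h + F.fD h' = 0 := by linear_combination e
  have s2 : F.fN b o + F.fN b' o' + F.fD h' + F.fD h = 0 := by linear_combination e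
  have s3 : F.fN b' o' + F.fN b o + F.fD h' + F.fD h = 0 := by linear_combination e
  rcases fr_cases h with ⟨b1, b2, rfl⟩ | hn <;> rcases fr_cases h' with ⟨b3, b4, rfl⟩ | hn'
  · simp only [fr_pr_g] at eg
    have g1 : F.Ed b1 b2 := hh
    have g2 : F.Ed b3 b4 := hh'
    have h12 := F.r0 _ _ g1
    have h34 := F.r0 _ _ g2
    rcases fr_share h12 eg h34 with rfl | rfl | rfl | rfl
    · have h24 : b2 ≠ b4 := fun h => hne (by rw [h])
      rcases fr_pair (b := b) (b' := b') h24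
        (fun z => by linear_combination eg z - frI b1 z * fr_z2) with ⟨rfl, rfl⟩ | ⟨rfl, rfl⟩
      · exact Or.inl (fr2_c ht ho h24 g1 g2 e)
      · exact Or.inr (Or.inl (fr2_c ht ho h24.symm g2 g1 s2))
    · have h23 : b2 ≠ b3 := fun h => F.r5 _ _ g1 (by rw [h]; exact g2)
      rcases fr_pair (b := b) (b' := b') h23
        (fun z => by linear_combination eg z - frI b1 z * fr_z2) with ⟨rfl, rfl⟩ | ⟨rfl, rfl⟩
      · rcases fr2_a ht' ht ho' ho h23.symm g2 g1 s3 with t | t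
        · exact Or.inr (Or.inr (Or.inr t))
        · exact Or.inl t
      · rcases fr2_a ht ht' ho ho' h23.symm g2 g1 s2 with t | t
        · exact Or.inr (Or.inl t)
        · exact Or.inr (Or.inr (Or.inl t))
    · have h14 : b1 ≠ b4 := fun h => F.r5 _ _ g1 (by rw [h]; exact g2)
      rcases fr_pair (b := b) (b' := b') h14
        (fun z => by linear_combination eg z - frI b2 z * fr_z2) with ⟨rfl, rfl⟩ | ⟨rfl, rfl⟩
      · rcases fr2_a ht ht' ho ho' h14 g1 g2 e with t | t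
        · exact Or.inl t
        · exact Or.inr (Or.inr (Or.inr t))
      · rcases fr2_a ht' ht ho' ho h14 g1 g2 s1 with t | t
        · exact Or.inr (Or.inr (Or.inl t))
        · exact Or.inr (Or.inl t)
    · have h13 : b1 ≠ b3 := fun h => hne (by rw [h])
      rcases fr_pair (b := b) (b' := b') h13
        (fun z => by linear_combination eg z - frI b2 z * fr_z2) with ⟨rfl, rfl⟩ | ⟨rfl, rfl⟩
      · exact Or.inl (fr2_b ht ho h13 g1 g2 e)
      · exact Or.inr (Or.inl (fr2_b ht ho h13.symm g2 g1 s2))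
  · simp only [fr_pr_g, fr_np_g hn', add_zero] at eg
    have g1 : F.Ed b1 b2 := hh
    rcases fr_pair (F.r0 _ _ g1) eg with ⟨rfl, rfl⟩ | ⟨rfl, rfl⟩
    · rcases fr2_one ho ho' g1 hn' e with t | t
      · exact Or.inr (Or.inl t)
      · exact Or.inr (Or.inr (Or.inr t))
    · rcases fr2_one ho' ho g1 hn' s1 with t | t
      · exact Or.inr (Or.inr (Or.inr t))
      · exact Or.inr (Or.inl t)
  · simp only [fr_pr_g, fr_np_g hn, add_zero] at eg
    have g2 : F.Ed b3 b4 := hh'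
    rcases fr_pair (F.r0 _ _ g2) eg with ⟨rfl, rfl⟩ | ⟨rfl, rfl⟩
    · rcases fr2_one ho ho' g2 hn s2 with t | t
      · exact Or.inl t
      · exact Or.inr (Or.inr (Or.inl t))
    · rcases fr2_one ho' ho g2 hn s3 with t | t
      · exact Or.inr (Or.inr (Or.inl t))
      · exact Or.inl t
  · simp only [fr_np_g hn, fr_np_g hn', add_zero] at eg
    obtain rfl := fr_same eg
    refine fr2_np ho ho' hn hn' hne ?_
    simp only [fN] at e
    linear_combination e - (ug (.g b) : FV B C L) * fr_two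

end Fr

end Pool.Agent.Work.MP_ede3c6_co.Y
end

-- merged part: Pool.Agent.Work.MP_ede3c6_co.Y.Dich
section
-- merged part: Pool.Agent.Work.MP_ede3c6_co.Y.Base
section
/-! Caterpillars with vertices of top degree: parameters, labels, inner structure, segmentation. -/

set_option autoImplicit false

namespace Pool.Agent.Work.MP_ede3c6_co.Y

open Finset Vol

/-- demands, extended by zero -/
def ap (k : ℕ) (a : ℕ → ℕ) (i : ℕ) : ℕ := if i < k then a i else 0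

/-- switch edges: both ends are below the top threshold -/
def sw (n k : ℕ) (a : ℕ → ℕ) (i : ℕ) : Prop :=
  ap k a i ≤ n - Nat.sqrt n ∧ ap k a (i + 1) ≤ n - Nat.sqrt n

/-- edges inside a long stretch without switch edges -/
def IE (n K2 k : ℕ) (a : ℕ → ℕ) (i : ℕ) : Prop :=
  ∃ x ≤ i, i < x + K2 ∧ ∀ y, x ≤ y → y < x + K2 → ¬ sw n k a y

open Classical in
/-- size of a colour class when all long stretches are rounded up to the top -/
noncomputable def VT (n K2 k : ℕ) (a : ℕ → ℕ) (π : ℕ) : ℕ :=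
  ∑ i ∈ range k, if i % 2 = π then 1 else if IE n K2 k a i then n else a i

open Classical in
/-- size of a colour class when alternating tiles are kept -/
noncomputable def VP (n K K2 k : ℕ) (a : ℕ → ℕ) (π : ℕ) : ℕ :=
  X.cls k a π + n / 4 * #{i ∈ range k | IE n K2 k a i ∧ a i ≤ n / 4} +
    (K + 1) * n * #{i ∈ range k | IE n K2 k a i ∧ n / 4 < ap k a i ∧ n / 4 < ap k a (i + 1)}

/-- the statement of the main embedding theorem -/
def CoreSt : Prop := ∀ ε : ℝ, 0 < ε → ∃ K K20 : ℕ, ∀ K2 ≥ K20, ∃ n0 : ℕ, ∀ n ≥ n0,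
  ∀ (k : ℕ) (a : ℕ → ℕ), Run k a n → k + ∑ i ∈ range k, a i ≤ 2 ^ n →
    ((∀ π < 2, (VT n K2 k a π : ℝ) ≤ (1 - ε) * 2 ^ (n - 1)) ∨
      ∀ π < 2, (VP n K K2 k a π : ℝ) ≤ (1 - ε) * 2 ^ (n - 1)) → (cat k a).IsContained (cube n)

/-- support in an interval of bits -/
def Sup {m : ℕ} (x : V (Fin m)) (i j : ℕ) : Prop := ∀ b : Fin m, (b : ℕ) < i ∨ j ≤ b → x b = 0

/-- the numerical parameters -/
structure Pm where
  n : ℕ
  nZ : ℕ
  t : ℕ
  mu : ℕ
  w0 : ℕ
  l0 : ℕ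
  kR : ℕ
  hh : ℕ
  d1 : ℕ
  d2 : ℕ
  m1 : ℕ
  s : ℕ
  K : ℕ
  K2 : ℕ
  Kp : ℕ
  P' : ℕ
  L0 : ℕ
  G0 : ℕ

namespace Pm
variable (p : Pm)

/-- dimension of the label group -/
def nL : ℕ := p.nZ + 2 + p.t + p.mu + p.w0 + p.l0 + p.kR + 1
/-- stages of the gadget -/
def r : ℕ := p.nL + 1
/-- steps of the gadget -/
def T : ℕ := 4 * p.r + 5
/-- spacer coordinates -/
abbrev Sp : Type := (Fin (p.r + 1) × Fin 3) ⊕ Fin 3
/-- selector and spacer coordinates -/
abbrev Rh : Type := (Fin 3 × Fin p.s) ⊕ p.Sp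
/-- region coordinates -/
abbrev Ro : Type := (Fin 3 × Fin p.m1) ⊕ p.Rh
/-- control coordinates -/
abbrev Ctl : Type := ((Fin p.hh ⊕ Fin p.hh) ⊕ ((Fin p.d1 × Fin 2) ⊕ (Fin p.d2 × Fin 2))) ⊕ p.Ro
/-- labels: zone, corner, layer, codeword, low bits, middle bits, high bits, parity -/
abbrev Lab : Type := V (Fin p.nZ) × V (Fin 2) × V (Fin p.t) × V (Fin p.mu) × V (Fin p.w0) ×
  V (Fin p.l0) × V (Fin p.kR) × ZMod 2
/-- fat directions -/
abbrev FD : Type := V (Fin p.t) × Fin p.mu × V (Fin p.w0) × V (Fin p.l0) × V (Fin p.kR)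
/-- octagons of a short window -/
def M : ℕ := 2 * p.hh + 2
/-- length of a short window -/
def w : ℕ := 5 * p.M + 3
/-- number of selector and spacer coordinates -/
def nR : ℕ := 3 * p.s + ((p.r + 1) * 3 + 3)
/-- number of flags -/
def nF : ℕ := 3 * p.m1
/-- number of control coordinates -/
def nC : ℕ := p.hh + p.hh + (p.d1 * 2 + p.d2 * 2) + (p.nF + p.nR)
/-- index of the gadget in the long window -/
def xg : ℕ := 1 + 2 * p.hh + p.nR + p.nF
/-- units of the long window -/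
def LU : ℕ := p.xg + 1 + (p.nF + p.nR) + 1
/-- length of the long window -/
def LW : ℕ := 2 + 5 * (2 * p.hh + 2 * (p.nR + p.nF)) + (p.T + 1)
/-- top threshold -/
def thr : ℕ := p.n - Nat.sqrt p.n
/-- layers of a bin -/
def q : ℕ := 2 ^ p.t - 2
/-- middle parts of leaf directions -/
def q2 : ℕ := 2 ^ p.l0 - 2
/-- small demands -/
def aS : ℕ := p.q * p.q2 * (p.mu - 2)
/-- largest demand that is not full -/
def thrN : ℕ := p.aS * 2 ^ (p.w0 + p.kR)
/-- fat directions in one column, up to low and high bits -/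
def qF : ℕ := (2 ^ p.t - 1) * (2 ^ p.l0 - 1) + 1
/-- leaf directions of a big class -/
def cap (ι e l : ℕ) : ℕ := p.q * p.q2 * ι * 2 ^ (p.w0 - e + l)
/-- sites of a small class, up to high bits -/
def ms : ℕ := 4 * p.q * 2 ^ (p.mu + p.w0) * (2 ^ p.l0 - 1)
/-- junctions of a group -/
def P1 : ℕ := 2 ^ p.d1
/-- junctions of a chapter -/
def PP : ℕ := 2 ^ (p.d1 + 1) * p.P'
/-- distance to a far switch edge -/
def K1 : ℕ := p.K2 + p.w + 5
/-- largest length of a block -/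
def Km : ℕ := 2 * p.Kp * p.K1
/-- values of the balanced coordinates -/
def Q : ℕ := 2 ^ (p.nF + p.nR + (p.G0 + (p.d2 * 2 + p.d1 * 2)))
/-- labels of a zone and a parity -/
def U : ℕ := 2 ^ (2 + p.t + p.mu + p.w0 + p.l0 + p.kR)
/-- zones -/
def nA : ℕ := 2 ^ p.nZ
/-- slots of a segment -/
def ks : ℕ := 2 * p.M + 6
/-- branches of a track -/
def L1 : ℕ := p.L0 + 1
/-- controls of a medium junction -/
def cM : ℕ := p.d2 * 2 + 1
/-- discrepancy -/
def er : ℕ := 5 + 20 * p.ks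
/-- bound for the number of types -/
def nT : ℕ := p.aS + p.mu * (p.w0 + p.kR + 1) + 2
/-- bound for the number of block types -/
def nB : ℕ := 2 ^ (p.d1 + 1) * (p.Km + 1) * 128 * (p.kR + 1) ^ 2 * (p.nT + 1) ^ p.Km
/-- bound for the number of pair groups -/
def nPG : ℕ := p.nT * 2 * (p.kR + 1) ^ 2 * 2 ^ (2 * p.l0)
/-- bound for the number of bases -/
def nBs : ℕ := 2 ^ (p.nZ + 2 + p.t + p.mu + p.w0 + p.l0 + 1)
/-- bound for the number of special directions -/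
def nS : ℕ := p.nBs * p.nBs + 2 * p.nBs + 4 * p.nC + 2 * p.nA
/-- bound for the number of tracks -/
def Tb : ℕ := 2 ^ (3 + p.t + p.mu + p.l0) * p.nA + 1
/-- cost of the windows -/
def CJ : ℕ := (p.M + 5) * p.L1 * 2 ^ (2 * p.l0 + p.mu + 16)
/-- weight beyond the end -/
def Ex : ℕ := (p.P1 + 3) * (p.Km + p.LW + 3) * (p.n + 1)
/-- bound for the number of tiles -/
def Tl : ℕ := 2 ^ p.n / ((p.K - p.w - 6) / 2 * p.thr)
/-- bound for the number of long windows -/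
def N : ℕ := (2 ^ p.n + 2) / p.PP + 2
/-- bound for the weight of the windows -/
def Wb : ℕ := 2 * (2 * (1 + p.aS) * (2 ^ p.n + p.Ex) / p.Kp + (p.n + 1) * (2 * p.Tl + 2 * p.N)) +
  (p.n + 1)
/-- bound for the weight of the blocks -/
def Vb (VV : ℕ) : ℕ := VV + p.Ex + ((p.w + 6) * p.n + (p.K + 1) * Nat.sqrt p.n) * p.Tl + 3 * p.Wb
/-- demands of a tile -/
def tc (c len o : ℕ) : ℕ :=
  if o < p.w + 4 ∨ o + 1 = len ∨ c = 0 ∨ o % 2 + 1 ≠ c then p.n else p.n / 4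

/-- conditions on the parameters -/
structure Ok : Prop where
  t2 : 2 ≤ p.t
  l2 : 2 ≤ p.l0
  mu3 : 3 ≤ p.mu
  kR0 : 1 ≤ p.kR
  d10 : 1 ≤ p.d1
  P0 : 1 ≤ p.P'
  m5 : 5 ≤ p.m1
  Kp0 : 1 ≤ p.Kp
  L00 : 1 ≤ p.L0
  hJ1 : p.qF * (p.mu - 2) * 2 ^ (p.w0 + p.kR) ≤ p.thr
  hJ2 : p.n ≤ p.qF * p.mu * 2 ^ (p.w0 + p.kR)
  hN2 : p.n ≤ 2 * p.thrN
  hth : p.thrN < p.thr
  dim : p.n = p.G0 + p.nC + p.nL
  G00 : 1 ≤ p.G0
  hs : p.n ≤ 2 ^ p.s
  hS : p.nS ≤ Nat.sqrt p.n
  hL : (8 * p.nBs + 1) ^ 2 * (p.nS + 1) ^ 2 < 2 ^ p.kR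
  hK : p.w + 8 ≤ p.K
  hK2 : (p.K + p.w) ^ 2 ≤ p.K2
  hLW : p.Kp * p.K1 ≤ p.LW
  hcM : p.cM + 1 ≤ p.P1
  hw0 : p.L1 * p.cM * p.Tb < 2 ^ p.w0
  e1 : p.N ≤ 2 ^ (p.G0 + (p.d2 * 2 + p.d1 * 2))
  e2 : (p.n + 1) * p.PP * p.ks ≤ 2 ^ (p.d2 * 2)
  e3 : 6 * (p.PP * p.ks) ≤ 2 ^ (p.G0 + (p.d2 * 2 + p.d1 * 2))
  hr : p.L0 + 24 * p.L0 / 2 ^ p.m1 + p.er + 2 ^ p.hh * (p.ks * p.er) < 2 ^ (p.hh + p.hh)

/-- the zones suffice -/
def Fit (η : ℝ) (VV : ℕ) : Prop :=
  (1 + η) * p.Vb VV / (p.L0 * p.Q * p.U) + 2 * p.nB * p.Km * (p.aS + 1) +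
    p.CJ * ((1 + η) * p.Wb / (p.L0 * p.Q * p.U) + p.cM * p.nB) + p.nPG + p.LU ≤ (p.nA : ℝ)

end Pm

/-- Types, codes and enumerations. -/
structure Inn (p : Pm) (η : ℝ) where
  TS : Finset ℕ
  rd : ℕ → ℕ
  io : ℕ → ℕ
  lev : ℕ → ℕ
  Cd : ℕ → Finset (V (Fin p.mu))
  i0 : Fin p.mu
  en : ℕ → ℕ → ℕ → V (Fin p.l0) → ℕ → p.FD
  ad : ℕ → ℕ → ℕ → V (Fin p.mu) × V (Fin p.w0)
  zt : ℕ → V (Fin 2)
  sa : ℕ → V (Fin 2) × V (Fin p.t) × V (Fin p.mu) × V (Fin p.w0)
  mv : ℕ → V (Fin p.l0)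
  hv : ℕ → ℕ → V (Fin p.kR)
  i00 : (i0 : ℕ) = 0
  cTS : TS.card ≤ p.nT
  rdT : ∀ a ≤ p.n, rd a ∈ TS
  rdS : ∀ a < p.aS, rd a = a
  rd1 : ∀ a ≤ p.thrN, a ≤ rd a ∧ rd a ≤ p.thrN
  rdF : ∀ a, p.thrN < a → a ≤ p.thr → rd a = p.thr
  rdU : ∀ a, p.thr < a → rd a = p.n
  lev1 : ∀ τ, lev τ ≤ p.w0 + p.kR
  lev0 : ∀ τ < p.aS, lev τ = 0
  ioN : ∀ τ ∈ TS, τ ≤ p.thrN → io τ ≤ p.mu - 2 ∧ τ ≤ p.q * p.q2 * io τ * 2 ^ lev τ
  ioF : ∀ τ, p.thrN < τ → io τ = p.mu ∧ lev τ = p.w0 + p.kR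
  ef : ∀ a, p.aS ≤ a → a ≤ p.n → (p.U : ℝ) ≤
    (1 + η) * a * (4 * (Cd (io (rd a))).card * 2 ^ (p.w0 + p.kR - lev (rd a)))
  efs : (p.U : ℝ) ≤ (1 + η) * (p.ms * 2 ^ p.kR)
  lo : ∀ a, p.aS ≤ a → a ≤ p.n → 2 ^ lev (rd a) ≤ a
  cd0 : ∀ ι, 0 < (Cd ι).card
  code : ∀ ι, ∀ x ∈ Cd ι, ∀ x' ∈ Cd ι, ∀ i j : Fin p.mu, (i : ℕ) < ι → (j : ℕ) < ι →
    x + e i = x' + e j → i = j
  en1 : ∀ ι ≤ p.mu, ∀ c ≤ p.w0, ∀ l ≤ p.kR, ∀ μ, ∀ m < p.cap ι c l,
    (en ι c l μ m).1 ≠ 0 ∧ (en ι c l μ m).1 ≠ 1 ∧ ((en ι c l μ m).2.1 : ℕ) < ι ∧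
      Sup (en ι c l μ m).2.2.1 c p.w0 ∧ (en ι c l μ m).2.2.2.1 ≠ 0 ∧
      (en ι c l μ m).2.2.2.1 ≠ μ ∧ Sup (en ι c l μ m).2.2.2.2 0 l
  en2 : ∀ ι ≤ p.mu, ∀ c ≤ p.w0, ∀ l ≤ p.kR, ∀ μ, ∀ m < p.cap ι c l, ∀ m' < p.cap ι c l,
    en ι c l μ m = en ι c l μ m' → m = m'
  ad1 : ∀ ι, ∀ c ≤ p.w0, ∀ y < (Cd ι).card * 2 ^ c, (ad ι c y).1 ∈ Cd ι ∧ Sup (ad ι c y).2 0 c
  ad2 : ∀ ι, ∀ c ≤ p.w0, ∀ y < (Cd ι).card * 2 ^ c, ∀ y' < (Cd ι).card * 2 ^ c,
    ad ι c y = ad ι c y' → y = y'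
  zt2 : ∀ y < 4, ∀ y' < 4, zt y = zt y' → y = y'
  sa1 : ∀ y < 4 * p.q * 2 ^ (p.mu + p.w0), (sa y).2.1 ≠ 0 ∧ (sa y).2.1 ≠ 1
  sa2 : ∀ y < 4 * p.q * 2 ^ (p.mu + p.w0), ∀ y' < 4 * p.q * 2 ^ (p.mu + p.w0),
    sa y = sa y' → y = y'
  mv1 : ∀ y < 2 ^ p.l0 - 1, mv y ≠ 0
  mv2 : ∀ y < 2 ^ p.l0 - 1, ∀ y' < 2 ^ p.l0 - 1, mv y = mv y' → y = y'
  hv1 : ∀ l ≤ p.kR, ∀ y < 2 ^ (p.kR - l), Sup (hv l y) l p.kR
  hv2 : ∀ l ≤ p.kR, ∀ y < 2 ^ (p.kR - l), ∀ y' < 2 ^ (p.kR - l), hv l y = hv l y' → y = y'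

/-- The segmentation of the spine into blocks and windows. Kinds of windows: `0` low, `1` with a
switch edge at the end, `2` between two tiles, `3` long. -/
structure Seg (p : Pm) (k : ℕ) (a : ℕ → ℕ) (VV : ℕ) where
  J : ℕ
  bs : ℕ → ℕ
  bl : ℕ → ℕ
  av : ℕ → ℕ → ℕ
  mx : ℕ → ℕ
  rk : ℕ → ℕ
  md : ℕ → ℕ
  bs0 : bs 0 = 0
  bss : ∀ j, bs (j + 1) = bs j + bl j + if rk j = 3 then p.LW else p.w
  bl1 : ∀ j, 5 ≤ bl j
  bl2 : ∀ j, bl j ≤ p.Km
  rk4 : ∀ j, rk j < 4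
  rk3 : ∀ j, rk j = 3 ↔ j % p.PP = p.PP - 1
  lgp : ∀ j, rk j = 3 → (bs j + bl j) % 2 = 0
  mx0 : ∀ j, rk j = 0 → p.aS ≤ mx j ∧ mx j ≤ p.thrN
  mx1 : ∀ j, rk j ≠ 0 → mx j = p.n
  avM : ∀ j o, av j o ≤ p.n
  av0 : ∀ o < 2, av 0 o = p.n
  avf : ∀ j, ∀ o < 2, av (j + 1) o = mx j
  avl : ∀ j, av j (bl j - 1) = mx j
  cv1 : ∀ j, ∀ o < bl j, bs j + o < k → a (bs j + o) ≤ av j o
  cv2 : ∀ j, rk j = 0 → ∀ o < p.w, bs j + bl j + o < k → a (bs j + bl j + o) ≤ mx j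
  cv3 : ∀ j, rk j = 1 → ∀ o < p.w, p.w ≤ o + 2 → bs j + bl j + o < k →
    a (bs j + bl j + o) ≤ p.thr
  til : ∀ j, rk j = 2 → ∀ i, i = j ∨ i = j + 1 → (bl i = p.K ∨ bl i = p.K + 1) ∧
    rk i ≠ 0 ∧ ∃ c < 3, ∀ o < bl i, av i o = p.tc c (bl i) o
  md1 : ∀ g, md g / p.P1 = g ∧ md g % p.P1 ≠ p.P1 - 1
  cov : k + 2 ≤ bs J
  Jk : J ≤ k + 2
  vol : ∀ π < 2, ∑ j ∈ range (J + 1), ∑ o ∈ range (bl j), X.wt π (bs j + o) (av j o) ≤ p.Vb VV
  wr : ∑ j ∈ range (J + 1), (if md (j / p.P1) = j then p.cM else 1) * (1 + mx j) ≤ p.Wb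
  wl : ∑ j ∈ range (J + 1), (if md ((j - 1) / p.P1) + 1 = j then p.cM else 1) * (1 + av j 0) ≤ p.Wb

end Pool.Agent.Work.MP_ede3c6_co.Y
end

-- merged part: Pool.Agent.Work.MP_ede3c6_co.Y.Net
section
/-! The abstract system: classes, bases, units; directions; control values. -/

set_option autoImplicit false

namespace Pool.Agent.Work.MP_ede3c6_co.Y

open Finset Vol

section
variable {C : Type}

/-- parity of a position -/
def par : Kd C → Pos → ZMod 2
  | .oc _, .a1 => 1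
  | .oc _, .a3 => 1
  | .oc _, .b1 => 1
  | .oc _, .b3 => 1
  | .oc _, _ => 0
  | _, .x => 1
  | _, _ => 0

/-- corner of a position -/
def zo : Kd C → Pos → V (Fin 2)
  | .oc _, .a2 => e 0
  | .oc _, .a3 => e 0
  | .oc _, .b1 => e 1
  | .oc _, .b2 => e 1
  | .oc _, .b3 => e 1 + e 0
  | .oc _, .x => e 1 + e 0
  | .two, .x => e 0
  | _, _ => 0

/-- the entry of a base of kind `pre` lies in the layer one -/
def pf : Kd C → Pos → ZMod 2
  | .pre, .s => 1
  | _, _ => 0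

/-- number of vertices of a unit -/
def len (T : ℕ) : Kd C → ℕ
  | .sg => 1
  | .two => 2
  | .pre => 2
  | .oc _ => 5
  | .gad => T + 1

/-- position at time `t` on route `ξ` -/
def ps : Kd C → ZMod 2 → ℕ → Pos
  | .sg, _, _ => .s
  | .oc _, ξ, t => if t = 0 then .s else if t = 1 then (if ξ = 1 then .a1 else .b1) else
      if t = 2 then (if ξ = 1 then .a2 else .b2) else
      if t = 3 then (if ξ = 1 then .a3 else .b3) else .x
  | _, _, t => if t = 0 then .s else .x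

end

/-- Classes, bases and units. -/
structure Net (p : Pm) {η : ℝ} (I : Inn p η) (k : ℕ) (a : ℕ → ℕ) where
  Bs : Type
  Cl : Type
  Un : Type
  ok : Cl → Prop
  ty : Cl → ℕ
  sm : Cl → Prop
  fu : Cl → Prop
  io : Cl → ℕ
  ee : Cl → ℕ
  ll : Cl → ℕ
  us : Cl → ZMod 2
  pr : Cl → ZMod 2
  rz : Cl → ℕ → V (Fin p.nZ)
  kd : Bs → Kd p.Ctl
  top : Bs → Prop
  uo : Bs → Prop
  ui : Bs → Prop
  cl : Bs → ZMod 2 → Cl
  bz : Bs → V (Fin 2)
  bu : Bs → V (Fin p.t)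
  bc : Bs → V (Fin p.mu)
  bg : Bs → V (Fin p.w0)
  bm : Bs → V (Fin p.l0)
  val : Un → Prop
  u0 : Un
  nxt : Un → Un
  idx : Un → ℕ
  bas : Un → Bs
  cp : Un → V (Fin p.kR)
  ft : Un → Prop
  inj : ∀ x y r r', ok x → ok y → (r = 0 ∨ sm x ∧ r ≤ ty x) → (r' = 0 ∨ sm y ∧ r' ≤ ty y) →
    rz x r = rz y r' → ∀ π, (sm x ∧ r = 0 → pr x = π) → (¬ (sm x ∧ r = 0) → pr x + 1 = π) →
    (sm y ∧ r' = 0 → pr y = π) → (¬ (sm y ∧ r' = 0) → pr y + 1 = π) → x = y ∧ r = r'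
  pair : ∀ x y, ok x → ok y → us x = 1 → rz y 0 = rz x 0 → pr y = pr x + 1 → ¬ fu y
  fu1 : ∀ x, ok x → fu x → ¬ sm x ∧ us x = 0 ∧ io x = p.mu ∧ ee x = 0 ∧ ll x = p.kR ∧ ty x ≤ p.thr
  big : ∀ x, ok x → ¬ sm x → ¬ fu x → io x ≤ p.mu - 2 ∧ ee x ≤ p.w0 ∧ ll x ≤ p.kR ∧
    ty x ≤ p.cap (io x) (ee x) (ll x)
  nd1 : ∀ u, val u → ∀ o, np (kd (bas u)) o → ok (cl (bas u) (par (kd (bas u)) o)) ∧
    pr (cl (bas u) (par (kd (bas u)) o)) = pr (cl (bas u) 0) + par (kd (bas u)) o ∧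
    rz (cl (bas u) (par (kd (bas u)) o)) 0 = rz (cl (bas u) 0) 0 ∧
    (¬ sm (cl (bas u) (par (kd (bas u)) o)) →
      Sup (cp u) (ll (cl (bas u) (par (kd (bas u)) o))) p.kR)
  nd2 : ∀ u, val u → ∀ o, np (kd (bas u)) o → sm (cl (bas u) (par (kd (bas u)) o)) →
    kd (bas u) = .sg ∧ bu (bas u) ≠ 0 ∧ bu (bas u) ≠ 1 ∧ bm (bas u) ≠ 0
  nd3 : ∀ u, val u → ∀ o, np (kd (bas u)) o → ¬ sm (cl (bas u) (par (kd (bas u)) o)) →
    bu (bas u) + pf (kd (bas u)) o • 1 = us (cl (bas u) (par (kd (bas u)) o)) • 1 ∧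
    bc (bas u) + pf (kd (bas u)) o • e I.i0 + us (cl (bas u) (par (kd (bas u)) o)) • e I.i0 ∈
      I.Cd (io (cl (bas u) (par (kd (bas u)) o))) ∧
    Sup (bg (bas u)) 0 (ee (cl (bas u) (par (kd (bas u)) o)))
  nd4 : ∀ u, val u → ∀ o, np (kd (bas u)) o → (top (bas u) → fu (cl (bas u) (par (kd (bas u)) o))) ∧
    (fu (cl (bas u) (par (kd (bas u)) o)) → bm (bas u) = 0)
  au : ∀ u u', val u → val u' → ∀ o o', np (kd (bas u)) o → np (kd (bas u')) o' →
    cl (bas u) (par (kd (bas u)) o) = cl (bas u') (par (kd (bas u')) o') →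
    bz (bas u) + zo (kd (bas u)) o = bz (bas u') + zo (kd (bas u')) o' →
    bc (bas u) + pf (kd (bas u)) o • e I.i0 = bc (bas u') + pf (kd (bas u')) o' • e I.i0 →
    bg (bas u) = bg (bas u') → (sm (cl (bas u) (par (kd (bas u)) o)) →
      bu (bas u) = bu (bas u') ∧ bm (bas u) = bm (bas u')) → bas u = bas u' ∧ o = o'
  pre0 : ∀ b, kd b = .pre → bu b = 0 ∧ ¬ top b
  gtop : ∀ b, kd b = .gad → top b
  v0 : val u0
  i0 : idx u0 = 0
  ids : ∀ u, idx (nxt u) = idx u + len p.T (kd (bas u))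
  cov : ∀ u, val u → ¬ val (nxt u) → k + 2 ≤ idx (nxt u)
  cp0 : ∀ u, val u → bm (bas u) = 0 → cp u = 0
  lp : ∀ u, val u → val (nxt u) → pr (cl (bas (nxt u)) 0) =
    pr (cl (bas u) 0) + par (kd (bas u)) (ex (kd (bas u))) + 1
  nf : ∀ u, val u → val (nxt u) → ¬ ft u → cp (nxt u) = cp u ∧ bm (bas (nxt u)) = bm (bas u) ∧
    bu (bas u) + (bu (bas (nxt u)) + pf (kd (bas (nxt u))) .s • 1) ≠ 1
  ff : ∀ u, val u → val (nxt u) → ft u → kd (bas u) = .sg ∧ kd (bas (nxt u)) = .sg ∧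
    rz (cl (bas (nxt u)) 0) 0 = rz (cl (bas u) 0) 0 ∧ bz (bas (nxt u)) = bz (bas u) ∧
    bu (bas (nxt u)) = bu (bas u) + 1 ∧ bc (bas (nxt u)) = bc (bas u) + e I.i0
  fo : ∀ u, val u → val (nxt u) → ft u → ¬ uo (bas u) ∧ ¬ ui (bas (nxt u))
  huo : ∀ u u', val u → val u' → val (nxt u) → val (nxt u') → bas u = bas u' → uo (bas u) →
    bas (nxt u) = bas (nxt u')
  hui : ∀ u u', val u → val u' → val (nxt u) → val (nxt u') → bas (nxt u) = bas (nxt u') →
    ui (bas (nxt u)) → bas u = bas u'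
  ui0 : ¬ ui (bas u0)
  r0 : ∀ u, val u → val (nxt u) → bas u ≠ bas (nxt u)
  r5 : ∀ u u', val u → val u' → val (nxt u) → val (nxt u') → bas (nxt u) = bas u' →
    bas (nxt u') ≠ bas u
  r1 : ∀ u, val u → val (nxt u) → top (bas u) ∨ top (bas (nxt u)) → uo (bas u) ∨ ui (bas (nxt u))
  r2 : ∀ u u', val u → val u' → val (nxt u) → val (nxt u') → bas (nxt u) = bas u' →
    top (bas u) → top (bas (nxt u')) → kd (bas u') = .sg → uo (bas u) ∨ ui (bas (nxt u'))
  r3 : ∀ u c, val u → val (nxt u) → top (bas u) → kd (bas u) = .oc c → ui (bas (nxt u))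
  r4 : ∀ u c, val u → val (nxt u) → kd (bas (nxt u)) = .oc c → uo (bas u)
  r6 : ∀ u, val u → val (nxt u) → kd (bas (nxt u)) = .pre → kd (bas u) = .sg
  r7 : ∀ b b', kd b = .gad → kd b' = .gad → b = b'
  dem : ∀ u, val u → ¬ top (bas u) → ∀ t < len p.T (kd (bas u)), idx u + t < k →
    ∀ o, np (kd (bas u)) o → a (idx u + t) ≤ ty (cl (bas u) (par (kd (bas u)) o))

namespace Pm
variable (p : Pm)

/-- a spacer as a control coordinate -/
def cS (y : p.Sp) : p.Ctl := Sum.inr (Sum.inr (Sum.inr y))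

/-- final values of the spacers -/
def finS : V p.Sp := Sum.elim (fun _ => 1) fun i => if i = 2 then (p.r : ZMod 2) else 1

/-- change of the control coordinates in the gadget -/
def finV : V p.Ctl := Sum.elim 0 (Sum.elim 0 (Sum.elim 0 p.finS))

/-- the control coordinates that are changed in the gadget -/
def fin : Finset p.Ctl := {c | p.finV c = 1}

theorem fin5 : 5 ≤ p.fin.card := by
  have h : Function.Injective fun y : Fin 2 × Fin 3 =>
      p.cS (Sum.inl (Fin.castLE (by unfold r; omega) y.1, y.2)) := fun y z q => by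
    simp only [cS, Sum.inr.injEq, Sum.inl.injEq, Prod.mk.injEq, Fin.castLE_inj] at q
    exact Prod.ext q.1 q.2
  refine le_trans (by simp) ((card_image_of_injective univ h).symm.le.trans
    (card_le_card fun c hc => ?_))
  obtain ⟨y, -, rfl⟩ := mem_image.1 hc
  exact mem_filter.2 ⟨mem_univ _, rfl⟩

/-- every row of flags is nonzero -/
def Good (Y : V p.Ctl) : Prop := ∀ a, ∃ b, Y (Sum.inr (Sum.inl (a, b))) = 1

/-- label of a fat direction -/
def lamF (d : p.FD) : p.Lab := (0, 0, d.1, e d.2.1, d.2.2.1, d.2.2.2.1, d.2.2.2.2, 1)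

/-- a shift of the high bits -/
def hi (β : V (Fin p.kR)) : p.Lab := (0, 0, 0, 0, 0, 0, β, 0)

end Pm

namespace Net
variable {p : Pm} {η : ℝ} {I : Inn p η} {k : ℕ} {a : ℕ → ℕ} (N : Net p I k a)

/-- special directions -/
abbrev Sd : Type := SD N.Bs p.Ctl (N.Cl × ℕ)
/-- formal vectors -/
abbrev Fv : Type := FV N.Bs p.Ctl (N.Cl × ℕ)

/-- bases in use -/
def used (b : N.Bs) : Prop := ∃ u, N.val u ∧ N.bas u = b

/-- adjacent bases -/
def Ed (b b' : N.Bs) : Prop :=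
  ∃ u, N.val u ∧ N.val (N.nxt u) ∧ ¬ N.ft u ∧ N.bas u = b ∧ N.bas (N.nxt u) = b'

/-- class of a node -/
def nc (b : N.Bs) (o : Pos) : N.Cl := N.cl b (par (N.kd b) o)

/-- formal label of a node -/
noncomputable def fN (b : N.Bs) (o : Pos) : N.Fv := ug (.g b) + off p.fin b (N.kd b) o

/-- formal label of a special direction -/
noncomputable def fD : N.Sd → N.Fv
  | .pr b b' => N.fN b (ex (N.kd b)) + N.fN b' .s
  | .d1 b => ug (.d1 b)
  | .d2 b => ug (.d2 b)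
  | .ct c => fc c
  | .cm c i => ug (.cm c i)
  | .lf y => ug (.lf y)

/-- special directions in use -/
def InS : N.Sd → Prop
  | .pr b b' => N.Ed b b'
  | .d1 b => N.used b
  | .d2 b => N.used b
  | .ct _ => True
  | .cm _ _ => True
  | .lf y => N.ok y.1 ∧ N.sm y.1 ∧ 1 ≤ y.2 ∧ y.2 ≤ N.ty y.1

/-- label of a node -/
noncomputable def lab (La : N.Fv →+ V (Fin p.kR)) (b : N.Bs) (o : Pos) : p.Lab :=
  (N.rz (N.cl b 0) 0, N.bz b + zo (N.kd b) o, N.bu b + pf (N.kd b) o • 1,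
    N.bc b + pf (N.kd b) o • e I.i0, N.bg b, N.bm b, La (N.fN b o), N.pr (N.cl b 0) + par (N.kd b) o)

/-- label of a special direction -/
noncomputable def lamS (La : N.Fv →+ V (Fin p.kR)) : N.Sd → p.Lab
  | .pr b b' => N.lab La b (ex (N.kd b)) + N.lab La b' .s
  | .d1 b => (0, e 0, 0, 0, 0, 0, La (ug (.d1 b)), 1)
  | .d2 b => (0, e 1, 0, 0, 0, 0, La (ug (.d2 b)), 1)
  | .ct c => (0, 0, 0, 0, 0, 0, La (fc c), 1)
  | .cm c i => (0, 0, 0, 0, 0, 0, La (ug (.cm c i)), 1)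
  | .lf y => (N.rz y.1 0 + N.rz y.1 y.2, 0, 0, 0, 0, 0, La (ug (.lf y)), 1)

/-- every visit of the node leaves it, or every visit enters it, in the direction `h` -/
def Det (b : N.Bs) (o : Pos) (h : N.Sd) : Prop :=
  nx b (N.kd b) o = some h ∨ pv b (N.kd b) o = some h ∨
    (o = ex (N.kd b) ∧ N.uo b ∧ ∃ b', h = .pr b b' ∧ N.Ed b b') ∨
    (o = .s ∧ N.ui b ∧ ∃ b', h = .pr b' b ∧ N.Ed b' b)

/-- inner times of the gadget -/
def Int (u : N.Un) (t : ℕ) : Prop := N.kd (N.bas u) = .gad ∧ 0 < t ∧ t < p.T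

end Net

/-- The directions of the cube, the generic map, a basis and the global coordinates. -/
structure Dirs {p : Pm} {η : ℝ} {I : Inn p η} {k : ℕ} {a : ℕ → ℕ} (N : Net p I k a) where
  La : N.Fv →+ V (Fin p.kR)
  raw : Fin p.n → p.FD ⊕ N.Sd
  dr : p.FD ⊕ N.Sd → Fin p.n
  inF : p.FD → Prop
  fe : ℕ → p.FD
  G : ℕ
  nb : ℕ
  gl : Fin G → Fin p.n
  bl : ℕ → Fin p.n
  Bg : Fin G → Finset ℕ
  enc : Fin G → V (Fin p.s)
  rinj : Function.Injective raw
  rdr : ∀ y, Sum.elim inF N.InS y → raw (dr y) = y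
  rin : ∀ h, Sum.elim inF N.InS (raw h)
  f1 : ∀ d, inF d → d.1 ≠ 0 ∧ (d.2.2.2.1 ≠ 0 ∨ d.1 = 1)
  f2 : ∀ d : p.FD, d.1 ≠ 0 → (d.2.2.2.1 ≠ 0 ∨ d.1 = 1) → (d.2.1 : ℕ) < p.mu - 2 → inF d
  fe1 : ∀ m < p.thr, inF (fe m)
  fe2 : ∀ m < p.thr, ∀ m' < p.thr, fe m = fe m' → m = m'
  g1 : ∀ h h', N.InS h → N.InS h' → La (N.fD h + N.fD h') = 0 → N.fD h + N.fD h' = 0
  g2 : ∀ b b' o o' h, N.used b → N.used b' → N.InS h → La (N.fN b o + N.fN b' o' + N.fD h) = 0 →
    N.fN b o + N.fN b' o' + N.fD h = 0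
  g3 : ∀ b b' o o' h h', N.used b → N.used b' → N.InS h → N.InS h' →
    La (N.fN b o + N.fN b' o' + N.fD h + N.fD h') = 0 →
    N.fN b o + N.fN b' o' + N.fD h + N.fD h' = 0
  G1 : p.G0 ≤ G
  G2 : G ≤ p.n
  nb1 : nb ≤ p.nL
  gli : Function.Injective gl
  enci : Function.Injective enc
  glc : ∀ g c, raw (gl g) ≠ .inr (.ct c)
  blc : ∀ i < nb, ∀ c, raw (bl i) ≠ .inr (.ct c)
  gb : ∀ g, ∀ i < nb, gl g ≠ bl i
  bli : ∀ i < nb, ∀ j < nb, bl i = bl j → i = j
  cvr : ∀ h, (∃ c, raw h = .inr (.ct c)) ∨ (∃ g, h = gl g) ∨ ∃ i < nb, h = bl i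
  ind : ∀ S ⊆ range nb, ∑ i ∈ S, Sum.elim p.lamF (N.lamS La) (raw (bl i)) = 0 → S = ∅
  Bg1 : ∀ g, Bg g ⊆ range nb
  spn : ∀ g, Sum.elim p.lamF (N.lamS La) (raw (gl g)) =
    ∑ i ∈ Bg g, Sum.elim p.lamF (N.lamS La) (raw (bl i))

namespace Dirs
variable {p : Pm} {η : ℝ} {I : Inn p η} {k : ℕ} {a : ℕ → ℕ} {N : Net p I k a} (D : Dirs N)

/-- label of a direction -/
noncomputable def lam (h : Fin p.n) : p.Lab := Sum.elim p.lamF (N.lamS D.La) (D.raw h)

/-- a special direction as a direction of the cube -/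
def sd (h : N.Sd) : Fin p.n := D.dr (.inr h)

/-- a fat direction as a direction of the cube -/
def fd (d : p.FD) : Fin p.n := D.dr (.inl d)

/-- label of a point -/
noncomputable def phi (x : V (Fin p.n)) : p.Lab := ∑ h, x h • D.lam h

/-- control coordinates of a point -/
def cv (x : V (Fin p.n)) : V p.Ctl := fun c => x (D.sd (.ct c))

/-- global coordinates of a point -/
def gv (x : V (Fin p.n)) : V (Fin D.G) := fun g => x (D.gl g) +
  match D.raw (D.gl g) with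
  | .inr (.cm c _) => D.cv x c
  | _ => 0

/-- the special steps of the first route of the gadget -/
def xs (g : Fin D.G) (i : ℕ) : Fin p.n :=
  if i = 0 then D.gl g else if i - 1 ∈ D.Bg g then D.bl (i - 1) else D.sd (.ct (p.cS (.inr 2)))

/-- the steps of the gadget -/
def gd (ξ : ZMod 2) (g : Fin D.G) (t : ℕ) : Fin p.n :=
  if t = 0 then D.sd (.ct (p.cS (.inr (if ξ = 1 then 0 else 1)))) else
  if t + 1 = p.T then D.sd (.ct (p.cS (.inr (if ξ = 1 then 1 else 0)))) else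
  if h : (t - 1) / 4 < p.r + 1 ∧ (t - 1) % 4 < 3 then
    D.sd (.ct (p.cS (.inl (⟨_, h.1⟩, ⟨_, h.2⟩)))) else
  if ξ = 1 then D.xs g ((t - 1) / 4) else D.sd (.ct (p.cS (.inr 2)))

/-- the inner steps of a unit -/
def inn (b : N.Bs) (ξ : ZMod 2) (g : Fin D.G) (t : ℕ) : Fin p.n :=
  match N.kd b with
  | .oc c => D.sd (if ξ = 1 then (if t = 0 then .ct c else if t = 1 then .d1 b else
      if t = 2 then .cm c 0 else .d2 b) else (if t = 0 then .d2 b else if t = 1 then .cm c 1 else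
      if t = 2 then .d1 b else .cm c 2))
  | .gad => D.gd ξ g t
  | .pre => D.fd (1, I.i0, 0, 0, 0)
  | _ => D.sd (.d1 b)

/-- sum of the first inner steps -/
def pfx (b : N.Bs) (ξ : ZMod 2) (g : Fin D.G) (t : ℕ) : V (Fin p.n) :=
  ∑ i ∈ range t, e (D.inn b ξ g i)

open Classical in
/-- the step from a unit to the next one -/
noncomputable def lk (u : N.Un) : Fin p.n :=
  if N.ft u then D.fd (1, I.i0, N.bg (N.bas u) + N.bg (N.bas (N.nxt u)),
    N.bm (N.bas u) + N.bm (N.bas (N.nxt u)), D.La (N.fN (N.bas u) .s) + N.cp u +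
      (D.La (N.fN (N.bas (N.nxt u)) .s) + N.cp (N.nxt u)))
  else D.sd (.pr (N.bas u) (N.bas (N.nxt u)))

/-- change of the global coordinates along the second route of a base -/
def fB (b : N.Bs) (g : Fin D.G) : V (Fin D.G) := D.gv (D.pfx b 0 g (len p.T (N.kd b) - 1))

open Classical in
/-- direction of a leaf of a node that is not top -/
noncomputable def ld (b : N.Bs) (o : Pos) (m : ℕ) : Fin p.n :=
  if N.sm (N.nc b o) then D.sd (.lf (N.nc b o, m + 1)) else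
  if N.fu (N.nc b o) then D.fd (D.fe m) else
  D.fd (I.en (N.io (N.nc b o)) (N.ee (N.nc b o)) (N.ll (N.nc b o)) (N.bm b) m)

/-- label of a node in the copy of a unit -/
noncomputable def nl (u : N.Un) (o : Pos) : p.Lab := N.lab D.La (N.bas u) o + p.hi (N.cp u)

end Dirs

/-- change of the control coordinates in a unit -/
def dC {p : Pm} (ξ : ZMod 2) : Kd p.Ctl → V p.Ctl
  | .oc c => ξ • e c
  | .gad => p.finV
  | _ => 0

/-- change of the global coordinates by the choice of the route -/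
def dG {C : Type} {G : ℕ} (ξ : ZMod 2) (g : Fin G) : Kd C → V (Fin G)
  | .gad => ξ • e g
  | _ => 0

/-- The routes and the values of the control and global coordinates. -/
structure Ctr {p : Pm} {η : ℝ} {I : Inn p η} {k : ℕ} {a : ℕ → ℕ} {N : Net p I k a}
    (D : Dirs N) where
  CV : N.Un → V p.Ctl
  GV : N.Un → V (Fin D.G)
  xi : N.Un → ZMod 2
  gg : N.Un → Fin D.G
  c1 : ∀ u, N.val u → CV (N.nxt u) = CV u + dC (xi u) (N.kd (N.bas u))
  c2 : ∀ u, N.val u → N.val (N.nxt u) → GV (N.nxt u) =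
    GV u + D.fB (N.bas u) (gg u) + dG (xi u) (gg u) (N.kd (N.bas u)) + D.gv (e (D.lk u))
  me : ∀ u u', N.val u → N.val u' → N.bas u = N.bas u' → N.cp u = N.cp u' → ¬ N.ui (N.bas u) →
    CV u = CV u' → GV u = GV u' → u = u'
  mx : ∀ u u', N.val u → N.val u' → N.bas u = N.bas u' → N.cp u = N.cp u' →
    (N.kd (N.bas u) = .gad ∨ ∃ c, N.kd (N.bas u) = .oc c) → CV (N.nxt u) = CV (N.nxt u') →
    GV u + dG (xi u) (gg u) (N.kd (N.bas u)) = GV u' + dG (xi u') (gg u') (N.kd (N.bas u')) →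
    u = u'
  fl : ∀ u, N.val u → N.kd (N.bas u) ≠ .gad → ∀ Y, Y = CV u ∨ Y = CV (N.nxt u) → p.Good Y ∨
    (N.top (N.bas u) ∧ ((∀ y, Y (p.cS y) = 0) ∨ ∀ y, Y (p.cS y) = p.finS y))
  gd : ∀ u, N.val u → N.kd (N.bas u) = .gad → (∀ y, CV u (.inr (.inl y)) = 0) ∧
    (∀ y, CV u (.inr (.inr (.inl y))) = D.enc (gg u) y.2) ∧ ∀ y, CV u (p.cS y) = 0

namespace Ctr
variable {p : Pm} {η : ℝ} {I : Inn p η} {k : ℕ} {a : ℕ → ℕ} {N : Net p I k a} {D : Dirs N}
  (C : Ctr D)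

/-- inner step of a unit on its route -/
def ir (u : N.Un) (t : ℕ) : Fin p.n := D.inn (N.bas u) (C.xi u) (C.gg u) t

/-- sum of the first inner steps of a unit on its route -/
def px (u : N.Un) (t : ℕ) : V (Fin p.n) := D.pfx (N.bas u) (C.xi u) (C.gg u) t

/-- control values at time `t` of a unit -/
def yv (u : N.Un) (t : ℕ) : V p.Ctl := C.CV u + D.cv (C.px u t)

end Ctr

end Pool.Agent.Work.MP_ede3c6_co.Y
end

-- merged part: Pool.Agent.Work.MP_ede3c6_co.Y.Shp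
section
/-! The shape of the sequence of units: blocks, short windows and long windows. -/

set_option autoImplicit false

namespace Pool.Agent.Work.MP_ede3c6_co.Y

open Finset Vol

open Classical in
/-- the ruler: the local control that is switched at time `j` -/
noncomputable def ru (d j : ℕ) : Option (Fin d × Fin 2) :=
  if h : ∃ c : Fin d × Fin 2, j % 2 ^ ((c.1 : ℕ) + 2) = X.rl c.1 c.2 then some h.choose else none

theorem ru_eq {d j : ℕ} {c : Fin d × Fin 2} :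
    ru d j = some c ↔ j % 2 ^ ((c.1 : ℕ) + 2) = X.rl c.1 c.2 := by
  unfold ru
  split_ifs with h
  · refine ⟨fun q => Option.some.inj q ▸ h.choose_spec, fun q => ?_⟩
    obtain ⟨h1, h2⟩ := X.rl_inj h.choose_spec q
    exact congrArg some (Prod.ext (Fin.ext h1) h2)
  · exact ⟨fun q => absurd q (by simp), fun q => absurd ⟨c, q⟩ h⟩

/-- number of `i < j` with `i % D = r` -/
def iv (D r j : ℕ) : ℕ := (j + D - 1 - r) / D

theorem iv_succ {D r : ℕ} (h : r < D) (j : ℕ) :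
    iv D r (j + 1) = iv D r j + if j % D = r then 1 else 0 := X.div_step j D r h

namespace Pm
variable (p : Pm)

/-- the default control -/
def zc : p.Ctl := p.cS (.inr 2)

/-- rank control of octagon `y` -/
def cR (y : ℕ) : p.Ctl :=
  if h : y - 1 < p.hh then .inl (.inl (.inl ⟨_, h⟩)) else
  if h : y - 1 - p.hh < p.hh then .inl (.inl (.inr ⟨_, h⟩)) else p.zc

/-- numbering of selector and spacer coordinates -/
noncomputable def eR : p.Rh ≃ Fin p.nR := Fintype.equivFinOfCardEq (by simp [nR])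

/-- numbering of flags -/
noncomputable def eF : Fin 3 × Fin p.m1 ≃ Fin p.nF := Fintype.equivFinOfCardEq (by simp [nF])

/-- selector or spacer coordinate number `i` -/
noncomputable def cH (i : ℕ) : p.Ctl :=
  if h : i < p.nR then .inr (.inr (p.eR.symm ⟨i, h⟩)) else p.zc

/-- flag number `i` -/
noncomputable def cF (i : ℕ) : p.Ctl :=
  if h : i < p.nF then .inr (.inl (p.eF.symm ⟨i, h⟩)) else p.zc

/-- kinds in a short window -/
def kS (o1 : Option (Fin p.d1 × Fin 2)) (o2 : Option (Fin p.d2 × Fin 2)) (y : ℕ) : Kd p.Ctl :=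
  if y = 0 ∨ p.M < y then .sg else if y ≤ 2 * p.hh then .oc (p.cR y) else
  if y = 2 * p.hh + 1 then .oc (o1.elim p.zc fun c => .inl (.inr (.inl c))) else
  .oc (o2.elim p.zc fun c => .inl (.inr (.inr c)))

/-- kinds in a long window -/
noncomputable def kL (y : ℕ) : Kd p.Ctl :=
  if y = 0 ∨ p.LU ≤ y + 1 then .sg else if y ≤ 2 * p.hh then .oc (p.cR y) else
  if y ≤ 2 * p.hh + p.nR then .oc (p.cH (y - (2 * p.hh + 1))) else
  if y < p.xg then .oc (p.cF (y - (2 * p.hh + p.nR + 1))) else if y = p.xg then .gad else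
  if y ≤ p.xg + p.nF then .oc (p.cF (y - (p.xg + 1))) else .oc (p.cH (y - (p.xg + p.nF + 1)))

end Pm

namespace Seg
variable {p : Pm} {k : ℕ} {a : ℕ → ℕ} {VV : ℕ} (S : Seg p k a VV)

/-- kind of the window before a block -/
def lk (j : ℕ) : ℕ := if j = 0 then 1 else S.rk (j - 1)

/-- units of a block -/
def nb (j : ℕ) : ℕ := S.bl j - 1

/-- units of a segment -/
def nu (j : ℕ) : ℕ := S.nb j + if S.rk j = 3 then p.LU else p.M + 3

/-- coordinates of the next unit -/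
def nx (z : ℕ × ℕ) : ℕ × ℕ := if z.2 + 1 = S.nu z.1 then (z.1 + 1, 0) else (z.1, z.2 + 1)

/-- second local control of a junction -/
noncomputable def c2 (j : ℕ) : Option (Fin p.d2 × Fin 2) :=
  if S.md (j / p.P1) = j then ru p.d2 (j / p.P1) else none

/-- number of medium junctions before `j` -/
def mc (j : ℕ) : ℕ := j / p.P1 + if S.md (j / p.P1) < j then 1 else 0

/-- kind of unit `x` of segment `j` -/
noncomputable def kj (j x : ℕ) : Kd p.Ctl :=
  if x = 0 then (if S.lk j = 0 then .pre else .two) else if x < S.nb j then .sg else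
  if S.rk j = 3 then p.kL (x - S.nb j) else p.kS (ru p.d1 (j % 2 ^ (p.d1 + 1))) (S.c2 j) (x - S.nb j)

end Seg

open Classical in
/-- The units of a system follow the segmentation. -/
structure Shp {p : Pm} {η : ℝ} {I : Inn p η} {k : ℕ} {a : ℕ → ℕ} {VV : ℕ} (N : Net p I k a)
    (S : Seg p k a VV) where
  un : ℕ → ℕ → N.Un
  co : N.Un → ℕ × ℕ
  vu : ∀ u, N.val u → (co u).1 < S.J ∧ (co u).2 < S.nu (co u).1 ∧ un (co u).1 (co u).2 = u
  uv : ∀ j < S.J, ∀ x < S.nu j, N.val (un j x) ∧ co (un j x) = (j, x)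
  nx : ∀ u, N.val u → co (N.nxt u) = S.nx (co u)
  n1 : ∀ j < S.J, ∀ x, x + 1 < S.nu j → N.nxt (un j x) = un j (x + 1)
  kd : ∀ j < S.J, ∀ x < S.nu j, N.kd (N.bas (un j x)) = S.kj j x
  ui : ∀ j < S.J, ∀ x < S.nu j, ¬ N.ui (N.bas (un j x)) →
    x = 0 ∨ (S.rk j = 3 ∧ x = S.nb j) ∨ (S.rk j ≠ 3 ∧ S.nb j + p.M < x)
  sb : ∀ j < S.J, ∀ x < S.nu j, ∀ j' < S.J, ∀ x' < S.nu j', N.bas (un j x) = N.bas (un j' x') →
    (x < S.nb j ∧ x' < S.nb j' ∧ x = x') ∨
      ∃ y, x = S.nb j + y ∧ x' = S.nb j' + y ∧ (S.rk j = 3 ↔ S.rk j' = 3)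
  lb : ∀ j < S.J, ∀ j' < S.J, S.rk j = 3 → S.rk j' = 3 → ∀ y < p.LU,
    N.bas (un j (S.nb j + y)) = N.bas (un j' (S.nb j' + y))
  lt : ∀ j < S.J, S.rk j = 3 → ∀ y < p.LU,
    N.top (N.bas (un j (S.nb j + y))) ∧ ¬ N.ft (un j (S.nb j + y))
  l0 : ∀ b β, #{j ∈ range S.J | N.bas (un j 0) = b ∧ N.cp (un j 0) = β} ≤ p.L0 * p.Q
  l1 : ∀ y ≤ p.M + 2, ∀ b β, #{j ∈ range S.J | S.rk j ≠ 3 ∧ N.bas (un j (S.nb j + y)) = b ∧
    N.cp (un j (S.nb j + y)) = β} ≤ p.Q

end Pool.Agent.Work.MP_ede3c6_co.Y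
end

-- merged part: Pool.Agent.Work.MP_ede3c6_co.Y.Cx
section
/-! Block types, tracks, groups, classes, bases and the allocation. -/

set_option autoImplicit false

namespace Pool.Agent.Work.MP_ede3c6_co.Y

open Finset Vol

/-- The data of the construction. -/
structure Cx where
  p : Pm
  η : ℝ
  I : Inn p η
  k : ℕ
  a : ℕ → ℕ
  VV : ℕ
  S : Seg p k a VV
  ok : p.Ok
  η0 : 0 ≤ η
  fit : p.Fit η VV

/-- groups: each one owns a zone in both parities -/
inductive Gr (P : Type) : Type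
  | hd (B z : ℕ) | cn (B y z : ℕ) | qs (B z : ℕ) | pq (g : P) (z : ℕ) | lg (y : ℕ)

/-- bases -/
inductive Ba (P O W : Type) : Type
  | blk (B f y : ℕ) | con (B f v y : ℕ) (o : O) | qs (B f v : ℕ)
  | pq (g : P) (z : ℕ) (γ : W) (π : ZMod 2) | lg (y : ℕ)

namespace Cx
variable (x : Cx)

/-- type of a position of a block -/
def ta (j o : ℕ) : ℕ := x.I.rd (x.S.av j o)

/-- type of the last position of a block -/
def tl (j : ℕ) : ℕ := x.ta j (x.S.bl j - 1)

/-- level of a block -/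
def lv (j : ℕ) : ℕ := (range (x.S.bl j)).sup fun o => x.I.lev (x.ta j o) - x.p.w0

/-- blocks with a full type -/
def Sb (j : ℕ) : Prop := ∃ o < x.S.bl j, x.p.thrN < x.ta j o

/-- the junction after the block is medium -/
def rm (j : ℕ) : Prop := x.S.md (j / x.p.P1) = j

/-- the junction before the block is medium -/
def lm (j : ℕ) : Prop := x.S.md ((j - 1) / x.p.P1) + 1 = j

/-- blocks of the same type -/
structure Same (j j' : ℕ) : Prop where
  jm : j % 2 ^ (x.p.d1 + 1) = j' % 2 ^ (x.p.d1 + 1)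
  bl : x.S.bl j = x.S.bl j'
  bs : x.S.bs j % 2 = x.S.bs j' % 2
  lk : x.S.lk j = x.S.lk j'
  rk : x.S.rk j = x.S.rk j'
  lm : x.lm j ↔ x.lm j'
  rm : x.rm j ↔ x.rm j'
  l1 : x.lv (j - 1) = x.lv (j' - 1)
  l2 : x.lv (j + 1) = x.lv (j' + 1)
  ta : ∀ o < x.S.bl j, x.ta j o = x.ta j' o

/-- the first block of the same type -/
noncomputable def bt (j : ℕ) : ℕ := sInf {i | x.Same i j}

/-- the track of a block -/
noncomputable def tr (j : ℕ) : ℕ := #{i ∈ range j | x.bt i = x.bt j} / (x.p.L0 * x.p.Q)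

/-- copies of a bundle -/
def wd (j : ℕ) : ℕ := 2 ^ (x.p.kR - x.lv j)

/-- the bundle of a block -/
noncomputable def ff (j : ℕ) : ℕ := x.tr j / x.wd j

/-- the copy of a block -/
noncomputable def cp (j : ℕ) : V (Fin x.p.kR) := x.I.hv (x.lv j) (x.tr j % x.wd j)

open Classical in
/-- middle bits of a bundle -/
noncomputable def mu (B f : ℕ) : V (Fin x.p.l0) :=
  if x.Sb B then 0 else x.I.mv (f % (2 ^ x.p.l0 - 1))

/-- low bits of the addresses -/
def ee (τ l : ℕ) : ℕ := x.p.w0 + l - max (x.I.lev τ) l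

/-- number of addresses -/
def mm (τ l : ℕ) : ℕ := (x.I.Cd (x.I.io τ)).card * 2 ^ x.ee τ l

/-- small classes -/
def sm (τ l : ℕ) : Prop := τ < x.p.aS ∧ l = 0

instance (τ l : ℕ) : Decidable (x.sm τ l) := inferInstanceAs (Decidable (_ ∧ _))

/-- capacity of a single class -/
def cs (τ l : ℕ) : ℕ := if x.sm τ l then x.p.ms else 4 * x.mm τ l

/-- types of blocks that occur -/
noncomputable def BB : Finset ℕ := (range (x.S.J + 1)).image x.bt

/-- blocks of a type -/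
noncomputable def NB (B : ℕ) : ℕ := #{j ∈ range (x.S.J + 1) | x.bt j = B}

/-- bundles of a type -/
noncomputable def FB (B : ℕ) : ℕ := x.NB B / (x.p.L0 * x.p.Q * x.wd B) + 1

/-- total demand at a position of a type -/
noncomputable def W (B o : ℕ) : ℕ := ∑ j ∈ range (x.S.J + 1) with x.bt j = B, x.S.av j o

/-- weight in units of zones -/
noncomputable def Z (w : ℝ) : ℝ := (1 + x.η) * w / (x.p.L0 * x.p.Q * x.p.U)

/-- pair groups -/
abbrev PG : Type := ℕ × ZMod 2 × ℕ × ℕ × V (Fin x.p.l0) × V (Fin x.p.l0)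

/-- the pair group of a junction -/
noncomputable def pgj (j : ℕ) : x.PG := (x.tl j, ((x.S.bs j + x.S.bl j + x.p.M + 1 : ℕ) : ZMod 2),
  x.lv j, x.lv (j + 1), x.mu j (x.ff j), x.mu (j + 1) (x.ff (j + 1)))

/-- classes -/
abbrev Cl : Type := (ℕ × ℕ × ℕ) ⊕ (Gr x.PG × ZMod 2)

/-- bases -/
abbrev Bs : Type := Ba x.PG (Option (Fin x.p.d2 × Fin 2)) (V (Fin x.p.w0))

/-- type of a class -/
def ct : x.Cl → ℕ
  | .inl c => x.ta c.1 (c.2.1 + 1)
  | .inr (.hd B _, _) => x.ta B 1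
  | .inr (.cn B _ _, _) => x.tl B
  | .inr (.qs B _, _) => x.ta B 1
  | .inr (.pq g _, _) => g.1
  | .inr (.lg _, _) => x.p.n

/-- level of a class -/
def cv : x.Cl → ℕ
  | .inl c => x.lv c.1
  | .inr (.hd B _, _) => x.lv B
  | .inr (.cn B _ _, _) => x.lv B
  | .inr (.qs B _, _) => x.lv B
  | .inr (.pq g _, π) => if π = 0 then g.2.2.1 else g.2.2.2.1
  | .inr (.lg _, _) => x.p.kR

/-- small classes -/
def csm : x.Cl → Prop
  | .inl c => x.sm (x.ta c.1 (c.2.1 + 1)) (x.lv c.1)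
  | .inr _ => False

/-- layer of a class -/
def cus : x.Cl → ZMod 2
  | .inr (.hd B _, π) => if x.S.lk B = 0 then π + 1 else 0
  | .inr (.pq _ _, π) => π
  | _ => 0

/-- parity of a class -/
def cpr : x.Cl → ZMod 2
  | .inl c => ((x.S.bs c.1 + c.2.1 + 1 : ℕ) : ZMod 2)
  | .inr (.hd B _, π) => (x.S.bs B : ZMod 2) + π
  | .inr (.cn B y _, π) => ((x.S.bs B + x.S.bl B + y : ℕ) : ZMod 2) + π
  | .inr (.qs B _, π) => ((x.S.bs B + 1 : ℕ) : ZMod 2) + π
  | .inr (.pq g _, π) => g.2.1 + π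
  | .inr (.lg y, π) => ((if y ≤ x.p.xg then y else y + 1 : ℕ) : ZMod 2) + π

/-- the single class of unit `y` of block `j` -/
noncomputable def sc (j y : ℕ) : ℕ × ℕ × ℕ :=
  (x.bt j, y, x.ff j / x.cs (x.ta j (y + 1)) (x.lv j))

/-- single classes in use -/
def okS (c : ℕ × ℕ × ℕ) : Prop := ∃ j < x.S.J, ∃ y, 1 ≤ y ∧ y < x.S.nb j ∧ c = x.sc j y

/-- resource `r` of the single class `c` has parity `π` -/
def Res (π : ZMod 2) (c : ℕ × ℕ × ℕ) (r : ℕ) : Prop :=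
  x.okS c ∧ (r = 0 ∨ x.csm (.inl c) ∧ r ≤ x.ct (.inl c)) ∧
    (x.csm (.inl c) ∧ r = 0 → x.cpr (.inl c) = π) ∧
    (¬ (x.csm (.inl c) ∧ r = 0) → x.cpr (.inl c) + 1 = π)

/-- groups in use -/
def okG (kx qx pz : ℕ → ℕ) (γ : Gr x.PG) : Prop := ∃ j < x.S.J,
  γ = .hd (x.bt j) (x.ff j / x.mm (x.ta j 1) (x.lv j)) ∨
  (x.S.rk j ≠ 3 ∧ ∃ y ≤ x.p.M + 2, γ = .cn (x.bt j) y (kx j / x.mm (x.tl j) (x.lv j))) ∨
  (x.S.rk j = 1 ∧ γ = .qs (x.bt (j + 1)) (qx j / x.mm (x.ta (j + 1) 1) (x.lv (j + 1)))) ∨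
  (x.S.rk j = 0 ∧ γ = .pq (x.pgj j) (pz j)) ∨ ∃ y < x.p.LU, γ = .lg y

open Classical in
/-- numbering of the branches of the short windows -/
structure KX (kx : ℕ → ℕ) : Prop where
  k1 : ∀ j < x.S.J, ∀ j' < x.S.J, x.S.rk j ≠ 3 → x.bt j = x.bt j' → kx j = kx j' →
    x.ff j = x.ff j' ∧ x.S.c2 j = x.S.c2 j' ∧
      (x.S.rk j = 2 → x.bt (j + 1) = x.bt (j' + 1) ∧ x.ff (j + 1) = x.ff (j' + 1))
  k2 : ∀ B v β, #{j ∈ range x.S.J | x.S.rk j ≠ 3 ∧ x.bt j = B ∧ kx j = v ∧ x.cp j = β} ≤ x.p.Q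

open Classical in
/-- numbering of the last units of the windows with a switch edge -/
structure QX (qx : ℕ → ℕ) : Prop where
  q1 : ∀ j < x.S.J, ∀ j' < x.S.J, x.S.rk j = 1 → x.S.rk j' = 1 → x.bt (j + 1) = x.bt (j' + 1) →
    qx j = qx j' → x.ff (j + 1) = x.ff (j' + 1)
  q2 : ∀ B v, #{j ∈ range x.S.J | x.S.rk j = 1 ∧ x.bt (j + 1) = B ∧ qx j = v} ≤ x.p.Q

open Classical in
/-- places of the last two units of the low windows -/
structure PX (pz : ℕ → ℕ) (pg qg : ℕ → V (Fin x.p.w0)) : Prop where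
  p1 : ∀ j < x.S.J, x.S.rk j = 0 → Sup (pg j) 0 (x.ee (x.tl j) (x.lv j)) ∧
    Sup (qg j) 0 (x.ee (x.tl j) (x.lv (j + 1)))
  p2 : ∀ g z γ β, #{j ∈ range x.S.J | x.S.rk j = 0 ∧ x.pgj j = g ∧ pz j = z ∧ pg j = γ ∧
    x.cp j = β} ≤ x.p.Q
  p3 : ∀ g z γ β, #{j ∈ range x.S.J | x.S.rk j = 0 ∧ x.pgj j = g ∧ pz j = z ∧ qg j = γ ∧
    x.cp (j + 1) = β} ≤ x.p.Q

end Cx

/-- The allocation. -/
structure Alc (x : Cx) where
  kx : ℕ → ℕ
  qx : ℕ → ℕ
  pz : ℕ → ℕ
  pg : ℕ → V (Fin x.p.w0)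
  qg : ℕ → V (Fin x.p.w0)
  zM : ZMod 2 → (ℕ × ℕ × ℕ) × ℕ → V (Fin x.p.nZ)
  zJ : Gr x.PG → V (Fin x.p.nZ)
  hk : x.KX kx
  hq : x.QX qx
  hp : x.PX pz pg qg
  z1 : ∀ γ γ', x.okG kx qx pz γ → x.okG kx qx pz γ' → zJ γ = zJ γ' → γ = γ'
  z2 : ∀ π c r c' r', x.Res π c r → x.Res π c' r' → zM π (c, r) = zM π (c', r') → c = c' ∧ r = r'
  z3 : ∀ π γ c r, x.okG kx qx pz γ → x.Res π c r → zJ γ ≠ zM π (c, r)

namespace Cx
variable (x : Cx)

/-- kind of a base -/
noncomputable def bkd : x.Bs → Kd x.p.Ctl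
  | .blk B _ y => if y = 0 then (if x.S.lk B = 0 then .pre else .two) else .sg
  | .con B _ _ y o => x.p.kS (ru x.p.d1 (B % 2 ^ (x.p.d1 + 1))) o y
  | .lg y => x.p.kL y
  | _ => .sg

/-- classes of a base -/
def bcl : x.Bs → ZMod 2 → x.Cl
  | .blk B f y, π => if y = 0 then .inr (.hd B (f / x.mm (x.ta B 1) (x.lv B)), π) else
      .inl (B, y, f / x.cs (x.ta B (y + 1)) (x.lv B))
  | .con B _ v y _, π => .inr (.cn B y (v / x.mm (x.tl B) (x.lv B)), π)
  | .qs B _ v, π => .inr (.qs B (v / x.mm (x.ta B 1) (x.lv B)), π)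
  | .pq g z _ π, _ => .inr (.pq g z, π)
  | .lg y, π => .inr (.lg y, π)

/-- addresses -/
abbrev Ad : Type := V (Fin 2) × V (Fin x.p.t) × V (Fin x.p.mu) × V (Fin x.p.w0)

/-- address number `v` in a group -/
def da (τ l v : ℕ) : x.Ad := (0, 0, x.I.ad (x.I.io τ) (x.ee τ l) (v % x.mm τ l))

/-- address number `v` in a single class -/
def sa (τ l v : ℕ) : x.Ad :=
  if x.sm τ l then x.I.sa (v % x.p.ms / (2 ^ x.p.l0 - 1)) else
    (x.I.zt (v % 4), 0, x.I.ad (x.I.io τ) (x.ee τ l) (v % (4 * x.mm τ l) / 4))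

/-- address of a base -/
def bad : x.Bs → x.Ad
  | .blk B f y => if y = 0 then x.da (x.ta B 1) (x.lv B) f else x.sa (x.ta B (y + 1)) (x.lv B) f
  | .con B _ v _ _ => x.da (x.tl B) (x.lv B) v
  | .qs B _ v => x.da (x.ta B 1) (x.lv B) v
  | .pq g _ γ π => (0, π • 1, (x.I.ad (x.I.io g.1) 0 0).1 + π • e x.I.i0, γ)
  | .lg _ => x.da x.p.n x.p.kR 0

/-- middle bits of a base -/
noncomputable def bm : x.Bs → V (Fin x.p.l0)
  | .blk B f _ => x.mu B f
  | .con B f _ _ _ => x.mu B f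
  | .qs B f _ => x.mu B f
  | .pq g _ _ π => if π = 0 then g.2.2.2.2.1 else g.2.2.2.2.2
  | .lg _ => 0

/-- top bases -/
def top : x.Bs → Prop
  | .blk B _ y => x.p.thr < x.ta B (y + 1) ∧ ¬ (y = 0 ∧ x.S.lk B = 0)
  | .con B _ _ y _ => x.S.rk B ≠ 0 ∧ ¬ (x.S.rk B = 1 ∧ y = x.p.M + 1)
  | .lg _ => True
  | _ => False

/-- bases with a unique successor -/
def uo : x.Bs → Prop
  | .blk B _ y => y + 1 < x.S.nb B ∨ x.S.rk B = 3
  | .con B _ _ y _ => y < x.p.M ∨ (y = x.p.M ∧ x.S.rk B ≠ 0) ∨ x.S.rk B = 2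
  | .qs _ _ _ => True
  | .pq _ _ _ _ => False
  | .lg y => y + 1 < x.p.LU

/-- bases with a unique predecessor -/
def ui : x.Bs → Prop
  | .blk B _ y => 1 ≤ y ∨ x.S.lk B = 3
  | .con _ _ _ _ _ => True
  | .lg y => 1 ≤ y
  | _ => False

/-- valid units -/
def val (u : ℕ × ℕ) : Prop := u.1 < x.S.J ∧ u.2 < x.S.nu u.1

/-- first position of a unit -/
noncomputable def idx (u : ℕ × ℕ) : ℕ :=
  x.S.bs u.1 + ∑ i ∈ range u.2, len x.p.T (x.S.kj u.1 i)

/-- copy of a unit -/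
noncomputable def cpu (u : ℕ × ℕ) : V (Fin x.p.kR) :=
  if x.S.rk u.1 = 0 ∧ u.2 = x.S.nb u.1 + (x.p.M + 2) then x.cp (u.1 + 1) else x.cp u.1

/-- units that are left in a fat direction -/
def ft (u : ℕ × ℕ) : Prop := x.S.rk u.1 = 0 ∧ u.2 = x.S.nb u.1 + (x.p.M + 1)

end Cx

namespace Alc
variable {x : Cx} (A : Alc x)

/-- base of unit `y` of window `j` -/
noncomputable def wb (j y : ℕ) : x.Bs :=
  if x.S.rk j = 3 then .lg y else
  if x.S.rk j = 0 ∧ y = x.p.M + 1 then .pq (x.pgj j) (A.pz j) (A.pg j) 0 else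
  if x.S.rk j = 0 ∧ y = x.p.M + 2 then .pq (x.pgj j) (A.pz j) (A.qg j) 1 else
  if x.S.rk j = 1 ∧ y = x.p.M + 2 then .qs (x.bt (j + 1)) (x.ff (j + 1)) (A.qx j) else
  .con (x.bt j) (x.ff j) (A.kx j) y (x.S.c2 j)

/-- base of a unit -/
noncomputable def bas (u : ℕ × ℕ) : x.Bs :=
  if u.2 < x.S.nb u.1 then .blk (x.bt u.1) (x.ff u.1) u.2 else A.wb u.1 (u.2 - x.S.nb u.1)

/-- classes in use -/
def okC : x.Cl → Prop
  | .inl c => x.okS c
  | .inr g => x.okG A.kx A.qx A.pz g.1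

open Classical in
/-- zone of a resource -/
noncomputable def rz : x.Cl → ℕ → V (Fin x.p.nZ)
  | .inl c, r => A.zM (if x.csm (.inl c) ∧ r = 0 then x.cpr (.inl c) else x.cpr (.inl c) + 1) (c, r)
  | .inr g, _ => A.zJ g.1

/-- class of a node -/
noncomputable def nc (u : ℕ × ℕ) (o : Pos) : x.Cl := x.bcl (A.bas u) (par (x.bkd (A.bas u)) o)

end Alc

end Pool.Agent.Work.MP_ede3c6_co.Y
end

-- merged part: Pool.Agent.Work.MP_ede3c6_co.Y.CxA
section
/-! Basic facts about block types and tracks.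

PLAN. `Same` is an equivalence relation, `bt j` is the least element of the class (`Nat.sInf_mem`).
`load`: `ff` and `cp` determine `tr` (`hv2`), and the rank `#{i < j | bt i = bt j}` is injective on
a type, below `NB`, and monotone. `card_BB`: the ten invariants determine `bt` (pad the sequence of
types; `lv ≤ kR`, `bl ≤ Km`, `cTS`). `FB_le`: `FB B ≤ NB B / (L0 Q wd B) + 1`. `Z_le`: all other
terms of `Fit` are nonnegative. `W_le`: `vol` with the parity different from `bs j + o`.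
`KL`: let `τ = ta B o`, `l = lv B`. If `l ≤ lev τ` then `aS ≤ τ` (`lev0`), so `aS ≤ av j o` for all
`j` of type `B` (`rdS`), and `ef` gives `NB * U ≤ (1 + η) W * 4 * mm * wd` since
`ee + (kR - l) = w0 + kR - lev τ`. If `lev τ < l`, take `o'` with `lev (ta B o') = w0 + l`; the first
case for `o'` (there `ee = 0`, `mm ≤ 2 ^ mu`), `W_le`, `Z_le` give `FB ≤ 2 ^ mu (4 nA + 1)`, and
`hw0` gives `FB ≤ 2 ^ w0 ≤ mm τ l` as `ee τ l = w0`. `KS`: `efs`. -/

set_option autoImplicit false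

namespace Pool.Agent.Work.MP_ede3c6_co.Y

open Finset Vol

namespace Cx
variable (x : Cx)

theorem same_refl (j : ℕ) : x.Same j j :=
  ⟨rfl, rfl, rfl, rfl, rfl, Iff.rfl, Iff.rfl, rfl, rfl, fun _ _ => rfl⟩

theorem Same.symm {x : Cx} {i j : ℕ} (h : x.Same i j) : x.Same j i :=
  ⟨h.jm.symm, h.bl.symm, h.bs.symm, h.lk.symm, h.rk.symm, h.lm.symm, h.rm.symm, h.l1.symm,
    h.l2.symm, fun o ho => (h.ta o (h.bl ▸ ho)).symm⟩

theorem Same.trans {x : Cx} {i j l : ℕ} (h : x.Same i j) (g : x.Same j l) : x.Same i l :=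
  ⟨h.jm.trans g.jm, h.bl.trans g.bl, h.bs.trans g.bs, h.lk.trans g.lk, h.rk.trans g.rk,
    h.lm.trans g.lm, h.rm.trans g.rm, h.l1.trans g.l1, h.l2.trans g.l2,
    fun o ho => (h.ta o ho).trans (g.ta o (h.bl ▸ ho))⟩

theorem same_bt (j : ℕ) : x.Same (x.bt j) j := by
  exact Nat.sInf_mem (s := {i | x.Same i j}) ⟨j, x.same_refl j⟩

theorem bt_eq {j j' : ℕ} : x.bt j = x.bt j' ↔ x.Same j j' := by
  refine ⟨fun h => (x.same_bt j).symm.trans (h ▸ x.same_bt j'), fun h => ?_⟩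
  exact congrArg sInf (Set.ext fun i => ⟨fun e => Same.trans e h, fun e => Same.trans e h.symm⟩)

theorem bt_bt (j : ℕ) : x.bt (x.bt j) = x.bt j := by
  exact x.bt_eq.2 (x.same_bt j)

theorem bl_bt (j : ℕ) : x.S.bl (x.bt j) = x.S.bl j := (x.same_bt j).bl

theorem nb_bt (j : ℕ) : x.S.nb (x.bt j) = x.S.nb j := by
  rw [Seg.nb, Seg.nb, bl_bt]

theorem rk_bt (j : ℕ) : x.S.rk (x.bt j) = x.S.rk j := (x.same_bt j).rk

theorem lk_bt (j : ℕ) : x.S.lk (x.bt j) = x.S.lk j := (x.same_bt j).lk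

theorem ta_bt (j : ℕ) {o : ℕ} (h : o < x.S.bl j) : x.ta (x.bt j) o = x.ta j o := by
  exact (x.same_bt j).ta o (by rwa [bl_bt])

theorem ta_bt1 (j : ℕ) : x.ta (x.bt j) 1 = x.ta j 1 := by
  exact x.ta_bt j (by have := x.S.bl1 j; omega)

theorem tl_bt (j : ℕ) : x.tl (x.bt j) = x.tl j := by
  rw [tl, tl, bl_bt]
  exact x.ta_bt j (by have := x.S.bl1 j; omega)

theorem lv_bt (j : ℕ) : x.lv (x.bt j) = x.lv j := by
  rw [lv, lv, bl_bt]
  exact Finset.sup_congr rfl fun o ho => by rw [x.ta_bt j (mem_range.1 ho)]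

theorem Sb_bt (j : ℕ) : x.Sb (x.bt j) ↔ x.Sb j := by
  rw [Sb, Sb, bl_bt]
  exact exists_congr fun o => and_congr_right fun ho => by rw [x.ta_bt j ho]

theorem mu_bt (j f : ℕ) : x.mu (x.bt j) f = x.mu j f := by
  by_cases h : x.Sb j
  · rw [mu, mu, if_pos h, if_pos ((x.Sb_bt j).2 h)]
  · rw [mu, mu, if_neg h, if_neg fun e => h ((x.Sb_bt j).1 e)]

theorem bs_bt (j : ℕ) : ((x.S.bs (x.bt j) : ℕ) : ZMod 2) = x.S.bs j := by
  exact (ZMod.natCast_eq_natCast_iff' _ _ 2).2 (x.same_bt j).bs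

theorem nb4 (j : ℕ) : 4 ≤ x.S.nb j ∧ x.S.nb j + 1 = x.S.bl j ∧ x.S.bl j ≤ x.p.Km := by
  have := x.S.bl1 j
  have := x.S.bl2 j
  rw [Seg.nb]
  omega

theorem lk_succ (j : ℕ) : x.S.lk (j + 1) = x.S.rk j := by
  rw [Seg.lk, if_neg (Nat.succ_ne_zero j), Nat.add_sub_cancel]

theorem thr_lt : x.p.aS ≤ x.p.thrN ∧ x.p.thrN < x.p.thr ∧ x.p.thr < x.p.n := by
  have h := x.ok.hth
  refine ⟨Nat.le_mul_of_pos_right _ (Nat.two_pow_pos _), h, ?_⟩
  rw [Pm.thr] at h ⊢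
  have := Nat.sqrt_pos.2 (show 0 < x.p.n by omega)
  omega

theorem rd_n : x.I.rd x.p.n = x.p.n := by
  exact x.I.rdU _ x.thr_lt.2.2

theorem av01 (j : ℕ) : x.S.av j 0 = x.S.av j 1 := by
  rcases j with _ | j
  · rw [x.S.av0 0 (by omega), x.S.av0 1 (by omega)]
  · rw [x.S.avf j 0 (by omega), x.S.avf j 1 (by omega)]

theorem tl_eq (j : ℕ) : x.tl j = x.I.rd (x.S.mx j) := by
  rw [tl, ta, x.S.avl]

theorem ta_succ (j : ℕ) : x.ta (j + 1) 1 = x.tl j := by
  rw [tl_eq, ta, x.S.avf j 1 (by omega)]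

theorem tl_low {j : ℕ} (h : x.S.rk j = 0) :
    x.p.aS ≤ x.tl j ∧ x.S.mx j ≤ x.tl j ∧ x.tl j ≤ x.p.thrN := by
  obtain ⟨h1, h2⟩ := x.S.mx0 j h
  obtain ⟨h3, h4⟩ := x.I.rd1 _ h2
  rw [tl_eq]
  exact ⟨h1.trans h3, h3, h4⟩

theorem tl_top {j : ℕ} (h : x.S.rk j ≠ 0) : x.tl j = x.p.n ∧ x.Sb j ∧ x.Sb (j + 1) := by
  have h1 : x.tl j = x.p.n := by rw [tl_eq, x.S.mx1 j h, rd_n]
  have h2 : x.p.thrN < x.p.n := x.thr_lt.2.1.trans x.thr_lt.2.2
  have h3 := x.S.bl1 j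
  have h4 := x.S.bl1 (j + 1)
  exact ⟨h1, ⟨x.S.bl j - 1, by omega, h2.trans_eq h1.symm⟩, 1, by omega, by rwa [ta_succ, h1]⟩

theorem hd_low {j : ℕ} (h : x.S.lk j = 0) : x.ta j 1 ≤ x.p.thrN := by
  rcases j with _ | j
  · simp [Seg.lk] at h
  · rw [lk_succ] at h
    rw [ta_succ]
    exact (x.tl_low h).2.2

theorem hd_big (j : ℕ) : x.p.aS ≤ x.ta j 1 ∧ x.p.aS ≤ x.tl j := by
  have h0 : x.p.aS ≤ x.p.n := x.thr_lt.1.trans (x.thr_lt.2.1.trans x.thr_lt.2.2).le
  have h1 : ∀ j, x.p.aS ≤ x.tl j := fun j => by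
    by_cases h : x.S.rk j = 0
    · exact (x.tl_low h).1
    · rwa [(x.tl_top h).1]
  refine ⟨?_, h1 j⟩
  rcases j with _ | j
  · rwa [ta, x.S.av0 1 (by omega), rd_n]
  · rw [ta_succ]
    exact h1 j

theorem ta_mem (j o : ℕ) : x.ta j o ∈ x.I.TS := by
  exact x.I.rdT _ (x.S.avM j o)

theorem lv_le (j : ℕ) : x.lv j ≤ x.p.kR := by
  refine Finset.sup_le fun o _ => ?_
  have := x.I.lev1 (x.ta j o)
  omega

theorem lev_le {j o : ℕ} (h : o < x.S.bl j) : x.I.lev (x.ta j o) ≤ x.p.w0 + x.lv j := by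
  have : x.I.lev (x.ta j o) - x.p.w0 ≤ x.lv j :=
    le_sup (f := fun o => x.I.lev (x.ta j o) - x.p.w0) (mem_range.2 h)
  omega

theorem Sb_lv {j : ℕ} (h : x.Sb j) : x.lv j = x.p.kR ∧ x.cp j = 0 ∧ ∀ f, x.mu j f = 0 := by
  have h1 : x.lv j = x.p.kR := by
    obtain ⟨o, ho, h2⟩ := h
    have h3 := x.lev_le ho
    have h4 := x.lv_le j
    rw [(x.I.ioF _ h2).2] at h3
    omega
  refine ⟨h1, funext fun b => ?_, fun f => if_pos h⟩
  have h2 := x.I.hv1 _ (x.lv_le j) _ (Nat.mod_lt (x.tr j) (Nat.two_pow_pos _)) b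
  exact h2 (Or.inl (b.is_lt.trans_eq h1.symm))

theorem l0_pos : 0 < 2 ^ x.p.l0 - 1 := by
  have h : 2 ^ 2 ≤ 2 ^ x.p.l0 := Nat.pow_le_pow_right two_pos x.ok.l2
  omega

theorem mu_ne {j : ℕ} (h : ¬ x.Sb j) (f : ℕ) : x.mu j f ≠ 0 := by
  rw [mu, if_neg h]
  exact x.I.mv1 _ (Nat.mod_lt _ x.l0_pos)

theorem cp_sup (j : ℕ) : Sup (x.cp j) (x.lv j) x.p.kR := by
  exact x.I.hv1 _ (x.lv_le j) _ (Nat.mod_lt (x.tr j) (Nat.two_pow_pos _))

theorem ee_le (τ l : ℕ) : x.ee τ l ≤ x.p.w0 := by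
  rw [ee]
  omega

theorem mm_pos (τ l : ℕ) : 0 < x.mm τ l := by
  exact Nat.mul_pos (x.I.cd0 _) (Nat.two_pow_pos _)

theorem ms_pos : 0 < x.p.ms := by
  have h : 2 ^ 2 ≤ 2 ^ x.p.t := Nat.pow_le_pow_right two_pos x.ok.t2
  refine Nat.mul_pos (Nat.mul_pos (Nat.mul_pos four_pos ?_) (Nat.two_pow_pos _)) x.l0_pos
  rw [Pm.q]
  omega

theorem LQ_pos : 0 < x.p.L0 * x.p.Q := Nat.mul_pos x.ok.L00 (Nat.two_pow_pos _)

theorem lv_eq {j j' : ℕ} (e : x.bt j = x.bt j') : x.lv j = x.lv j' := by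
  rw [← x.lv_bt j, e, lv_bt]

theorem wd_eq {j j' : ℕ} (e : x.bt j = x.bt j') : x.wd j = x.wd j' := by
  rw [wd, wd, x.lv_eq e]

/-- the rank of a block among the blocks of its type -/
noncomputable def rnk (j : ℕ) : ℕ := #{i ∈ range j | x.bt i = x.bt j}

theorem rnk_lt {j j' : ℕ} (h : j < j') (e : x.bt j = x.bt j') : x.rnk j < x.rnk j' := by
  rw [rnk, rnk, e]
  refine card_lt_card ⟨filter_subset_filter _ (range_subset_range.2 h.le), fun g => ?_⟩
  exact lt_irrefl _ (mem_range.1 (mem_filter.1 (g (mem_filter.2 ⟨mem_range.2 h, e⟩))).1)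

theorem bt_BB {B : ℕ} (h : B ∈ x.BB) : x.bt B = B := by
  obtain ⟨j, -, rfl⟩ := mem_image.1 h
  exact x.bt_bt j

open Classical in
theorem load (B f : ℕ) (β : V (Fin x.p.kR)) :
    #{j ∈ range (x.S.J + 1) | x.bt j = B ∧ x.ff j = f ∧ x.cp j = β} ≤ x.p.L0 * x.p.Q := by
  rw [← card_range (x.p.L0 * x.p.Q)]
  refine card_le_card_of_injOn (fun j => x.rnk j % (x.p.L0 * x.p.Q))
    (fun j _ => mem_coe.2 (mem_range.2 (Nat.mod_lt _ x.LQ_pos))) fun j hj j' hj' e => ?_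
  obtain ⟨-, a1, a2, a3⟩ := mem_filter.1 (mem_coe.1 hj)
  obtain ⟨-, b1, b2, b3⟩ := mem_filter.1 (mem_coe.1 hj')
  have e1 := a1.trans b1.symm
  have e2 := a2.trans b2.symm
  have e3 := a3.trans b3.symm
  rw [ff, ff, x.wd_eq e1] at e2
  rw [cp, cp, x.wd_eq e1, x.lv_eq e1] at e3
  have e4 := x.I.hv2 _ (x.lv_le j') _ (Nat.mod_lt _ (Nat.two_pow_pos _)) _
    (Nat.mod_lt _ (Nat.two_pow_pos _)) e3
  have e5 : x.tr j = x.tr j' := Nat.ext_div_mod e2 e4
  have e6 : x.rnk j = x.rnk j' := Nat.ext_div_mod e5 e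
  rcases lt_trichotomy j j' with h | h | h
  · exact absurd e6 (x.rnk_lt h e1).ne
  · exact h
  · exact absurd e6 (x.rnk_lt h e1.symm).ne'

theorem ff_mono {j j' : ℕ} (h : j ≤ j') (e : x.bt j = x.bt j') : x.ff j ≤ x.ff j' := by
  rw [ff, ff, x.wd_eq e]
  refine Nat.div_le_div_right (Nat.div_le_div_right ?_)
  rcases h.eq_or_lt with rfl | h
  · exact le_rfl
  · exact (x.rnk_lt h e).le

theorem ff_lt {j : ℕ} (h : j ≤ x.S.J) : x.ff j < x.FB (x.bt j) := by
  rw [ff, FB, tr, Nat.div_div_eq_div_mul, x.wd_eq (x.bt_bt j)]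
  refine Nat.lt_succ_of_le (Nat.div_le_div_right (card_le_card ?_))
  exact filter_subset_filter _ (range_subset_range.2 (by omega))

theorem card_BB : #x.BB ≤ x.p.nB := by
  classical
  refine (card_le_card_of_injOn (t := range (2 ^ (x.p.d1 + 1)) ×ˢ range (x.p.Km + 1) ×ˢ range 2 ×ˢ
      range 4 ×ˢ range 4 ×ˢ (univ : Finset Bool) ×ˢ (univ : Finset Bool) ×ˢ range (x.p.kR + 1) ×ˢ
      range (x.p.kR + 1) ×ˢ Fintype.piFinset fun _ : Fin x.p.Km => x.I.TS)
    (fun B => (B % 2 ^ (x.p.d1 + 1), x.S.bl B, x.S.bs B % 2, x.S.lk B, x.S.rk B,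
      decide (x.lm B), decide (x.rm B), x.lv (B - 1), x.lv (B + 1), fun o => x.ta B o))
    (fun B _ => ?_) fun B hB B' hB' e => ?_).trans ?_
  · simp only [mem_coe, mem_product, mem_range, mem_univ, true_and, Fintype.mem_piFinset]
    refine ⟨Nat.mod_lt _ (Nat.two_pow_pos _), Nat.lt_succ_of_le (x.S.bl2 B), Nat.mod_lt _ two_pos,
      ?_, x.S.rk4 B, Nat.lt_succ_of_le (x.lv_le _), Nat.lt_succ_of_le (x.lv_le _),
      fun o => x.ta_mem B o⟩
    rw [Seg.lk]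
    split_ifs
    · omega
    · exact x.S.rk4 _
  · simp only [Prod.mk.injEq, decide_eq_decide] at e
    obtain ⟨e1, e2, e3, e4, e5, e6, e7, e8, e9, e10⟩ := e
    rw [← x.bt_BB (mem_coe.1 hB), ← x.bt_BB (mem_coe.1 hB')]
    exact x.bt_eq.2 ⟨e1, e2, e3, e4, e5, e6, e7, e8, e9,
      fun o ho => congrFun e10 ⟨o, ho.trans_le (x.S.bl2 B)⟩⟩
  · simp only [card_product, card_range, card_univ, Fintype.card_bool, Fintype.card_piFinset_const]
    have h : #x.I.TS ^ x.p.Km ≤ (x.p.nT + 1) ^ x.p.Km :=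
      Nat.pow_le_pow_left (x.I.cTS.trans (Nat.le_succ _)) _
    refine le_trans (le_of_eq ?_)
      (Nat.mul_le_mul_left (2 ^ (x.p.d1 + 1) * (x.p.Km + 1) * 128 * (x.p.kR + 1) ^ 2) h)
    ring

theorem Z_le : x.Z (x.p.Vb x.VV) ≤ x.p.nA := by
  have h := x.fit
  have h0 := x.η0
  rw [Pm.Fit] at h
  have h1 : (0 : ℝ) ≤ 2 * x.p.nB * x.p.Km * (x.p.aS + 1) := by
    exact_mod_cast Nat.zero_le _
  have h2 : (0 : ℝ) ≤ x.p.CJ * ((1 + x.η) * x.p.Wb / (x.p.L0 * x.p.Q * x.p.U) + x.p.cM * x.p.nB) :=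
    mul_nonneg (Nat.cast_nonneg _) (add_nonneg (div_nonneg
      (mul_nonneg (by linarith) (Nat.cast_nonneg _)) (mul_nonneg (mul_nonneg (Nat.cast_nonneg _)
        (Nat.cast_nonneg _)) (Nat.cast_nonneg _))) (mul_nonneg (Nat.cast_nonneg _) (Nat.cast_nonneg _)))
  have h3 : (0 : ℝ) ≤ x.p.nPG := Nat.cast_nonneg _
  have h4 : (0 : ℝ) ≤ x.p.LU := Nat.cast_nonneg _
  rw [Z]
  linarith

theorem W_le {B o : ℕ} (hB : B ∈ x.BB) (h : o < x.S.bl B) : x.W B o ≤ x.p.Vb x.VV := by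
  have _ := hB
  refine le_trans ?_ (x.S.vol ((x.S.bs B + o + 1) % 2) (Nat.mod_lt _ two_pos))
  refine le_trans (sum_le_sum fun j hj => ?_) (sum_le_sum_of_subset (filter_subset (x.bt · = B) _))
  have e := (mem_filter.1 hj).2
  have h1 := (x.same_bt j).bs
  have h2 := x.bl_bt j
  rw [e] at h1 h2
  refine le_trans ?_ (single_le_sum (f := fun o => X.wt ((x.S.bs B + _ + 1) % 2) (x.S.bs j + o)
    (x.S.av j o)) (fun _ _ => Nat.zero_le _) (mem_range.2 (h2 ▸ h)))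
  simp only [X.wt]
  rw [if_neg (by omega)]

theorem den_pos : (0 : ℝ) < x.p.L0 * x.p.Q * x.p.U := by
  exact_mod_cast Nat.mul_pos x.LQ_pos (Nat.two_pow_pos _)

theorem Z_nonneg {w : ℝ} (h : 0 ≤ w) : 0 ≤ x.Z w :=
  div_nonneg (mul_nonneg (by linarith [x.η0]) h) x.den_pos.le

theorem Z_mono {w w' : ℝ} (h : w ≤ w') : x.Z w ≤ x.Z w' :=
  div_le_div_of_nonneg_right (mul_le_mul_of_nonneg_left h (by linarith [x.η0])) x.den_pos.le

theorem FB_le (B : ℕ) : (x.FB B : ℝ) ≤ x.NB B / (x.p.L0 * x.p.Q * x.wd B) + 1 := by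
  have := Nat.cast_div_le (α := ℝ) (m := x.NB B) (n := x.p.L0 * x.p.Q * x.wd B)
  rw [FB]
  push_cast at this ⊢
  linarith

theorem div_le {a b : ℝ} {c : ℕ} (hc : 0 < c) (h : a * x.p.U ≤ (1 + x.η) * b * c) :
    a / (x.p.L0 * x.p.Q * c) ≤ x.Z b := by
  have h1 : (0 : ℝ) < x.p.L0 * x.p.Q := by exact_mod_cast x.LQ_pos
  have h2 : (0 : ℝ) < c := by exact_mod_cast hc
  rw [Z, div_le_div_iff₀ (mul_pos h1 h2) x.den_pos]
  have := mul_le_mul_of_nonneg_left h h1.le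
  linarith

theorem KL1 {B o : ℕ} (hB : B ∈ x.BB) (h : o < x.S.bl B) (hs : ¬ x.sm (x.ta B o) (x.lv B))
    (hl : x.lv B ≤ x.I.lev (x.ta B o)) :
    (x.FB B : ℝ) ≤ x.mm (x.ta B o) (x.lv B) * (4 * x.Z (x.W B o) + 1) := by
  have _ := hB
  have h0 : x.p.aS ≤ x.ta B o := by
    by_contra hc
    have := x.I.lev0 _ (not_le.1 hc)
    exact hs ⟨not_le.1 hc, by omega⟩
  have h1 := x.FB_le B
  have h2 : (1 : ℝ) ≤ x.mm (x.ta B o) (x.lv B) := by exact_mod_cast x.mm_pos _ _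
  have h4 : x.p.w0 + x.p.kR - x.I.lev (x.ta B o) =
      x.ee (x.ta B o) (x.lv B) + (x.p.kR - x.lv B) := by
    have := x.lev_le h
    have := x.lv_le B
    rw [ee]
    omega
  have h3 := x.div_le (a := x.NB B) (b := 4 * x.mm (x.ta B o) (x.lv B) * x.W B o) (c := x.wd B)
    (Nat.two_pow_pos _) (by
      rw [NB, W, ← nsmul_eq_mul, ← sum_const, Nat.cast_sum, mul_sum, mul_sum, sum_mul]
      refine sum_le_sum fun j hj => ?_
      obtain rfl := (mem_filter.1 hj).2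
      have e : x.I.rd (x.S.av j o) = x.ta (x.bt j) o := (x.ta_bt j (by rwa [bl_bt] at h)).symm
      have h5 : x.p.aS ≤ x.S.av j o := by
        by_contra hc
        have := x.I.rdS _ (not_le.1 hc)
        omega
      have h6 := x.I.ef _ h5 (x.S.avM j o)
      rw [e, h4, pow_add] at h6
      rw [mm, wd]
      push_cast
      clear * - x j o h6
      linarith)
  rw [Z, mul_left_comm, mul_div_assoc] at h3
  rw [Z]
  clear * - x B o h1 h2 h3
  linarith

theorem KL {B o : ℕ} (hB : B ∈ x.BB) (h : o < x.S.bl B) (hs : ¬ x.sm (x.ta B o) (x.lv B)) :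
    (x.FB B : ℝ) ≤ x.mm (x.ta B o) (x.lv B) * (4 * x.Z (x.W B o) + 1) := by
  by_cases hl : x.lv B ≤ x.I.lev (x.ta B o)
  · exact x.KL1 hB h hs hl
  obtain ⟨o', ho', e⟩ := exists_mem_eq_sup (range (x.S.bl B)) ⟨o, mem_range.2 h⟩
    fun o => x.I.lev (x.ta B o) - x.p.w0
  have e1 : x.lv B = x.I.lev (x.ta B o') - x.p.w0 := e
  have h1 := x.KL1 hB (mem_range.1 ho') (fun hs => by have := hs.2; omega) (by omega)
  have h2 : x.mm (x.ta B o') (x.lv B) ≤ 2 ^ x.p.mu := by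
    rw [mm, show x.ee (x.ta B o') (x.lv B) = 0 by rw [ee]; omega, pow_zero, mul_one]
    refine (card_le_univ _).trans (le_of_eq ?_)
    simp [ZMod.card]
  have h3 : x.Z (x.W B o') ≤ x.p.nA :=
    (x.Z_mono (by exact_mod_cast x.W_le hB (mem_range.1 ho'))).trans x.Z_le
  have h4 : 2 ^ x.p.mu * (4 * x.p.nA + 1) ≤ x.mm (x.ta B o) (x.lv B) := by
    rw [mm, show x.ee (x.ta B o) (x.lv B) = x.p.w0 by rw [ee]; omega]
    refine le_trans ?_ (Nat.le_mul_of_pos_left _ (x.I.cd0 _))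
    refine le_trans ?_ (le_trans (Nat.le_mul_of_pos_left _
      (Nat.mul_pos (Nat.succ_pos _) (Nat.succ_pos _))) x.ok.hw0.le)
    have h5 : 0 < x.p.nA := Nat.two_pow_pos _
    have h6 : 2 ^ (x.p.mu + 3) ≤ 2 ^ (3 + x.p.t + x.p.mu + x.p.l0) :=
      Nat.pow_le_pow_right two_pos (by omega)
    refine le_trans ?_ ((Nat.mul_le_mul_right x.p.nA h6).trans (Nat.le_succ _))
    rw [pow_add, mul_assoc]
    exact Nat.mul_le_mul_left _ (by omega)
  have h5 : (x.mm (x.ta B o') (x.lv B) : ℝ) ≤ 2 ^ x.p.mu := by exact_mod_cast h2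
  have h6 : (2 : ℝ) ^ x.p.mu * (4 * x.p.nA + 1) ≤ x.mm (x.ta B o) (x.lv B) := by exact_mod_cast h4
  have h7 := x.Z_nonneg (w := x.W B o) (Nat.cast_nonneg _)
  have h8 := x.Z_nonneg (w := x.W B o') (Nat.cast_nonneg _)
  refine h1.trans ((mul_le_mul h5 (by clear * - x B o' h3 h1 h5 h6; linarith) (by linarith) (by positivity)).trans (h6.trans ?_))
  exact le_mul_of_one_le_right (Nat.cast_nonneg _) (by clear * - x B o h7; linarith)

theorem KS {B : ℕ} (hB : B ∈ x.BB) (h : x.lv B = 0) :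
    (x.FB B : ℝ) ≤ x.p.ms * (x.Z (x.NB B) + 1) := by
  have _ := hB
  have h1 := x.FB_le B
  have h2 : (1 : ℝ) ≤ x.p.ms := by exact_mod_cast x.ms_pos
  have h3 := x.div_le (a := x.NB B) (b := x.p.ms * x.NB B) (c := x.wd B) (Nat.two_pow_pos _) (by
    have := mul_le_mul_of_nonneg_left x.I.efs (Nat.cast_nonneg (α := ℝ) (x.NB B))
    rw [wd, h, Nat.sub_zero]
    push_cast
    linarith)
  rw [Z, mul_left_comm, mul_div_assoc] at h3
  rw [Z]
  linarith

open Classical in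
theorem sum_r : ∑ B ∈ x.BB, (if x.rm B then x.p.cM else 1) * x.W B (x.S.bl B - 1) ≤ x.p.Wb := by
  refine le_trans ?_ x.S.wr
  rw [← sum_fiberwise_of_maps_to (g := x.bt) (t := x.BB) fun j hj => mem_image_of_mem _ hj]
  refine sum_le_sum fun B _ => ?_
  rw [W, mul_sum]
  refine sum_le_sum fun j hj => ?_
  obtain rfl := (mem_filter.1 hj).2
  rw [bl_bt, x.S.avl]
  refine Nat.mul_le_mul (le_of_eq ?_) (Nat.le_add_left _ _)
  exact if_congr (x.same_bt j).rm rfl rfl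

open Classical in
theorem sum_l : ∑ B ∈ x.BB, (if x.lm B then x.p.cM else 1) * x.W B 1 ≤ x.p.Wb := by
  refine le_trans ?_ x.S.wl
  rw [← sum_fiberwise_of_maps_to (g := x.bt) (t := x.BB) fun j hj => mem_image_of_mem _ hj]
  refine sum_le_sum fun B _ => ?_
  rw [W, mul_sum]
  refine sum_le_sum fun j hj => ?_
  obtain rfl := (mem_filter.1 hj).2
  rw [av01]
  refine Nat.mul_le_mul (le_of_eq ?_) (Nat.le_add_left _ _)
  exact if_congr (x.same_bt j).lm rfl rfl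

end Cx

end Pool.Agent.Work.MP_ede3c6_co.Y
end

-- merged part: Pool.Agent.Work.MP_ede3c6_co.Y.AlK
section
/-! Branches of the short windows.

PLAN. `X.fill1` for the junctions `j < J`, key `(bt j, ff j, cp j)`, `nu = L1`, `c = Q` (`load`)
gives `ν j < L1`. Let `κ j = (ff j, ν j, c2 j, if rk j = 2 then (bt (j + 1), ff (j + 1)) else 0)`,
`KB B` the image of `κ` on `{j < J | rk j ≠ 3 ∧ bt j = B}`, and `kx j < #(KB (bt j))` the number of
`κ j` in `KB (bt j)`. Put `cB = if rm B then cM else 1`; `c2 j` takes at most `cB` values. If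
`rk B ≠ 2`: `#(KB B) ≤ L1 cB FB B`. If `rk B = 2`: for fixed `B'` the pairs `(ff j, ff (j + 1))` form
a chain (`ff_mono`), so the sum is injective on them and there are at most `FB B + FB B'` of them.
Call `i` a tile if `i = j` or `i = j + 1` with `rk j = 2`. For a tile `i`, `til` gives `rk i ≠ 0` and
`av i 0 = n`, so `lv (i + 1) = kR = lv (i - 1)` (`tl_top`, `Sb_lv`, `tl_low`); hence the types of
tiles with given `i % 2 ^ (d1 + 1)` are determined by `bl` (2 values), parity (2), `lk` (4), `rk` (4),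
`lm`, `rm` (2 each), `c` (3): at most 768. So every `B` has at most 768 successors `B'` and every
`B'` at most 768 predecessors, `rm B ↔ lm B'`, and `mm` is the same number `mm n kR` at the last
position of `B` and at position `1` of `B'`. The number of groups for `B` is at most
`#(KB B) / mm + 1`. Sum with `KL`, `sum_r`, `sum_l`, `card_BB` (`Z` is linear). -/

set_option autoImplicit false

namespace Pool.Agent.Work.MP_ede3c6_co.Y

open Finset Vol

theorem alk_fac {α β γ : Type} [DecidableEq β] (s : Finset α) (f : α → β) (g : α → γ) (t : Finset γ)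
    (hg : ∀ a ∈ s, g a ∈ t) (h : ∀ a ∈ s, ∀ b ∈ s, g a = g b → f a = f b) : #(s.image f) ≤ #t := by
  refine card_le_card_of_forall_subsingleton (fun b c => ∃ a ∈ s, f a = b ∧ g a = c)
    (fun b hb => ?_) ?_
  · obtain ⟨a, ha, rfl⟩ := mem_image.1 hb
    exact ⟨_, hg a ha, a, ha, rfl, rfl⟩
  · rintro c - _ ⟨-, a, ha, rfl, rfl⟩ _ ⟨-, b, hb, rfl, e⟩
    exact h a ha b hb e.symm

namespace Cx
variable (x : Cx)

theorem alk_lv {j i : ℕ} (h : x.S.rk j = 2) (hi : i = j ∨ i = j + 1) :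
    x.lv (i - 1) = x.p.kR ∧ x.lv (i + 1) = x.p.kR := by
  obtain ⟨-, h1, c, -, h2⟩ := x.S.til j h i hi
  refine ⟨(x.Sb_lv (x.tl_top ?_).2.1).1, (x.Sb_lv (x.tl_top h1).2.2).1⟩
  rcases i with _ | i
  · exact h1
  · intro h0
    have h3 := h2 0 (by have := x.S.bl1 (i + 1); omega)
    rw [x.S.avf i 0 two_pos, Pm.tc, if_pos (.inl (by omega))] at h3
    have h4 := (x.S.mx0 i h0).2
    have := x.thr_lt
    omega

open Classical in
theorem alk_tile (s : Finset ℕ) (r : ℕ) (hs : ∀ i ∈ s, i % 2 ^ (x.p.d1 + 1) = r ∧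
    ∃ j, x.S.rk j = 2 ∧ (i = j ∨ i = j + 1)) : #(s.image x.bt) ≤ 768 := by
  have h1 : ∀ i ∈ s, ∃ c < 3, ∀ o < x.S.bl i, x.S.av i o = x.p.tc c (x.S.bl i) o := fun i hi => by
    obtain ⟨-, j, h, h'⟩ := hs i hi
    exact (x.S.til j h i h').2.2
  choose! c c1 c2 using h1
  have h2 : ∀ i ∈ s, x.S.bl i = x.p.K ∨ x.S.bl i = x.p.K + 1 := fun i hi => by
    obtain ⟨-, j, h, h'⟩ := hs i hi
    exact (x.S.til j h i h').1
  have h3 : ∀ i ∈ s, x.lv (i - 1) = x.p.kR ∧ x.lv (i + 1) = x.p.kR := fun i hi => by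
    obtain ⟨-, j, h, h'⟩ := hs i hi
    exact x.alk_lv h h'
  refine (alk_fac s x.bt (fun i => (x.S.bl i - x.p.K, x.S.bs i % 2, x.S.lk i, x.S.rk i, c i,
    decide (x.lm i), decide (x.rm i))) (range 2 ×ˢ range 2 ×ˢ range 4 ×ˢ range 4 ×ˢ range 3 ×ˢ univ)
    (fun i hi => ?_) fun i hi j hj e => ?_).trans (by simp)
  · have := h2 i hi
    simp only [mem_product, mem_range, mem_univ, and_true]
    refine ⟨by omega, Nat.mod_lt _ two_pos, ?_, x.S.rk4 i, c1 i hi⟩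
    unfold Seg.lk
    split_ifs
    exacts [by omega, x.S.rk4 _]
  · simp only [Prod.mk.injEq, decide_eq_decide] at e
    obtain ⟨e1, e2, e3, e4, e5, e6, e7⟩ := e
    have e0 : x.S.bl i = x.S.bl j := by
      have := h2 i hi
      have := h2 j hj
      omega
    exact x.bt_eq.2 ⟨(hs i hi).1.trans (hs j hj).1.symm, e0, e2, e3, e4, e6, e7,
      (h3 i hi).1.trans (h3 j hj).1.symm, (h3 i hi).2.trans (h3 j hj).2.symm, fun o ho => by
        rw [ta, ta, c2 i hi o ho, c2 j hj o (e0 ▸ ho), e5, e0]⟩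

/-- types of consecutive tiles -/
def alk_R (B B' : ℕ) : Prop := ∃ j < x.S.J, x.S.rk j = 2 ∧ x.bt j = B ∧ x.bt (j + 1) = B'

open Classical in
theorem alk_suc (B : ℕ) : #{B' ∈ x.BB | x.alk_R B B'} ≤ 768 := by
  refine le_trans (card_le_card fun B' hB => ?_) (x.alk_tile
    (({j ∈ range x.S.J | x.S.rk j = 2 ∧ x.bt j = B} : Finset ℕ).image (· + 1))
    ((B + 1) % 2 ^ (x.p.d1 + 1)) fun i hi => ?_)
  · obtain ⟨j, h1, h2, h3, rfl⟩ := (mem_filter.1 hB).2
    exact mem_image_of_mem _ (mem_image_of_mem _ (mem_filter.2 ⟨mem_range.2 h1, h2, h3⟩))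
  · obtain ⟨j, hj, rfl⟩ := mem_image.1 hi
    obtain ⟨-, h1, rfl⟩ := mem_filter.1 hj
    exact ⟨Nat.ModEq.add_right 1 (x.same_bt j).jm.symm, j, h1, .inr rfl⟩

open Classical in
theorem alk_pre (B' : ℕ) : #{B ∈ x.BB | x.alk_R B B'} ≤ 768 := by
  refine le_trans (card_le_card fun B hB => ?_) (x.alk_tile
    {j ∈ range x.S.J | x.S.rk j = 2 ∧ x.bt (j + 1) = B'}
    ((B' + (2 ^ (x.p.d1 + 1) - 1)) % 2 ^ (x.p.d1 + 1)) fun j hj => ?_)
  · obtain ⟨j, h1, h2, rfl, h3⟩ := (mem_filter.1 hB).2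
    exact mem_image_of_mem _ (mem_filter.2 ⟨mem_range.2 h1, h2, h3⟩)
  · obtain ⟨-, h1, rfl⟩ := mem_filter.1 hj
    refine ⟨?_, j, h1, .inl rfl⟩
    have h := Nat.ModEq.add_right (2 ^ (x.p.d1 + 1) - 1) (x.same_bt (j + 1)).jm
    rw [add_assoc j, Nat.add_sub_cancel' Nat.one_le_two_pow] at h
    exact (Nat.add_mod_right _ _).symm.trans h.symm

theorem alk_BB {j : ℕ} (h : j ≤ x.S.J) : x.bt j ∈ x.BB :=
  mem_image_of_mem _ (mem_range.2 (Nat.lt_succ_of_le h))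

theorem alk_Z (w : ℝ) : x.Z w = w * x.Z 1 := by
  unfold Z
  ring

theorem alk_Z0 : 0 ≤ x.Z 1 := by
  have := x.η0
  unfold Z
  positivity

theorem alk_sum (c w : ℕ → ℕ) (hc : ∀ B, c B ≤ x.p.cM) (h : ∑ B ∈ x.BB, c B * w B ≤ x.p.Wb) :
    ∑ B ∈ x.BB, (c B : ℝ) * (4 * x.Z (w B) + 1) ≤ 4 * x.Z x.p.Wb + x.p.cM * x.p.nB := by
  have h1 : ∑ B ∈ x.BB, c B ≤ x.p.cM * x.p.nB :=
    (sum_le_card_nsmul _ _ _ fun B _ => hc B).trans
      ((Nat.mul_le_mul_right _ x.card_BB).trans_eq (mul_comm _ _))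
  calc _ = 4 * ((∑ B ∈ x.BB, c B * w B : ℕ) * x.Z 1) + (∑ B ∈ x.BB, c B : ℕ) := by
        push_cast
        rw [sum_mul, mul_sum, ← sum_add_distrib]
        exact sum_congr rfl fun B _ => by rw [x.alk_Z (w B)]; ring
    _ ≤ _ := by
        rw [x.alk_Z x.p.Wb]
        have := x.alk_Z0
        gcongr
        exact_mod_cast h1

open Classical in
theorem alk_KB (ν : ℕ → ℕ) (hν : ∀ j < x.S.J, ν j < x.p.L1) (B : ℕ) :
    #(({j ∈ range x.S.J | x.bt j = B} : Finset ℕ).image fun j => (x.ff j, ν j, x.S.c2 j,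
      if x.S.rk j = 2 then (x.bt (j + 1), x.ff (j + 1)) else 0)) ≤
      x.p.L1 * ((if x.rm B then x.p.cM else 1) *
        (x.FB B + ∑ B' ∈ x.BB with x.alk_R B B', (x.FB B + x.FB B'))) := by
  have hc : #(if x.rm B then univ else {none} : Finset (Option (Fin x.p.d2 × Fin 2))) =
      if x.rm B then x.p.cM else 1 := by
    split_ifs <;> simp [Pm.cM]
  have h2 : ∀ j, x.S.c2 j ∈ (if x.rm (x.bt j) then univ else {none} : Finset _) := fun j => by
    split_ifs with h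
    · exact mem_univ _
    · exact mem_singleton.2 (if_neg fun q => h ((x.same_bt j).rm.2 q))
  by_cases h : x.S.rk B = 2
  · refine (alk_fac _ _ (fun j => (ν j, x.S.c2 j, (⟨x.bt (j + 1), x.ff j + x.ff (j + 1)⟩ : Σ _ : ℕ, ℕ)))
      (range x.p.L1 ×ˢ (if x.rm B then univ else {none}) ×ˢ
        ({B' ∈ x.BB | x.alk_R B B'} : Finset ℕ).sigma fun B' => range (x.FB B + x.FB B'))
      (fun j hj => ?_) fun i hi j hj e => ?_).trans ?_
    · obtain ⟨h1, rfl⟩ := mem_filter.1 hj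
      rw [mem_range] at h1
      exact mem_product.2 ⟨mem_range.2 (hν j h1), mem_product.2 ⟨h2 j, mem_sigma.2 ⟨mem_filter.2
        ⟨x.alk_BB h1, j, h1, (x.rk_bt j).symm.trans h, rfl, rfl⟩,
        mem_range.2 (add_lt_add (x.ff_lt h1.le) (x.ff_lt h1))⟩⟩⟩
    · have b1 := (mem_filter.1 hi).2
      have b2 := (mem_filter.1 hj).2
      simp only [Prod.mk.injEq, Sigma.mk.injEq, heq_eq_eq] at e
      obtain ⟨e1, e2, e3, e4⟩ := e
      have e5 : x.ff i = x.ff j ∧ x.ff (i + 1) = x.ff (j + 1) := by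
        rcases le_total i j with q | q
        · have := x.ff_mono q (b1.trans b2.symm)
          have := x.ff_mono (Nat.add_le_add_right q 1) e3
          omega
        · have := x.ff_mono q (b2.trans b1.symm)
          have := x.ff_mono (Nat.add_le_add_right q 1) e3.symm
          omega
      rw [e1, e2, e3, e5.1, e5.2, ← x.rk_bt i, ← x.rk_bt j, b1, b2]
    · simp only [card_product, card_range, card_sigma, hc]
      gcongr
      exact Nat.le_add_left _ _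
  · refine (alk_fac _ _ (fun j => (ν j, x.S.c2 j, x.ff j))
      (range x.p.L1 ×ˢ (if x.rm B then univ else {none}) ×ˢ range (x.FB B))
      (fun j hj => ?_) fun i hi j hj e => ?_).trans ?_
    · obtain ⟨h1, rfl⟩ := mem_filter.1 hj
      rw [mem_range] at h1
      exact mem_product.2 ⟨mem_range.2 (hν j h1), mem_product.2 ⟨h2 j, mem_range.2 (x.ff_lt h1.le)⟩⟩
    · simp only [Prod.mk.injEq] at e
      rw [e.1, e.2.1, e.2.2, ← x.rk_bt i, ← x.rk_bt j, (mem_filter.1 hi).2, (mem_filter.1 hj).2,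
        if_neg h, if_neg h]
    · simp only [card_product, card_range, hc]
      gcongr
      exact Nat.le_add_right _ _

open Classical in
theorem alk_one {B : ℕ} (hB : B ∈ x.BB) :
    (((if x.rm B then x.p.cM else 1) *
      (x.FB B + ∑ B' ∈ x.BB with x.alk_R B B', (x.FB B + x.FB B')) : ℕ) : ℝ) ≤
      x.mm (x.tl B) (x.lv B) *
        (769 * ((if x.rm B then x.p.cM else 1 : ℕ) * (4 * x.Z (x.W B (x.S.bl B - 1)) + 1)) +
          ∑ B' ∈ x.BB with x.alk_R B B',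
            ((if x.lm B' then x.p.cM else 1 : ℕ) : ℝ) * (4 * x.Z (x.W B' 1) + 1)) := by
  have h1 := x.KL hB (o := x.S.bl B - 1) (by have := x.S.bl1 B; omega)
    fun q => absurd q.1 (not_lt.2 (x.hd_big B).2)
  have h2 : ∀ B' ∈ ({B' ∈ x.BB | x.alk_R B B'} : Finset ℕ),
      ((if x.rm B then x.p.cM else 1 : ℕ) : ℝ) * x.FB B' ≤ x.mm (x.tl B) (x.lv B) *
        ((if x.lm B' then x.p.cM else 1 : ℕ) * (4 * x.Z (x.W B' 1) + 1)) := fun B' hB' => by
    obtain ⟨h3, j, -, h4, rfl, rfl⟩ := mem_filter.1 hB'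
    have h5 := x.KL h3 (o := 1) (by have := x.S.bl1 (x.bt (j + 1)); omega)
      fun q => absurd q.1 (not_lt.2 (x.hd_big _).1)
    have h6 := x.tl_top (j := j) (by omega)
    have h7 : x.lm (x.bt (j + 1)) ↔ x.rm (x.bt j) :=
      (x.same_bt _).lm.trans (Iff.trans (by simp [lm, rm]) (x.same_bt j).rm.symm)
    rw [x.ta_bt1, x.ta_succ, x.lv_bt, (x.Sb_lv h6.2.2).1] at h5
    rw [x.tl_bt, x.lv_bt, (x.Sb_lv h6.2.1).1, if_congr h7 rfl rfl, mul_left_comm]
    exact mul_le_mul_of_nonneg_left h5 (Nat.cast_nonneg _)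
  have h3 : (#{B' ∈ x.BB | x.alk_R B B'} : ℝ) ≤ 768 := by exact_mod_cast x.alk_suc B
  have h4 := sum_le_sum h2
  rw [← mul_sum, ← mul_sum] at h4
  rw [Nat.cast_mul, Nat.cast_add, Nat.cast_sum]
  simp only [Nat.cast_add, sum_add_distrib, sum_const, nsmul_eq_mul]
  have h5 := mul_le_mul_of_nonneg_left h1 (Nat.cast_nonneg (if x.rm B then x.p.cM else 1))
  have h6 := mul_le_mul_of_nonneg_right h3 (mul_nonneg
    (Nat.cast_nonneg (if x.rm B then x.p.cM else 1)) (Nat.cast_nonneg (x.FB B)))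
  unfold tl at h4 ⊢
  linarith

end Cx

open Classical in
theorem kx_ex (x : Cx) : ∃ kx : ℕ → ℕ, x.KX kx ∧
    (#(({j ∈ range x.S.J | x.S.rk j ≠ 3} : Finset ℕ).image fun j =>
      (x.bt j, kx j / x.mm (x.tl j) (x.lv j))) : ℝ) ≤
      x.p.L1 * 2 ^ 14 * (x.Z x.p.Wb + x.p.cM * x.p.nB) := by
  have hQ : 0 < x.p.Q := Nat.two_pow_pos _
  obtain ⟨ν, n1, n2⟩ := X.fill1 (range x.S.J) (fun j => (x.bt j, x.ff j, x.cp j))
    (fun _ => x.p.L1) x.p.Q fun i _ => by
      refine lt_of_le_of_lt (le_trans (card_le_card fun j hj => ?_)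
        (x.load (x.bt i) (x.ff i) (x.cp i))) (by rw [Pm.L1, add_mul]; omega)
      obtain ⟨h1, h2⟩ := X.AlcExA.mf hj
      simp only [Prod.mk.injEq] at h2
      exact mem_filter.2 ⟨mem_range.2 ((mem_range.1 h1).trans (Nat.lt_succ_self _)), h2⟩
  obtain ⟨κ, hκ⟩ : ∃ κ : ℕ → _, κ = fun j => (x.ff j, ν j, x.S.c2 j,
    if x.S.rk j = 2 then (x.bt (j + 1), x.ff (j + 1)) else 0) := ⟨_, rfl⟩
  obtain ⟨KB, hKB⟩ : ∃ KB : ℕ → Finset _, KB = fun B =>
    ({j ∈ range x.S.J | x.bt j = B} : Finset ℕ).image κ := ⟨_, rfl⟩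
  choose f f1 f2 using fun B => X.AlcExA.inj1 (KB B) (range #(KB B)) (card_range _).ge
  have m1 : ∀ j < x.S.J, κ j ∈ KB (x.bt j) := fun j hj =>
    hKB ▸ mem_image_of_mem _ (mem_filter.2 ⟨mem_range.2 hj, rfl⟩)
  have m2 : ∀ j < x.S.J, ∀ j' < x.S.J, x.bt j = x.bt j' → f (x.bt j) (κ j) = f (x.bt j') (κ j') →
      κ j = κ j' := fun j hj j' hj' e e' => f2 _ _ (m1 j hj) _ (e ▸ m1 j' hj') (by rw [e', e])
  refine ⟨fun j => f (x.bt j) (κ j), ⟨fun j hj j' hj' _ e e' => ?_, fun B v β => ?_⟩, ?_⟩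
  · have h := m2 j hj j' hj' e e'
    simp only [hκ, Prod.mk.injEq] at h
    refine ⟨h.1, h.2.2.1, fun q => ?_⟩
    have h1 := h.2.2.2
    rwa [if_pos q, if_pos ((x.bt_eq.1 e).rk ▸ q), Prod.mk.injEq] at h1
  · refine X.AlcExA.le_of_ne_imp fun i hi => le_trans (card_le_card fun j hj => ?_)
      (n2 (x.bt i, x.ff i, x.cp i) (ν i))
    obtain ⟨a1, -, a2, a3, a4⟩ := X.AlcExA.mf hi
    obtain ⟨b1, -, b2, b3, b4⟩ := X.AlcExA.mf hj
    have h := m2 j (mem_range.1 b1) i (mem_range.1 a1) (b2.trans a2.symm) (b3.trans a3.symm)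
    simp only [hκ, Prod.mk.injEq] at h
    simp only [mem_filter]
    exact ⟨b1, by rw [a2, b2, a4, b4, h.1], h.2.1⟩
  have h1 : #(({j ∈ range x.S.J | x.S.rk j ≠ 3} : Finset ℕ).image fun j =>
      (x.bt j, f (x.bt j) (κ j) / x.mm (x.tl j) (x.lv j))) ≤
      ∑ B ∈ x.BB, (#(KB B) / x.mm (x.tl B) (x.lv B) + 1) := by
    refine (alk_fac _ _ (fun j => (⟨x.bt j, f (x.bt j) (κ j) / x.mm (x.tl j) (x.lv j)⟩ : Σ _ : ℕ, ℕ))
      (x.BB.sigma fun B => range (#(KB B) / x.mm (x.tl B) (x.lv B) + 1)) (fun j hj => ?_)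
      fun i _ j _ e => ?_).trans (by simp)
    · have hj' := mem_range.1 (mem_filter.1 hj).1
      refine mem_sigma.2 ⟨x.alk_BB hj'.le, mem_range.2 (Nat.lt_succ_of_le ?_)⟩
      rw [x.tl_bt, x.lv_bt]
      exact Nat.div_le_div_right (mem_range.1 (f1 _ _ (m1 j hj'))).le
    · simpa only [Prod.mk.injEq, Sigma.mk.injEq, heq_eq_eq] using e
  have hc : ∀ q : Prop, (if q then x.p.cM else 1) ≤ x.p.cM := fun q => by
    split_ifs
    exacts [le_rfl, Nat.le_add_left _ _]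
  have h2 := x.alk_sum _ _ (fun B => hc (x.rm B)) x.sum_r
  have h3 := x.alk_sum _ _ (fun B => hc (x.lm B)) x.sum_l
  have h0 : ∀ w : ℕ, 0 ≤ x.Z w := fun w => x.alk_Z w ▸ mul_nonneg w.cast_nonneg x.alk_Z0
  have h4 : ∑ B ∈ x.BB, ∑ B' ∈ x.BB with x.alk_R B B',
      ((if x.lm B' then x.p.cM else 1 : ℕ) : ℝ) * (4 * x.Z (x.W B' 1) + 1) ≤
      768 * ∑ B' ∈ x.BB, ((if x.lm B' then x.p.cM else 1 : ℕ) : ℝ) * (4 * x.Z (x.W B' 1) + 1) := by
    clear * - x h0
    rw [sum_comm' (t' := x.BB) (s' := fun B' => {B ∈ x.BB | x.alk_R B B'})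
      (by simp only [mem_filter]; tauto), mul_sum]
    refine sum_le_sum fun B' _ => ?_
    rw [sum_const, nsmul_eq_mul]
    have := h0 (x.W B' 1)
    exact mul_le_mul_of_nonneg_right (by exact_mod_cast x.alk_pre B') (by positivity)
  have h5 : ∀ B ∈ x.BB, ((#(KB B) / x.mm (x.tl B) (x.lv B) + 1 : ℕ) : ℝ) ≤ x.p.L1 *
      (769 * ((if x.rm B then x.p.cM else 1 : ℕ) * (4 * x.Z (x.W B (x.S.bl B - 1)) + 1)) +
        ∑ B' ∈ x.BB with x.alk_R B B',
          ((if x.lm B' then x.p.cM else 1 : ℕ) : ℝ) * (4 * x.Z (x.W B' 1) + 1)) + 1 := fun B hB => by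
    rw [Nat.cast_succ]
    refine add_le_add_left (Nat.cast_div_le.trans ?_) _
    rw [div_le_iff₀ (Nat.cast_pos.2 (x.mm_pos _ _)), mul_assoc, mul_comm _ (x.mm _ _ : ℝ)]
    refine le_trans ?_ (mul_le_mul_of_nonneg_left (x.alk_one hB) (Nat.cast_nonneg _))
    rw [hKB, hκ]
    exact_mod_cast x.alk_KB ν (fun j hj => n1 j (mem_range.2 hj)) B
  have h6 := sum_le_sum h5
  rw [sum_add_distrib, ← mul_sum, sum_add_distrib, ← mul_sum, sum_const, nsmul_eq_mul, mul_one,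
    ← Nat.cast_sum] at h6
  refine ((Nat.cast_le.2 h1).trans h6).trans ?_
  have h7 : (#x.BB : ℝ) ≤ x.p.L1 * (x.p.cM * x.p.nB) := by
    exact_mod_cast x.card_BB.trans ((Nat.le_mul_of_pos_left _ (Nat.succ_pos _)).trans
      (Nat.le_mul_of_pos_left _ (Nat.succ_pos _)))
  have h8 := mul_le_mul_of_nonneg_left (add_le_add (mul_le_mul_of_nonneg_left h2 (by norm_num : (0 : ℝ) ≤ 769))
    (h4.trans (mul_le_mul_of_nonneg_left h3 (by norm_num)))) (Nat.cast_nonneg x.p.L1)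
  have h9 : 0 ≤ (x.p.L1 : ℝ) * x.Z x.p.Wb := mul_nonneg (Nat.cast_nonneg _) (h0 _)
  have h10 : 0 ≤ (x.p.L1 : ℝ) * (x.p.cM * x.p.nB) := by positivity
  clear * - x KB h6 h7 h8
  linarith

end Pool.Agent.Work.MP_ede3c6_co.Y
end

-- merged part: Pool.Agent.Work.MP_ede3c6_co.Y.AlP
section
/-! Places of the last two units of the low windows.

PLAN. For `g = (τ, π, lL, lR, _, _)` let `cL = 2 ^ ee τ lL`, `cR = 2 ^ ee τ lR`,
`LB g = {B ∈ BB | rk B = 0, tl B = τ, parity of bs B + bl B + M + 1 = π, lv B = lL, lv (B + 1) = lR}`,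
`RB g = {B ∈ BB | lk B = 0, ta B 1 = τ, parity of bs B = π, lv (B - 1) = lL, lv B = lR}` (the parity
holds as `w = 5 M + 3`), `NL g = L0 ∑ B ∈ LB g, FB B`, `NR g` likewise,
`nz g = (NL g * cR + NR g * cL) / (cL * cR) + 1`. `X.greedyL` for the junctions `j < J` with `rk j = 0`; colours
`range (nz g) × (Iv 0 eeL × range Q) × (Iv 0 eeR × range Q)` (`X.InnEx_Iv`, `ee_le`); `j`, `j'` conflict
if `pgj` agrees, the first component agrees, and either `cp j = cp j'` with equal second components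
or `cp (j + 1) = cp (j' + 1)` with equal third components. By `load`, `ff_lt` there are at most
`NL g * Q` junctions of the first and `NR g * Q` of the second kind, they forbid `cR Q` and `cL Q`
colours each. Count: `FB B / cL ≤ 2 ^ mu FB B / mm ≤ 2 ^ mu (4 Z (W B _) + 1)` by `KL`, `hd_big`; a
type `B` lies in `LB g` (in `RB g`) for at most `2 ^ (2 l0)` values of `g`; the number of `g` is at
most `nPG` (`ta_mem`, `cTS`, `lv_le`); use `sum_r`, `sum_l` (`1 ≤ cM`), `card_BB`. -/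

set_option autoImplicit false

namespace Pool.Agent.Work.MP_ede3c6_co.Y

open Finset Vol

theorem AlP_abs {G K W : Type} [DecidableEq G] [DecidableEq K] [DecidableEq W]
    (S : Finset ℕ) (g : ℕ → G) (a b : ℕ → K) (CL CR : G → Finset W)
    (w0 : W) (Q : ℕ) (hQ : 0 < Q) (NL NR nz : G → ℕ)
    (h1 : ∀ i ∈ S, #{j ∈ S | g j = g i ∧ a j = a i} ≤ NL (g i) * Q)
    (h2 : ∀ i ∈ S, #{j ∈ S | g j = g i ∧ b j = b i} ≤ NR (g i) * Q)
    (hz : ∀ y, NL y * #(CR y) + NR y * #(CL y) < nz y * (#(CL y) * #(CR y))) :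
    ∃ (pz : ℕ → ℕ) (pg qg : ℕ → W), (∀ i ∈ S, pz i < nz (g i) ∧ pg i ∈ CL (g i) ∧ qg i ∈ CR (g i)) ∧
      (∀ y z γ β, #{j ∈ S | g j = y ∧ pz j = z ∧ pg j = γ ∧ a j = β} ≤ Q) ∧
      ∀ y z γ β, #{j ∈ S | g j = y ∧ pz j = z ∧ qg j = γ ∧ b j = β} ≤ Q := by
  obtain ⟨f, f1, f2⟩ := X.greedyL (C := ℕ × (W × ℕ) × (W × ℕ)) S
    (fun i => range (nz (g i)) ×ˢ (CL (g i) ×ˢ range Q) ×ˢ (CR (g i) ×ˢ range Q))
    (fun i c j d => g j = g i ∧ c.1 = d.1 ∧
      ((a j = a i ∧ c.2.1 = d.2.1) ∨ (b j = b i ∧ c.2.2 = d.2.2)) ∧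
      (c.2.1 ∈ CL (g i) ×ˢ range Q ∧ c.2.2 ∈ CR (g i) ×ˢ range Q) ∧
      (d.2.1 ∈ CL (g j) ×ˢ range Q ∧ d.2.2 ∈ CR (g j) ×ˢ range Q)) (0, (w0, 0), (w0, 0))
    (fun i c j d h => ⟨h.1.symm, h.2.1.symm, h.2.2.1.imp (fun q => ⟨q.1.symm, q.2.symm⟩)
      (fun q => ⟨q.1.symm, q.2.symm⟩), h.2.2.2.2, h.2.2.2.1⟩)
    (fun i j => (if g j = g i ∧ a j = a i then #(CR (g i)) * Q else 0) +
      if g j = g i ∧ b j = b i then #(CL (g i)) * Q else 0)
    (fun i _ j _ d => by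
      refine ⟨(if g j = g i ∧ a j = a i then
          (CR (g i) ×ˢ range Q).image fun u => (d.1, d.2.1, u) else ∅) ∪
        if g j = g i ∧ b j = b i then (CL (g i) ×ˢ range Q).image fun u => (d.1, u, d.2.2) else ∅,
        (card_union_le _ _).trans (add_le_add ?_ ?_), fun c h => ?_⟩
      · split_ifs
        · exact card_image_le.trans (by rw [card_product, card_range])
        · simp
      · split_ifs
        · exact card_image_le.trans (by rw [card_product, card_range])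
        · simp
      · obtain ⟨e1, e2, e3, ⟨e4, e5⟩, -⟩ := h
        rcases e3 with ⟨q1, q2⟩ | ⟨q1, q2⟩
        · refine mem_union_left _ ?_
          rw [if_pos ⟨e1, q1⟩]
          exact mem_image.2 ⟨c.2.2, e5, by rw [← e2, ← q2]⟩
        · refine mem_union_right _ ?_
          rw [if_pos ⟨e1, q1⟩]
          exact mem_image.2 ⟨c.2.1, e4, by rw [← e2, ← q2]⟩)
    (fun i hi => by
      rw [sum_add_distrib, ← sum_filter, ← sum_filter, sum_const, sum_const, smul_eq_mul,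
        smul_eq_mul]
      simp only [card_product, card_range]
      have k1 := Nat.mul_le_mul_right (#(CR (g i)) * Q) (h1 i hi)
      have k2 := Nat.mul_le_mul_right (#(CL (g i)) * Q) (h2 i hi)
      have k3 := Nat.mul_lt_mul_of_pos_right (hz (g i)) (Nat.mul_pos hQ hQ)
      calc _ ≤ NL (g i) * Q * (#(CR (g i)) * Q) + NR (g i) * Q * (#(CL (g i)) * Q) :=
            add_le_add k1 k2
        _ = (NL (g i) * #(CR (g i)) + NR (g i) * #(CL (g i))) * (Q * Q) := by ring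
        _ < _ := k3
        _ = _ := by ring)
  have m1 := fun i hi => (mem_product.1 (mem_product.1 (f1 i hi)).2).1
  have m2 := fun i hi => (mem_product.1 (mem_product.1 (f1 i hi)).2).2
  refine ⟨fun i => (f i).1, fun i => (f i).2.1.1, fun i => (f i).2.2.1, fun i hi =>
    ⟨mem_range.1 (mem_product.1 (f1 i hi)).1, (mem_product.1 (m1 i hi)).1,
      (mem_product.1 (m2 i hi)).1⟩, fun y z γ β => ?_, fun y z γ β => ?_⟩
  · rw [← card_range Q]
    refine card_le_card_of_injOn (fun j => (f j).2.1.2)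
      (fun j hj => (mem_product.1 (m1 j (mem_filter.1 hj).1)).2) fun i hi j hj q => ?_
    by_contra k
    obtain ⟨a1, a2, a3, a4, a5⟩ := mem_filter.1 hi
    obtain ⟨b1, b2, b3, b4, b5⟩ := mem_filter.1 hj
    exact f2 i a1 j b1 k ⟨b2.trans a2.symm, a3.trans b3.symm,
      Or.inl ⟨b5.trans a5.symm, Prod.ext (a4.trans b4.symm) q⟩, ⟨m1 i a1, m2 i a1⟩,
      m1 j b1, m2 j b1⟩
  · rw [← card_range Q]
    refine card_le_card_of_injOn (fun j => (f j).2.2.2)
      (fun j hj => (mem_product.1 (m2 j (mem_filter.1 hj).1)).2) fun i hi j hj q => ?_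
    by_contra k
    obtain ⟨a1, a2, a3, a4, a5⟩ := mem_filter.1 hi
    obtain ⟨b1, b2, b3, b4, b5⟩ := mem_filter.1 hj
    exact f2 i a1 j b1 k ⟨b2.trans a2.symm, a3.trans b3.symm,
      Or.inr ⟨b5.trans a5.symm, Prod.ext (a4.trans b4.symm) q⟩, ⟨m1 i a1, m2 i a1⟩,
      m1 j b1, m2 j b1⟩

open Classical in
theorem AlP_sum {G : Type} (GG : Finset G) (BB : Finset ℕ) (LB : G → Finset ℕ) (φ : ℕ → ℝ)
    (ψ : G → ℕ → ℝ) (m : ℕ) (h0 : ∀ B ∈ BB, 0 ≤ φ B) (h1 : ∀ y ∈ GG, LB y ⊆ BB)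
    (h2 : ∀ y ∈ GG, ∀ B ∈ LB y, ψ y B ≤ φ B) (h3 : ∀ B, #{y ∈ GG | B ∈ LB y} ≤ m) :
    ∑ y ∈ GG, ∑ B ∈ LB y, ψ y B ≤ m * ∑ B ∈ BB, φ B := by
  calc ∑ y ∈ GG, ∑ B ∈ LB y, ψ y B ≤ ∑ y ∈ GG, ∑ B ∈ BB, if B ∈ LB y then φ B else 0 := by
        refine sum_le_sum fun y hy => ?_
        rw [← sum_filter, filter_mem_eq_inter, inter_eq_right.2 (h1 y hy)]
        exact sum_le_sum (h2 y hy)
    _ = ∑ B ∈ BB, (#{y ∈ GG | B ∈ LB y} : ℝ) * φ B := by
        rw [sum_comm]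
        refine sum_congr rfl fun B _ => ?_
        rw [← sum_filter, sum_const, nsmul_eq_mul]
    _ ≤ _ := by
        rw [mul_sum]
        exact sum_le_sum fun B hB => mul_le_mul_of_nonneg_right (Nat.cast_le.2 (h3 B)) (h0 B hB)

open Classical in
theorem AlP_load (x : Cx) (T : Finset ℕ) (d : ℕ) (hT : ∀ j ∈ T, j + d ≤ x.S.J)
    (β : V (Fin x.p.kR)) : #{j ∈ T | x.cp (j + d) = β} ≤
      x.p.L0 * (∑ B ∈ T.image fun j => x.bt (j + d), x.FB B) * x.p.Q := by
  calc _ ≤ #((T.image fun j => x.bt (j + d)).biUnion fun B => (range (x.FB B)).biUnion fun f =>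
        ({j ∈ range (x.S.J + 1) | x.bt j = B ∧ x.ff j = f ∧ x.cp j = β} : Finset ℕ)) := by
        refine card_le_card_of_injOn (· + d) (fun j hj => ?_) fun i _ j _ q => Nat.add_right_cancel q
        obtain ⟨a1, a2⟩ := mem_filter.1 hj
        exact mem_coe.2 (mem_biUnion.2 ⟨_, mem_image_of_mem _ a1, mem_biUnion.2
          ⟨_, mem_range.2 (x.ff_lt (hT j a1)), mem_filter.2
            ⟨mem_range.2 (Nat.lt_succ_of_le (hT j a1)), rfl, rfl, a2⟩⟩⟩)
    _ ≤ ∑ B ∈ T.image fun j => x.bt (j + d), x.FB B * (x.p.L0 * x.p.Q) := by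
        refine card_biUnion_le.trans (sum_le_sum fun B _ => card_biUnion_le.trans ?_)
        refine (sum_le_sum fun f _ => x.load B f β).trans ?_
        rw [sum_const, card_range, smul_eq_mul]
    _ = _ := by rw [← sum_mul]; ring

theorem AlP_Z0 (x : Cx) {w : ℝ} (h : 0 ≤ w) : 0 ≤ x.Z w := by
  have := x.η0
  unfold Cx.Z
  positivity

theorem AlP_KL (x : Cx) {B o : ℕ} (hB : B ∈ x.BB) (h : o < x.S.bl B) (hs : x.p.aS ≤ x.ta B o) :
    (x.FB B : ℝ) / 2 ^ x.ee (x.ta B o) (x.lv B) ≤ 2 ^ x.p.mu * (4 * x.Z (x.W B o) + 1) := by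
  have k := x.KL hB h fun q => absurd q.1 (not_lt.2 hs)
  have z := AlP_Z0 x (Nat.cast_nonneg (x.W B o))
  have c : (#(x.I.Cd (x.I.io (x.ta B o))) : ℝ) ≤ 2 ^ x.p.mu := by
    have := card_le_univ (x.I.Cd (x.I.io (x.ta B o)))
    simp only [Fintype.card_pi, ZMod.card, prod_const, card_univ, Fintype.card_fin] at this
    exact_mod_cast this
  rw [div_le_iff₀ (by positivity)]
  refine k.trans ?_
  rw [Cx.mm]
  push_cast
  calc _ ≤ 2 ^ x.p.mu * 2 ^ x.ee (x.ta B o) (x.lv B) * (4 * x.Z (x.W B o) + 1) := by gcongr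
    _ = _ := by ring

theorem AlP_sumZ (x : Cx) (o : ℕ → ℕ) (h : ∑ B ∈ x.BB, x.W B (o B) ≤ x.p.Wb) :
    ∑ B ∈ x.BB, (2 : ℝ) ^ x.p.mu * (4 * x.Z (x.W B (o B)) + 1) ≤
      2 ^ x.p.mu * (4 * (x.Z x.p.Wb + x.p.nB)) := by
  have e : ∑ B ∈ x.BB, x.Z (x.W B (o B)) ≤ x.Z x.p.Wb := by
    have := x.η0
    have h' : ∑ B ∈ x.BB, (x.W B (o B) : ℝ) ≤ x.p.Wb := by exact_mod_cast h
    unfold Cx.Z
    rw [← sum_div, ← mul_sum]
    gcongr
  have c : (#x.BB : ℝ) ≤ x.p.nB := Nat.cast_le.2 x.card_BB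
  have c0 : (0 : ℝ) ≤ x.p.nB := Nat.cast_nonneg _
  rw [← mul_sum, sum_add_distrib, ← mul_sum, sum_const, nsmul_eq_mul, mul_one]
  gcongr ?_ * ?_
  linarith

theorem AlP_fib (x : Cx) (GG : Finset x.PG) (P : x.PG → Prop) [DecidablePred P]
    (τ : ℕ) (π : ZMod 2) (l l' : ℕ)
    (h : ∀ y, P y → y.1 = τ ∧ y.2.1 = π ∧ y.2.2.1 = l ∧ y.2.2.2.1 = l') :
    #{y ∈ GG | P y} ≤ 2 ^ (2 * x.p.l0) := by
  calc _ ≤ #(univ : Finset (V (Fin x.p.l0) × V (Fin x.p.l0))) := by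
        refine card_le_card_of_injOn (fun y => y.2.2.2.2) (fun _ _ => mem_coe.2 (mem_univ _))
          fun y hy y' hy' q => ?_
        obtain ⟨a1, a2, a3, a4⟩ := h y (mem_filter.1 hy).2
        obtain ⟨b1, b2, b3, b4⟩ := h y' (mem_filter.1 hy').2
        exact Prod.ext (a1.trans b1.symm) (Prod.ext (a2.trans b2.symm)
          (Prod.ext (a3.trans b3.symm) (Prod.ext (a4.trans b4.symm) q)))
    _ = _ := by simp [two_mul, pow_add]

open Classical in
theorem AlP_nPG (x : Cx) (S : Finset ℕ) : #(S.image x.pgj) ≤ x.p.nPG := by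
  calc _ ≤ #((x.I.TS ×ˢ univ ×ˢ range (x.p.kR + 1) ×ˢ range (x.p.kR + 1) ×ˢ univ : Finset x.PG)) := by
        refine card_le_card fun y hy => ?_
        obtain ⟨j, -, rfl⟩ := mem_image.1 hy
        simp only [mem_product, mem_univ, mem_range, true_and, and_true, Cx.pgj]
        exact ⟨x.ta_mem _ _, Nat.lt_succ_of_le (x.lv_le _), Nat.lt_succ_of_le (x.lv_le _)⟩
    _ ≤ _ := by
        have := x.I.cTS
        simp only [card_product, card_univ, card_range, ZMod.card, Fintype.card_prod,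
          Fintype.card_pi, prod_const, Fintype.card_fin, Pm.nPG]
        calc _ ≤ x.p.nT * (2 * ((x.p.kR + 1) * ((x.p.kR + 1) * (2 ^ x.p.l0 * 2 ^ x.p.l0)))) := by
              gcongr
          _ = _ := by ring

open Classical in
theorem pz_ex (x : Cx) : ∃ (pz : ℕ → ℕ) (pg qg : ℕ → V (Fin x.p.w0)), x.PX pz pg qg ∧
    (#(({j ∈ range x.S.J | x.S.rk j = 0} : Finset ℕ).image fun j => (x.pgj j, pz j)) : ℝ) ≤
      x.p.L0 * 2 ^ (2 * x.p.l0 + x.p.mu + 3) * (x.Z x.p.Wb + x.p.nB) + x.p.nPG := by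
  set S : Finset ℕ := {j ∈ range x.S.J | x.S.rk j = 0} with hS
  have mS : ∀ j ∈ S, j < x.S.J ∧ x.S.rk j = 0 := fun j hj =>
    ⟨mem_range.1 (mem_filter.1 hj).1, (mem_filter.1 hj).2⟩
  let LB : ℕ → x.PG → Finset ℕ := fun d y => {j ∈ S | x.pgj j = y}.image fun j => x.bt (j + d)
  let N : ℕ → x.PG → ℕ := fun d y => x.p.L0 * ∑ B ∈ LB d y, x.FB B
  let cL : x.PG → ℕ := fun y => 2 ^ x.ee y.1 y.2.2.1
  let cR : x.PG → ℕ := fun y => 2 ^ x.ee y.1 y.2.2.2.1
  let nz : x.PG → ℕ := fun y => (N 0 y * cR y + N 1 y * cL y) / (cL y * cR y) + 1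
  have ld : ∀ d ≤ 1, ∀ i ∈ S, #{j ∈ S | x.pgj j = x.pgj i ∧ x.cp (j + d) = x.cp (i + d)} ≤
      N d (x.pgj i) * x.p.Q := fun d hd i _ => by
    rw [← filter_filter]
    exact AlP_load x _ d (fun j hj => by have := (mS j (mem_filter.1 hj).1).1; omega) _
  obtain ⟨pz, pg, qg, f1, f2, f3⟩ := AlP_abs S x.pgj x.cp (fun j => x.cp (j + 1))
    (fun y => X.InnEx_Iv x.p.w0 0 (x.ee y.1 y.2.2.1))
    (fun y => X.InnEx_Iv x.p.w0 0 (x.ee y.1 y.2.2.2.1)) 0 x.p.Q (by unfold Pm.Q; positivity)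
    (N 0) (N 1) nz
    (fun i hi => le_trans (card_le_card fun j hj => mem_filter.2 (mem_filter.1 hj))
      (ld 0 (by omega) i hi))
    (fun i hi => le_trans (card_le_card fun j hj => mem_filter.2 (mem_filter.1 hj))
      (ld 1 le_rfl i hi)) fun y => by
      rw [X.InnEx_card (x.ee_le _ _), X.InnEx_card (x.ee_le _ _), Nat.sub_zero, Nat.sub_zero,
        mul_comm (nz y)]
      exact Nat.lt_mul_div_succ _ (by positivity)
  refine ⟨pz, pg, qg, ⟨fun j hj h0 => ?_, fun y z γ β => ?_, fun y z γ β => ?_⟩, ?_⟩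
  · obtain ⟨-, a1, a2⟩ := f1 j (mem_filter.2 ⟨mem_range.2 hj, h0⟩)
    exact ⟨fun b hb => X.InnEx_mem a1 b hb, fun b hb => X.InnEx_mem a2 b hb⟩
  · refine le_trans (card_le_card fun j hj => ?_) (f2 y z γ β)
    obtain ⟨a1, a2, a3⟩ := mem_filter.1 hj
    exact mem_filter.2 ⟨mem_filter.2 ⟨a1, a2⟩, a3⟩
  · refine le_trans (card_le_card fun j hj => ?_) (f3 y z γ β)
    obtain ⟨a1, a2, a3⟩ := mem_filter.1 hj
    exact mem_filter.2 ⟨mem_filter.2 ⟨a1, a2⟩, a3⟩
  have c1 : #(S.image fun j => (x.pgj j, pz j)) ≤ ∑ y ∈ S.image x.pgj, nz y := by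
    calc _ ≤ #((S.image x.pgj).biUnion fun y => (range (nz y)).image fun z => (y, z)) := by
          refine card_le_card fun u hu => ?_
          obtain ⟨j, hj, rfl⟩ := mem_image.1 hu
          exact mem_biUnion.2 ⟨_, mem_image_of_mem _ hj,
            mem_image_of_mem _ (mem_range.2 (f1 j hj).1)⟩
      _ ≤ _ := card_biUnion_le.trans
          (sum_le_sum fun y _ => card_image_le.trans (card_range _).le)
  have c2 : ∀ y, (nz y : ℝ) ≤ x.p.L0 * ∑ B ∈ LB 0 y, (x.FB B : ℝ) / 2 ^ x.ee y.1 y.2.2.1 +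
      x.p.L0 * ∑ B ∈ LB 1 y, (x.FB B : ℝ) / 2 ^ x.ee y.1 y.2.2.2.1 + 1 := fun y => by
    clear * - N y cR cL nz x LB
    have k := Nat.cast_div_le (α := ℝ) (m := N 0 y * cR y + N 1 y * cL y) (n := cL y * cR y)
    simp only [nz, Nat.cast_add, Nat.cast_one]
    refine add_le_add (k.trans (le_of_eq ?_)) le_rfl
    rw [← sum_div, ← sum_div]
    simp only [N, cL, cR]
    push_cast
    field_simp
  have cM : 1 ≤ x.p.cM := by unfold Pm.cM; omega
  have sub : ∀ d ≤ 1, ∀ y, LB d y ⊆ x.BB := fun d hd y B hB => by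
    obtain ⟨j, hj, rfl⟩ := mem_image.1 hB
    have := (mS j (mem_filter.1 hj).1).1
    exact mem_image_of_mem _ (mem_range.2 (by omega))
  have pos : ∀ (o : ℕ → ℕ), ∀ B ∈ x.BB, (0 : ℝ) ≤ 2 ^ x.p.mu * (4 * x.Z (x.W B (o B)) + 1) :=
    fun o B _ => by
      have := AlP_Z0 x (Nat.cast_nonneg (x.W B (o B)))
      positivity
  have kL : ∀ y B, B ∈ LB 0 y → y.1 = x.tl B ∧
      y.2.1 = ((x.S.bs B + x.S.bl B + x.p.M + 1 : ℕ) : ZMod 2) ∧ y.2.2.1 = x.lv B ∧
      y.2.2.2.1 = x.lv (B + 1) := fun y B hB => by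
    obtain ⟨j, hj, rfl⟩ := mem_image.1 hB
    obtain ⟨-, rfl⟩ := mem_filter.1 hj
    refine ⟨(x.tl_bt j).symm, ?_, (x.lv_bt j).symm, (x.same_bt j).l2.symm⟩
    simp only [Cx.pgj, add_zero, Nat.cast_add, x.bs_bt, x.bl_bt]
  have kR : ∀ y B, B ∈ LB 1 y → y.1 = x.ta B 1 ∧ y.2.1 = (x.S.bs B : ZMod 2) ∧
      y.2.2.1 = x.lv (B - 1) ∧ y.2.2.2.1 = x.lv B := fun y B hB => by
    obtain ⟨j, hj, rfl⟩ := mem_image.1 hB
    obtain ⟨hj', rfl⟩ := mem_filter.1 hj
    refine ⟨((x.ta_bt1 _).trans (x.ta_succ j)).symm, ?_, (x.same_bt (j + 1)).l1.symm,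
      (x.lv_bt _).symm⟩
    rw [x.bs_bt, x.S.bss, if_neg (by rw [(mS j hj').2]; omega), Pm.w]
    refine (ZMod.natCast_eq_natCast_iff' _ _ 2).2 ?_
    omega
  have sL := AlP_sum (S.image x.pgj) x.BB (LB 0) _
    (fun y B => (x.FB B : ℝ) / 2 ^ x.ee y.1 y.2.2.1) (2 ^ (2 * x.p.l0))
    (pos fun B => x.S.bl B - 1) (fun y _ => sub 0 (by omega) y)
    (fun y _ B hB => by
      obtain ⟨a1, -, a2, -⟩ := kL y B hB
      have := x.S.bl1 B
      simp only [a1, a2]
      exact AlP_KL x (sub 0 (by omega) y hB) (by omega) (x.hd_big B).2)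
    fun B => AlP_fib x _ _ _ _ _ _ fun y hy => kL y B hy
  have sR := AlP_sum (S.image x.pgj) x.BB (LB 1) _
    (fun y B => (x.FB B : ℝ) / 2 ^ x.ee y.1 y.2.2.2.1) (2 ^ (2 * x.p.l0))
    (pos fun _ => 1) (fun y _ => sub 1 le_rfl y)
    (fun y _ B hB => by
      obtain ⟨a1, -, -, a2⟩ := kR y B hB
      have := x.S.bl1 B
      simp only [a1, a2]
      exact AlP_KL x (sub 1 le_rfl y hB) (by omega) (x.hd_big B).1)
    fun B => AlP_fib x _ _ _ _ _ _ fun y hy => kR y B hy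
  have zL := AlP_sumZ x (fun B => x.S.bl B - 1) (le_trans (sum_le_sum fun B _ =>
    Nat.le_mul_of_pos_left _ (by split_ifs <;> omega)) x.sum_r)
  have zR := AlP_sumZ x (fun _ => 1) (le_trans (sum_le_sum fun B _ =>
    Nat.le_mul_of_pos_left _ (by split_ifs <;> omega)) x.sum_l)
  have nP : (#(S.image x.pgj) : ℝ) ≤ x.p.nPG := Nat.cast_le.2 (AlP_nPG x S)
  push_cast at sL sR
  calc _ ≤ ∑ y ∈ S.image x.pgj, (nz y : ℝ) := by exact_mod_cast c1
    _ ≤ _ := sum_le_sum fun y _ => c2 y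
    _ ≤ x.p.L0 * (2 ^ (2 * x.p.l0) * (2 ^ x.p.mu * (4 * (x.Z x.p.Wb + x.p.nB)))) +
        x.p.L0 * (2 ^ (2 * x.p.l0) * (2 ^ x.p.mu * (4 * (x.Z x.p.Wb + x.p.nB)))) + x.p.nPG := by
        rw [sum_add_distrib, sum_add_distrib, ← mul_sum, ← mul_sum, sum_const, nsmul_eq_mul,
          mul_one]
        refine add_le_add (add_le_add ?_ ?_) nP
        · exact mul_le_mul_of_nonneg_left (sL.trans (by gcongr)) (Nat.cast_nonneg _)
        · exact mul_le_mul_of_nonneg_left (sR.trans (by gcongr)) (Nat.cast_nonneg _)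
    _ = _ := by ring

end Pool.Agent.Work.MP_ede3c6_co.Y
end

-- merged part: Pool.Agent.Work.MP_ede3c6_co.Y.Lin
section
/-! Three independent tools: a generic additive map, a basis among given vectors, and balancing
that avoids a small set of values.

PLAN. `lam_ex`: induction on `w`; for finitely many nonzero vectors some functional vanishes on at
most half of them (take functionals `φ t` with `φ t t = 1` and average over the sums of subsets).
`basis_ex`: a maximal subset of `S` without a vanishing nonempty subsum, its subsums are pairwise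
different, enumerate it. `two_round`: `slide` (with `N = 0`, offsets `0`) over all coordinates
gives `b`; a chapter `v` is bad if some row of flags of `fun c => b c v` vanishes; at most
`3 * 2 ^ (2 m) * 2 ^ card R` values are bad; apply `slide` again to the slots of bad chapters and
the coordinates other than the three flags `(a, 0)`, which are set to `1` in bad chapters. -/

set_option autoImplicit false

namespace Pool.Agent.Work.MP_ede3c6_co.Y

open Finset Vol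

theorem lam_ex {W : Type} [AddCommGroup W] [Module (ZMod 2) W] (w : ℕ) (T : Finset W)
    (h0 : ∀ t ∈ T, t ≠ 0) (hT : T.card < 2 ^ w) :
    ∃ Λ : W →+ V (Fin w), ∀ t ∈ T, Λ t ≠ 0 := by
  classical
  induction T using Finset.induction_on with
  | empty => exact ⟨0, fun t ht => absurd ht (Finset.notMem_empty t)⟩
  | insert t0 T hn ih =>
    obtain ⟨Λ, hΛ⟩ := ih (fun t ht => h0 t (Finset.mem_insert_of_mem ht))
      ((Finset.card_le_card (Finset.subset_insert _ _)).trans_lt hT)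
    obtain ⟨ψ, hψ, -⟩ := Submodule.exists_le_ker_of_notMem (p := (⊥ : Submodule (ZMod 2) W))
      (v := t0) (by simpa using h0 t0 (Finset.mem_insert_self _ _))
    obtain ⟨v, -, hv⟩ := Finset.exists_mem_notMem_of_card_lt_card
      (s := (insert t0 T).image fun t => -Λ t) (t := Finset.univ)
      (Finset.card_image_le.trans_lt (by simpa using hT))
    have h01 : ∀ c : ZMod 2, c = 0 ∨ c = 1 := by decide
    refine ⟨Λ + (ψ.smulRight v).toAddMonoidHom, fun t ht h => ?_⟩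
    have h1 : Λ t + ψ t • v = 0 := h
    rcases h01 (ψ t) with h2 | h2
    · rw [h2, zero_smul, add_zero] at h1
      rcases Finset.mem_insert.1 ht with rfl | h3
      · exact hψ h2
      · exact hΛ t h3 h1
    · rw [h2, one_smul] at h1
      exact hv (Finset.mem_image.2 ⟨t, ht, neg_eq_of_add_eq_zero_right h1⟩)

theorem basis_ex {H G : Type} [Nonempty H] [AddCommGroup G] [Fintype G] (h2 : ∀ g : G, g + g = 0)
    (lam : H → G) (S : Finset H) (N : ℕ) (hN : Fintype.card G ≤ 2 ^ N) :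
    ∃ (nb : ℕ) (bl : ℕ → H), nb ≤ N ∧ (∀ i < nb, bl i ∈ S) ∧
      (∀ T ⊆ range nb, ∑ i ∈ T, lam (bl i) = 0 → T = ∅) ∧
      (∀ i < nb, ∀ j < nb, bl i = bl j → i = j) ∧
      ∀ h ∈ S, ∃ T ⊆ range nb, lam h = ∑ i ∈ T, lam (bl i) := by
  classical
  have main : ∃ (nb : ℕ) (bl : ℕ → H), (∀ i < nb, bl i ∈ S) ∧
      (∀ T ⊆ range nb, ∑ i ∈ T, lam (bl i) = 0 → T = ∅) ∧
      ∀ h ∈ S, ∃ T ⊆ range nb, lam h = ∑ i ∈ T, lam (bl i) := by
    induction S using Finset.induction_on with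
    | empty =>
      exact ⟨0, fun _ => Classical.arbitrary H, fun i hi => absurd hi (Nat.not_lt_zero i),
        fun T hT _ => by simpa using hT, fun h hh => absurd hh (Finset.notMem_empty h)⟩
    | insert h0 S _ ih =>
      obtain ⟨nb, bl, a1, a2, a3⟩ := ih
      by_cases hh : ∃ T ⊆ range nb, lam h0 = ∑ i ∈ T, lam (bl i)
      · refine ⟨nb, bl, fun i hi => Finset.mem_insert_of_mem (a1 i hi), a2, fun h hm => ?_⟩
        rcases Finset.mem_insert.1 hm with rfl | hm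
        exacts [hh, a3 h hm]
      have he : ∀ T ⊆ range nb, ∑ i ∈ T, lam (Function.update bl nb h0 i) = ∑ i ∈ T, lam (bl i) :=
        fun T hT => Finset.sum_congr rfl fun i hi => by
          rw [Function.update_of_ne (Finset.mem_range.1 (hT hi)).ne]
      refine ⟨nb + 1, Function.update bl nb h0, fun i hi => ?_, fun T hT hs => ?_, fun h hm => ?_⟩
      · rcases Nat.lt_succ_iff_lt_or_eq.1 hi with h | rfl
        · rw [Function.update_of_ne h.ne]
          exact Finset.mem_insert_of_mem (a1 i h)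
        · rw [Function.update_self]
          exact Finset.mem_insert_self _ _
      · have hT' : T.erase nb ⊆ range nb := fun i hi => by
          have h3 := Finset.mem_erase.1 hi
          have h4 := Finset.mem_range.1 (hT h3.2)
          exact Finset.mem_range.2 (by omega)
        by_cases hn : nb ∈ T
        · rw [← Finset.add_sum_erase _ _ hn, he _ hT', Function.update_self] at hs
          exact absurd ⟨_, hT', add_right_cancel (hs.trans (h2 _).symm)⟩ hh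
        · rw [Finset.erase_eq_of_notMem hn] at hT'
          exact a2 T hT' ((he T hT').symm.trans hs)
      · rcases Finset.mem_insert.1 hm with rfl | hm
        · exact ⟨{nb}, by simp, by simp⟩
        · obtain ⟨T, hT, e⟩ := a3 h hm
          exact ⟨T, hT.trans (Finset.range_mono nb.le_succ), e.trans (he T hT).symm⟩
  obtain ⟨nb, bl, a1, a2, a3⟩ := main
  refine ⟨nb, bl, ?_, a1, a2, fun i hi j hj e => ?_, a3⟩
  · have h3 : (range nb).powerset.card ≤ (Finset.univ : Finset G).card := by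
      refine Finset.card_le_card_of_injOn (fun T => ∑ i ∈ T, lam (bl i))
        (fun _ _ => Finset.mem_univ _) fun T hT T' hT' e => ?_
      have h4 := Finset.mem_powerset.1 hT
      have h5 := Finset.mem_powerset.1 hT'
      have h6 := a2 (T \ T' ∪ T' \ T)
        (Finset.union_subset (Finset.sdiff_subset.trans h4) (Finset.sdiff_subset.trans h5)) (by
          rw [Finset.sum_union disjoint_sdiff_sdiff, Finset.sum_sdiff_eq_sum_sdiff_iff.2 e, h2])
      rw [Finset.union_eq_empty, Finset.sdiff_eq_empty_iff_subset,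
        Finset.sdiff_eq_empty_iff_subset] at h6
      exact Finset.Subset.antisymm h6.1 h6.2
    rw [Finset.card_powerset, Finset.card_range, Finset.card_univ] at h3
    exact (Nat.pow_le_pow_iff_right (by norm_num)).1 (h3.trans hN)
  · by_contra hne
    have h3 := a2 {i, j} (by simp [Finset.insert_subset_iff, hi, hj])
      (by rw [Finset.sum_pair hne, e, h2])
    simp at h3

open Classical in
theorem Lin_bad {R : Type} [Fintype R] (m : ℕ) :
    #{z : V ((Fin 3 × Fin m) ⊕ R) | ∃ a, ∀ j, z (Sum.inl (a, j)) = 0} ≤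
      3 * 2 ^ (2 * m + Fintype.card R) := by
  have h1 : ∀ a : Fin 3, #{z : V ((Fin 3 × Fin m) ⊕ R) | ∀ j, z (Sum.inl (a, j)) = 0} ≤
      2 ^ (2 * m + Fintype.card R) := by
    intro a
    refine le_trans (Finset.card_le_card_of_injOn (t := (univ : Finset (V ((Fin 2 × Fin m) ⊕ R))))
      (fun z => z ∘ Sum.map (Prod.map a.succAbove id) id) (fun _ _ => Finset.mem_univ _)
      fun z hz z' hz' e => funext ?_) (by simp)
    rintro (⟨a', j⟩ | r)
    · by_cases h : a' = a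
      · rw [h, (Finset.mem_filter.1 hz).2 j, (Finset.mem_filter.1 hz').2 j]
      · obtain ⟨i, rfl⟩ := Fin.exists_succAbove_eq h
        exact congrFun e (Sum.inl (i, j))
    · exact congrFun e (Sum.inr r)
  refine le_trans (Finset.card_le_card fun z hz => ?_)
    ((Finset.card_biUnion_le_card_mul univ _ _ fun a _ => h1 a).trans_eq (by simp))
  obtain ⟨a, ha⟩ := (Finset.mem_filter.1 hz).2
  exact Finset.mem_biUnion.2 ⟨a, Finset.mem_univ _, Finset.mem_filter.2 ⟨Finset.mem_univ _, ha⟩⟩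

theorem Lin_arith {n r L T A c : ℕ} (hm : 5 ≤ n + 1)
    (h : 2 ^ (3 * n + r) * c ≤ (L * T + 2 * A) * (3 * 2 ^ (2 * (n + 1) + r)) +
      2 ^ (3 * n + r) * (2 * A)) : c ≤ (24 * L / 2 ^ (n + 1) + 1) * T + 4 * A := by
  have h1 : 2 ^ (n + 1) * c ≤ 24 * (L * T + 2 * A) + 2 ^ (n + 1) * (2 * A) := by
    refine Nat.le_of_mul_le_mul_left (c := 2 ^ (2 * n + r)) ?_ (by positivity)
    calc 2 ^ (2 * n + r) * (2 ^ (n + 1) * c) = 2 * (2 ^ (3 * n + r) * c) := by ring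
      _ ≤ _ := Nat.mul_le_mul_left 2 h
      _ = _ := by ring
  have h2 : 2 ^ 5 ≤ 2 ^ (n + 1) := Nat.pow_le_pow_right (by norm_num) hm
  have h3 : 24 * L < 2 ^ (n + 1) * (24 * L / 2 ^ (n + 1) + 1) :=
    Nat.lt_mul_div_succ _ (by positivity)
  generalize 24 * L / 2 ^ (n + 1) + 1 = D at h3 ⊢
  generalize 2 ^ (n + 1) = Q at h1 h2 h3
  refine Nat.le_of_mul_le_mul_left (c := Q) (h1.trans ?_) (by omega)
  have h4 := Nat.mul_le_mul_right T h3.le
  have h5 := Nat.mul_le_mul_right A h2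
  clear * - L T A Q D h4 h5
  nlinarith

open Classical in
theorem two_round {X Y R : Type} [Fintype R] (m : ℕ) (hm : 5 ≤ m) (S : Finset X) (key : X → Y)
    (ch : X → ℕ) (A : ℕ) (hA : ∀ v, #{x ∈ S | ch x = v} ≤ A) (L : Y → ℕ) (T : ℕ)
    (hL : ∀ y, #{x ∈ S | key x = y} ≤ L y * (2 ^ (3 * m + Fintype.card R) * T)) :
    ∃ ρ : ℕ → V ((Fin 3 × Fin m) ⊕ R), (∀ v a, ∃ b, ρ v (Sum.inl (a, b)) = 1) ∧
      ∀ y z, #{x ∈ S | key x = y ∧ ρ (ch x) = z} ≤ (L y + 24 * L y / 2 ^ m + 1) * T + 6 * A := by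
  obtain ⟨n, rfl⟩ : ∃ n, m = n + 1 := ⟨m - 1, by omega⟩
  have h01 : ∀ c : ZMod 2, c ≠ 1 → c = 0 := by decide
  obtain ⟨b, -, hb⟩ := MP_ede3c6_co.X.slide (C := (Fin 3 × Fin (n + 1)) ⊕ R) S key (fun _ => ch) (fun _ _ => 0)
    A 0 (fun _ => hA) (fun _ => ∅) (fun _ => by simp) (fun _ _ => 0)
  have h1 : ∀ y z, #{x ∈ S | key x = y ∧ (fun c => b c (ch x)) = z} ≤ L y * T + 2 * A := by
    intro y z
    have h := (hb y z).trans (Nat.add_le_add_right (hL y) _)
    simp only [Fintype.card_sum, Fintype.card_prod, Fintype.card_fin, zero_add, one_mul] at h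
    refine Nat.le_of_mul_le_mul_left (c := 2 ^ (3 * (n + 1) + Fintype.card R))
      (le_trans ?_ (h.trans_eq (by ring))) (by positivity)
    exact Nat.mul_le_mul_left _ (Finset.card_le_card fun x hx =>
      Finset.mem_filter.2 (Finset.mem_filter.1 hx))
  obtain ⟨B, hB⟩ : ∃ B : Finset (V ((Fin 3 × Fin (n + 1)) ⊕ R)),
      B = univ.filter fun z : V ((Fin 3 × Fin (n + 1)) ⊕ R) =>
        ∃ a, ∀ j, z (Sum.inl (a, j)) = 0 := ⟨_, rfl⟩
  have h2 : B.card ≤ 3 * 2 ^ (2 * (n + 1) + Fintype.card R) := hB ▸ Lin_bad (n + 1)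
  obtain ⟨b', -, hb'⟩ := MP_ede3c6_co.X.slide (C := (Fin 3 × Fin n) ⊕ R) {x ∈ S | (fun c => b c (ch x)) ∈ B}
    key (fun _ => ch) (fun _ _ => 0) A 0
    (fun _ v => le_trans (Finset.card_le_card fun x hx => Finset.mem_filter.2
      ⟨(Finset.mem_filter.1 (Finset.mem_filter.1 hx).1).1, (Finset.mem_filter.1 hx).2⟩) (hA v))
    (fun _ => ∅) (fun _ => by simp) (fun _ _ => 0)
  have h3 : ∀ y, #{x ∈ {x ∈ S | (fun c => b c (ch x)) ∈ B} | key x = y} ≤
      (L y * T + 2 * A) * (3 * 2 ^ (2 * (n + 1) + Fintype.card R)) := by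
    intro y
    refine le_trans (Finset.card_le_mul_card_image_of_maps_to (f := fun x c => b c (ch x)) (t := B)
      (fun x hx => (Finset.mem_filter.1 (Finset.mem_filter.1 hx).1).2) _ fun z _ => ?_)
      (Nat.mul_le_mul_left _ h2)
    refine le_trans (Finset.card_le_card fun x hx => ?_) (h1 y z)
    obtain ⟨g1, g2⟩ := Finset.mem_filter.1 hx
    obtain ⟨g3, g4⟩ := Finset.mem_filter.1 g1
    exact Finset.mem_filter.2 ⟨(Finset.mem_filter.1 g3).1, g4, g2⟩
  have h4 : ∀ y z, #{x ∈ {x ∈ S | (fun c => b c (ch x)) ∈ B} |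
      key x = y ∧ (fun c => b' c (ch x)) = z} ≤ (24 * L y / 2 ^ (n + 1) + 1) * T + 4 * A := by
    intro y z
    have h := (hb' y z).trans (Nat.add_le_add_right (h3 y) _)
    simp only [Fintype.card_sum, Fintype.card_prod, Fintype.card_fin, zero_add, one_mul] at h
    refine Lin_arith (r := Fintype.card R) hm (le_trans ?_ h)
    exact Nat.mul_le_mul_left _ (Finset.card_le_card fun x hx =>
      Finset.mem_filter.2 (Finset.mem_filter.1 hx))
  refine ⟨fun v => if (fun c => b c v) ∈ B then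
      Sum.elim (fun t => Fin.cases (motive := fun _ => ZMod 2) 1
        (fun j => b' (Sum.inl (t.1, j)) v) t.2) (fun r => b' (Sum.inr r) v)
    else fun c => b c v, fun v a => ?_, fun y z => ?_⟩
  · by_cases hv : (fun c => b c v) ∈ B
    · exact ⟨0, by simp only [if_pos hv]; rfl⟩
    · simp only [if_neg hv]
      by_contra hn
      refine hv (hB ▸ Finset.mem_filter.2 ⟨Finset.mem_univ _, a, fun j => h01 _ fun h => hn ⟨j, h⟩⟩)
  · refine le_trans (Finset.card_le_card fun x hx => ?_) (le_trans (Finset.card_union_le _ _)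
      ((Nat.add_le_add (h1 y z) (h4 y (z ∘ Sum.map (Prod.map id Fin.succ) id))).trans_eq
        (by ring)))
    obtain ⟨g1, g2, g3⟩ := Finset.mem_filter.1 hx
    by_cases hv : (fun c => b c (ch x)) ∈ B
    · simp only [if_pos hv] at g3
      refine Finset.mem_union_right _ (Finset.mem_filter.2
        ⟨Finset.mem_filter.2 ⟨g1, hv⟩, g2, funext ?_⟩)
      rintro (⟨a, j⟩ | r)
      · exact congrFun g3 (Sum.inl (a, j.succ))
      · exact congrFun g3 (Sum.inr r)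
    · simp only [if_neg hv] at g3
      exact Finset.mem_union_left _ (Finset.mem_filter.2 ⟨g1, g2, g3⟩)

end Pool.Agent.Work.MP_ede3c6_co.Y
end

-- merged part: Pool.Agent.Work.MP_ede3c6_co.Y.Bal1
section
/-! Balanced values of the control and global coordinates.

PLAN (model: `X.Cx.bal` and its use with `X.rank_ex` in `X/P1.lean`, `X/P2.lean`). Slots
`XS = range J ×ˢ range ks`; a slot `(j, s)` is masked if `s ≠ 0 ∧ rk j = 3`. `T = 2 ^ (G + (d2 * 2 +
d1 * 2))`, `Q ≤ 2 ^ (3 m1 + card Rh) T`. (1) `two_round` for the slots that are not masked, key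
`(s, key j s)`, `ch = j / PP`, `A = PP ks`, `L = L0` for `s = 0` and `1` otherwise; by `e3` the
loads of `(s, some (key j s, ρ (j / PP)))` are at most `(L + 24 L / 2 ^ m1 + 2) T`. Masked slots get
the key `(s, none)`, of load at most `N ≤ T` (`rk3`, `Jk`, `hk`, `e1`). (2) `X.slide'` for the global
coordinates, fibres `≤ (G + 1) PP ks ≤ 2 ^ (d2 * 2)` (`e2`). (3) `X.slideR` with `d2`, `A = P1 ks`
(`mc j` is `j / P1` or `j / P1 + 1`; for fixed `s` count the `j`). (4) `X.slideR` with `d1`, `A = ks`.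
The loads are now at most `L0 + 24 L0 / 2 ^ m1 + er` for `s = 0` and `er` for `s ≥ 1`
(`24 / 2 ^ m1 = 0`). (5) `X.rank_ex` with `hr`. -/

set_option autoImplicit false

namespace Pool.Agent.Work.MP_ede3c6_co.Y

open Finset Vol

theorem Bal1_fibre (J ks D r P : ℕ) (h : r < D) (hP : 0 < P) (f : ℕ × ℕ → ℕ)
    (hf : ∀ z, z.1 / P ≤ f z ∧ f z ≤ z.1 / P + 1) (v : ℕ)
    {_ : DecidablePred fun z => iv D r (f z) = v} :
    #{z ∈ range J ×ˢ range ks | iv D r (f z) = v} ≤ (D + 1) * (P * ks) := by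
  refine le_trans (card_le_card
    (t := Ico ((v * D + r - D) * P) ((v * D + r + 1) * P) ×ˢ range ks) fun z hz => ?_) ?_
  · obtain ⟨h1, h2⟩ := mem_filter.1 hz
    refine mem_product.2 ⟨mem_Ico.2 ?_, (mem_product.1 h1).2⟩
    unfold iv at h2
    rw [Nat.div_eq_iff (by omega)] at h2
    have h3 := hf z
    rw [← Nat.le_div_iff_mul_le hP, ← Nat.div_lt_iff_lt_mul hP]
    generalize z.1 / P = w at h3 ⊢
    omega
  · rw [card_product, card_range, Nat.card_Ico, ← Nat.sub_mul, ← mul_assoc]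
    exact Nat.mul_le_mul_right _ (Nat.mul_le_mul_right _ (by omega))

theorem Bal1_five (i : ℕ) : 2 ^ (i + 2) + 1 ≤ 5 * 2 ^ i := by
  have := Nat.two_pow_pos i
  rw [pow_add]
  omega

theorem Bal1_mc {p : Pm} {k : ℕ} {a : ℕ → ℕ} {VV : ℕ} (S : Seg p k a VV) (j : ℕ) (c : Prop)
    [Decidable c] : j / p.P1 ≤ S.mc (j + if c then 1 else 0) ∧
      S.mc (j + if c then 1 else 0) ≤ j / p.P1 + 1 := by
  have hP : 0 < p.P1 := Nat.two_pow_pos _
  unfold Seg.mc
  by_cases hc : c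
  · rw [if_pos hc]
    have h1 : j / p.P1 ≤ (j + 1) / p.P1 := Nat.div_le_div_right (Nat.le_succ j)
    refine ⟨h1.trans (Nat.le_add_right _ _), ?_⟩
    rw [Nat.succ_div]
    by_cases h2 : p.P1 ∣ j + 1
    · have h3 : ¬ S.md (j / p.P1 + 1) < j + 1 := by
        intro h4
        have h5 : S.md (j / p.P1 + 1) / p.P1 ≤ j / p.P1 := Nat.div_le_div_right (by omega)
        rw [(S.md1 _).1] at h5
        omega
      simp [h2, h3]
    · simp only [h2, if_false, add_zero]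
      split_ifs <;> omega
  · rw [if_neg hc, add_zero]
    split_ifs <;> omega

theorem Bal1_long {p : Pm} {k : ℕ} {a : ℕ → ℕ} {VV : ℕ} (ok : p.Ok) (S : Seg p k a VV)
    (hk : k ≤ 2 ^ p.n) : #{j ∈ range S.J | S.rk j = 3} ≤ p.N := by
  rw [← card_range p.N]
  refine card_le_card_of_injOn (fun j => j / p.PP) (fun j hj => ?_) fun i hi j hj h => ?_
  · have h1 := mem_range.1 (mem_filter.1 hj).1
    have h2 := S.Jk
    have h3 : j / p.PP ≤ (2 ^ p.n + 2) / p.PP := Nat.div_le_div_right (by omega)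
    refine mem_coe.2 (mem_range.2 ?_)
    unfold Pm.N
    simp only
    omega
  · have h1 := (S.rk3 i).1 (mem_filter.1 hi).2
    have h2 := (S.rk3 j).1 (mem_filter.1 hj).2
    rw [← Nat.div_add_mod i p.PP, ← Nat.div_add_mod j p.PP, h1, h2]
    exact congrArg (fun z => p.PP * z + (p.PP - 1)) h

theorem Bal1_slice {S : Finset (ℕ × ℕ)} {P : ℕ × ℕ → Prop} {_ : DecidablePred P} (u : ℕ)
    (T : Finset ℕ) (h : ∀ z ∈ S, P z → z.2 = u ∧ z.1 ∈ T) : #(S.filter P) ≤ #T := by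
  refine card_le_card_of_injOn Prod.fst (fun z hz => ?_) fun z hz w hw e => ?_
  · exact (h z (mem_filter.1 hz).1 (mem_filter.1 hz).2).2
  · exact Prod.ext e ((h z (mem_filter.1 hz).1 (mem_filter.1 hz).2).1.trans
      (h w (mem_filter.1 hw).1 (mem_filter.1 hw).2).1.symm)

open Classical in
/-- The region coordinates. -/
theorem Bal1_reg {p : Pm} {k : ℕ} {a : ℕ → ℕ} {VV : ℕ} (ok : p.Ok) (S : Seg p k a VV)
    (hk : k ≤ 2 ^ p.n) (G : ℕ) (G1 : p.G0 ≤ G) {Ky : Type} (key : ℕ → ℕ → Ky)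
    (h0 : ∀ y, #{j ∈ range S.J | key j 0 = y} ≤ p.L0 * p.Q)
    (h1 : ∀ s, 1 ≤ s → ∀ y, #{j ∈ range S.J | S.rk j ≠ 3 ∧ key j s = y} ≤ p.Q) :
    ∃ ρ : ℕ → V p.Ro, (∀ v i, ∃ b, ρ v (Sum.inl (i, b)) = 1) ∧
      ∀ y : ℕ × Option (Ky × V p.Ro), #{z ∈ range S.J ×ˢ range p.ks |
        (z.2, if z.2 ≠ 0 ∧ S.rk z.1 = 3 then none else some (key z.1 z.2, ρ (z.1 / p.PP))) = y} ≤
        ((if y.1 = 0 then p.L0 + 24 * p.L0 / 2 ^ p.m1 else 1) + 2) *
          2 ^ (G + (p.d2 * 2 + p.d1 * 2)) := by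
  have hPP : 0 < p.PP := Nat.mul_pos (Nat.two_pow_pos _) ok.P0
  have hT : 2 ^ (p.G0 + (p.d2 * 2 + p.d1 * 2)) ≤ 2 ^ (G + (p.d2 * 2 + p.d1 * 2)) :=
    Nat.pow_le_pow_right (by omega) (by omega)
  have hQ : p.Q ≤ 2 ^ (3 * p.m1 + Fintype.card p.Rh) * 2 ^ (G + (p.d2 * 2 + p.d1 * 2)) := by
    clear * - p G hT
    have e : Fintype.card p.Rh = p.nR := by simp [Pm.nR]
    rw [e, Pm.Q, pow_add]
    exact Nat.mul_le_mul_left _ hT
  obtain ⟨ρ, r1, r2⟩ := two_round (R := p.Rh) p.m1 ok.m5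
    {z ∈ range S.J ×ˢ range p.ks | ¬ (z.2 ≠ 0 ∧ S.rk z.1 = 3)}
    (fun z => (z.2, key z.1 z.2)) (fun z => z.1 / p.PP) (p.PP * p.ks)
    (fun v => by
      refine le_trans (card_le_card (t := Ico (v * p.PP) ((v + 1) * p.PP) ×ˢ range p.ks)
        fun z hz => ?_) ?_
      · obtain ⟨h2, h3⟩ := mem_filter.1 hz
        refine mem_product.2 ⟨mem_Ico.2 ?_, (mem_product.1 (mem_filter.1 h2).1).2⟩
        rw [← Nat.le_div_iff_mul_le hPP, ← Nat.div_lt_iff_lt_mul hPP]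
        omega
      · rw [card_product, card_range, Nat.card_Ico, ← Nat.sub_mul]
        simp)
    (fun y => if y.1 = 0 then p.L0 else 1) (2 ^ (G + (p.d2 * 2 + p.d1 * 2)))
    (fun y => by
      by_cases hy : y.1 = 0
      · rw [if_pos hy]
        refine (Bal1_slice 0 _ fun z hz e => ?_).trans
          ((h0 y.2).trans (Nat.mul_le_mul_left _ hQ))
        have e1 : z.2 = 0 := (congrArg Prod.fst e).trans hy
        refine ⟨e1, mem_filter.2 ⟨(mem_product.1 (mem_filter.1 hz).1).1, ?_⟩⟩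
        rw [← e1]
        exact congrArg Prod.snd e
      · rw [if_neg hy, one_mul]
        refine (Bal1_slice y.1 _ fun z hz e => ?_).trans ((h1 y.1 (by omega) y.2).trans hQ)
        have e1 : z.2 = y.1 := congrArg Prod.fst e
        refine ⟨e1, mem_filter.2 ⟨(mem_product.1 (mem_filter.1 hz).1).1,
          fun h3 => (mem_filter.1 hz).2 ⟨e1 ▸ hy, h3⟩, ?_⟩⟩
        rw [← e1]
        exact congrArg Prod.snd e)
  refine ⟨ρ, r1, ?_⟩
  rintro ⟨u, _ | ⟨κ, w⟩⟩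
  · refine (Bal1_slice u {j ∈ range S.J | S.rk j = 3} fun z hz e => ?_).trans
      (((Bal1_long ok S hk).trans (ok.e1.trans hT)).trans (Nat.le_mul_of_pos_left _ (by omega)))
    refine ⟨congrArg Prod.fst e, mem_filter.2 ⟨(mem_product.1 hz).1, ?_⟩⟩
    by_contra h3
    have h4 := congrArg Prod.snd e
    simp [h3] at h4
  · have h2 := r2 (u, κ) w
    have h3 : 24 / 2 ^ p.m1 = 0 :=
      Nat.div_eq_of_lt (lt_of_lt_of_le (by norm_num) (Nat.pow_le_pow_right (by omega) ok.m5))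
    have h4 := ok.e3.trans hT
    rw [filter_filter] at h2
    refine le_trans (X.cl fun z e => ?_) (h2.trans ?_)
    · have e1 : z.2 = u := congrArg Prod.fst e
      have e2 := congrArg Prod.snd e
      by_cases h5 : z.2 ≠ 0 ∧ S.rk z.1 = 3
      · simp [h5] at e2
      · simp only [if_neg h5, Option.some.injEq, Prod.mk.injEq] at e2
        exact ⟨h5, Prod.ext e1 e2.1, e2.2⟩
    · by_cases hu : u = 0
      · simp only [hu, if_true]
        clear * - p G h4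
        nlinarith
      · simp only [hu, if_false, mul_one, h3]
        omega

open Classical in
theorem bal1 {p : Pm} {k : ℕ} {a : ℕ → ℕ} {VV : ℕ} (ok : p.Ok) (S : Seg p k a VV)
    (hk : k ≤ 2 ^ p.n) (G : ℕ) (G1 : p.G0 ≤ G) (G2 : G ≤ p.n) {Ky : Type} (key : ℕ → ℕ → Ky)
    (off : ℕ → ℕ → V (Fin G))
    (h0 : ∀ y, #{j ∈ range S.J | key j 0 = y} ≤ p.L0 * p.Q)
    (h1 : ∀ s, 1 ≤ s → ∀ y, #{j ∈ range S.J | S.rk j ≠ 3 ∧ key j s = y} ≤ p.Q) :
    ∃ (ρ : ℕ → V p.Ro) (bG : Fin G → ℕ → ZMod 2) (b2 b1 : ℕ → Fin 2 → ℕ → ZMod 2)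
      (lo hi : ℕ → V (Fin p.hh)), (∀ v i, ∃ b, ρ v (Sum.inl (i, b)) = 1) ∧
      ∀ j < S.J, ∀ j' < S.J, ∀ s < p.ks, j ≠ j' →
        ((s = 0 ∨ S.rk j ≠ 3 ∧ S.rk j' ≠ 3) ∧ key j s = key j' s ∧ ρ (j / p.PP) = ρ (j' / p.PP) ∨
          s ≠ 0 ∧ S.rk j = 3 ∧ S.rk j' = 3) →
        (∀ g : Fin G, off j s g +
            bG g (iv G g (j / p.PP + if s = 2 * p.M + 5 ∧ S.rk j = 3 then 1 else 0)) =
          off j' s g + bG g (iv G g (j' / p.PP + if s = 2 * p.M + 5 ∧ S.rk j' = 3 then 1 else 0))) →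
        (∀ c : Fin p.d2 × Fin 2, b2 c.1 c.2 (iv (2 ^ ((c.1 : ℕ) + 2)) (X.rl c.1 c.2)
            (S.mc (j + if 2 * p.M ≤ s then 1 else 0))) =
          b2 c.1 c.2 (iv (2 ^ ((c.1 : ℕ) + 2)) (X.rl c.1 c.2)
            (S.mc (j' + if 2 * p.M ≤ s then 1 else 0)))) →
        (∀ c : Fin p.d1 × Fin 2, b1 c.1 c.2 (iv (2 ^ ((c.1 : ℕ) + 2)) (X.rl c.1 c.2)
            (j + if 4 * p.hh + 2 ≤ s then 1 else 0)) =
          b1 c.1 c.2 (iv (2 ^ ((c.1 : ℕ) + 2)) (X.rl c.1 c.2)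
            (j' + if 4 * p.hh + 2 ≤ s then 1 else 0))) →
        (s = 0 → ¬ (lo j = lo j' ∧ hi j = hi j')) ∧ (1 ≤ s → s / 2 ≤ p.hh → hi j ≠ hi j') ∧
          (p.hh < s / 2 → lo (j + 1) ≠ lo (j' + 1)) := by
  have hPP : 0 < p.PP := Nat.mul_pos (Nat.two_pow_pos _) ok.P0
  obtain ⟨ρ, r1, r2⟩ := Bal1_reg ok S hk G G1 key h0 h1
  let Lf : ℕ → ℕ := fun u => if u = 0 then p.L0 + 24 * p.L0 / 2 ^ p.m1 else 1
  let k2 : ℕ × ℕ → ℕ × Option (Ky × V p.Ro) := fun z =>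
    (z.2, if z.2 ≠ 0 ∧ S.rk z.1 = 3 then none else some (key z.1 z.2, ρ (z.1 / p.PP)))
  let IG : Fin G → ℕ × ℕ → ℕ := fun g z =>
    iv G g (z.1 / p.PP + if z.2 = 2 * p.M + 5 ∧ S.rk z.1 = 3 then 1 else 0)
  let I2 : ℕ → Fin 2 → ℕ × ℕ → ℕ := fun i σ z =>
    iv (2 ^ (i + 2)) (X.rl i σ) (S.mc (z.1 + if 2 * p.M ≤ z.2 then 1 else 0))
  let I1 : ℕ → Fin 2 → ℕ × ℕ → ℕ := fun i σ z =>
    iv (2 ^ (i + 2)) (X.rl i σ) (z.1 + if 4 * p.hh + 2 ≤ z.2 then 1 else 0)
  obtain ⟨bG, -, g2⟩ := X.slide' (range S.J ×ˢ range p.ks) k2 IG (fun g z => off z.1 z.2 g)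
    ((G + 1) * (p.PP * p.ks)) 0
    (fun c v => Bal1_fibre S.J p.ks G c p.PP c.2 hPP _
      (fun z => ⟨Nat.le_add_right _ _, by split_ifs <;> omega⟩) v)
    ∅ (by simp) (fun _ _ => 0) (fun y => Lf y.1 + 2) (2 ^ (p.d2 * 2 + p.d1 * 2))
    (fun y => by
      rw [← pow_add]
      exact (X.cf fun _ => Iff.rfl).trans_le (r2 y))
  let k3 : ℕ × ℕ → (ℕ × Option (Ky × V p.Ro)) × V (Fin G) := fun z =>
    (k2 z, fun g => off z.1 z.2 g + bG g (IG g z))
  obtain ⟨b2, c2⟩ := X.slideR (range S.J ×ˢ range p.ks) I2 (p.P1 * p.ks)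
    (fun i σ v => (Bal1_fibre S.J p.ks _ _ p.P1 (X.rl_lt i σ) (Nat.two_pow_pos _) _
      (fun z => Bal1_mc S z.1 _) v).trans (Nat.mul_le_mul_right _ (Bal1_five i))) p.d2 _ k3
    (fun y => (Lf y.1.1 + 2) * 2 ^ (p.d1 * 2) + 2)
    (fun y => by
      have e2 : (G + 1) * (p.PP * p.ks) ≤ 2 ^ (p.d2 * 2) := by
        refine le_trans ?_ ok.e2
        rw [mul_assoc]
        exact Nat.mul_le_mul_right _ (by omega)
      refine (X.cf fun _ => Iff.rfl).trans_le ((g2 y).trans (le_trans ?_ (Nat.le_add_right _ _)))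
      rw [add_mul _ 2 (2 ^ (p.d2 * 2)), mul_assoc, ← pow_add, add_comm (p.d1 * 2)]
      omega)
  let k4 : ℕ × ℕ → ((ℕ × Option (Ky × V p.Ro)) × V (Fin G)) × V (Fin p.d2 × Fin 2) := fun z =>
    (k3 z, fun c => b2 c.1 c.2 (I2 c.1 c.2 z))
  obtain ⟨b1, c1⟩ := X.slideR (range S.J ×ˢ range p.ks) I1 p.ks
    (fun i σ v => (Bal1_fibre S.J p.ks _ _ 1 (X.rl_lt i σ) one_pos _
      (fun z => by rw [Nat.div_one]; split_ifs <;> omega) v).trans (by
        rw [one_mul]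
        exact Nat.mul_le_mul_right _ (Bal1_five i))) p.d1 _ k4
    (fun y => Lf y.1.1.1 + 2 + 2)
    (fun y => by
      refine (X.cf fun _ => Iff.rfl).trans_le ((c2 y).trans ?_)
      have h2 := Nat.two_pow_pos (p.d1 * 2)
      rw [add_mul (Lf y.1.1.1 + 2) 2 (2 ^ (p.d1 * 2)), Pm.P1, mul_comm (2 ^ p.d1), ← mul_assoc]
      omega)
  let cell : ℕ × ℕ → (((ℕ × Option (Ky × V p.Ro)) × V (Fin G)) × V (Fin p.d2 × Fin 2)) ×
      V (Fin p.d1 × Fin 2) := fun z => (k4 z, fun c => b1 c.1 c.2 (I1 c.1 c.2 z))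
  have hl : ∀ u y, #{j ∈ range S.J | (j, u) ∈ range S.J ×ˢ range p.ks ∧ cell (j, u) = y} ≤
      Lf u + 2 + 2 + 20 * p.ks := by
    intro u y
    by_cases hy : y.1.1.1.1 = u
    · rw [← hy]
      refine le_trans ?_ (c1 y)
      refine card_le_card_of_injOn (fun j => (j, y.1.1.1.1)) (fun j hj => ?_)
        fun i _ j _ e => congrArg Prod.fst e
      have h4 := (mem_filter.1 (mem_coe.1 hj)).2
      simp only [coe_filter, Set.mem_ofPred_eq]
      exact h4
    · refine le_trans (le_of_eq (card_eq_zero.2 (filter_eq_empty_iff.2 fun j _ h => hy ?_)))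
        (Nat.zero_le _)
      rw [← h.2]
  obtain ⟨lo, hi, h3⟩ := X.rank_ex S.J p.ks p.hh (p.L0 + 24 * p.L0 / 2 ^ p.m1 + p.er) p.er
    (range S.J ×ˢ range p.ks)
    (fun x hx => ⟨mem_range.1 (mem_product.1 hx).1, mem_range.1 (mem_product.1 hx).2⟩) cell
    (fun y => (X.cf fun _ => Iff.rfl).trans_le ((hl 0 y).trans (by
      simp only [Lf, if_true, Pm.er]
      omega)))
    (fun u hu y => (X.cf fun _ => Iff.rfl).trans_le ((hl u y).trans (by
      simp only [Lf, if_neg (show u ≠ 0 by omega), Pm.er]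
      omega))) ok.hr
  refine ⟨ρ, bG, b2, b1, lo, hi, r1, fun j hj j' hj' s hs hne q1 q2 q3 q4 => ?_⟩
  refine h3 j j' s (mem_product.2 ⟨mem_range.2 hj, mem_range.2 hs⟩)
    (mem_product.2 ⟨mem_range.2 hj', mem_range.2 hs⟩) ?_ hne
  refine Prod.ext (Prod.ext (Prod.ext (Prod.ext rfl ?_) (funext q2)) (funext q3)) (funext q4)
  simp only [cell, k4, k3, k2]
  rcases q1 with ⟨q5, q6, q7⟩ | ⟨q5, q6, q7⟩
  · rw [if_neg (by tauto), if_neg (by tauto), q6, q7]
  · rw [if_pos ⟨q5, q6⟩, if_pos ⟨q5, q7⟩]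

end Pool.Agent.Work.MP_ede3c6_co.Y
end

-- merged part: Pool.Agent.Work.MP_ede3c6_co.Y.InnEx
section
/-! Existence of the inner structure.

PLAN (simpler than `X/InnEx.lean`, reuse `X.kp`, `X.InnEx_en`, `X.InnEx_Iv`). `μ' = mu - 2`,
`c = q q2`. For `aS ≤ a ≤ thrN` let `lev a` be the least `l` with `a ≤ aS 2 ^ l`,
`io a = ⌈a / (c 2 ^ lev a)⌉` (so `μ' ≤ 2 io a`, `io a ≤ μ'`), `rd a = c (io a) 2 ^ lev a`; then
`lev (rd a) = lev a` and `io (rd a) = io a`. For `a < aS`: `rd a = a`, `io a = μ'`, `lev a = 0`.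
For `a > thrN`: `io a = mu`, `lev a = w0 + kR`, `rd a = thr` or `n`. `Cd ι` is the code of `X.kp`
for `m0 ≤ ι ≤ mu` and `{0}` otherwise. `ef` follows from `2 ^ mu ≤ (1 + ε) ι |Cd ι|`,
`(ι - 1) c 2 ^ l ≤ a` (for full types `c (mu - 2) 2 ^ (w0 + kR) ≤ a`) and
`2 ^ (t + l0) ≤ (1 + ε) c`. The enumerations come from `X.InnEx_en` applied to products of
`univ \ {0, 1}`, `{i < ι}`, intervals of bits and `univ \ {0, μ}` (at least `q2` elements). -/

set_option autoImplicit false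

namespace Pool.Agent.Work.MP_ede3c6_co.Y

open Finset Vol

theorem InnEx_en (α : Type) [Nonempty α] : ∃ en : Finset α → ℕ → α, ∀ (s : Finset α) (k : ℕ),
    k ≤ s.card → (∀ i < k, en s i ∈ s) ∧ ∀ i < k, ∀ j < k, en s i = en s j → i = j :=
  let ⟨en, h⟩ := X.InnEx_en α
  ⟨en, fun s _ hk => ⟨fun i hi => (h s).1 i (hi.trans_le hk),
    fun i hi j hj => (h s).2 i (hi.trans_le hk) j (hj.trans_le hk)⟩⟩

theorem InnEx_two {m : ℕ} (x y : V (Fin m)) : 2 ^ m - 2 ≤ (univ \ {x, y} : Finset (V (Fin m))).card := by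
  refine le_trans ?_ (le_card_sdiff _ _)
  have h1 : (univ : Finset (V (Fin m))).card = 2 ^ m := by simp
  rw [h1]
  exact Nat.sub_le_sub_left card_le_two _

theorem InnEx_num (c n W thr N : ℕ) (hc : 1 ≤ c) (hn : 1 ≤ n) (j1 : c * n * 2 ^ W < thr)
    (j2 : thr ≤ N) :
    ∃ (TS : Finset ℕ) (rd lev io : ℕ → ℕ), TS.card ≤ c * n + (n + 2) * (W + 1) + 2 ∧
      (∀ a, rd a ∈ TS ∧ (a < c * n → rd a = a) ∧
        (a ≤ c * n * 2 ^ W → a ≤ rd a ∧ rd a ≤ c * n * 2 ^ W ∧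
          (c * n ≤ a → n * rd a ≤ (n + 2) * a)) ∧
        (c * n * 2 ^ W < a → a ≤ thr → rd a = thr) ∧ (thr < a → rd a = N)) ∧
      ∀ τ, lev τ ≤ W ∧ (τ < c * n → lev τ = 0 ∧ io τ = n) ∧
        (c * n * 2 ^ W < τ → io τ = n + 2 ∧ lev τ = W) ∧
        (τ ∈ TS → c * n ≤ τ → τ ≤ c * n * 2 ^ W →
          τ = c * io τ * 2 ^ lev τ ∧ n ≤ 2 * io τ ∧ io τ ≤ n) := by
  let TS := range (c * n) ∪ insert thr (insert N
    ((((Icc 1 n).filter fun ι => n ≤ 2 * ι) ×ˢ range (W + 1)).image fun p => c * p.1 * 2 ^ p.2))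
  have j0 : c * n ≤ c * n * 2 ^ W := Nat.le_mul_of_pos_right _ (Nat.two_pow_pos _)
  have h1 : ∀ a, ∃ τ, τ ∈ TS ∧ (a < c * n → τ = a) ∧
      (a ≤ c * n * 2 ^ W → a ≤ τ ∧ τ ≤ c * n * 2 ^ W ∧ (c * n ≤ a → n * τ ≤ (n + 2) * a)) ∧
      (c * n * 2 ^ W < a → a ≤ thr → τ = thr) ∧ (thr < a → τ = N) := fun a => by
    rcases lt_or_ge a (c * n) with h | h
    · exact ⟨a, mem_union_left _ (mem_range.2 h), fun _ => rfl,
        fun k => ⟨le_rfl, k, fun c => by omega⟩, fun _ => by omega, fun _ => by omega⟩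
    rcases lt_or_ge thr a with hb | hb
    · exact ⟨N, mem_union_right _ (mem_insert_of_mem (mem_insert_self _ _)), fun _ => by omega,
        fun _ => by omega, fun _ _ => by omega, fun _ => rfl⟩
    rcases lt_or_ge (c * n * 2 ^ W) a with hb' | hb'
    · exact ⟨thr, mem_union_right _ (mem_insert_self _ _), fun _ => by omega,
        fun _ => by omega, fun _ _ => rfl, fun _ => by omega⟩
    have ex : ∃ l, a ≤ c * n * 2 ^ l := ⟨W, hb'⟩
    have l1 := Nat.find_spec ex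
    have l2 := Nat.find_min' ex hb'
    have l3 : c * n * 2 ^ Nat.find ex ≤ 2 * a := by
      rcases e : Nat.find ex with _ | l
      · omega
      · have := Nat.find_min ex (show l < _ by omega)
        rw [pow_succ, ← mul_assoc]
        omega
    generalize Nat.find ex = l at l1 l2 l3
    have w0 : 0 < c * 2 ^ l := by positivity
    have i1 := Nat.div_mul_le_self (a + c * 2 ^ l - 1) (c * 2 ^ l)
    have i2 := Nat.lt_div_mul_add (a := a + c * 2 ^ l - 1) w0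
    generalize (a + c * 2 ^ l - 1) / (c * 2 ^ l) = ι at i1 i2
    have e : c * ι * 2 ^ l = ι * (c * 2 ^ l) := by ring
    have l4 : c * n * 2 ^ l ≤ c * n * 2 ^ W :=
      Nat.mul_le_mul_left _ (Nat.pow_le_pow_right two_pos l2)
    rw [show c * n * 2 ^ l = n * (c * 2 ^ l) by ring] at l1 l3 l4
    have i3 : ι < n + 1 := lt_of_mul_lt_mul_right (by rw [add_mul]; omega) w0.le
    have i4 : n ≤ 2 * ι := le_of_mul_le_mul_right (by rw [mul_assoc]; omega) w0
    have i5 : ι * (c * 2 ^ l) ≤ n * (c * 2 ^ l) := Nat.mul_le_mul_right _ (by omega)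
    refine ⟨c * ι * 2 ^ l, mem_union_right _ (mem_insert_of_mem (mem_insert_of_mem (mem_image.2
      ⟨(ι, l), mem_product.2 ⟨mem_filter.2 ⟨mem_Icc.2 (by omega), i4⟩, mem_range.2 (by omega)⟩,
        rfl⟩))), fun _ => by omega, fun _ => ⟨by omega, by omega, fun _ => ?_⟩, fun _ => by omega,
      fun _ => by omega⟩
    have := Nat.mul_le_mul_left n (show c * ι * 2 ^ l ≤ a + c * 2 ^ l by omega)
    rw [mul_add n a] at this
    rw [add_mul]
    omega
  have h2 : ∀ τ, ∃ l ι, l ≤ W ∧ (τ < c * n → l = 0 ∧ ι = n) ∧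
      (c * n * 2 ^ W < τ → ι = n + 2 ∧ l = W) ∧ (τ ∈ TS → c * n ≤ τ → τ ≤ c * n * 2 ^ W →
        τ = c * ι * 2 ^ l ∧ n ≤ 2 * ι ∧ ι ≤ n) := fun τ => by
    rcases lt_or_ge τ (c * n) with k | k
    · exact ⟨0, n, by omega, fun _ => ⟨rfl, rfl⟩, fun _ => by omega, fun _ _ => by omega⟩
    rcases lt_or_ge (c * n * 2 ^ W) τ with k' | k'
    · exact ⟨W, n + 2, le_rfl, fun _ => by omega, fun _ => ⟨rfl, rfl⟩, fun _ _ _ => by omega⟩
    by_cases h : τ ∈ TS
    · rcases mem_insert.1 ((mem_union.1 h).resolve_left (by simpa using k)) with e | h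
      · omega
      rcases mem_insert.1 h with e | h
      · omega
      obtain ⟨p, hp, rfl⟩ := mem_image.1 h
      simp only [mem_product, mem_filter, mem_Icc, mem_range] at hp
      exact ⟨p.2, p.1, by omega, fun _ => by omega, fun _ => by omega,
        fun _ _ _ => ⟨rfl, hp.1.2, hp.1.1.2⟩⟩
    · exact ⟨0, 0, by omega, fun _ => by omega, fun _ => by omega, fun c => absurd c h⟩
  choose rd h1 using h1
  choose lev io h2 using h2
  refine ⟨TS, rd, lev, io, (card_union_le _ _).trans ?_, h1, h2⟩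
  rw [card_range, add_assoc]
  refine add_le_add le_rfl ((card_insert_le _ _).trans (Nat.succ_le_succ
    ((card_insert_le _ _).trans (Nat.succ_le_succ (card_image_le.trans ?_)))))
  rw [card_product, card_range]
  exact Nat.mul_le_mul_right _ ((card_filter_le _ _).trans (by simp))

theorem InnEx_pow {ε : ℝ} (e0 : 0 < ε) (e1 : ε ≤ 1) {t : ℕ} (h2 : 2 ≤ t) (ht : 4 / ε ≤ t) :
    (2 : ℝ) ^ t ≤ (1 + ε) * ((2 ^ t - 2 : ℕ) : ℝ) := by
  have h1 : 2 ≤ 2 ^ t := le_trans h2 Nat.lt_two_pow_self.le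
  have h3 : (t : ℝ) ≤ 2 ^ t := by exact_mod_cast Nat.lt_two_pow_self.le
  rw [Nat.cast_sub h1, Nat.cast_pow, Nat.cast_ofNat]
  rw [div_le_iff₀ e0] at ht
  nlinarith

theorem InnEx_four {ε η : ℝ} (e0 : 0 < ε) (e1 : ε ≤ 1) (e2 : 15 * ε ≤ η) : (1 + ε) ^ 4 ≤ 1 + η := by
  have h1 : ε ^ 2 ≤ ε := by nlinarith
  have h2 : ε ^ 3 ≤ ε := by nlinarith
  have h3 : ε ^ 4 ≤ ε := by nlinarith
  nlinarith

theorem inn_ex (η : ℝ) (hη : 0 < η) : ∃ m0 : ℕ, ∀ p : Pm, p.Ok → m0 ≤ p.mu → m0 ≤ p.t →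
    m0 ≤ p.l0 → Nonempty (Inn p η) := by
  obtain ⟨ε, e0, e1, e2⟩ : ∃ ε : ℝ, 0 < ε ∧ ε ≤ 1 ∧ 15 * ε ≤ η :=
    ⟨min 1 (η / 15), by positivity, min_le_left _ _, by linarith [min_le_right 1 (η / 15)]⟩
  obtain ⟨m0, hk⟩ := X.kp ε e0
  refine ⟨2 * m0 + ⌈4 / ε⌉₊ + 6, fun p hp hm ht hl => ?_⟩
  obtain ⟨n, hn⟩ : ∃ n, p.mu = n + 2 := ⟨p.mu - 2, by omega⟩
  have hn' : p.mu - 2 = n := by omega
  have big : ∀ x : ℕ, ⌈4 / ε⌉₊ ≤ x → 4 / ε ≤ x := fun x hx =>
    (Nat.le_ceil _).trans (by exact_mod_cast hx)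
  have hC : ∀ ι, ∃ C : Finset (V (Fin p.mu)), 0 < C.card ∧
      (∀ x ∈ C, ∀ x' ∈ C, ∀ i j : Fin p.mu, (i : ℕ) < ι → (j : ℕ) < ι → x + e i = x' + e j →
        i = j) ∧ (m0 ≤ ι → ι ≤ p.mu → (2 : ℝ) ^ p.mu ≤ (1 + ε) * ι * C.card) := fun ι => by
    by_cases h : m0 ≤ ι ∧ ι ≤ p.mu
    · obtain ⟨C, c1, c2⟩ := hk ι p.mu h.1 h.2
      refine ⟨C, Nat.pos_of_ne_zero fun k => ?_, c2, fun _ _ => c1⟩
      rw [k, Nat.cast_zero, mul_zero] at c1
      exact absurd c1 (pow_pos two_pos _).not_ge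
    · refine ⟨{0}, by simp, fun x hx x' hx' i j _ _ k => ?_, fun a b => absurd ⟨a, b⟩ h⟩
      rw [mem_singleton.1 hx, mem_singleton.1 hx', zero_add, zero_add] at k
      exact e_inj k
  choose Cd c0 c2 c1 using hC
  have hq : 1 ≤ p.q := by
    have := Nat.pow_le_pow_right two_pos hp.t2
    unfold Pm.q
    omega
  have hq2 : 1 ≤ p.q2 := by
    have := Nat.pow_le_pow_right two_pos hp.l2
    unfold Pm.q2
    omega
  have hc : 1 ≤ p.q * p.q2 := Nat.mul_pos hq hq2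
  have eS : p.aS = p.q * p.q2 * n := by rw [Pm.aS, hn']
  have eN : p.thrN = p.q * p.q2 * n * 2 ^ (p.w0 + p.kR) := by rw [Pm.thrN, eS]
  have hth := hp.hth
  have htn : p.thr ≤ p.n := Nat.sub_le _ _
  obtain ⟨TS, rd, lev, io, n1, n2, n3⟩ :=
    InnEx_num (p.q * p.q2) n (p.w0 + p.kR) p.thr p.n hc (by omega) (eN ▸ hth) htn
  rw [← eN, ← eS, ← hn] at n2 n3
  rw [← eS, ← hn] at n1
  have key : ∀ a, p.aS ≤ a → n ≤ 2 * io (rd a) ∧ io (rd a) ≤ p.mu ∧
      n * (p.q * p.q2 * io (rd a) * 2 ^ lev (rd a)) ≤ p.mu * a := fun a h => by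
    obtain ⟨r1, -, r3, r4, r5⟩ := n2 a
    rcases le_or_gt a p.thrN with k | k
    · obtain ⟨s1, s2, s3⟩ := r3 k
      obtain ⟨u1, u2, u3⟩ := (n3 _).2.2.2 r1 (h.trans s1) s2
      exact ⟨u2, by omega, u1 ▸ s3 h⟩
    · have s1 : p.thrN < rd a := by
        rcases le_or_gt a p.thr with k' | k'
        · rw [r4 k k']
          exact hth
        · rw [r5 k']
          omega
      obtain ⟨u1, u2⟩ := (n3 _).2.2.1 s1
      rw [u1, u2]
      refine ⟨by omega, le_rfl, le_trans (le_of_eq ?_) (Nat.mul_le_mul_left _ k.le)⟩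
      rw [eN]
      ring
  have pt : (2 : ℝ) ^ p.t ≤ (1 + ε) * p.q := InnEx_pow e0 e1 hp.t2 (big _ (by omega))
  have pl : (2 : ℝ) ^ p.l0 ≤ (1 + ε) * p.q2 := InnEx_pow e0 e1 hp.l2 (big _ (by omega))
  have p4 := InnEx_four e0 e1 e2
  have : Nonempty (Fin p.mu) := ⟨⟨0, by omega⟩⟩
  obtain ⟨f1, g1⟩ := InnEx_en p.FD
  obtain ⟨f2, g2⟩ := InnEx_en (V (Fin p.mu) × V (Fin p.w0))
  obtain ⟨f3, g3⟩ := InnEx_en (V (Fin 2))
  obtain ⟨f4, g4⟩ := InnEx_en (V (Fin 2) × V (Fin p.t) × V (Fin p.mu) × V (Fin p.w0))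
  obtain ⟨f5, g5⟩ := InnEx_en (V (Fin p.l0))
  obtain ⟨f6, g6⟩ := InnEx_en (V (Fin p.kR))
  let S1 : ℕ → ℕ → ℕ → V (Fin p.l0) → Finset p.FD := fun ι c l μ =>
    (univ \ {0, 1}) ×ˢ (univ.filter fun i : Fin p.mu => (i : ℕ) < ι) ×ˢ X.InnEx_Iv p.w0 c p.w0 ×ˢ
      (univ \ {0, μ}) ×ˢ X.InnEx_Iv p.kR 0 l
  have k1 : ∀ ι ≤ p.mu, ∀ c, ∀ l ≤ p.kR, ∀ μ, p.cap ι c l ≤ (S1 ι c l μ).card := by
    intro ι hι c l hl μ
    simp only [S1, card_product]
    rw [Fin.card_filter_val_lt, min_eq_right hι, X.InnEx_card le_rfl, X.InnEx_card hl, Nat.sub_zero]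
    calc p.cap ι c l = p.q * (ι * (2 ^ (p.w0 - c) * (p.q2 * 2 ^ l))) := by
          rw [Pm.cap, pow_add]
          ring
      _ ≤ _ := Nat.mul_le_mul (InnEx_two _ _) (Nat.mul_le_mul_left _ (Nat.mul_le_mul_left _
          (Nat.mul_le_mul_right _ (InnEx_two _ _))))
  have k2 : ∀ ι, ∀ c ≤ p.w0, (Cd ι).card * 2 ^ c ≤ (Cd ι ×ˢ X.InnEx_Iv p.w0 0 c).card := by
    intro ι c hc
    rw [card_product, X.InnEx_card hc, Nat.sub_zero]
  have k3 : 4 ≤ (univ : Finset (V (Fin 2))).card := by simp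
  let S4 : Finset (V (Fin 2) × V (Fin p.t) × V (Fin p.mu) × V (Fin p.w0)) :=
    univ ×ˢ (univ \ {0, 1}) ×ˢ univ ×ˢ univ
  have k4 : 4 * p.q * 2 ^ (p.mu + p.w0) ≤ S4.card := by
    simp only [S4, card_product]
    rw [mul_assoc]
    refine Nat.mul_le_mul k3 (Nat.mul_le_mul (InnEx_two _ _) (le_of_eq ?_))
    simp [pow_add]
  have k5 : 2 ^ p.l0 - 1 ≤ (univ.erase (0 : V (Fin p.l0))).card := by simp
  have k6 : ∀ l, 2 ^ (p.kR - l) ≤ (X.InnEx_Iv p.kR l p.kR).card := fun l =>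
    (X.InnEx_card le_rfl).ge
  refine ⟨{
    TS := TS
    rd := rd
    io := io
    lev := lev
    Cd := Cd
    i0 := ⟨0, by omega⟩
    en := fun ι c l μ => f1 (S1 ι c l μ)
    ad := fun ι c => f2 (Cd ι ×ˢ X.InnEx_Iv p.w0 0 c)
    zt := f3 univ
    sa := f4 S4
    mv := f5 (univ.erase 0)
    hv := fun l => f6 (X.InnEx_Iv p.kR l p.kR)
    i00 := rfl
    cTS := n1
    rdT := fun a _ => (n2 a).1
    rdS := fun a => (n2 a).2.1
    rd1 := fun a h => ⟨((n2 a).2.2.1 h).1, ((n2 a).2.2.1 h).2.1⟩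
    rdF := fun a => (n2 a).2.2.2.1
    rdU := fun a => (n2 a).2.2.2.2
    lev1 := fun τ => (n3 τ).1
    lev0 := fun τ h => ((n3 τ).2.1 h).1
    ioN := fun τ h h' => ?_
    ioF := fun τ => (n3 τ).2.2.1
    ef := fun a h _ => ?_
    efs := ?_
    lo := fun a h _ => ?_
    cd0 := c0
    code := c2
    en1 := fun ι hι c _ l hl μ m hm => ?_
    en2 := fun ι hι c _ l hl μ => (g1 _ _ (k1 ι hι c l hl μ)).2
    ad1 := fun ι c hc y hy => ?_
    ad2 := fun ι c hc => (g2 _ _ (k2 ι c hc)).2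
    zt2 := (g3 _ _ k3).2
    sa1 := fun y hy => ?_
    sa2 := (g4 _ _ k4).2
    mv1 := fun y hy => (mem_erase.1 ((g5 _ _ k5).1 y hy)).1
    mv2 := (g5 _ _ k5).2
    hv1 := fun l _ y hy b hb => X.InnEx_mem ((g6 _ _ (k6 l)).1 y hy) b hb
    hv2 := fun l _ => (g6 _ _ (k6 l)).2 }⟩
  · rcases lt_or_ge τ p.aS with k | k
    · obtain ⟨u1, u2⟩ := (n3 τ).2.1 k
      rw [u1, u2, pow_zero, mul_one, ← eS]
      exact ⟨hn'.ge, k.le⟩
    · obtain ⟨u1, -, u3⟩ := (n3 τ).2.2.2 h k h'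
      exact ⟨by omega, u1.le⟩
  · obtain ⟨u1, u2, u3⟩ := key a h
    have v1 := c1 _ (by omega) u2
    have v2 := (n3 (rd a)).1
    generalize io (rd a) = ι at u1 u2 u3 v1
    generalize lev (rd a) = l at u3 v2
    have v3 : (n : ℝ) * (p.q * p.q2 * ι * 2 ^ l) ≤ (n + 2) * a := by
      rw [hn] at u3
      exact_mod_cast u3
    have v4 : 4 / ε ≤ n := big _ (by omega)
    rw [div_le_iff₀ e0] at v4
    have v5 : (0 : ℝ) < n := by exact_mod_cast (show 0 < n by omega)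
    have v6 : (p.q : ℝ) * p.q2 * ι * 2 ^ l ≤ (1 + ε) * a := by
      clear * - n p ι l ε a v3 v4 v5
      refine le_of_mul_le_mul_left (v3.trans ?_) v5
      rw [← mul_assoc]
      exact mul_le_mul_of_nonneg_right (by linarith only [v4]) a.cast_nonneg
    have v7 : (p.U : ℝ) = 4 * 2 ^ p.t * 2 ^ p.l0 * 2 ^ p.mu * (2 ^ l * 2 ^ (p.w0 + p.kR - l)) := by
      rw [← pow_add 2 l, Nat.add_sub_cancel' v2, Pm.U]
      push_cast
      ring
    have v8 : (0 : ℝ) ≤ (Cd ι).card := Nat.cast_nonneg _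
    generalize ((Cd ι).card : ℝ) = z at v1 v8
    calc (p.U : ℝ) ≤ 4 * ((1 + ε) * p.q) * ((1 + ε) * p.q2) * ((1 + ε) * ι * z) *
          (2 ^ l * 2 ^ (p.w0 + p.kR - l)) := by
          clear * - p ε ι z l v7 pt pl e0 hq v1 hq2
          rw [v7]
          gcongr
      _ = (1 + ε) ^ 3 * (p.q * p.q2 * ι * 2 ^ l) * (4 * z * 2 ^ (p.w0 + p.kR - l)) := by ring
      _ ≤ (1 + ε) ^ 3 * ((1 + ε) * a) * (4 * z * 2 ^ (p.w0 + p.kR - l)) := by clear * - z p l ε ι a v6 e0 v8; gcongr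
      _ = (1 + ε) ^ 4 * a * (4 * z * 2 ^ (p.w0 + p.kR - l)) := by ring
      _ ≤ _ := by clear * - z p l ε a η p4 v8; gcongr
  · have v1 : (p.q2 : ℝ) ≤ ((2 ^ p.l0 - 1 : ℕ) : ℝ) := by
      exact_mod_cast (Nat.sub_le_sub_left one_le_two _ : 2 ^ p.l0 - 2 ≤ 2 ^ p.l0 - 1)
    have v2 : (2 : ℝ) ^ p.l0 ≤ (1 + ε) * ((2 ^ p.l0 - 1 : ℕ) : ℝ) :=
      pl.trans (mul_le_mul_of_nonneg_left v1 (by clear * - ε e0 pl v1; linarith))
    have v3 : (1 + ε) ^ 2 ≤ 1 + η := by clear * - ε η p4 hη; nlinarith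
    have v7 : (p.U : ℝ) = 4 * 2 ^ p.t * 2 ^ (p.mu + p.w0) * 2 ^ p.l0 * 2 ^ p.kR := by
      rw [Pm.U]
      push_cast
      ring
    have v8 : (p.ms : ℝ) = 4 * p.q * 2 ^ (p.mu + p.w0) * ((2 ^ p.l0 - 1 : ℕ) : ℝ) := by
      rw [Pm.ms, Nat.cast_mul, Nat.cast_mul, Nat.cast_mul, Nat.cast_pow]
      rfl
    rw [v8]
    generalize ((2 ^ p.l0 - 1 : ℕ) : ℝ) = y at v1 v2
    have v4 : 0 ≤ y := (Nat.cast_nonneg _).trans v1
    calc (p.U : ℝ) ≤ 4 * ((1 + ε) * p.q) * 2 ^ (p.mu + p.w0) * ((1 + ε) * y) * 2 ^ p.kR := by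
          clear * - p ε y v7 pt v2 e0 hq
          rw [v7]
          gcongr
      _ = (1 + ε) ^ 2 * (4 * p.q * 2 ^ (p.mu + p.w0) * y * 2 ^ p.kR) := by ring
      _ ≤ _ := by gcongr
  · obtain ⟨u1, -, u3⟩ := key a h
    have v1 : p.mu ≤ n * (p.q * p.q2 * io (rd a)) :=
      le_trans (by omega) (Nat.mul_le_mul_left n (Nat.mul_le_mul hc (show 2 ≤ io (rd a) by omega)))
    refine le_of_mul_le_mul_left (le_trans ?_ u3) (show 0 < p.mu by omega)
    rw [← mul_assoc]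
    exact Nat.mul_le_mul_right _ v1
  · have := (g1 _ _ (k1 ι hι c l hl μ)).1 m hm
    simp only [S1, mem_product, mem_sdiff, mem_insert, mem_singleton, not_or, mem_filter] at this
    exact ⟨this.1.2.1, this.1.2.2, this.2.1.2, fun b hb => X.InnEx_mem this.2.2.1 b hb,
      this.2.2.2.1.2.1, this.2.2.2.1.2.2, fun b hb => X.InnEx_mem this.2.2.2.2 b hb⟩
  · have := mem_product.1 ((g2 _ _ (k2 ι c hc)).1 y hy)
    exact ⟨this.1, fun b hb => X.InnEx_mem this.2 b hb⟩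
  · have := (g4 _ _ k4).1 y hy
    simp only [S4, mem_product, mem_sdiff, mem_insert, mem_singleton, not_or] at this
    exact this.2.1.2

end Pool.Agent.Work.MP_ede3c6_co.Y
end

-- merged part: Pool.Agent.Work.MP_ede3c6_co.Y.SegExA
section
/-! Segmentation: patterns of tiles and one step of the state machine. -/

set_option autoImplicit false

namespace Pool.Agent.Work.MP_ede3c6_co.Y

open Finset Vol

theorem SegEx_num (p : Pm) (h : p.Ok) : 13 ≤ p.w ∧ p.w + 8 ≤ p.K ∧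
    (p.K + p.w) * (p.K + p.w) ≤ p.K2 ∧ p.K + p.w ≤ p.K2 ∧ p.K1 = p.K2 + p.w + 5 ∧
    p.K1 ≤ p.Kp * p.K1 ∧ p.Km = 2 * (p.Kp * p.K1) ∧ p.Kp * p.K1 ≤ p.LW ∧ p.aS ≤ p.thrN ∧
    p.thrN < p.thr ∧ p.n ≤ 2 * p.thrN ∧ p.thr = p.n - Nat.sqrt p.n ∧ 2 ≤ p.P1 ∧
    2 * p.P1 ≤ p.PP := by
  have h1 : (p.K + p.w) * (p.K + p.w) ≤ p.K2 := by
    rw [← sq]
    exact h.hK2
  refine ⟨by unfold Pm.w Pm.M; omega, h.hK, h1, (Nat.le_mul_self _).trans h1, rfl,
    Nat.le_mul_of_pos_left _ h.Kp0, mul_assoc _ _ _, h.hLW,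
    Nat.le_mul_of_pos_right _ (by positivity), h.hth, h.hN2, rfl, ?_, ?_⟩
  · exact Nat.pow_le_pow_right (n := 2) (i := 1) (by norm_num) h.d10
  · have := Nat.le_mul_of_pos_right (2 ^ (p.d1 + 1)) h.P0
    unfold Pm.PP Pm.P1
    rw [pow_succ] at this ⊢
    omega

theorem SegEx_few (l c : ℕ) (P : ℕ → Prop) [DecidablePred P] (s : Finset ℕ)
    (hs : ∀ o, P o → o ∈ s) : ∑ o ∈ range l, (if P o then c else 0) ≤ s.card * c := by
  rw [← sum_filter, sum_const, smul_eq_mul]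
  exact Nat.mul_le_mul_right _ (card_le_card fun o ho => hs o (mem_filter.1 ho).2)

theorem SegEx_ns {n K2 k : ℕ} {a : ℕ → ℕ} {i : ℕ} (h : IE n K2 k a i) : ¬ sw n k a i := by
  obtain ⟨x, h1, h2, h3⟩ := h
  exact h3 i h1 h2

theorem SegEx_sw (n : ℕ) {k : ℕ} (a : ℕ → ℕ) {i : ℕ} (h : k ≤ i) : sw n k a i := by
  unfold sw ap
  rw [if_neg (by omega), if_neg (by omega)]
  exact ⟨Nat.zero_le _, Nat.zero_le _⟩

theorem SegEx_le {n k : ℕ} {a : ℕ → ℕ} (ha : ∀ i < k, a i ≤ n) (i : ℕ) : ap k a i ≤ n := by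
  unfold ap
  split_ifs with h
  exacts [ha i h, Nat.zero_le _]

theorem SegEx_alt (P : ℕ → Prop) (s l : ℕ) (h : ∀ o, s ≤ o → o + 2 < l → (P (o + 1) ↔ ¬ P o))
    (t : ℕ) (ht : s + t + 1 < l) : P (s + t) ↔ (P s ↔ t % 2 = 0) := by
  induction t with
  | zero => simp
  | succ t ih =>
    rw [← add_assoc, h (s + t) (by omega) (by omega), ih (by omega)]
    have : (t + 1) % 2 = 0 ↔ ¬ t % 2 = 0 := by omega
    tauto

theorem SegEx_tile (p : Pm) (h : p.Ok) (k : ℕ) (a : ℕ → ℕ) (VV : ℕ) (ha : ∀ i < k, a i ≤ p.n)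
    (hV : (∀ π < 2, VT p.n p.K2 k a π ≤ VV) ∨ ∀ π < 2, VP p.n p.K p.K2 k a π ≤ VV) :
    ∃ v : ℕ → ℕ → ℕ, (∀ π < 2, ∑ i ∈ range k, v π i ≤ VV) ∧
      (∀ π i, X.wt π i (ap k a i) ≤ v π i) ∧ (∀ π i, k ≤ i → v π i ≤ 1) ∧
      ∀ x l, ∃ c < 3, l = p.K ∨ l = p.K + 1 →
        (∀ o, p.w + 3 ≤ o → o < l → IE p.n p.K2 k a (x + o)) →
        (∀ o < l, ap k a (x + o) ≤ p.tc c l o) ∧ ∀ π, ∑ o ∈ range l, X.wt π (x + o) (p.tc c l o) ≤
          ∑ o ∈ range l, v π (x + o) + ((p.w + 6) * p.n + (p.K + 1) * Nat.sqrt p.n) := by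
  classical
  obtain ⟨n1, n2, -, -, -, -, -, -, -, n3, n4, n5, -, -⟩ := SegEx_num p h
  have hb := SegEx_le ha
  have t0 : ∀ l o, p.tc 0 l o = p.n := fun l o => if_pos (by simp)
  have e1 : ∀ i < k, ap k a i = a i := fun i hi => if_pos hi
  have e0 : ∀ i, k ≤ i → ap k a i = 0 := fun i hi => if_neg (by omega)
  have e2 : ∀ i, k ≤ i → ¬ IE p.n p.K2 k a i := fun i hi hI => SegEx_ns hI (SegEx_sw _ _ hi)
  rcases hV with hV | hV
  · refine ⟨fun π i => if i % 2 = π then 1 else if IE p.n p.K2 k a i then p.n else ap k a i,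
      fun π hπ => le_trans (le_of_eq ?_) (hV π hπ), fun π i => ?_, fun π i hi => ?_,
      fun x l => ⟨0, by norm_num, fun hl hI => ⟨fun o _ => ?_, fun π => ?_⟩⟩⟩
    · unfold VT
      exact sum_congr rfl fun i hi => by simp only [e1 i (mem_range.1 hi)]
    · have := hb i
      unfold X.wt
      dsimp only
      split_ifs <;> omega
    · dsimp only
      rw [if_neg (e2 i hi), e0 i hi]
      split_ifs <;> omega
    · rw [t0]
      exact hb _
    · have u1 : ∑ o ∈ range l, X.wt π (x + o) (p.tc 0 l o) ≤ ∑ o ∈ range l,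
          ((if (x + o) % 2 = π then 1 else if IE p.n p.K2 k a (x + o) then p.n
            else ap k a (x + o)) + if o < p.w + 3 then p.n else 0) := by
        refine sum_le_sum fun o ho => ?_
        rw [t0]
        unfold X.wt
        split_ifs with v1 v2 v3 v4 v5 <;> try omega
        exact absurd (hI o (by omega) (mem_range.1 ho)) v3
      have u2 := SegEx_few l p.n (fun o => o < p.w + 3) (range (p.w + 3)) fun o => mem_range.2
      rw [sum_add_distrib] at u1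
      rw [card_range] at u2
      have u3 : (p.w + 3) * p.n ≤ (p.w + 6) * p.n := Nat.mul_le_mul_right _ (by omega)
      dsimp only
      omega
  · refine ⟨fun π i => X.wt π i (ap k a i) +
      p.n / 4 * (if IE p.n p.K2 k a i ∧ ap k a i ≤ p.n / 4 then 1 else 0) + (p.K + 1) * p.n *
        (if IE p.n p.K2 k a i ∧ p.n / 4 < ap k a i ∧ p.n / 4 < ap k a (i + 1) then 1 else 0),
      fun π hπ => le_trans (le_of_eq ?_) (hV π hπ), fun π i => by dsimp only; omega,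
      fun π i hi => ?_, fun x l => ?_⟩
    · unfold VP X.cls X.wt
      rw [card_filter, card_filter, mul_sum, mul_sum, ← sum_add_distrib, ← sum_add_distrib]
      exact sum_congr rfl fun i hi => by simp only [e1 i (mem_range.1 hi)]
    · dsimp only
      rw [if_neg fun u => e2 i hi u.1, if_neg fun u => e2 i hi u.1, e0 i hi]
      unfold X.wt
      split_ifs <;> omega
    by_cases hc : ∃ e < 2, ∀ o, p.w + 4 ≤ o → o + 1 < l → o % 2 = e → ap k a (x + o) ≤ p.n / 4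
    · obtain ⟨e, he, hc⟩ := hc
      refine ⟨e + 1, by omega, fun hl hI => ⟨fun o ho => ?_, fun π => ?_⟩⟩
      · by_cases u : o < p.w + 4 ∨ o + 1 = l ∨ e + 1 = 0 ∨ o % 2 + 1 ≠ e + 1
        · rw [Pm.tc, if_pos u]
          exact hb _
        · rw [Pm.tc, if_neg u]
          exact hc o (by omega) (by omega) (by omega)
      have u1 : ∑ o ∈ range l, X.wt π (x + o) (p.tc (e + 1) l o) ≤ ∑ o ∈ range l,
          (X.wt π (x + o) (ap k a (x + o)) + p.n / 4 *
            (if IE p.n p.K2 k a (x + o) ∧ ap k a (x + o) ≤ p.n / 4 then 1 else 0) +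
            (if o < p.w + 4 ∨ o + 1 = l then p.n else 0) + Nat.sqrt p.n) := by
        clear * - π x p e l k a he hI hc n2 hl n3 n4 n5 n1
        refine sum_le_sum fun o ho => ?_
        have ho := mem_range.1 ho
        by_cases u : o < p.w + 4 ∨ o + 1 = l
        · rw [if_pos u, Pm.tc, if_pos (by omega)]
          unfold X.wt
          split_ifs <;> omega
        rw [if_neg u]
        by_cases u' : o % 2 = e
        · rw [if_pos ⟨hI o (by omega) ho, hc o (by omega) (by omega) u'⟩, Pm.tc, if_neg (by omega)]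
          unfold X.wt
          split_ifs <;> omega
        have u2 : p.n - Nat.sqrt p.n < ap k a (x + o) := by
          by_contra u3
          by_cases u4 : o = p.w + 4
          · have := hc (o + 1) (by omega) (by omega) (by omega)
            exact SegEx_ns (hI o (by omega) ho) ⟨by omega, by rw [add_assoc]; omega⟩
          · obtain ⟨o, rfl⟩ : ∃ o', o = o' + 1 := ⟨o - 1, by omega⟩
            have := hc o (by omega) (by omega) (by omega)
            exact SegEx_ns (hI o (by omega) (by omega)) ⟨by omega, by rw [add_assoc]; omega⟩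
        rw [Pm.tc, if_pos (by omega)]
        unfold X.wt
        split_ifs <;> omega
      have u2 := SegEx_few l p.n (fun o => o < p.w + 4 ∨ o + 1 = l)
        (insert (l - 1) (range (p.w + 4))) fun o ho => by
          rw [mem_insert, mem_range]
          omega
      have u3 := Nat.mul_le_mul_right p.n ((card_insert_le (l - 1) (range (p.w + 4))).trans
        (show _ ≤ p.w + 6 by rw [card_range]; omega))
      have u4 : l * Nat.sqrt p.n ≤ (p.K + 1) * Nat.sqrt p.n := Nat.mul_le_mul_right _ (by omega)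
      rw [sum_add_distrib, sum_add_distrib, sum_const, card_range, smul_eq_mul] at u1
      dsimp only
      rw [sum_add_distrib]
      omega
    refine ⟨0, by norm_num, fun hl hI => ⟨fun o _ => by rw [t0]; exact hb _, fun π => ?_⟩⟩
    obtain ⟨o, ho, hg⟩ : ∃ o < l, IE p.n p.K2 k a (x + o) ∧ p.n / 4 < ap k a (x + o) ∧
        p.n / 4 < ap k a (x + o + 1) := by
      clear * - l p k a x hI n3 n4 n5 hc
      by_contra u
      have u1 := SegEx_alt (fun o => p.n / 4 < ap k a (x + o)) (p.w + 4) l fun o h1 h2 => by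
        have u2 := SegEx_ns (hI o (by omega) (by omega))
        have u3 : ¬ (p.n / 4 < ap k a (x + o) ∧ p.n / 4 < ap k a (x + o + 1)) := fun u4 =>
          u ⟨o, by omega, hI o (by omega) (by omega), u4⟩
        unfold sw at u2
        rw [← add_assoc]
        omega
      refine hc ⟨if p.n / 4 < ap k a (x + (p.w + 4)) then (p.w + 5) % 2 else (p.w + 4) % 2,
        by split_ifs <;> omega, fun o h1 h2 h3 => ?_⟩
      obtain ⟨t, rfl⟩ := Nat.exists_eq_add_of_le h1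
      have := u1 t h2
      split_ifs at h3 <;> omega
    have u1 : ∑ o ∈ range l, X.wt π (x + o) (p.tc 0 l o) ≤ ∑ o ∈ range l,
        (X.wt π (x + o) (ap k a (x + o)) + p.n) := by
      refine sum_le_sum fun o _ => ?_
      rw [t0]
      unfold X.wt
      split_ifs <;> omega
    have u2 := single_le_sum (f := fun o => (p.K + 1) * p.n * if IE p.n p.K2 k a (x + o) ∧
      p.n / 4 < ap k a (x + o) ∧ p.n / 4 < ap k a (x + o + 1) then 1 else 0)
      (fun _ _ => Nat.zero_le _) (mem_range.2 ho)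
    have u4 : l * p.n ≤ (p.K + 1) * p.n := Nat.mul_le_mul_right _ (by omega)
    rw [sum_add_distrib, sum_const, card_range, smul_eq_mul] at u1
    dsimp only at u2 ⊢
    rw [if_pos hg] at u2
    rw [sum_add_distrib, sum_add_distrib]
    omega

end Pool.Agent.Work.MP_ede3c6_co.Y
end

-- merged part: Pool.Agent.Work.MP_ede3c6_co.Y.SegExB
section
/-! Segmentation: the state machine. A state is `(x, z, d)`: start of the block, pointer, and the
remaining length of the stretch that is being tiled. -/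

set_option autoImplicit false

namespace Pool.Agent.Work.MP_ede3c6_co.Y

open Finset Vol

/-- total weight up to a position -/
def SegT (k : ℕ) (a : ℕ → ℕ) (x : ℕ) : ℕ := ∑ i ∈ range x, (1 + ap k a i)

/-- the block is a tile -/
def SegTL (p : Pm) (F : ℕ → ℕ) (L : Prop) (x z d : ℕ) : Prop :=
  d ≠ 0 ∨ (¬ L ∧ z = x ∧ x + p.K1 ≤ F x)

/-- a stretch that can be tiled -/
def SegTi (p : Pm) (k : ℕ) (a : ℕ → ℕ) (x d : ℕ) : Prop :=
  (∃ q r, r ≤ q ∧ 1 ≤ q ∧ d = q * (p.K + p.w) + r) ∧ sw p.n k a (x + d - 2) ∧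
    ∀ i, x + p.w + 3 ≤ i → i + 2 < x + d → IE p.n p.K2 k a i

/-- invariant of the states -/
structure SegSt (p : Pm) (k : ℕ) (a F : ℕ → ℕ) (x z d : ℕ) : Prop where
  h1 : x ≤ z
  h2 : z ≤ x + p.Kp * p.K1
  h3 : z = x ∨ F z < z + p.K1
  h4 : d ≠ 0 → z = x ∧ SegTi p k a x d

/-- one step -/
structure SegOut (p : Pm) (k : ℕ) (a F : ℕ → ℕ) (L : Prop) (x z d l r m x' z' d' : ℕ) : Prop where
  e3 : r = 3 → x' = x + l + p.LW
  e2 : r ≠ 3 → x' = x + l + p.w
  l1 : 5 ≤ l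
  l2 : l ≤ p.Km
  r4 : r < 4
  r3 : r = 3 ↔ L
  lp : r = 3 → (x + l) % 2 = 0
  m0 : r = 0 → p.aS ≤ m ∧ m ≤ p.thrN ∧ (∀ i, x' ≤ i + p.w + 1 → i < x' + 2 → ap k a i ≤ m) ∧
    d' = 0 ∧ F x' < x' + p.K1
  m1 : r ≠ 0 → m = p.n
  r1 : r = 1 → sw p.n k a (x' - 2)
  r2 : r = 2 → SegTL p F L x z d ∧ d' ≠ 0
  tl : SegTL p F L x z d → (l = p.K ∨ l = p.K + 1) ∧ r ≠ 0 ∧
    ∀ o, p.w + 3 ≤ o → o < l → IE p.n p.K2 k a (x + o)
  zz : z ≤ z'
  wt : L ∨ SegTL p F L x z d ∨ (z' = x' ∧ x' + p.K1 ≤ F x') ∨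
    2 * (1 + p.aS) * SegT k a (z + 2) + p.Kp * (1 + m) ≤ 2 * (1 + p.aS) * SegT k a (z' + 2)

theorem SegT_mono (k : ℕ) (a : ℕ → ℕ) {x y : ℕ} (h : x ≤ y) : SegT k a x ≤ SegT k a y :=
  sum_le_sum_of_subset (range_mono h)

theorem SegEx_F (n k c : ℕ) (a : ℕ → ℕ) : ∃ F : ℕ → ℕ, ∀ x, x + c + 5 ≤ F x ∧
    sw n k a (F x - 2) ∧ ∀ y, x + c + 3 ≤ y → y + 2 < F x → ¬ sw n k a y := by
  classical
  have e : ∀ x, ∃ y, x + c + 3 ≤ y ∧ sw n k a y := fun x =>
    ⟨x + c + 3 + k, by omega, SegEx_sw _ _ (by omega)⟩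
  refine ⟨fun x => Nat.find (e x) + 2, fun x => ⟨?_, (Nat.find_spec (e x)).2, fun y h1 h2 h3 => ?_⟩⟩
  · have := (Nat.find_spec (e x)).1
    dsimp only
    omega
  · have := Nat.find_min' (e x) ⟨h1, h3⟩
    dsimp only at h2
    omega

theorem SegEx_step (p : Pm) (h : p.Ok) (k : ℕ) (a F : ℕ → ℕ)
    (hF : ∀ x, x + p.w + 5 ≤ F x ∧ sw p.n k a (F x - 2) ∧
      ∀ y, x + p.w + 3 ≤ y → y + 2 < F x → ¬ sw p.n k a y)
    (L : Prop) (x z d : ℕ) (s : SegSt p k a F x z d) :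
    ∃ l r m x' z' d', SegOut p k a F L x z d l r m x' z' d' ∧ SegSt p k a F x' z' d' := by
  classical
  obtain ⟨n1, n2, n3, n4, n5, n6, n7, n8, n9, n10, n11, -, -, -⟩ := SegEx_num p h
  obtain ⟨s1, s2, s3, s4⟩ := s
  have hq : ∀ q r, 1 ≤ q → p.K + p.w ≤ q * (p.K + p.w) + r := fun q r hq =>
    (Nat.le_mul_of_pos_left _ hq).trans (Nat.le_add_right _ _)
  have st0 : ∀ y, SegSt p k a F y y 0 := fun y =>
    ⟨le_rfl, Nat.le_add_right _ _, Or.inl rfl, fun u => absurd rfl u⟩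
  by_cases hL : L
  · obtain ⟨l, l1, l2⟩ : ∃ l, (l = p.K ∨ l = p.K + 1) ∧ (x + l) % 2 = 0 :=
      ⟨p.K + (x + p.K) % 2, by omega, by omega⟩
    refine ⟨l, 3, p.n, x + l + p.LW, _, 0, ⟨fun _ => rfl, fun u => absurd rfl u, by omega, by omega,
      by omega, by simp [hL], fun _ => l2, by omega, fun _ => rfl, by omega, by omega,
      fun u => ⟨l1, by omega, fun o h1 h2 => ?_⟩, by omega, Or.inl hL⟩, st0 _⟩
    obtain ⟨-, ⟨q, r, -, h3, h4⟩, -, h5⟩ := s4 (u.resolve_right fun v => v.1 hL)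
    have := hq q r h3
    exact h5 _ (by omega) (by omega)
  by_cases hT : SegTL p F L x z d
  · obtain ⟨D, hz, ⟨q, r, h1, h2, h3⟩, h4, h5⟩ : ∃ D, z = x ∧ SegTi p k a x D := by
      clear * - d L z x p F k a hT s4 hF n1 n5 n3 n2 n4
      rcases hT with u | ⟨-, u1, u2⟩
      · exact ⟨d, s4 u⟩
      obtain ⟨f1, f2, f3⟩ := hF x
      have v1 : p.K + p.w ≤ (F x - x) / (p.K + p.w) :=
        (Nat.le_div_iff_mul_le (by omega)).2 (by omega)
      have v2 := Nat.mod_lt (F x - x) (show 0 < p.K + p.w by omega)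
      have e : x + (F x - x) = F x := by omega
      refine ⟨F x - x, u1, ⟨(F x - x) / (p.K + p.w), (F x - x) % (p.K + p.w), by omega, by omega,
        (Nat.div_add_mod' _ _).symm⟩, by rwa [e], fun i h1 h2 => ?_⟩
      exact ⟨min i (F x - 2 - p.K2), by omega, by omega, fun y h3 h4 =>
        f3 y (by omega) (by omega)⟩
    obtain ⟨q, rfl⟩ : ∃ q', q = q' + 1 := ⟨q - 1, by omega⟩
    rw [Nat.succ_mul] at h3
    obtain ⟨l, l1, l2⟩ : ∃ l, (l = p.K ∨ l = p.K + 1) ∧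
        D = l + p.w + (q * (p.K + p.w) + (r - 1)) := ⟨p.K + min r 1, by omega, by omega⟩
    have o1 : ∀ o, p.w + 3 ≤ o → o < l → IE p.n p.K2 k a (x + o) := fun o u1 u2 =>
      h5 _ (by omega) (by omega)
    rcases Nat.eq_zero_or_pos q with rfl | q0
    · refine ⟨l, 1, p.n, x + l + p.w, _, 0, ⟨by omega, fun _ => rfl, by omega, by omega, by omega,
        by simp [hL], by omega, by omega, fun _ => rfl, fun _ => ?_, by omega,
        fun _ => ⟨l1, by omega, o1⟩, by omega, Or.inr (Or.inl hT)⟩, st0 _⟩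
      rwa [show x + l + p.w = x + D by omega]
    have := hq q (r - 1) q0
    have e : x + l + p.w + (q * (p.K + p.w) + (r - 1)) = x + D := by omega
    exact ⟨l, 2, p.n, x + l + p.w, x + l + p.w, q * (p.K + p.w) + (r - 1), ⟨by omega, fun _ => rfl,
      by omega, by omega, by omega, by simp [hL], by omega, by omega, fun _ => rfl, by omega,
      fun _ => ⟨hT, by omega⟩, fun _ => ⟨l1, by omega, o1⟩, by omega, Or.inr (Or.inl hT)⟩,
      le_rfl, Nat.le_add_right _ _, Or.inl rfl, fun _ => ⟨rfl, ⟨q, r - 1, by omega, q0, rfl⟩,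
        by rwa [e], fun i u1 u2 => h5 i (by omega) (by omega)⟩⟩
  have nf : F z < z + p.K1 := by
    by_contra u
    rcases s3 with v | v
    · exact hT (Or.inr ⟨hL, v, by rw [← v]; omega⟩)
    · exact u v
  obtain ⟨u, u0, us⟩ : ∃ u : ℕ → ℕ, u 0 = z ∧ ∀ i, u (i + 1) = F (u i) :=
    ⟨fun i => F^[i] z, rfl, fun i => Function.iterate_succ_apply' _ _ _⟩
  have u1 : ∀ i, u i + p.w + 5 ≤ u (i + 1) := fun i => by
    rw [us]
    exact (hF _).1
  have um : Monotone u := monotone_nat_of_le_succ fun i => by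
    have := u1 i
    omega
  have u2 : ∀ i j, (∀ t, i ≤ t → t < i + j → F (u t) < u t + p.K1) →
      u (i + j) ≤ u i + j * p.K1 := fun i j => by
    induction j with
    | zero => simp
    | succ j ih =>
      intro v
      have v1 := ih fun t h1 h2 => v t h1 (by omega)
      have v2 := v (i + j) (by omega) (by omega)
      rw [← add_assoc, us, Nat.succ_mul]
      omega
  have u3 : ∀ i < p.Kp, (∀ t, t ≤ i → F (u t) < u t + p.K1) → ∃ l, u (i + 1) = x + l + p.w ∧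
      5 ≤ l ∧ l ≤ p.Km := fun i hi v => by
    clear * - u i p u2 v F x z hi u1 um n5 s1 u0 n1 n7 s2
    have v1 := u2 0 (i + 1) fun t _ h2 => v t (by omega)
    have v2 : (i + 1) * p.K1 ≤ p.Kp * p.K1 := Nat.mul_le_mul_right _ hi
    have v3 := u1 i
    have v4 := um (Nat.zero_le i)
    rw [zero_add] at v1
    exact ⟨u (i + 1) - p.w - x, by omega, by omega, by omega⟩
  have u4 : ∀ i, sw p.n k a (u (i + 1) - 2) := fun i => by
    rw [us]
    exact (hF _).2.1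
  by_cases hf : ∃ i, i < p.Kp ∧ u (i + 1) + p.K1 ≤ F (u (i + 1))
  · obtain ⟨i1, i2⟩ := Nat.find_spec hf
    obtain ⟨l, l1, l2, l3⟩ := u3 _ i1 fun t ht => by
      rcases t with _ | t
      · rwa [u0]
      · exact not_le.1 fun v => Nat.find_min hf (show t < Nat.find hf by omega) ⟨by omega, v⟩
    exact ⟨l, 1, p.n, _, _, 0, ⟨by omega, fun _ => l1, l2, l3, by omega, by simp [hL], by omega,
      by omega, fun _ => rfl, fun _ => u4 _, by omega, fun v => absurd v hT,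
      u0 ▸ um (Nat.zero_le _), Or.inr (Or.inr (Or.inl ⟨rfl, i2⟩))⟩, st0 _⟩
  have nf' : ∀ t, t ≤ p.Kp → F (u t) < u t + p.K1 := fun t ht => by
    rcases t with _ | t
    · rwa [u0]
    · exact not_le.1 fun v => hf ⟨t, ht, v⟩
  obtain ⟨om, o1, o2⟩ : ∃ om : ℕ → ℕ,
      (∀ t i, u (t + 1) ≤ i + p.w + 1 → i < u (t + 1) + 2 → ap k a i ≤ om t) ∧
      ∀ t, SegT k a (u t + 2) + (1 + om t) ≤ SegT k a (u (t + 1) + 2) := by
    clear * - u p k a F x z n5 n1 u1
    refine ⟨fun t => (Ico (u (t + 1) - p.w - 1) (u (t + 1) + 2)).sup (ap k a), fun t i v1 v2 =>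
      Finset.le_sup (f := ap k a) (mem_Ico.2 ⟨by omega, v2⟩), fun t => ?_⟩
    obtain ⟨i, hi, e⟩ := Finset.exists_mem_eq_sup (Ico (u (t + 1) - p.w - 1) (u (t + 1) + 2))
      ⟨u (t + 1), mem_Ico.2 ⟨by omega, by omega⟩⟩ (ap k a)
    have v1 := mem_Ico.1 hi
    have v2 := u1 t
    have v3 := SegT_mono k a (show u t + 2 ≤ i by omega)
    have v4 := SegT_mono k a (show i + 1 ≤ u (t + 1) + 2 by omega)
    have v5 : SegT k a (i + 1) = SegT k a i + (1 + ap k a i) := sum_range_succ _ _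
    dsimp only
    omega
  obtain ⟨i, hi, hmin⟩ := exists_min_image (range p.Kp) om ⟨0, mem_range.2 h.Kp0⟩
  have hi := mem_range.1 hi
  have o3 : ∀ t ≤ p.Kp, SegT k a (z + 2) + t * (1 + om i) ≤ SegT k a (u t + 2) := fun t => by
    induction t with
    | zero => simp [u0]
    | succ t ih =>
      intro ht
      have v1 := ih (by omega)
      have v2 := o2 t
      have v3 := hmin t (mem_range.2 ht)
      rw [Nat.succ_mul]
      omega
  have o4 : ∀ m, 1 + m ≤ 2 * (1 + p.aS) * (1 + om i) → 2 * (1 + p.aS) * SegT k a (z + 2) +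
      p.Kp * (1 + m) ≤ 2 * (1 + p.aS) * SegT k a (u p.Kp + 2) := fun m hm => by
    refine le_trans ?_ (Nat.mul_le_mul_left _ (o3 _ le_rfl))
    rw [mul_add _ (SegT k a (z + 2)), mul_left_comm]
    exact Nat.add_le_add_left (Nat.mul_le_mul_left _ hm) _
  obtain ⟨l, l1, l2, l3⟩ := u3 i hi fun t ht => nf' t (by omega)
  have st : SegSt p k a F (u (i + 1)) (u p.Kp) 0 := by
    refine ⟨um hi, ?_, Or.inr (nf' _ le_rfl), fun v => absurd rfl v⟩
    have v1 := u2 (i + 1) (p.Kp - (i + 1)) fun t _ h2 => nf' t (by omega)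
    have v2 : (p.Kp - (i + 1)) * p.K1 ≤ p.Kp * p.K1 := Nat.mul_le_mul_right _ (by omega)
    rw [show i + 1 + (p.Kp - (i + 1)) = p.Kp by omega] at v1
    omega
  by_cases hm : om i ≤ p.thrN
  · exact ⟨l, 0, max p.aS (om i), _, _, 0, ⟨by omega, fun _ => l1, l2, l3, by omega, by simp [hL],
      by omega, fun _ => ⟨le_max_left _ _, max_le n9 hm, fun j v1 v2 =>
        (o1 i j v1 v2).trans (le_max_right _ _), rfl, nf' _ hi⟩, by omega, by omega, by omega,
      fun v => absurd v hT, u0 ▸ um (Nat.zero_le _), Or.inr (Or.inr (Or.inr (o4 _ (by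
        clear * - p om i st
        rcases le_total p.aS (om i) with v | v
        · rw [max_eq_right v]
          nlinarith
        · rw [max_eq_left v]
          nlinarith))))⟩, st⟩
  · exact ⟨l, 1, p.n, _, _, 0, ⟨by omega, fun _ => l1, l2, l3, by omega, by simp [hL], by omega,
      by omega, fun _ => rfl, fun _ => u4 _, by omega, fun v => absurd v hT,
      u0 ▸ um (Nat.zero_le _), Or.inr (Or.inr (Or.inr (o4 _ (by clear * - p om i n11 hm o4 st u0 um; nlinarith))))⟩, st⟩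

theorem SegEx_seq (p : Pm) (h : p.Ok) (k : ℕ) (a : ℕ → ℕ) :
    ∃ F x z d l r m : ℕ → ℕ, x 0 = 0 ∧ ∀ j, SegSt p k a F (x j) (z j) (d j) ∧
      SegOut p k a F (j % p.PP = p.PP - 1) (x j) (z j) (d j) (l j) (r j) (m j) (x (j + 1))
        (z (j + 1)) (d (j + 1)) := by
  obtain ⟨F, hF⟩ := SegEx_F p.n k p.w a
  have e : ∀ (j : ℕ) (s : {s : ℕ × ℕ × ℕ // SegSt p k a F s.1 s.2.1 s.2.2}), ∃ l r m,
      ∃ t : {s : ℕ × ℕ × ℕ // SegSt p k a F s.1 s.2.1 s.2.2},
      SegOut p k a F (j % p.PP = p.PP - 1) s.1.1 s.1.2.1 s.1.2.2 l r m t.1.1 t.1.2.1 t.1.2.2 :=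
    fun j s => by
      obtain ⟨l, r, m, x', z', d', h1, h2⟩ := SegEx_step p h k a F hF _ _ _ _ s.2
      exact ⟨l, r, m, ⟨(x', z', d'), h2⟩, h1⟩
  choose l r m t ht using e
  obtain ⟨s, s0, s1⟩ : ∃ s : ℕ → {s : ℕ × ℕ × ℕ // SegSt p k a F s.1 s.2.1 s.2.2},
      (s 0).1.1 = 0 ∧ ∀ j, s (j + 1) = t j (s j) :=
    ⟨fun j => Nat.rec ⟨(0, 0, 0), le_rfl, Nat.zero_le _, Or.inl rfl, fun u => absurd rfl u⟩ t j,
      rfl, fun _ => rfl⟩
  exact ⟨F, fun j => (s j).1.1, fun j => (s j).1.2.1, fun j => (s j).1.2.2, fun j => l j (s j),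
    fun j => r j (s j), fun j => m j (s j), s0, fun j => ⟨(s j).2, by
      dsimp only
      rw [s1]
      exact ht j (s j)⟩⟩

end Pool.Agent.Work.MP_ede3c6_co.Y
end

-- merged part: Pool.Agent.Work.MP_ede3c6_co.Y.Dich
section
/-! The two consequences of the main embedding theorem. -/

set_option autoImplicit false

namespace Pool.Agent.Work.MP_ede3c6_co.Y

open Finset Vol

theorem Dich_sh {S T : Finset ℕ} (h : ∀ i ∈ S, i + 1 ∈ T) (f : ℕ → ℕ) :
    ∑ i ∈ S, f (i + 1) ≤ ∑ i ∈ T, f i := by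
  rw [← sum_image (g := fun i => i + 1) fun _ _ _ _ e => Nat.succ_injective e]
  exact sum_le_sum_of_subset (image_subset_iff.2 h)

theorem Dich_par (I : Finset ℕ) {π : ℕ} (hπ : π < 2) :
    2 * #{i ∈ I | ¬ i % 2 = π} ≤ #I + #{i ∈ I | i + 1 ∉ I} := by
  have h1 := card_filter_add_card_filter_not (s := I) fun i => i % 2 = π
  have h2 := card_filter_add_card_filter_not (s := {i ∈ I | ¬ i % 2 = π}) fun i => i + 1 ∈ I
  have h3 := Dich_sh (S := {i ∈ {i ∈ I | ¬ i % 2 = π} | i + 1 ∈ I}) (T := {i ∈ I | i % 2 = π})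
    (fun i hi => by
      simp only [mem_filter] at hi ⊢
      exact ⟨hi.2, by omega⟩) fun _ => 1
  have h4 : #{i ∈ {i ∈ I | ¬ i % 2 = π} | i + 1 ∉ I} ≤ #{i ∈ I | i + 1 ∉ I} :=
    card_le_card (filter_subset_filter _ (filter_subset _ _))
  rw [← card_eq_sum_ones, ← card_eq_sum_ones] at h3
  omega

theorem Dich_one (k : ℕ) (f : ℕ → ℕ) :
    k + ∑ i ∈ range k, f i = ∑ i ∈ range k, (1 + f i) := by
  rw [sum_add_distrib, ← card_eq_sum_ones, card_range]

variable {n K2 k : ℕ} {a : ℕ → ℕ}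

theorem Dich_run (h : Run k a n) (i : ℕ) : ap k a i ≤ n := by
  unfold ap
  split_ifs with hi
  · have := h i 0 hi
    simp only [zero_add, sum_range_one, deg] at this
    simp only [mul_zero, add_zero] at this
    omega
  · exact Nat.zero_le _

theorem Dich_top {i : ℕ} (h : IE n K2 k a i) :
    n - Nat.sqrt n < ap k a i ∨ n - Nat.sqrt n < ap k a (i + 1) := by
  obtain ⟨x, h1, h2, h3⟩ := h
  have := h3 i h1 h2
  rw [sw] at this
  omega

theorem Dich_lt {i : ℕ} (h : IE n K2 k a i) : i < k := by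
  by_contra hi
  have := Dich_top h
  rw [ap, ap, if_neg hi, if_neg (by omega)] at this
  omega

theorem Dich_end {I : Finset ℕ} (hI : ∀ i, i ∈ I ↔ IE n K2 k a i) :
    #{i ∈ I | i + 1 ∉ I} * K2 ≤ #I := by
  have key : ∀ i ∈ {i ∈ I | i + 1 ∉ I}, ∀ t < K2, t ≤ i ∧ i - t ∈ I := by
    intro i hi t ht
    obtain ⟨h1, h2⟩ := mem_filter.1 hi
    obtain ⟨x, h3, h4, h5⟩ := (hI i).1 h1
    have h6 : ¬ i + 1 < x + K2 := fun h6 => h2 ((hI _).2 ⟨x, by omega, h6, h5⟩)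
    exact ⟨by omega, (hI _).2 ⟨x, by omega, by omega, h5⟩⟩
  have k2 : ∀ i ∈ {i ∈ I | i + 1 ∉ I}, ∀ j ∈ {i ∈ I | i + 1 ∉ I}, i < j → i + K2 ≤ j := by
    intro i hi j hj hij
    by_contra h
    have h1 := (key j hj (j - (i + 1)) (by omega)).2
    rw [show j - (j - (i + 1)) = i + 1 by omega] at h1
    exact (mem_filter.1 hi).2 h1
  rw [← card_range K2, ← card_product]
  refine card_le_card_of_injOn (fun x => x.1 - x.2) (fun x hx => ?_) fun x hx y hy e => ?_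
  · obtain ⟨h1, h2⟩ := mem_product.1 (mem_coe.1 hx)
    exact (key _ h1 _ (mem_range.1 h2)).2
  · obtain ⟨h1, h2⟩ := mem_product.1 (mem_coe.1 hx)
    obtain ⟨h3, h4⟩ := mem_product.1 (mem_coe.1 hy)
    rw [mem_range] at h2 h4
    have h5 := (key _ h1 _ h2).1
    have h6 := (key _ h3 _ h4).1
    have h7 := k2 _ h1 _ h3
    have h8 := k2 _ h3 _ h1
    dsimp only at e
    exact Prod.ext (by omega) (by omega)

theorem Dich_ap {S : Finset ℕ} (h : S ⊆ range k) : ∑ i ∈ S, ap k a i = ∑ i ∈ S, a i :=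
  sum_congr rfl fun _ hi => if_pos (mem_range.1 (h hi))

theorem Dich_nxt {S : Finset ℕ} (h : S ⊆ range k) :
    ∑ i ∈ S, ap k a (i + 1) ≤ ∑ i ∈ range k, a i := by
  refine (Dich_sh (T := range (k + 1)) (fun i hi => mem_range.2
    (Nat.succ_lt_succ (mem_range.1 (h hi)))) _).trans ?_
  rw [sum_range_succ, Dich_ap Subset.rfl, ap, if_neg (lt_irrefl k), add_zero]

open Classical in
theorem Dich_VP (hn : 16 ≤ n) :
    3 * (n / 4 * #{i ∈ range k | IE n K2 k a i ∧ a i ≤ n / 4}) ≤ ∑ i ∈ range k, a i := by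
  have h1 : 4 * Nat.sqrt n ≤ n :=
    (Nat.mul_le_mul_right _ (Nat.le_sqrt.2 hn)).trans (Nat.sqrt_le n)
  refine le_trans ?_ (Dich_nxt (filter_subset (fun i => IE n K2 k a i ∧ a i ≤ n / 4) _))
  rw [← mul_assoc, mul_comm, ← smul_eq_mul]
  refine card_nsmul_le_sum _ _ _ fun i hi => ?_
  obtain ⟨h2, h3, h4⟩ := mem_filter.1 hi
  have h5 := Dich_top h3
  rw [ap, if_pos (mem_range.1 h2)] at h5
  omega

open Classical in
theorem Dich_VT (h : Run k a n) {π : ℕ} (hπ : π < 2) {I : Finset ℕ}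
    (hI : ∀ i, i ∈ I ↔ IE n K2 k a i) :
    2 * VT n K2 k a π +
      n / 4 * #{i ∈ range k | IE n K2 k a i ∧ n / 4 < ap k a i ∧ n / 4 < ap k a (i + 1)} ≤
        2 * (k + ∑ i ∈ range k, a i) + Nat.sqrt n * #I + 2 * (n * #{i ∈ I | i + 1 ∉ I}) ∧
      (n - Nat.sqrt n) * #I ≤ 2 * ∑ i ∈ range k, a i := by
  have hs : I ⊆ range k := fun i hi => mem_range.2 (Dich_lt ((hI i).1 hi))
  have e1 : I = {i ∈ range k | IE n K2 k a i} :=
    Finset.ext fun i => by rw [mem_filter, ← hI]; exact ⟨fun h => ⟨hs h, h⟩, And.right⟩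
  have h1 : VT n K2 k a π + ∑ i ∈ I, a i ≤
      k + ∑ i ∈ range k, a i + n * #{i ∈ I | ¬ i % 2 = π} := by
    rw [e1, filter_filter, mul_comm, ← smul_eq_mul, ← sum_const, sum_filter, sum_filter, VT,
      ← sum_add_distrib, Dich_one, ← sum_add_distrib]
    refine sum_le_sum fun i _ => ?_
    by_cases c1 : i % 2 = π <;> by_cases c2 : IE n K2 k a i <;> simp [c1, c2] <;> omega
  have h2 : (n - Nat.sqrt n) * #I + n / 4 *
      #{i ∈ range k | IE n K2 k a i ∧ n / 4 < ap k a i ∧ n / 4 < ap k a (i + 1)} ≤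
      ∑ i ∈ I, a i + ∑ i ∈ I, ap k a (i + 1) := by
    rw [← filter_filter, ← e1, mul_comm, mul_comm (n / 4), ← smul_eq_mul, ← smul_eq_mul,
      ← sum_const, ← sum_const, sum_filter, ← Dich_ap (a := a) hs, ← sum_add_distrib,
      ← sum_add_distrib]
    refine sum_le_sum fun i hi => ?_
    have := Dich_top ((hI i).1 hi)
    split_ifs <;> omega
  have h3 : ∑ i ∈ I, ap k a (i + 1) ≤ ∑ i ∈ I, a i + n * #{i ∈ I | i + 1 ∉ I} := by
    rw [← sum_filter_add_sum_filter_not I (fun i => i + 1 ∈ I), ← Dich_ap (a := a) hs, mul_comm]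
    exact add_le_add (Dich_sh (fun i hi => (mem_filter.1 hi).2) _)
      (sum_le_card_nsmul _ _ _ fun i _ => Dich_run h _)
  have h4 := Nat.mul_le_mul_left n (Dich_par I hπ)
  have h5 := Dich_nxt (a := a) hs
  have h6 : ∑ i ∈ I, a i ≤ ∑ i ∈ range k, a i := sum_le_sum_of_subset hs
  have h7 : (n - Nat.sqrt n) * #I + Nat.sqrt n * #I = n * #I := by
    rw [← add_mul, Nat.sub_add_cancel (Nat.sqrt_le_self n)]
  rw [mul_add, mul_left_comm] at h4
  omega

theorem half (h : CoreSt) : ∃ n0 : ℕ, ∀ n ≥ n0, ∀ (k : ℕ) (a : ℕ → ℕ), Run k a n →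
    (∀ π < 2, X.cls k a π ≤ 2 ^ (n - 2)) → (cat k a).IsContained (cube n) := by
  classical
  obtain ⟨K, K20, h1⟩ := h (1 / 10) (by norm_num)
  obtain ⟨D, hD⟩ : ∃ D, D = 100 * (K + 1) := ⟨_, rfl⟩
  have hD0 : (0 : ℝ) < D := by rw [hD]; positivity
  obtain ⟨K', K20', h2⟩ := h (1 / (8 * D)) (by positivity)
  obtain ⟨K2, k1, k2, k3⟩ : ∃ K2, K20 ≤ K2 ∧ K20' ≤ K2 ∧ 800 * D ≤ K2 :=
    ⟨K20 + K20' + 800 * D, by omega, by omega, by omega⟩
  obtain ⟨n1, h1⟩ := h1 K2 k1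
  obtain ⟨n2, h2⟩ := h2 K2 k2
  refine ⟨n1 + n2 + 16 + 100 * D * (100 * D), fun n hn k a hr hc => ?_⟩
  obtain ⟨N, hN⟩ : ∃ N, N = 2 ^ (n - 2) := ⟨_, rfl⟩
  have e1 : 2 ^ n = 4 * N := by
    rw [hN, show n = n - 2 + 2 by omega, pow_add, Nat.add_sub_cancel, mul_comm]
    rfl
  have e2 : (2 : ℝ) ^ (n - 1) = 2 * N := by
    rw [hN, show n - 1 = n - 2 + 1 by omega, pow_succ, mul_comm, Nat.cast_pow, Nat.cast_ofNat]
  have e3 : X.cls k a 0 + X.cls k a 1 = k + ∑ i ∈ range k, a i := by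
    rw [X.cls, X.cls, ← sum_add_distrib, Dich_one]
    refine sum_congr rfl fun i _ => ?_
    split_ifs <;> omega
  rw [← hN] at hc
  have c0 := hc 0 (by norm_num)
  have c1 := hc 1 (by norm_num)
  by_cases hd : D * (n *
      #{i ∈ range k | IE n K2 k a i ∧ n / 4 < ap k a i ∧ n / 4 < ap k a (i + 1)}) ≤ 4 * N
  · refine h1 n (by omega) k a hr (by omega) (Or.inr fun π hπ => ?_)
    have h3 := Dich_VP (K2 := K2) (k := k) (a := a) (n := n) (by omega)
    have h4 := hc π hπ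
    rw [hD, mul_assoc] at hd
    have h5 : 10 * VP n K K2 k a π ≤ 18 * N := by
      rw [VP, mul_assoc (K + 1)]
      omega
    have h6 := (Nat.cast_le (α := ℝ)).2 h5
    push_cast at h6
    rw [e2]
    clear * - n K K2 k a π N h6
    linarith
  · refine h2 n (by omega) k a hr (by omega) (Or.inl fun π hπ => ?_)
    have hI : ∀ i, i ∈ {i ∈ range k | IE n K2 k a i} ↔ IE n K2 k a i := fun i => by
      rw [mem_filter, mem_range]
      exact ⟨And.right, fun h => ⟨Dich_lt h, h⟩⟩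
    obtain ⟨h3, h4⟩ := Dich_VT hr hπ hI
    have h5 := (Nat.mul_le_mul_left _ k3).trans (Dich_end hI)
    generalize #{i ∈ {i ∈ range k | IE n K2 k a i} | i + 1 ∉ {i ∈ range k | IE n K2 k a i}} = E,
      #{i ∈ range k | IE n K2 k a i} = m,
      #{i ∈ range k | IE n K2 k a i ∧ n / 4 < ap k a i ∧ n / 4 < ap k a (i + 1)} = d at *
    have s1 : 100 * D ≤ Nat.sqrt n := Nat.le_sqrt.2 (by omega)
    have s2 := Nat.sqrt_le n
    have s3 : 2 * Nat.sqrt n ≤ n := (Nat.mul_le_mul_right _ (by omega)).trans s2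
    have s4 := Nat.mul_le_mul_right m (show n ≤ 2 * (n - Nat.sqrt n) by omega)
    have s5 := Nat.mul_le_mul_right m ((Nat.mul_le_mul_right _ s1).trans s2)
    have s6 := Nat.mul_le_mul_left n h5
    have s7 := Nat.mul_le_mul_left D
      (Nat.mul_le_mul_right d (show n ≤ 5 * (n / 4) by omega))
    have s8 := Nat.mul_le_mul_left D (h3.trans (Nat.add_le_add_right (Nat.add_le_add_right
      (show _ ≤ 4 * N by omega) _) _))
    rw [mul_assoc] at s4
    have h6 : 8 * (D * VT n K2 k a π) + 2 * N ≤ 16 * (D * N) := by clear * - D n K2 k a π N d m E e3 c0 c1 hd h4 s4 s5 s6 s7 s8; linarith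
    have h7 := (Nat.cast_le (α := ℝ)).2 h6
    push_cast at h7
    rw [e2, one_sub_div (by positivity), div_mul_eq_mul_div, le_div_iff₀ (by positivity)]
    clear * - n K2 k a π D N h7
    linarith

theorem short (h : CoreSt) (ε : ℝ) (hε : 0 < ε) : ∃ n0 : ℕ, ∀ n ≥ n0, ∀ (k : ℕ) (a : ℕ → ℕ),
    Run k a n → (k * n : ℝ) ≤ (1 - ε) * 2 ^ n → (cat k a).IsContained (cube n) := by
  classical
  obtain ⟨K, K2, h1⟩ := h (ε / 2) (by positivity)
  obtain ⟨n1, h1⟩ := h1 K2 le_rfl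
  obtain ⟨m, hm⟩ := exists_nat_ge (6 / ε)
  refine ⟨n1 + m + 4, fun n hn k a hr hc => ?_⟩
  have h2 : ∀ i ∈ range k, a i ≤ n := fun i hi => by
    have := Dich_run hr i
    rwa [ap, if_pos (mem_range.1 hi)] at this
  have h3 : (6 : ℝ) ≤ n * ε := (div_le_iff₀ hε).1 (hm.trans (Nat.cast_le.2 (by omega)))
  have h4 : (0 : ℝ) < 2 ^ n := by positivity
  have h5 : (0 : ℝ) < n := Nat.cast_pos.2 (by omega)
  have h6 : (k : ℝ) * 6 ≤ ε * 2 ^ n := by
    clear * - k n ε h3 hc hε h4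
    have := mul_le_mul_of_nonneg_left h3 (Nat.cast_nonneg k)
    have := mul_le_mul_of_nonneg_right (show (k * n : ℝ) ≤ 2 ^ n by nlinarith) hε.le
    linarith
  have h7 : (n : ℝ) * 6 ≤ ε * 2 ^ n := by
    clear * - n n1 m hn ε h3 hε
    have h7 : ∀ n ≥ 4, n * n ≤ 2 ^ n := fun n hn => by
      induction hn with
      | refl => norm_num
      | @step n hn ih =>
        have : 4 ≤ n := hn
        rw [pow_succ]
        nlinarith
    have h8 : (n * n : ℝ) ≤ 2 ^ n := by exact_mod_cast h7 n (by omega)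
    nlinarith
  refine h1 n (by omega) k a hr ?_ (Or.inl fun π hπ => ?_)
  · have h8 := sum_le_card_nsmul _ _ _ h2
    rw [card_range, smul_eq_mul] at h8
    have h9 : ((k + k * n : ℕ) : ℝ) ≤ (2 ^ n : ℕ) := by
      clear * - k n ε hc h5 h6 h7
      push_cast
      nlinarith
    exact (Nat.add_le_add_left h8 k).trans (Nat.cast_le.1 h9)
  · have h8 : VT n K2 k a π ≤ k + n * #{i ∈ range k | ¬ i % 2 = π} := by
      rw [mul_comm, ← smul_eq_mul, ← sum_const, sum_filter, VT, Dich_one]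
      refine sum_le_sum fun i hi => ?_
      have := h2 i hi
      split_ifs <;> omega
    have h9 := Dich_par (range k) hπ
    have h10 : #{i ∈ range k | i + 1 ∉ range k} ≤ 1 := card_le_one.2 fun i hi j hj => by
      simp only [mem_filter, mem_range] at hi hj
      omega
    rw [card_range] at h9
    have h11 := Nat.mul_le_mul_left n (h9.trans (Nat.add_le_add_left h10 k))
    have h12 := (Nat.cast_le (α := ℝ)).2
      (show 2 * VT n K2 k a π ≤ 2 * k + (k * n + n) by linarith only [h8, h11])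
    have e : (2 : ℝ) ^ n = 2 ^ (n - 1) * 2 := by rw [← pow_succ, Nat.sub_add_cancel (by omega)]
    push_cast at h12
    rw [e] at hc h6 h7
    linarith

end Pool.Agent.Work.MP_ede3c6_co.Y
end
end
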